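import Pool.Agent.Lib.MP_0bc52e_nt.T.StmN

/-!
# MP_0bc52e_nt, part N : [A]
-/

set_option autoImplicit false

open scoped Pointwise

namespace Pool.Agent.Lib.MP_0bc52e_nt.T

open Pool.Agent.Lib.MP_0bc52e_nt.LC

private theorem p_A_two (h_NoOpp : S_NoOpp) {P : Set (ℝ × ℝ × ℝ)} {p : ℕ} (hP : IsLP3 P)
    (hp : 163 ≤ p) (hC : Cr P p) (hI : Inn P 0) (h1 : ip (0, 0, 1) ∈ P) (h2 : ip (0, 0, -1) ∈ P)
    (x y z z' : ℤ) (hxy : (x, y) ≠ 0) (h3 : ip (x, y, z) ∈ P) (h4 : ip (-x, -y, z') ∈ P) :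
    False := by
  refine h_NoOpp P p hP hp hC hI (0, 0, 1) (x, y, z) (-x, -y, z') 1 1 (z + z') h1 ?_ h3 h4 ?_
    one_pos one_pos ?_
  · have : (-(0, 0, 1) : ℤ × ℤ × ℤ) = (0, 0, -1) := by simp
    rw [this]
    exact h2
  · intro h
    apply hxy
    simp only [cr, Prod.mk_eq_zero] at h
    simp only [Prod.mk_eq_zero]
    omega
  · simp [ip]

private theorem p_A_main (h_NoOpp : S_NoOpp) (h_CH : S_CH) (h_A0 : S_A0) (h_arith3 : S_arith3)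
    (h_circ2 : S_circ2) {P : Set (ℝ × ℝ × ℝ)} {p : ℕ} (hP : IsLP3 P)
    (hp : 163 ≤ p) (hC : Cr P p) (hI : Inn P 0) (h1 : ip (0, 0, 1) ∈ P)
    (h2 : ip (0, 0, -1) ∈ P) : False := by
  classical
  obtain ⟨V, hV⟩ := id hP
  have hconv : Convex ℝ P := by rw [hV]; exact convex_convexHull ℝ _
  have hmem : ∀ v ∈ V, ip v ∈ P := by
    intro v hv
    rw [hV]
    exact subset_convexHull ℝ _ ⟨v, hv, rfl⟩
  let pr : (ℝ × ℝ × ℝ) →ₗ[ℝ] (ℝ × ℝ) :=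
    (LinearMap.fst ℝ ℝ (ℝ × ℝ)).prod ((LinearMap.fst ℝ ℝ ℝ).comp (LinearMap.snd ℝ ℝ (ℝ × ℝ)))
  have hpr : ∀ v : ℝ × ℝ × ℝ, pr v = (v.1, v.2.1) := fun v => rfl
  have hproj : ∀ d : ℝ × ℝ, ∃ ε : ℝ, 0 < ε ∧ ε • d ∈
      convexHull ℝ (ip2 '' ((V.image fun v => (v.1, v.2.1) : Finset (ℤ × ℤ)) : Set (ℤ × ℤ))) := by
    intro d
    obtain ⟨ε, hε, hd⟩ := hI (d.1, d.2, 0)
    refine ⟨ε, hε, ?_⟩
    have e1 : ip2 '' ((V.image fun v => (v.1, v.2.1) : Finset (ℤ × ℤ)) : Set (ℤ × ℤ)) =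
        pr '' (ip '' (V : Set (ℤ × ℤ × ℤ))) := by
      ext w
      constructor
      · rintro ⟨u, hu, rfl⟩
        rw [Finset.mem_coe, Finset.mem_image] at hu
        obtain ⟨v, hv, rfl⟩ := hu
        exact ⟨ip v, ⟨v, hv, rfl⟩, rfl⟩
      · rintro ⟨_, ⟨v, hv, rfl⟩, rfl⟩
        exact ⟨(v.1, v.2.1), by rw [Finset.mem_coe]; exact Finset.mem_image_of_mem _ hv, rfl⟩
    rw [e1, ← LinearMap.image_convexHull, ← hV]
    refine ⟨_, hd, ?_⟩
    rw [hpr, zero_add]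
    rfl
  rcases h_circ2 _ hproj with ⟨u, hu, u', hu', hu0, hdet, hin⟩ | ⟨u₁, hu₁, u₂, hu₂, u₃, hu₃, h12, h23, h31⟩
  · rw [Finset.mem_image] at hu hu'
    obtain ⟨v, hv, rfl⟩ := hu
    obtain ⟨v', hv', rfl⟩ := hu'
    obtain ⟨a, b, c⟩ := v
    obtain ⟨a', b', c'⟩ := v'
    simp only [det2] at hdet hin hu0
    have hβ : 0 < a * a + b * b := by
      rcases lt_trichotomy a 0 with h | h | h
      · nlinarith [mul_self_nonneg b, mul_pos_of_neg_of_neg h h]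
      · have hb : b ≠ 0 := by
          intro hb
          exact hu0 (by rw [h, hb]; rfl)
        nlinarith [mul_self_nonneg a, mul_self_pos.mpr hb]
      · nlinarith [mul_self_nonneg b, mul_pos h h]
    refine h_NoOpp P p hP hp hC hI (0, 0, 1) (a, b, c) (a', b', c')
      ((-(a * a' + b * b') : ℤ) : ℝ) ((a * a + b * b : ℤ) : ℝ)
      ((-(a * a' + b * b') : ℤ) * c + ((a * a + b * b : ℤ) : ℝ) * c') h1 ?_ (hmem _ hv)
      (hmem _ hv') ?_ ?_ ?_ ?_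
    · have : (-(0, 0, 1) : ℤ × ℤ × ℤ) = (0, 0, -1) := by simp
      rw [this]
      exact h2
    · intro h
      apply hu0
      simp only [cr, Prod.mk_eq_zero] at h
      simp only [Prod.mk_eq_zero]
      omega
    · exact_mod_cast (by linarith : 0 < -(a * a' + b * b'))
    · exact_mod_cast hβ
    · have e1 : -(a * a' + b * b') * a + (a * a + b * b) * a' = 0 := by
        linear_combination (-b) * hdet
      have e2 : -(a * a' + b * b') * b + (a * a + b * b) * b' = 0 := by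
        linear_combination a * hdet
      have e1' : ((-(a * a' + b * b') : ℤ) : ℝ) * a + ((a * a + b * b : ℤ) : ℝ) * a' = 0 := by
        exact_mod_cast e1
      have e2' : ((-(a * a' + b * b') : ℤ) : ℝ) * b + ((a * a + b * b : ℤ) : ℝ) * b' = 0 := by
        exact_mod_cast e2
      refine Prod.ext ?_ (Prod.ext ?_ ?_)
      · simp only [ip, Prod.fst_add, Prod.smul_fst, smul_eq_mul]
        rw [e1']
        simp
      · simp only [ip, Prod.fst_add, Prod.snd_add, Prod.smul_fst, Prod.smul_snd, smul_eq_mul]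
        rw [e2']
        simp
      · simp only [ip, Prod.snd_add, Prod.smul_snd, smul_eq_mul]
        simp
  · rw [Finset.mem_image] at hu₁ hu₂ hu₃
    obtain ⟨v₁, hv₁, rfl⟩ := hu₁
    obtain ⟨v₂, hv₂, rfl⟩ := hu₂
    obtain ⟨v₃, hv₃, rfl⟩ := hu₃
    have hne : ∀ u u' : ℤ × ℤ, 0 < det2 u u' → u ≠ 0 := by
      rintro u u' h rfl
      simp [det2] at h
    have hz : ∀ v : ℤ × ℤ × ℤ, ip v ∈ P → (v.1, v.2.1) ≠ 0 →
        (∃ z : ℤ, ip (-v.1, -v.2.1, z) ∈ P) → False := by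
      rintro v hv hv0 ⟨z, hz⟩
      exact p_A_two h_NoOpp hP hp hC hI h1 h2 v.1 v.2.1 v.2.2 z hv0 hv hz
    set d₁ := det2 (v₂.1, v₂.2.1) (v₃.1, v₃.2.1) with hd₁
    set d₂ := det2 (v₃.1, v₃.2.1) (v₁.1, v₁.2.1) with hd₂
    set d₃ := det2 (v₁.1, v₁.2.1) (v₂.1, v₂.2.1) with hd₃
    by_cases c3 : 2 * (d₁ + d₂ + d₃) ≤ 3 * d₃
    · exact hz v₃ (hmem _ hv₃) (hne _ _ h31)
        (h_A0 P v₁ v₂ v₃ d₁ d₂ d₃ hconv h1 h2 (hmem _ hv₁) (hmem _ hv₂) hd₁ hd₂ hd₃ h23 h31 h12 c3)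
    by_cases c1 : 2 * (d₁ + d₂ + d₃) ≤ 3 * d₁
    · exact hz v₁ (hmem _ hv₁) (hne _ _ h12)
        (h_A0 P v₂ v₃ v₁ d₂ d₃ d₁ hconv h1 h2 (hmem _ hv₂) (hmem _ hv₃) hd₂ hd₃ hd₁ h31 h12 h23
          (by linarith))
    by_cases c2 : 2 * (d₁ + d₂ + d₃) ≤ 3 * d₂
    · exact hz v₂ (hmem _ hv₂) (hne _ _ h23)
        (h_A0 P v₃ v₁ v₂ d₃ d₁ d₂ hconv h1 h2 (hmem _ hv₃) (hmem _ hv₁) hd₃ hd₁ hd₂ h12 h23 h31
          (by linarith))
    push Not at c1 c2 c3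
    have ha := h_arith3 d₁ d₂ d₃ h23 h31 h12 c1 c2 c3
    have hb : 8 * (d₁ + d₂ + d₃) ^ 2 < p * (d₁ * d₂ * d₃) := by
      have hpos : 0 < d₁ * d₂ * d₃ := mul_pos (mul_pos h23 h31) h12
      have hp' : (163 : ℤ) ≤ p := by exact_mod_cast hp
      have := mul_le_mul_of_nonneg_right hp' hpos.le
      linarith
    obtain ⟨y, hy, ⟨z, hz1⟩, z', hz2⟩ := h_CH P p v₁ v₂ v₃ d₁ d₂ d₃ hconv (by omega) hC h1 h2
      (hmem _ hv₁) (hmem _ hv₂) (hmem _ hv₃) hd₁ hd₂ hd₃ h23 h31 h12 hb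
    exact p_A_two h_NoOpp hP hp hC hI h1 h2 y.1 y.2 z z' hy hz1 hz2

theorem p_A (h_prim : S_prim) (h_NoOpp : S_NoOpp) (h_CH : S_CH) (h_A0 : S_A0)
    (h_arith3 : S_arith3) (h_circ2 : S_circ2) (h_fr1 : S_fr1) (h_fr2 : S_fr2) : S_A := by
  intro P p hP hp hC hI hO
  obtain ⟨t, ht0, ht1, ht2⟩ := hO
  obtain ⟨a, b, c, k, hk, hdet, rfl⟩ := h_prim t ht0
  have hf : IsFr (fr 0 a b c) := ⟨0, a, b, c, Or.inl hdet, fun v => rfl⟩
  obtain ⟨-, hP', -, hC', hI', -, -⟩ := h_fr2 _ hf P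
  have hf0 : fr 0 a b c 0 = 0 := by simp [fr]
  have hI2 : Inn (fr 0 a b c ⁻¹' P) 0 := by
    rw [hI', hf0]
    exact hI
  have hPP := hP' hP
  have hconv : Convex ℝ (fr 0 a b c ⁻¹' P) := by
    obtain ⟨V, hV⟩ := id hPP
    rw [hV]
    exact convex_convexHull ℝ _
  have hk1 : ip (0, 0, k) ∈ fr 0 a b c ⁻¹' P := by
    show fr 0 a b c (ip (0, 0, k)) ∈ P
    have : fr 0 a b c (ip (0, 0, k)) = ip (k • c) := by
      simp [fr, ip]
    rw [this]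
    exact ht1
  have hk2 : ip (0, 0, -k) ∈ fr 0 a b c ⁻¹' P := by
    show fr 0 a b c (ip (0, 0, -k)) ∈ P
    have : fr 0 a b c (ip (0, 0, -k)) = ip (-(k • c)) := by
      simp [fr, ip]
    rw [this]
    exact ht2
  have hk' : (1 : ℝ) ≤ k := by exact_mod_cast hk
  have hk0 : (0 : ℝ) < k := by linarith
  have hseg : ∀ s : ℝ, -1 ≤ s → s ≤ 1 → ((0 : ℝ), (0 : ℝ), s) ∈ fr 0 a b c ⁻¹' P := by
    intro s hs1 hs2
    have h1 : 0 ≤ (k + s) / (2 * k) := div_nonneg (by linarith) (by linarith)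
    have h2 : 0 ≤ (k - s) / (2 * k) := div_nonneg (by linarith) (by linarith)
    have h3 : (k + s) / (2 * k) + (k - s) / (2 * k) = 1 := by
      field_simp
      ring
    have h4 := hconv hk1 hk2 h1 h2 h3
    have h5 : ((k + s) / (2 * k)) • ip (0, 0, k) + ((k - s) / (2 * k)) • ip (0, 0, -k) =
        ((0 : ℝ), (0 : ℝ), s) := by
      refine Prod.ext ?_ (Prod.ext ?_ ?_)
      · simp [ip]
      · simp [ip]
      · simp only [ip, Prod.snd_add, Prod.smul_snd, smul_eq_mul]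
        push_cast
        field_simp
        ring
    rw [h5] at h4
    exact h4
  refine p_A_main h_NoOpp h_CH h_A0 h_arith3 h_circ2 hPP hp (hC' p hC) hI2 ?_ ?_
  · have := hseg 1 (by norm_num) le_rfl
    simpa [ip] using this
  · have := hseg (-1) le_rfl (by norm_num)
    simpa [ip] using this

end Pool.Agent.Lib.MP_0bc52e_nt.T
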