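import Pool.Agent.Lib.MP_0bc52e_nt.T.StmN

/-!
# MP_0bc52e_nt, Theorem (T163): piece [TN A0]
-/

set_option autoImplicit false

open scoped Pointwise

namespace Pool.Agent.Lib.MP_0bc52e_nt.T

open Pool.Agent.Lib.MP_0bc52e_nt.LC

theorem p_A0 : S_A0 := by
  intro P v₁ v₂ v₃ d₁ d₂ d₃ hP ht hb hv1 hv2 e1 e2 e3 p1 p2 p3 hE
  obtain ⟨X1, Y1, Z1⟩ := v₁
  obtain ⟨X2, Y2, Z2⟩ := v₂
  obtain ⟨X3, Y3, Z3⟩ := v₃
  simp only [det2] at e1 e2 e3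
  have p1' : (0 : ℝ) < d₁ := by exact_mod_cast p1
  have p2' : (0 : ℝ) < d₂ := by exact_mod_cast p2
  have p3' : (0 : ℝ) < d₃ := by exact_mod_cast p3
  have e1' : (d₁ : ℝ) = X2 * Y3 - Y2 * X3 := by rw [e1]; push_cast; ring
  have e2' : (d₂ : ℝ) = X3 * Y1 - Y3 * X1 := by rw [e2]; push_cast; ring
  have e3' : (d₃ : ℝ) = X1 * Y2 - Y1 * X2 := by rw [e3]; push_cast; ring
  have hE' : 2 * ((d₁ : ℝ) + d₂ + d₃) ≤ 3 * d₃ := by exact_mod_cast hE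
  have key : ∀ (t t' : ℝ) (v v' : ℝ × ℝ × ℝ), 0 ≤ t → 0 ≤ t' → v ∈ t • P → v' ∈ t' • P →
      v + v' ∈ (t + t') • P := by
    intro t t' v v' ht ht' hv hv'
    rw [hP.add_smul ht ht']
    exact Set.add_mem_add hv hv'
  obtain ⟨m1, hm1⟩ : ∃ m1, m1 = (d₁ : ℝ) / d₃ := ⟨_, rfl⟩
  obtain ⟨m2, hm2⟩ : ∃ m2, m2 = (d₂ : ℝ) / d₃ := ⟨_, rfl⟩
  have q1 : 0 ≤ m1 := by rw [hm1]; positivity
  have q2 : 0 ≤ m2 := by rw [hm2]; positivity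
  have r1 : m1 * d₃ = d₁ := by rw [hm1]; exact div_mul_cancel₀ _ p3'.ne'
  have r2 : m2 * d₃ = d₂ := by rw [hm2]; exact div_mul_cancel₀ _ p3'.ne'
  have hlam : m1 + m2 ≤ 1 / 2 := by
    apply le_of_mul_le_mul_right _ p3'
    linarith
  have hs : m1 * X1 + m2 * X2 = -X3 := by
    apply mul_right_cancel₀ p3'.ne'
    have : (m1 * X1 + m2 * X2) * d₃ = m1 * d₃ * X1 + m2 * d₃ * X2 := by ring
    rw [this, r1, r2, e1', e2', e3']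
    ring
  have htt : m1 * Y1 + m2 * Y2 = -Y3 := by
    apply mul_right_cancel₀ p3'.ne'
    have : (m1 * Y1 + m2 * Y2) * d₃ = m1 * d₃ * Y1 + m2 * d₃ * Y2 := by ring
    rw [this, r1, r2, e1', e2', e3']
    ring
  obtain ⟨ζ, hζ⟩ : ∃ ζ, ζ = m1 * Z1 + m2 * Z2 := ⟨_, rfl⟩
  obtain ⟨θ, hθ⟩ : ∃ θ, θ = (round ζ : ℝ) - ζ := ⟨_, rfl⟩
  have hθ0 : |θ| ≤ 1 / 2 := by
    rw [hθ, abs_sub_comm]
    exact abs_sub_round ζ
  obtain ⟨hθ1, hθ2⟩ := abs_le.mp hθ0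
  have k1 := key _ _ _ _ q1 q2 (Set.smul_mem_smul_set hv1) (Set.smul_mem_smul_set hv2)
  have k2 := key _ ((1 - (m1 + m2) + θ) / 2) _ _ (by linarith) (by linarith) k1
    (Set.smul_mem_smul_set ht)
  have k3 := key _ ((1 - (m1 + m2) - θ) / 2) _ _ (by linarith) (by linarith) k2
    (Set.smul_mem_smul_set hb)
  have w : m1 + m2 + (1 - (m1 + m2) + θ) / 2 + (1 - (m1 + m2) - θ) / 2 = 1 := by ring
  rw [w, one_smul] at k3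
  refine ⟨round ζ, ?_⟩
  convert k3 using 1
  simp only [ip, Prod.smul_mk, Prod.mk_add_mk, smul_eq_mul, Prod.mk.injEq]
  push_cast
  refine ⟨by linarith, by linarith, ?_⟩
  have : (round ζ : ℝ) = m1 * Z1 + m2 * Z2 + θ := by
    rw [hθ, ← hζ]
    ring
  rw [this]
  ring

end Pool.Agent.Lib.MP_0bc52e_nt.T
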