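import Pool.Agent.Lib.MP_0bc52e_nt.T.StmN

namespace Pool.Agent.Lib.MP_0bc52e_nt.T

open Pool.Agent.Lib.MP_0bc52e_nt.LC

private theorem p_B_fr (a b c : ℤ × ℤ × ℤ) (x y : ℤ) :
    fr 0 a b c (ip (x, y, 0)) = ip (x • a + y • b) := by
  simp only [fr, ip, Prod.fst_zero, Prod.snd_zero, Int.cast_zero, zero_add, Prod.fst_add,
    Prod.snd_add, Prod.smul_fst, Prod.smul_snd, smul_eq_mul, Int.cast_add, Int.cast_mul, zero_mul,
    add_zero]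

private theorem p_B_mirror : IsFr (fr 0 (1, 0, 0) (0, 1, 0) (0, 0, -1)) :=
  ⟨0, (1, 0, 0), (0, 1, 0), (0, 0, -1), Or.inr (by simp [det3]), fun _ => rfl⟩

private theorem p_B_mirror_eq (v : ℝ × ℝ × ℝ) :
    fr 0 (1, 0, 0) (0, 1, 0) (0, 0, -1) v = (v.1, v.2.1, -v.2.2) := by
  simp [fr]

theorem p_B (h_pln : S_pln) (h_PL3 : S_PL3) (h_sides : S_sides) (h_fr1 : S_fr1) (h_fr2 : S_fr2) :
    S_B := by
  intro P p hLP h163 hCr hInn hT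
  obtain ⟨r, s, t, α, β, γ, hα, hβ, hγ, hr, hs, ht, hcr, hsum⟩ := hT
  obtain ⟨a, b, c, r₁, r₂, s₁, s₂, hdet, hpos, hra, hsb⟩ := h_pln r s hcr
  have hF : IsFr (fr 0 a b c) := ⟨0, a, b, c, Or.inl hdet, fun _ => rfl⟩
  obtain ⟨tc, tL, -, tC, tI, -, -⟩ := h_fr2 (fr 0 a b c) hF P
  obtain ⟨g, hg, hgf, hfg⟩ := h_fr1.1 (fr 0 a b c) hF
  have hconv : Convex ℝ P := by
    obtain ⟨V, rfl⟩ := hLP
    exact convex_convexHull ℝ _
  -- the coordinates of t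
  obtain ⟨w, hw⟩ := h_fr1.2.2.1 g hg t
  have hft : fr 0 a b c (ip w) = ip t := by rw [← hw, hfg]
  have hγ' : γ ≠ 0 := hγ.ne'
  have hv : fr 0 a b c (-(α * r₁ + β * s₁) / γ, -(α * r₂ + β * s₂) / γ, 0) = ip t := by
    rw [hra, hsb] at hsum
    simp only [ip, Prod.ext_iff, Prod.fst_add, Prod.snd_add, Prod.smul_fst, Prod.smul_snd,
      smul_eq_mul, Prod.fst_zero, Prod.snd_zero, Int.cast_add, Int.cast_mul] at hsum
    obtain ⟨e1, e2, e3⟩ := hsum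
    simp only [fr, ip, Prod.fst_zero, Prod.snd_zero, Int.cast_zero, zero_add, zero_mul, add_zero,
      Prod.ext_iff]
    refine ⟨?_, ?_, ?_⟩
    · field_simp; linear_combination (-1 : ℝ) * e1
    · field_simp; linear_combination (-1 : ℝ) * e2
    · field_simp; linear_combination (-1 : ℝ) * e3
  have hw2 : ip w = (-(α * r₁ + β * s₁) / γ, -(α * r₂ + β * s₂) / γ, (0 : ℝ)) := by
    rw [← hgf (ip w), hft, ← hv, hgf]
  simp only [ip, Prod.ext_iff] at hw2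
  obtain ⟨f1, f2, f3⟩ := hw2
  have f1' : γ * (w.1 : ℝ) = -(α * r₁ + β * s₁) := by rw [f1]; field_simp
  have f2' : γ * (w.2.1 : ℝ) = -(α * r₂ + β * s₂) := by rw [f2]; field_simp
  have f3' : w.2.2 = 0 := by exact_mod_cast f3
  have hposR : (0 : ℝ) < r₁ * s₂ - r₂ * s₁ := by exact_mod_cast hpos
  have hd1 : 0 < s₁ * w.2.1 - s₂ * w.1 := by
    have h1 : γ * ((s₁ : ℝ) * w.2.1 - s₂ * w.1) = α * (r₁ * s₂ - r₂ * s₁) := by
      linear_combination (s₁ : ℝ) * f2' - s₂ * f1'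
    have h2 : 0 < γ * ((s₁ : ℝ) * w.2.1 - s₂ * w.1) := by rw [h1]; positivity
    have h3 := (mul_pos_iff_of_pos_left hγ).1 h2
    exact_mod_cast h3
  have hd2 : 0 < w.1 * r₂ - w.2.1 * r₁ := by
    have h1 : γ * ((w.1 : ℝ) * r₂ - w.2.1 * r₁) = β * (r₁ * s₂ - r₂ * s₁) := by
      linear_combination (r₂ : ℝ) * f1' - r₁ * f2'
    have h2 : 0 < γ * ((w.1 : ℝ) * r₂ - w.2.1 * r₁) := by rw [h1]; positivity
    have h3 := (mul_pos_iff_of_pos_left hγ).1 h2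
    exact_mod_cast h3
  have hf0 : fr 0 a b c 0 = 0 := by
    simp [fr, Prod.ext_iff]
  have hInn' : Inn (fr 0 a b c ⁻¹' P) 0 := (tI 0).2 (by rw [hf0]; exact hInn)
  have hip : ∀ x y : ℤ, ip (x, y, 0) = ((x : ℝ), (y : ℝ), (0 : ℝ)) := fun x y => by
    simp [ip]
  refine h_PL3 (fr 0 a b c ⁻¹' P) p (tc hconv) h163 (tC p hCr) (Or.inl ?_) ?_ ?_
  · refine ⟨0, (r₁, r₂), (s₁, s₂), (w.1, w.2.1), ?_, ?_, ?_, ?_, ?_, ?_⟩
    · change fr 0 a b c ((r₁ : ℝ), (r₂ : ℝ), (0 : ℝ)) ∈ P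
      rw [← hip, p_B_fr, ← hra]
      exact hr
    · change fr 0 a b c ((s₁ : ℝ), (s₂ : ℝ), (0 : ℝ)) ∈ P
      rw [← hip, p_B_fr, ← hsb]
      exact hs
    · change fr 0 a b c ((w.1 : ℝ), (w.2.1 : ℝ), (0 : ℝ)) ∈ P
      have : ((w.1 : ℝ), (w.2.1 : ℝ), (0 : ℝ)) = ip w := by
        simp [ip, f3']
      rw [this, hft]
      exact ht
    · simp only [det2, sub_zero]
      linarith
    · simp only [det2, sub_zero]
      linarith
    · simp only [det2, sub_zero]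
      linarith
  · obtain ⟨ε, hε, hmem⟩ := hInn' (0, 0, 1)
    obtain ⟨v, hv1, hv2⟩ := h_sides _ (tL hLP) ⟨0 + ε • ((0 : ℝ), (0 : ℝ), (1 : ℝ)), hmem, by
      simpa using hε⟩
    exact ⟨ip v, hv1, by simp only [ip]; exact_mod_cast hv2⟩
  · obtain ⟨-, mL, -, -, -, -, -⟩ := h_fr2 _ p_B_mirror (fr 0 a b c ⁻¹' P)
    obtain ⟨ε, hε, hmem⟩ := hInn' (0, 0, -1)
    obtain ⟨v, hv1, hv2⟩ := h_sides _ (mL (tL hLP)) ⟨(0, 0, ε), by
      change fr 0 (1, 0, 0) (0, 1, 0) (0, 0, -1) ((0 : ℝ), (0 : ℝ), ε) ∈ fr 0 a b c ⁻¹' P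
      rw [p_B_mirror_eq]
      convert hmem using 1
      simp, hε⟩
    refine ⟨fr 0 (1, 0, 0) (0, 1, 0) (0, 0, -1) (ip v), hv1, ?_⟩
    rw [p_B_mirror_eq]
    simp only [ip]
    have : (1 : ℝ) ≤ v.2.2 := by exact_mod_cast hv2
    linarith

end Pool.Agent.Lib.MP_0bc52e_nt.T
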