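import Pool.Agent.Lib.MP_0bc52e_nt.T.StmN

namespace Pool.Agent.Lib.MP_0bc52e_nt.T

open Pool.Agent.Lib.MP_0bc52e_nt.LC

private theorem p_C_gcd (d₀ d₁ d₂ d₃ : ℤ) (h0 : 0 < d₀) :
    ∃ g w₀ w₁ w₂ w₃ e₀ e₁ e₂ e₃ : ℤ, 0 < g ∧ d₀ = g * w₀ ∧ d₁ = g * w₁ ∧ d₂ = g * w₂ ∧
      d₃ = g * w₃ ∧ e₀ * w₀ + e₁ * w₁ + e₂ * w₂ + e₃ * w₃ = 1 := by
  set g1 : ℤ := (Int.gcd d₀ d₁ : ℤ) with hg1
  set g2 : ℤ := (Int.gcd d₂ d₃ : ℤ) with hg2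
  set g : ℤ := (Int.gcd g1 g2 : ℤ) with hg
  have b1 : g1 = d₀ * Int.gcdA d₀ d₁ + d₁ * Int.gcdB d₀ d₁ := Int.gcd_eq_gcd_ab d₀ d₁
  have b2 : g2 = d₂ * Int.gcdA d₂ d₃ + d₃ * Int.gcdB d₂ d₃ := Int.gcd_eq_gcd_ab d₂ d₃
  have b3 : g = g1 * Int.gcdA g1 g2 + g2 * Int.gcdB g1 g2 := Int.gcd_eq_gcd_ab g1 g2
  have hg1d : g ∣ g1 := Int.gcd_dvd_left _ _
  have hg2d : g ∣ g2 := Int.gcd_dvd_right _ _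
  obtain ⟨w₀, hw0⟩ : g ∣ d₀ := hg1d.trans (Int.gcd_dvd_left _ _)
  obtain ⟨w₁, hw1⟩ : g ∣ d₁ := hg1d.trans (Int.gcd_dvd_right _ _)
  obtain ⟨w₂, hw2⟩ : g ∣ d₂ := hg2d.trans (Int.gcd_dvd_left _ _)
  obtain ⟨w₃, hw3⟩ : g ∣ d₃ := hg2d.trans (Int.gcd_dvd_right _ _)
  have hgne : g ≠ 0 := by
    intro h
    rw [h, zero_mul] at hw0
    exact h0.ne' hw0
  have hgpos : 0 < g := lt_of_le_of_ne (Int.natCast_nonneg _) (Ne.symm hgne)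
  refine ⟨g, w₀, w₁, w₂, w₃, Int.gcdA g1 g2 * Int.gcdA d₀ d₁, Int.gcdA g1 g2 * Int.gcdB d₀ d₁,
    Int.gcdB g1 g2 * Int.gcdA d₂ d₃, Int.gcdB g1 g2 * Int.gcdB d₂ d₃, hgpos, hw0, hw1, hw2, hw3, ?_⟩
  apply mul_left_cancel₀ hgne
  calc g * (Int.gcdA g1 g2 * Int.gcdA d₀ d₁ * w₀ + Int.gcdA g1 g2 * Int.gcdB d₀ d₁ * w₁ +
        Int.gcdB g1 g2 * Int.gcdA d₂ d₃ * w₂ + Int.gcdB g1 g2 * Int.gcdB d₂ d₃ * w₃)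
      = ((g * w₀) * Int.gcdA d₀ d₁ + (g * w₁) * Int.gcdB d₀ d₁) * Int.gcdA g1 g2 +
        ((g * w₂) * Int.gcdA d₂ d₃ + (g * w₃) * Int.gcdB d₂ d₃) * Int.gcdB g1 g2 := by ring
    _ = g1 * Int.gcdA g1 g2 + g2 * Int.gcdB g1 g2 := by rw [← hw0, ← hw1, ← hw2, ← hw3, ← b1, ← b2]
    _ = g * 1 := by rw [← b3, mul_one]

theorem p_C (h_SX : S_SX) (h_quadX : S_quadX) (h_floor : S_floor) (h_WT : S_WT) : S_C := by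
  intro P p hP hp h163 hCr hO hT
  have main : ∀ n : ℕ, ∀ (v₀ v₁ v₂ v₃ : ℤ × ℤ × ℤ) (d₀ d₁ d₂ d₃ : ℤ), QD v₀ v₁ v₂ v₃ d₀ d₁ d₂ d₃ →
      In4 P v₀ v₁ v₂ v₃ → d₀ + d₁ + d₂ + d₃ = (n : ℤ) → False := by
    intro n
    induction n using Nat.strong_induction_on with
    | _ n ih =>
      intro v₀ v₁ v₂ v₃ d₀ d₁ d₂ d₃ hQ hI hn
      obtain ⟨_, _, _, _, p0, p1, p2, p3⟩ := id hQ
      have hX : ∀ (X : ℤ × ℤ × ℤ) (x₀ x₁ x₂ x₃ : ℝ), 0 ≤ x₀ → 0 ≤ x₁ → 0 ≤ x₂ → 0 ≤ x₃ →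
          x₀ < 1 → x₁ < 1 → x₂ < 1 → x₃ < 1 → x₀ + x₁ + x₂ + x₃ = 1 →
          ip X = x₀ • ip v₀ + x₁ • ip v₁ + x₂ • ip v₂ + x₃ • ip v₃ → X = 0 := by
        intro X x₀ x₁ x₂ x₃ a0 a1 a2 a3 c0 c1 c2 c3 hs hip
        by_contra hne
        rcases h_quadX P v₀ v₁ v₂ v₃ d₀ d₁ d₂ d₃ hP hQ hI X x₀ x₁ x₂ x₃ hne a0 a1 a2 a3 c0 c1 c2 c3
          hs hip with h | h | ⟨v₀', v₁', v₂', v₃', d₀', d₁', d₂', d₃', hQ', hI', hlt⟩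
        · exact hO h
        · exact hT h
        · obtain ⟨_, _, _, _, q0, q1, q2, q3⟩ := id hQ'
          have h5 : 0 ≤ d₀' + d₁' + d₂' + d₃' := by omega
          refine ih (d₀' + d₁' + d₂' + d₃').toNat ?_ v₀' v₁' v₂' v₃' d₀' d₁' d₂' d₃' hQ' hI' ?_
          · omega
          · omega
      obtain ⟨g, w₀, w₁, w₂, w₃, e₀, e₁, e₂, e₃, hg, hw0, hw1, hw2, hw3, he⟩ :=
        p_C_gcd d₀ d₁ d₂ d₃ p0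
      have q0 : 0 < w₀ := (mul_pos_iff_of_pos_left hg).1 (by rw [← hw0]; exact p0)
      have q1 : 0 < w₁ := (mul_pos_iff_of_pos_left hg).1 (by rw [← hw1]; exact p1)
      have q2 : 0 < w₂ := (mul_pos_iff_of_pos_left hg).1 (by rw [← hw2]; exact p2)
      have q3 : 0 < w₃ := (mul_pos_iff_of_pos_left hg).1 (by rw [← hw3]; exact p3)
      have hfl := h_floor v₀ v₁ v₂ v₃ d₀ d₁ d₂ d₃ g w₀ w₁ w₂ w₃ hQ hg hw0 hw1 hw2 hw3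
        ⟨e₀, e₁, e₂, e₃, he⟩ hX
      have hwt := h_WT w₀ w₁ w₂ w₃ q0 q1 q2 q3 hfl
      refine hO (h_SX P p v₀ v₁ v₂ v₃ d₀ d₁ d₂ d₃ hP hp hCr hQ hI ?_)
      have hprod : 0 < w₀ * w₁ * w₂ * w₃ := by positivity
      have hg3 : 0 < g ^ 3 := by positivity
      have h1 : 2 * (d₀ + d₁ + d₂ + d₃) ^ 3 = g ^ 3 * (2 * (w₀ + w₁ + w₂ + w₃) ^ 3) := by
        rw [hw0, hw1, hw2, hw3]; ring
      have h2 : (p : ℤ) * (d₀ * d₁ * d₂ * d₃) = g ^ 3 * ((p * g) * (w₀ * w₁ * w₂ * w₃)) := by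
        rw [hw0, hw1, hw2, hw3]; ring
      rw [h1, h2]
      refine mul_lt_mul_of_pos_left (hwt.trans_le ?_) hg3
      refine mul_le_mul_of_nonneg_right ?_ hprod.le
      have h3 : (163 : ℤ) ≤ p := by exact_mod_cast h163
      nlinarith
  rintro ⟨v₀, v₁, v₂, v₃, d₀, d₁, d₂, d₃, hQ, hI⟩
  obtain ⟨_, _, _, _, p0, p1, p2, p3⟩ := id hQ
  exact main (d₀ + d₁ + d₂ + d₃).toNat v₀ v₁ v₂ v₃ d₀ d₁ d₂ d₃ hQ hI (by omega)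

end Pool.Agent.Lib.MP_0bc52e_nt.T
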