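import Pool.Agent.Lib.MP_0bc52e_nt.T.StmN

/-!
# MP_0bc52e_nt, Theorem (T163): piece [TN CH]
-/

set_option autoImplicit false

open scoped Pointwise

namespace Pool.Agent.Lib.MP_0bc52e_nt.T

open Pool.Agent.Lib.MP_0bc52e_nt.LC

private theorem p_CH_star (P : Set (ℝ × ℝ × ℝ)) (hP : Convex ℝ P)
    (x1 y1 z1 x2 y2 z2 x3 y3 z3 d1 d2 d3 : ℝ) (hv1 : (x1, y1, z1) ∈ P) (hv2 : (x2, y2, z2) ∈ P)
    (hv3 : (x3, y3, z3) ∈ P) (ht : ((0 : ℝ), (0 : ℝ), (1 : ℝ)) ∈ P)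
    (hb : ((0 : ℝ), (0 : ℝ), (-1 : ℝ)) ∈ P) (e1 : d1 = x2 * y3 - y2 * x3)
    (e2 : d2 = x3 * y1 - y3 * x1) (e3 : d3 = x1 * y2 - y1 * x2) (p1 : 0 < d1) (p2 : 0 < d2)
    (p3 : 0 < d3) (s t lam rho : ℝ)
    (h1 : s * (y3 - y2) - t * (x3 - x2) ≤ lam * d1)
    (h2 : s * (y1 - y3) - t * (x1 - x3) ≤ lam * d2)
    (h3 : s * (y2 - y1) - t * (x2 - x1) ≤ lam * d3) :
    ∃ ζ : ℝ, ∀ θ : ℝ, |θ| ≤ rho - lam → (s, t, ζ + θ) ∈ rho • P := by
  have key : ∀ (t t' : ℝ) (v v' : ℝ × ℝ × ℝ), 0 ≤ t → 0 ≤ t' → v ∈ t • P → v' ∈ t' • P →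
      v + v' ∈ (t + t') • P := by
    intro t t' v v' ht ht' hv hv'
    rw [hP.add_smul ht ht']
    exact Set.add_mem_add hv hv'
  have hE : 0 < d1 + d2 + d3 := by linarith
  obtain ⟨m1, hm1⟩ : ∃ m1, m1 = (lam * d1 - (s * (y3 - y2) - t * (x3 - x2))) / (d1 + d2 + d3) :=
    ⟨_, rfl⟩
  obtain ⟨m2, hm2⟩ : ∃ m2, m2 = (lam * d2 - (s * (y1 - y3) - t * (x1 - x3))) / (d1 + d2 + d3) :=
    ⟨_, rfl⟩
  obtain ⟨m3, hm3⟩ : ∃ m3, m3 = (lam * d3 - (s * (y2 - y1) - t * (x2 - x1))) / (d1 + d2 + d3) :=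
    ⟨_, rfl⟩
  have q1 : 0 ≤ m1 := by rw [hm1]; exact div_nonneg (by linarith) hE.le
  have q2 : 0 ≤ m2 := by rw [hm2]; exact div_nonneg (by linarith) hE.le
  have q3 : 0 ≤ m3 := by rw [hm3]; exact div_nonneg (by linarith) hE.le
  have r1 : m1 * (d1 + d2 + d3) = lam * d1 - (s * (y3 - y2) - t * (x3 - x2)) := by
    rw [hm1]; exact div_mul_cancel₀ _ hE.ne'
  have r2 : m2 * (d1 + d2 + d3) = lam * d2 - (s * (y1 - y3) - t * (x1 - x3)) := by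
    rw [hm2]; exact div_mul_cancel₀ _ hE.ne'
  have r3 : m3 * (d1 + d2 + d3) = lam * d3 - (s * (y2 - y1) - t * (x2 - x1)) := by
    rw [hm3]; exact div_mul_cancel₀ _ hE.ne'
  have hsum : m1 + m2 + m3 = lam := by
    apply mul_right_cancel₀ hE.ne'
    linear_combination r1 + r2 + r3
  have hs : m1 * x1 + m2 * x2 + m3 * x3 = s := by
    apply mul_right_cancel₀ hE.ne'
    have : (m1 * x1 + m2 * x2 + m3 * x3) * (d1 + d2 + d3) =
        m1 * (d1 + d2 + d3) * x1 + m2 * (d1 + d2 + d3) * x2 + m3 * (d1 + d2 + d3) * x3 := by ring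
    rw [this, r1, r2, r3, e1, e2, e3]
    ring
  have htt : m1 * y1 + m2 * y2 + m3 * y3 = t := by
    apply mul_right_cancel₀ hE.ne'
    have : (m1 * y1 + m2 * y2 + m3 * y3) * (d1 + d2 + d3) =
        m1 * (d1 + d2 + d3) * y1 + m2 * (d1 + d2 + d3) * y2 + m3 * (d1 + d2 + d3) * y3 := by ring
    rw [this, r1, r2, r3, e1, e2, e3]
    ring
  refine ⟨m1 * z1 + m2 * z2 + m3 * z3, fun θ hθ => ?_⟩
  obtain ⟨hθ1, hθ2⟩ := abs_le.mp hθ
  have k1 := key _ _ _ _ q1 q2 (Set.smul_mem_smul_set hv1) (Set.smul_mem_smul_set hv2)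
  have k2 := key _ _ _ _ (by linarith) q3 k1 (Set.smul_mem_smul_set hv3)
  have k3 := key _ ((rho - lam + θ) / 2) _ _ (by linarith) (by linarith) k2
    (Set.smul_mem_smul_set ht)
  have k4 := key _ ((rho - lam - θ) / 2) _ _ (by linarith) (by linarith) k3
    (Set.smul_mem_smul_set hb)
  have w : m1 + m2 + m3 + (rho - lam + θ) / 2 + (rho - lam - θ) / 2 = rho := by linarith
  rw [w] at k4
  convert k4 using 1
  simp only [Prod.smul_mk, Prod.mk_add_mk, smul_eq_mul, Prod.mk.injEq]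
  refine ⟨by linarith, by linarith, by ring⟩

private theorem p_CH_det (p a b A1 B1 A2 B2 A3 B3 d1 d2 d3 : ℝ) (h1 : d1 ≠ 0) (h2 : d2 ≠ 0)
    (h3 : d3 ≠ 0) :
    (!![p * A1 / d1, -p * B1 / d1, 1 - (A1 * a - B1 * b) / d1;
        p * A2 / d2, -p * B2 / d2, 1 - (A2 * a - B2 * b) / d2;
        p * A3 / d3, -p * B3 / d3, 1 - (A3 * a - B3 * b) / d3] : Matrix (Fin 3) (Fin 3) ℝ).det =
      -p ^ 2 * (A1 * (B2 * d3 - B3 * d2) - B1 * (A2 * d3 - A3 * d2) + d1 * (A2 * B3 - A3 * B2)) /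
        (d1 * d2 * d3) := by
  rw [Matrix.det_fin_three]
  simp only [Matrix.of_apply, Matrix.cons_val', Matrix.cons_val_zero, Matrix.cons_val_one,
    Matrix.cons_val, Matrix.cons_val_fin_one]
  field_simp
  ring

theorem p_CH (h_ML : S_ML) : S_CH := by
  intro P p v₁ v₂ v₃ d₁ d₂ d₃ hP hp hC ht hb hv1 hv2 hv3 e1 e2 e3 p1 p2 p3 hE
  obtain ⟨a, b, c, hC⟩ := hC
  obtain ⟨X1, Y1, Z1⟩ := v₁
  obtain ⟨X2, Y2, Z2⟩ := v₂
  obtain ⟨X3, Y3, Z3⟩ := v₃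
  simp only [det2] at e1 e2 e3
  have hp' : (0 : ℝ) < p := by exact_mod_cast hp
  have p1' : (0 : ℝ) < d₁ := by exact_mod_cast p1
  have p2' : (0 : ℝ) < d₂ := by exact_mod_cast p2
  have p3' : (0 : ℝ) < d₃ := by exact_mod_cast p3
  have e1' : (d₁ : ℝ) = X2 * Y3 - Y2 * X3 := by rw [e1]; push_cast; ring
  have e2' : (d₂ : ℝ) = X3 * Y1 - Y3 * X1 := by rw [e2]; push_cast; ring
  have e3' : (d₃ : ℝ) = X1 * Y2 - Y1 * X2 := by rw [e3]; push_cast; ring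
  have hE' : 8 * ((d₁ : ℝ) + d₂ + d₃) ^ 2 < p * (d₁ * d₂ * d₃) := by exact_mod_cast hE
  have ht' : ((0 : ℝ), (0 : ℝ), (1 : ℝ)) ∈ P := by simpa [ip] using ht
  have hb' : ((0 : ℝ), (0 : ℝ), (-1 : ℝ)) ∈ P := by simpa [ip] using hb
  have hv1' : ((X1 : ℝ), (Y1 : ℝ), (Z1 : ℝ)) ∈ P := by simpa [ip] using hv1
  have hv2' : ((X2 : ℝ), (Y2 : ℝ), (Z2 : ℝ)) ∈ P := by simpa [ip] using hv2
  have hv3' : ((X3 : ℝ), (Y3 : ℝ), (Z3 : ℝ)) ∈ P := by simpa [ip] using hv3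
  have hdet := p_CH_det p a b (Y3 - Y2) (X3 - X2) (Y1 - Y3) (X1 - X3) (Y2 - Y1) (X2 - X1) d₁ d₂ d₃
    p1'.ne' p2'.ne' p3'.ne'
  have hnum : ((Y3 : ℝ) - Y2) * ((X1 - X3) * d₃ - (X2 - X1) * d₂) -
      (X3 - X2) * ((Y1 - Y3) * d₃ - (Y2 - Y1) * d₂) +
      d₁ * ((Y1 - Y3) * (X2 - X1) - (Y2 - Y1) * (X1 - X3)) = -((d₁ : ℝ) + d₂ + d₃) ^ 2 := by
    rw [e1', e2', e3']
    ring
  rw [hnum] at hdet
  have hD : (0 : ℝ) < d₁ * d₂ * d₃ := by positivity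
  have hdet' : (!![(p : ℝ) * (Y3 - Y2) / d₁, -p * (X3 - X2) / d₁,
        1 - ((Y3 - Y2) * a - (X3 - X2) * b) / d₁;
        p * (Y1 - Y3) / d₂, -p * (X1 - X3) / d₂, 1 - ((Y1 - Y3) * a - (X1 - X3) * b) / d₂;
        p * (Y2 - Y1) / d₃, -p * (X2 - X1) / d₃, 1 - ((Y2 - Y1) * a - (X2 - X1) * b) / d₃] :
        Matrix (Fin 3) (Fin 3) ℝ).det = p ^ 2 * ((d₁ : ℝ) + d₂ + d₃) ^ 2 / (d₁ * d₂ * d₃) := by
    rw [hdet]
    ring
  have hpos : (0 : ℝ) < p ^ 2 * ((d₁ : ℝ) + d₂ + d₃) ^ 2 / (d₁ * d₂ * d₃) := by positivity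
  have hlt : (p : ℝ) ^ 2 * ((d₁ : ℝ) + d₂ + d₃) ^ 2 / (d₁ * d₂ * d₃) < (p / 2 : ℝ) ^ 3 := by
    rw [div_lt_iff₀ hD]
    have := mul_lt_mul_of_pos_left hE' (show (0 : ℝ) < p ^ 2 by positivity)
    nlinarith [this]
  obtain ⟨n, hn, hL⟩ := h_ML _ (p / 2) (by positivity) (by rw [hdet']; exact hpos.ne')
    (by rw [hdet', abs_of_pos hpos]; exact hlt)
  -- the forms
  have form : ∀ (A B d : ℝ) (n0 n1 n2 : ℝ), d ≠ 0 → p * A / d * n0 + -p * B / d * n1 +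
      (1 - (A * a - B * b) / d) * n2 =
      ((p * n0 - n2 * a) * A - (p * n1 - n2 * b) * B) / d + n2 := by
    intro A B d n0 n1 n2 hd
    field_simp
    ring
  have hLa : ∃ n0 n1 j : ℤ, (n0 ≠ 0 ∨ n1 ≠ 0 ∨ j ≠ 0) ∧ 0 ≤ j ∧
      |((p * n0 - j * a : ℝ) * (Y3 - Y2) - (p * n1 - j * b) * (X3 - X2)) / d₁ + j| ≤ p / 2 ∧
      |((p * n0 - j * a : ℝ) * (Y1 - Y3) - (p * n1 - j * b) * (X1 - X3)) / d₂ + j| ≤ p / 2 ∧
      |((p * n0 - j * a : ℝ) * (Y2 - Y1) - (p * n1 - j * b) * (X2 - X1)) / d₃ + j| ≤ p / 2 := by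
    have l0 := hL 0
    have l1 := hL 1
    have l2 := hL 2
    simp only [Fin.sum_univ_three, Matrix.of_apply, Matrix.cons_val', Matrix.cons_val_zero,
      Matrix.cons_val_one, Matrix.cons_val, Matrix.cons_val_fin_one] at l0 l1 l2
    rw [form _ _ _ _ _ _ p1'.ne'] at l0
    rw [form _ _ _ _ _ _ p2'.ne'] at l1
    rw [form _ _ _ _ _ _ p3'.ne'] at l2
    have hne : n 0 ≠ 0 ∨ n 1 ≠ 0 ∨ n 2 ≠ 0 := by
      by_contra h
      push Not at h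
      apply hn
      funext i
      fin_cases i
      · exact h.1
      · exact h.2.1
      · exact h.2.2
    rcases le_total 0 (n 2) with h | h
    · exact ⟨n 0, n 1, n 2, hne, h, l0, l1, l2⟩
    · refine ⟨-n 0, -n 1, -n 2, ?_, by omega, ?_, ?_, ?_⟩
      · simpa using hne
      · rw [← abs_neg] at l0
        convert l0 using 2
        push_cast
        ring
      · rw [← abs_neg] at l1
        convert l1 using 2
        push_cast
        ring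
      · rw [← abs_neg] at l2
        convert l2 using 2
        push_cast
        ring
  obtain ⟨n0, n1, j, hne, hj, l0, l1, l2⟩ := hLa
  rcases hj.eq_or_lt with hj0 | hjp
  · -- j = 0
    subst hj0
    simp only [Int.cast_zero, zero_mul, sub_zero, add_zero] at l0 l1 l2
    rw [abs_le, le_div_iff₀ p1', div_le_iff₀ p1'] at l0
    rw [abs_le, le_div_iff₀ p2', div_le_iff₀ p2'] at l1
    rw [abs_le, le_div_iff₀ p3', div_le_iff₀ p3'] at l2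
    have hstar : ∀ s t : ℤ,
        (p : ℝ) * ((s : ℝ) * (Y3 - Y2) - t * (X3 - X2)) ≤ p * (1 / 2 * d₁) →
        (p : ℝ) * ((s : ℝ) * (Y1 - Y3) - t * (X1 - X3)) ≤ p * (1 / 2 * d₂) →
        (p : ℝ) * ((s : ℝ) * (Y2 - Y1) - t * (X2 - X1)) ≤ p * (1 / 2 * d₃) →
        ∃ z : ℤ, ip (s, t, z) ∈ P := by
      intro s t c1 c2 c3
      obtain ⟨ζ, hζ⟩ := p_CH_star P hP X1 Y1 Z1 X2 Y2 Z2 X3 Y3 Z3 d₁ d₂ d₃ hv1' hv2' hv3' ht' hb'
        e1' e2' e3' p1' p2' p3' s t (1 / 2) 1 (le_of_mul_le_mul_left c1 hp')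
        (le_of_mul_le_mul_left c2 hp') (le_of_mul_le_mul_left c3 hp')
      refine ⟨round ζ, ?_⟩
      have h5 := hζ (round ζ - ζ) (by
        rw [abs_sub_comm]
        have := abs_sub_round ζ
        linarith)
      rw [one_smul] at h5
      simpa [ip] using h5
    refine ⟨(n0, n1), ?_, ?_, ?_⟩
    · intro h
      rw [Prod.mk_eq_zero] at h
      rcases hne with h' | h' | h'
      · exact h' h.1
      · exact h' h.2
      · exact h' rfl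
    · exact hstar n0 n1 (by linarith) (by linarith) (by linarith)
    · obtain ⟨z, hz⟩ := hstar (-n0) (-n1) (by push_cast; linarith) (by push_cast; linarith)
        (by push_cast; linarith)
      exact ⟨z, hz⟩
  · -- j > 0
    exfalso
    have hjR : (0 : ℝ) < j := by exact_mod_cast hjp
    have m0 := (abs_le.mp l0).2
    have m1 := (abs_le.mp l1).2
    have m2 := (abs_le.mp l2).2
    rw [← le_sub_iff_add_le, div_le_iff₀ p1'] at m0
    rw [← le_sub_iff_add_le, div_le_iff₀ p2'] at m1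
    rw [← le_sub_iff_add_le, div_le_iff₀ p3'] at m2
    have hjle : (j : ℝ) ≤ p / 2 := by
      have h5 : 0 ≤ ((p : ℝ) / 2 - j) * (d₁ + d₂ + d₃) := by linarith
      have h6 : (0 : ℝ) < (d₁ : ℝ) + d₂ + d₃ := by linarith
      have := nonneg_of_mul_nonneg_left h5 h6
      linarith
    have hjlt : j < p := by
      have : (j : ℝ) < p := by linarith
      exact_mod_cast this
    obtain ⟨ζ, hζ⟩ := p_CH_star P hP X1 Y1 Z1 X2 Y2 Z2 X3 Y3 Z3 d₁ d₂ d₃ hv1' hv2' hv3' ht' hb'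
      e1' e2' e3' p1' p2' p3' (p * n0 - j * a) (p * n1 - j * b) (p / 2 - j) (p - j) m0 m1 m2
    obtain ⟨r, hr⟩ : ∃ r : ℤ, r = round ((ζ + j * c) / p) := ⟨_, rfl⟩
    have h5 := hζ ((-j * c + p * r : ℝ) - ζ) (by
      have h6 := abs_sub_round ((ζ + j * c) / p)
      rw [← hr] at h6
      have h7 : (-j * c + p * r : ℝ) - ζ = -(p * ((ζ + j * c) / p - r)) := by
        field_simp
        ring
      rw [h7, abs_neg, abs_mul, abs_of_pos hp']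
      have h8 := mul_le_mul_of_nonneg_left h6 hp'.le
      linarith)
    obtain ⟨⟨u, v, w⟩, hq, hqe⟩ := h5
    simp only [Prod.smul_mk, smul_eq_mul, Prod.mk.injEq] at hqe
    obtain ⟨hq1, hq2, hq3⟩ := hqe
    obtain ⟨i, hi⟩ := Int.eq_ofNat_of_zero_le hj
    subst hi
    have hip : i < p := by exact_mod_cast hjlt
    have hi0 : 0 < i := by exact_mod_cast hjp
    have hc1 : ((p - i : ℕ) : ℝ) = (p : ℝ) - i := by rw [Nat.cast_sub hip.le]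
    have hc2 : ((p - i : ℕ) : ℤ) = (p : ℤ) - i := by rw [Nat.cast_sub hip.le]
    simp only [Int.cast_natCast] at hq1 hq2 hq3
    refine hC (p - i) (by omega) (by omega) (p * n0 - i * a) (p * n1 - i * b) (-i * c + p * r)
      u v w hq ?_ ?_ ?_ ?_ ?_ ?_
    · rw [hc1, hq1]
      push_cast
      ring
    · rw [hc1, hq2]
      push_cast
      ring
    · rw [hc1, hq3]
      push_cast
      ring
    · rw [hc2]
      exact ⟨n0 - a, by ring⟩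
    · rw [hc2]
      exact ⟨n1 - b, by ring⟩
    · rw [hc2]
      exact ⟨r - c, by ring⟩

end Pool.Agent.Lib.MP_0bc52e_nt.T
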