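import Pool.Agent.Lib.MP_0bc52e_nt.T.StmH

open scoped Pointwise

namespace Pool.Agent.Lib.MP_0bc52e_nt.T

open Pool.Agent.Lib.MP_0bc52e_nt.LC

theorem p_H_ipinj {v w : ℤ × ℤ × ℤ} (h : ip v = ip w) : v = w := by
  obtain ⟨a, b, c⟩ := v
  obtain ⟨a', b', c'⟩ := w
  simp only [ip, Prod.mk.injEq, Int.cast_inj] at h
  obtain ⟨h1, h2, h3⟩ := h
  rw [h1, h2, h3]

theorem p_H_inn {P Q : Set (ℝ × ℝ × ℝ)} (h : P ⊆ Q) {q : ℝ × ℝ × ℝ} (hq : Inn P q) : Inn Q q := by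
  intro d
  obtain ⟨ε, h1, h2⟩ := hq d
  exact ⟨ε, h1, h h2⟩

theorem p_H_cr {P Q : Set (ℝ × ℝ × ℝ)} (h : P ⊆ Q) {p : ℕ} (hq : Cr Q p) : Cr P p := by
  obtain ⟨a, b, c, hc⟩ := hq
  exact ⟨a, b, c, fun n h1 h2 x y z u v w hu => hc n h1 h2 x y z u v w (h hu)⟩

theorem p_H (h_H1 : S_H1) (h_HW : S_HW) (h_W8 : S_W8) (h_Mh : S_Mh) (h_fr1 : S_fr1) (h_fr2 : S_fr2)
    (h_frM : S_frM) : S_H := by
  intro P p hlp hpc hhol hp hcr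
  obtain ⟨V, hV, hVP⟩ := h_H1 P hlp hpc
  have hhV : Hollow (hull V) := fun v hv => hhol v (p_H_inn hVP hv)
  have key : ∃ f, IsFr f ∧ ∀ v ∈ V, ∃ w : ℤ × ℤ × ℤ, f (ip w) = ip v ∧ (w.1 = 0 ∨ w.1 = 1) := by
    by_cases hall : ∀ x : ℤ × ℤ × ℤ, ip x ∈ hull V → x ∈ V
    · exact h_W8 V ⟨hall, hV.ext⟩ hV.pc
    · push Not at hall
      obtain ⟨x, hx1, hx2⟩ := hall
      rcases h_HW V hV hhV x hx1 hx2 with h | ⟨f, hf, hMH⟩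
      · exact h
      · exfalso
        have h1 : Cr (f ⁻¹' P) p := (h_fr2 f hf P).2.2.2.1 p hcr
        exact h_Mh p hp (p_H_cr (hMH.trans (Set.preimage_mono hVP)) h1)
  obtain ⟨f, hf, hfV⟩ := key
  obtain ⟨V', hV'1, hV'2, hV'3, -, -⟩ := h_frM f hf V
  obtain ⟨g, hg, hgf, hfg⟩ := h_fr1.1 f hf
  refine ⟨f, hf, V', ?_, ?_⟩
  · intro w hw
    obtain ⟨v, hv, hwv⟩ := (hV'1 w).mp hw
    constructor
    · change f (ip w) ∈ P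
      rw [hwv]
      exact hVP (subset_convexHull ℝ _ ⟨v, hv, rfl⟩)
    · obtain ⟨w', hw', h01⟩ := hfV v hv
      have h2 : ip w = ip w' := by
        have h3 := congrArg g (hwv.trans hw'.symm)
        rwa [hgf, hgf] at h3
      rw [p_H_ipinj h2]
      exact h01
  · rw [hV'3]
    exact (h_fr2 f hf (hull V)).2.2.1 hV.pc

end Pool.Agent.Lib.MP_0bc52e_nt.T
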