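import Pool.Agent.Lib.MP_0bc52e_nt.T.StmH

namespace Pool.Agent.Lib.MP_0bc52e_nt.T

open Pool.Agent.Lib.MP_0bc52e_nt.LC

theorem p_H1_finite (P : Set (ℝ × ℝ × ℝ)) (hP : IsLP3 P) :
    {v : ℤ × ℤ × ℤ | ip v ∈ P}.Finite := by
  obtain ⟨V, rfl⟩ := hP
  have hb : Bornology.IsBounded (convexHull ℝ (ip '' (V : Set (ℤ × ℤ × ℤ)))) :=
    isBounded_convexHull.2 ((V.finite_toSet.image ip).isBounded)
  obtain ⟨R, hR⟩ := hb.exists_norm_le
  obtain ⟨N, hN⟩ := exists_nat_ge R
  refine (Set.finite_Icc ((-(N : ℤ), -(N : ℤ), -(N : ℤ)) : ℤ × ℤ × ℤ)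
    ((N : ℤ), (N : ℤ), (N : ℤ))).subset ?_
  rintro ⟨a, b, c⟩ hv
  have h1 : ‖ip (a, b, c)‖ ≤ N := (hR _ hv).trans hN
  have ha : ‖(a : ℝ)‖ ≤ N := (norm_fst_le (ip (a, b, c))).trans h1
  have hbc : ‖(ip (a, b, c)).2‖ ≤ N := (norm_snd_le (ip (a, b, c))).trans h1
  have hb' : ‖(b : ℝ)‖ ≤ N := (norm_fst_le (ip (a, b, c)).2).trans hbc
  have hc' : ‖(c : ℝ)‖ ≤ N := (norm_snd_le (ip (a, b, c)).2).trans hbc
  rw [Real.norm_eq_abs, abs_le] at ha hb' hc'
  have e1 : -(N : ℤ) ≤ a := by exact_mod_cast ha.1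
  have e2 : a ≤ (N : ℤ) := by exact_mod_cast ha.2
  have e3 : -(N : ℤ) ≤ b := by exact_mod_cast hb'.1
  have e4 : b ≤ (N : ℤ) := by exact_mod_cast hb'.2
  have e5 : -(N : ℤ) ≤ c := by exact_mod_cast hc'.1
  have e6 : c ≤ (N : ℤ) := by exact_mod_cast hc'.2
  exact ⟨⟨e1, e3, e5⟩, ⟨e2, e4, e6⟩⟩

theorem p_H1_inj {v w : ℤ × ℤ × ℤ} (h : ip v = ip w) : v = w := by
  obtain ⟨a, b, c⟩ := v
  obtain ⟨a', b', c'⟩ := w
  simp only [ip, Prod.mk.injEq, Int.cast_inj] at h
  obtain ⟨rfl, rfl, rfl⟩ := h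
  rfl

theorem p_H1_mem {V : Finset (ℤ × ℤ × ℤ)} {v : ℤ × ℤ × ℤ} (h : v ∈ V) : ip v ∈ hull V :=
  subset_convexHull ℝ _ ⟨v, h, rfl⟩

theorem p_H1_le {V : Finset (ℤ × ℤ × ℤ)} {Q : Set (ℝ × ℝ × ℝ)} (hQ : Convex ℝ Q)
    (h : ∀ v ∈ V, ip v ∈ Q) : hull V ⊆ Q := by
  apply convexHull_min _ hQ
  rintro _ ⟨v, hv, rfl⟩
  exact h v hv

/-- removing a vertex leaves a convex set -/
theorem p_H1_diff {V : Finset (ℤ × ℤ × ℤ)} {v : ℤ × ℤ × ℤ} (hv : v ∈ V)
    (hext : ip v ∉ hull (V.erase v)) : Convex ℝ (hull V \ {ip v}) := by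
  classical
  have hcv : Convex ℝ (hull V) := convex_convexHull ℝ _
  by_cases hne : (V.erase v).Nonempty
  · -- every point is on a segment from the vertex to the opposite part
    have hseg : ∀ y ∈ hull V, ∃ s : ℝ, ∃ b ∈ hull (V.erase v), 0 ≤ s ∧
        y = ip v + s • (b - ip v) := by
      intro y hy
      have e : ip '' (V : Set (ℤ × ℤ × ℤ)) =
          insert (ip v) (ip '' ((V.erase v : Finset (ℤ × ℤ × ℤ)) : Set (ℤ × ℤ × ℤ))) := by
        rw [← Set.image_insert_eq]
        congr 1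
        rw [← Finset.coe_insert, Finset.insert_erase hv]
      have hne' : (ip '' ((V.erase v : Finset (ℤ × ℤ × ℤ)) : Set (ℤ × ℤ × ℤ))).Nonempty := by
        obtain ⟨w, hw⟩ := hne
        exact ⟨ip w, w, hw, rfl⟩
      unfold hull at hy
      rw [e, convexHull_insert hne', mem_convexJoin] at hy
      obtain ⟨a, ha, b, hb, hyab⟩ := hy
      rw [Set.mem_singleton_iff] at ha
      subst ha
      rw [segment_eq_image'] at hyab
      obtain ⟨s, ⟨hs0, hs1⟩, rfl⟩ := hyab
      exact ⟨s, b, hb, hs0, rfl⟩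
    intro y hy z hz α β hα hβ hαβ
    refine ⟨hcv hy.1 hz.1 hα hβ hαβ, ?_⟩
    intro hcon
    rw [Set.mem_singleton_iff] at hcon
    obtain ⟨s, b, hb, hs, hyb⟩ := hseg y hy.1
    obtain ⟨t, c, hc, ht, hzc⟩ := hseg z hz.1
    have hs' : 0 < s := by
      rcases hs.lt_or_eq with h | h
      · exact h
      · exfalso
        apply hy.2
        rw [Set.mem_singleton_iff, hyb, ← h, zero_smul, add_zero]
    have ht' : 0 < t := by
      rcases ht.lt_or_eq with h | h
      · exact h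
      · exfalso
        apply hz.2
        rw [Set.mem_singleton_iff, hzc, ← h, zero_smul, add_zero]
    have hsum : (α * s) • (b - ip v) + (β * t) • (c - ip v) = 0 := by
      have h1 : α • y + β • z = ip v + ((α * s) • (b - ip v) + (β * t) • (c - ip v)) := by
        rw [hyb, hzc, smul_add, smul_add, smul_smul, smul_smul]
        have : α • ip v + β • ip v = ip v := by rw [← add_smul, hαβ, one_smul]
        rw [add_add_add_comm, this]
      rw [h1] at hcon
      exact left_eq_add.1 hcon.symm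
    have hA : 0 ≤ α * s := mul_nonneg hα hs
    have hB : 0 ≤ β * t := mul_nonneg hβ ht
    have hpos : 0 < α * s + β * t := by
      rcases hα.lt_or_eq with h | h
      · have := mul_pos h hs'
        linarith
      · have hβ1 : β = 1 := by linarith
        rw [← h, hβ1]
        linarith
    apply hext
    have hconv : Convex ℝ (hull (V.erase v)) := convex_convexHull ℝ _
    have h2 := hconv hb hc (div_nonneg hA hpos.le) (div_nonneg hB hpos.le)
      (by rw [← add_div, div_self hpos.ne'])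
    have h3 : (α * s / (α * s + β * t)) • b + (β * t / (α * s + β * t)) • c = ip v := by
      have h4 : (α * s) • b + (β * t) • c = (α * s + β * t) • ip v := by
        rw [smul_sub, smul_sub] at hsum
        have : (α * s) • b + (β * t) • c - ((α * s + β * t) • ip v) = 0 := by
          rw [add_smul, ← hsum]; abel
        exact sub_eq_zero.1 this
      rw [div_eq_inv_mul, div_eq_inv_mul, mul_smul _ (α * s), mul_smul _ (β * t), ← smul_add, h4,
        smul_smul, inv_mul_cancel₀ hpos.ne', one_smul]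
    rwa [h3] at h2
  · rw [Finset.not_nonempty_iff_eq_empty] at hne
    have : V = {v} := by
      rw [← Finset.insert_erase hv, hne]; rfl
    rw [this]
    have e : hull ({v} : Finset (ℤ × ℤ × ℤ)) \ {ip v} = ∅ := by
      rw [hull]
      simp
    rw [e]
    exact convex_empty

theorem p_H1 : S_H1 := by
  classical
  intro P hP hpc
  have hPc : Convex ℝ P := by
    obtain ⟨V, rfl⟩ := hP
    exact convex_convexHull ℝ _
  have hfin := p_H1_finite P hP
  set A : Finset (ℤ × ℤ × ℤ) := hfin.toFinset with hA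
  have hmemA : ∀ v, v ∈ A ↔ ip v ∈ P := fun v => by
    rw [hA, Set.Finite.mem_toFinset]; rfl
  -- the good subsets
  let G : Finset (ℤ × ℤ × ℤ) → Prop := fun W => (∀ x, ip x ∈ hull W → x ∈ W) ∧
    ∀ a b c : ℤ, ∃ w ∈ W, (2 : ℤ) ∣ w.1 - a ∧ (2 : ℤ) ∣ w.2.1 - b ∧ (2 : ℤ) ∣ w.2.2 - c
  have hGA : G A := by
    refine ⟨fun x hx => (hmemA x).2 (p_H1_le hPc (fun v hv => (hmemA v).1 hv) hx), ?_⟩
    intro a b c
    obtain ⟨x, y, z, h, h1, h2, h3⟩ := hpc a b c
    exact ⟨(x, y, z), (hmemA _).2 h, h1, h2, h3⟩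
  obtain ⟨W, hW, hWmin⟩ := Finset.exists_min_image (A.powerset.filter G) Finset.card
    ⟨A, by rw [Finset.mem_filter, Finset.mem_powerset]; exact ⟨subset_rfl, hGA⟩⟩
  rw [Finset.mem_filter, Finset.mem_powerset] at hW
  obtain ⟨hWA, hWsat, hWcl⟩ := hW
  obtain ⟨V, hV, hVmin⟩ := Finset.exists_min_image (W.powerset.filter fun V => hull V = hull W)
    Finset.card ⟨W, by rw [Finset.mem_filter, Finset.mem_powerset]; exact ⟨subset_rfl, rfl⟩⟩
  rw [Finset.mem_filter, Finset.mem_powerset] at hV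
  obtain ⟨hVW, hVhull⟩ := hV
  have hext : ∀ v ∈ V, ip v ∉ hull (V.erase v) := by
    intro v hv hcon
    have h1 : hull (V.erase v) = hull W := by
      rw [← hVhull]
      apply Set.Subset.antisymm
      · exact p_H1_le (convex_convexHull ℝ _) fun w hw => p_H1_mem (Finset.mem_of_mem_erase hw)
      · refine p_H1_le (convex_convexHull ℝ _) fun w hw => ?_
        by_cases hwv : w = v
        · rw [hwv]; exact hcon
        · exact p_H1_mem (Finset.mem_erase.2 ⟨hwv, hw⟩)
    have h2 := hVmin (V.erase v) (by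
      rw [Finset.mem_filter, Finset.mem_powerset]
      exact ⟨(Finset.erase_subset _ _).trans hVW, h1⟩)
    have h3 := Finset.card_erase_lt_of_mem hv
    omega
  refine ⟨V, ⟨?_, hext, ?_⟩, ?_⟩
  · intro a b c
    obtain ⟨w, hw, h1, h2, h3⟩ := hWcl a b c
    refine ⟨w.1, w.2.1, w.2.2, ?_, h1, h2, h3⟩
    rw [hVhull]
    exact p_H1_mem hw
  · intro v hv x hx h1 h2 h3
    by_contra hxv
    have hxW : x ∈ W := hWsat x (hVhull ▸ hx)
    have hnot : ip v ∉ hull (W.erase v) := by
      have hsub : hull (W.erase v) ⊆ hull V \ {ip v} := by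
        refine p_H1_le (p_H1_diff hv (hext v hv)) fun w hw => ⟨?_, ?_⟩
        · rw [hVhull]
          exact p_H1_mem (Finset.mem_of_mem_erase hw)
        · intro h
          exact (Finset.ne_of_mem_erase hw) (p_H1_inj h)
      intro h
      exact (hsub h).2 rfl
    have hG : G (W.erase v) := by
      refine ⟨fun y hy => ?_, fun a b c => ?_⟩
      · refine Finset.mem_erase.2 ⟨?_, ?_⟩
        · rintro rfl
          exact hnot hy
        · apply hWsat
          exact p_H1_le (convex_convexHull ℝ _)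
            (fun w hw => p_H1_mem (Finset.mem_of_mem_erase hw)) hy
      · obtain ⟨w, hw, g1, g2, g3⟩ := hWcl a b c
        by_cases hwv : w = v
        · subst hwv
          refine ⟨x, Finset.mem_erase.2 ⟨hxv, hxW⟩, ?_, ?_, ?_⟩
          · have := dvd_add h1 g1
            rwa [sub_add_sub_cancel] at this
          · have := dvd_add h2 g2
            rwa [sub_add_sub_cancel] at this
          · have := dvd_add h3 g3
            rwa [sub_add_sub_cancel] at this
        · exact ⟨w, Finset.mem_erase.2 ⟨hwv, hw⟩, g1, g2, g3⟩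
    have h4 := hWmin (W.erase v) (by
      rw [Finset.mem_filter, Finset.mem_powerset]
      exact ⟨(Finset.erase_subset _ _).trans hWA, hG⟩)
    have h5 := Finset.card_erase_lt_of_mem (hVW hv)
    omega
  · rw [hVhull]
    exact p_H1_le hPc fun w hw => (hmemA w).1 (hWA hw)

end Pool.Agent.Lib.MP_0bc52e_nt.T
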