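import Pool.Agent.Lib.MP_0bc52e_nt.T.StmH

/-!
# MP_0bc52e_nt, theorem (T163), piece H2
-/

namespace Pool.Agent.Lib.MP_0bc52e_nt.T

open Pool.Agent.Lib.MP_0bc52e_nt.LC

private theorem p_H2_ip_inj {a b : ℤ × ℤ × ℤ} (h : ip a = ip b) : a = b := by
  simp only [ip, Prod.mk.injEq, Int.cast_inj] at h
  obtain ⟨h1, h2, h3⟩ := h
  ext <;> assumption

private theorem p_H2_inn {s : Set (ℝ × ℝ × ℝ)} {q : ℝ × ℝ × ℝ} (h : q ∈ interior s) : Inn s q := by
  intro d
  have hc : Continuous (fun ε : ℝ => q + ε • d) := by fun_prop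
  have h0 : (fun ε : ℝ => q + ε • d) 0 ∈ interior s := by simpa using h
  have hn : (fun ε : ℝ => q + ε • d) ⁻¹' interior s ∈ nhds (0 : ℝ) :=
    hc.continuousAt.preimage_mem_nhds (isOpen_interior.mem_nhds h0)
  obtain ⟨δ, hδ, hsub⟩ := Metric.mem_nhds_iff.mp hn
  refine ⟨δ / 2, by positivity, interior_subset (hsub ?_)⟩
  rw [Metric.mem_ball, Real.dist_eq, sub_zero, abs_of_pos (by positivity)]
  linarith

private theorem p_H2_car {s : Set (ℝ × ℝ × ℝ)} {x : ℝ × ℝ × ℝ} (hx : x ∈ convexHull ℝ s) :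
    ∃ (n : ℕ) (z : Fin n → ℝ × ℝ × ℝ) (w : Fin n → ℝ), n ≤ 4 ∧ (∀ i, z i ∈ s) ∧
      AffineIndependent ℝ z ∧ (∀ i, 0 < w i) ∧ ∑ i, w i = 1 ∧ ∑ i, w i • z i = x := by
  obtain ⟨ι, hι, z, w, hz, hind, hw, hw1, hwx⟩ := eq_pos_convex_span_of_mem_convexHull hx
  have hcard : Fintype.card ι ≤ 4 := by
    have h1 := hind.card_le_finrank_succ
    have h2 := Submodule.finrank_le (vectorSpan ℝ (Set.range z))
    have h3 : Module.finrank ℝ (ℝ × ℝ × ℝ) = 3 := by simp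
    omega
  refine ⟨Fintype.card ι, z ∘ (Fintype.equivFin ι).symm, w ∘ (Fintype.equivFin ι).symm, hcard,
    fun i => hz ⟨_, rfl⟩, hind.comp_embedding (Fintype.equivFin ι).symm.toEmbedding,
    fun i => hw _, ?_, ?_⟩
  · rw [← hw1]
    exact Equiv.sum_comp (Fintype.equivFin ι).symm w
  · rw [← hwx]
    exact Equiv.sum_comp (Fintype.equivFin ι).symm (fun i => w i • z i)

private theorem p_H2_four {z : Fin 4 → ℝ × ℝ × ℝ} {w : Fin 4 → ℝ} {x : ℝ × ℝ × ℝ}
    (hind : AffineIndependent ℝ z) (hw : ∀ i, 0 < w i) (hw1 : ∑ i, w i = 1)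
    (hwx : ∑ i, w i • z i = x) : x ∈ interior (convexHull ℝ (Set.range z)) := by
  have htop : affineSpan ℝ (Set.range z) = ⊤ := by
    rw [hind.affineSpan_eq_top_iff_card_eq_finrank_add_one]
    simp
  let b : AffineBasis (Fin 4) ℝ (ℝ × ℝ × ℝ) := ⟨z, hind, htop⟩
  have hb : (b : Fin 4 → ℝ × ℝ × ℝ) = z := rfl
  have h1 := AffineBasis.interior_convexHull b
  rw [hb] at h1
  rw [h1]
  intro i
  have h2 : x = Finset.univ.affineCombination ℝ b w := by
    rw [Finset.univ.affineCombination_eq_linear_combination _ _ hw1, hb, hwx]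
  rw [h2, AffineBasis.coord_apply_combination_of_mem b (Finset.mem_univ i) hw1]
  exact hw i

private theorem p_H2_dep {p q : ℝ × ℝ × ℝ} (h1 : p.2.1 * q.2.2 - p.2.2 * q.2.1 = 0)
    (h2 : p.2.2 * q.1 - p.1 * q.2.2 = 0) (h3 : p.1 * q.2.1 - p.2.1 * q.1 = 0) :
    ∃ s t : ℝ, (s ≠ 0 ∨ t ≠ 0) ∧ s • p + t • q = 0 := by
  by_cases hp1 : p.1 = 0
  · by_cases hp2 : p.2.1 = 0
    · by_cases hp3 : p.2.2 = 0
      · refine ⟨1, 0, Or.inl one_ne_zero, ?_⟩
        ext <;> simp [hp1, hp2, hp3]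
      · refine ⟨q.2.2, -p.2.2, Or.inr (neg_ne_zero.mpr hp3), ?_⟩
        ext <;> simp <;> linarith
    · refine ⟨q.2.1, -p.2.1, Or.inr (neg_ne_zero.mpr hp2), ?_⟩
      ext <;> simp <;> linarith
  · refine ⟨q.1, -p.1, Or.inr (neg_ne_zero.mpr hp1), ?_⟩
    ext <;> simp <;> linarith

private theorem p_H2_lin {a1 a2 b1 b2 c1 c2 x1 x2 w0 w1 w2 : ℝ} (hw : w0 + w1 + w2 = 1)
    (h1 : w0 * a1 + w1 * b1 + w2 * c1 = x1) (h2 : w0 * a2 + w1 * b2 + w2 * c2 = x2)
    (hc : (a1 - x1) * (b2 - x2) - (a2 - x2) * (b1 - x1) = 0) (hw2 : w2 ≠ 0) :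
    (b1 - a1) * (c2 - a2) - (b2 - a2) * (c1 - a1) = 0 := by
  apply mul_left_cancel₀ hw2
  rw [mul_zero, ← hc]
  linear_combination (b1 - a1) * h2 - (b2 - a2) * h1 - (b1 * a2 - a1 * b2) * hw

theorem p_H2 (h_segM : S_segM) (h_triM : S_triM) : S_H2 := by
  intro V hV x hx hxV
  obtain ⟨n, z, w, hn, hz, hind, hw, hw1, hwx⟩ := p_H2_car hx
  choose a ha1 ha2 using hz
  have haV : ∀ i, a i ∈ V := fun i => Finset.mem_coe.mp (ha1 i)
  have hainj : Function.Injective a := by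
    intro i j hij
    apply hind.injective
    rw [← ha2 i, ← ha2 j, hij]
  interval_cases n
  · simp at hw1
  · exfalso
    apply hxV
    have : ip x = ip (a 0) := by
      rw [← hwx, ha2 0]
      simp only [Finset.univ_unique, Fin.default_eq_zero, Fin.isValue, Finset.sum_singleton] at hw1 ⊢
      rw [hw1, one_smul]
    rw [p_H2_ip_inj this]
    exact haV 0
  · exfalso
    rw [Fin.sum_univ_two] at hw1 hwx
    refine h_segM V hV (a 0) (haV 0) (a 1) (haV 1) x (w 1) (hw 1) ?_ ?_ ?_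
    · linarith [hw 0]
    · intro h
      exact absurd (hainj h) (by decide)
    · rw [← hwx, ha2 0, ha2 1]
      congr 2
      linarith
  · right
    rw [Fin.sum_univ_three] at hw1 hwx
    refine ⟨a 0, haV 0, a 1, haV 1, a 2, haV 2, h_triM V hV (a 0) (haV 0) (a 1) (haV 1) (a 2)
      (haV 2) x (w 0) (w 1) (w 2) (hw 0) (hw 1) (hw 2) hw1 ?_ ?_⟩
    · rw [← hwx, ha2 0, ha2 1, ha2 2]
    · intro hcr
      simp only [cr, Prod.mk_eq_zero, Prod.fst_sub, Prod.snd_sub] at hcr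
      obtain ⟨c1, c2, c3⟩ := hcr
      have C1 : ((a 0).2.1 - x.2.1 : ℝ) * ((a 1).2.2 - x.2.2) -
        ((a 0).2.2 - x.2.2) * ((a 1).2.1 - x.2.1) = 0 := by exact_mod_cast c1
      have C2 : ((a 0).2.2 - x.2.2 : ℝ) * ((a 1).1 - x.1) -
        ((a 0).1 - x.1) * ((a 1).2.2 - x.2.2) = 0 := by exact_mod_cast c2
      have C3 : ((a 0).1 - x.1 : ℝ) * ((a 1).2.1 - x.2.1) -
        ((a 0).2.1 - x.2.1) * ((a 1).1 - x.1) = 0 := by exact_mod_cast c3
      rw [← ha2 0, ← ha2 1, ← ha2 2] at hwx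
      have e1 : w 0 * (a 0).1 + w 1 * (a 1).1 + w 2 * (a 2).1 = (x.1 : ℝ) := by
        have := congrArg Prod.fst hwx
        simpa [ip] using this
      have e2 : w 0 * (a 0).2.1 + w 1 * (a 1).2.1 + w 2 * (a 2).2.1 = (x.2.1 : ℝ) := by
        have := congrArg (fun v => v.2.1) hwx
        simpa [ip] using this
      have e3 : w 0 * (a 0).2.2 + w 1 * (a 1).2.2 + w 2 * (a 2).2.2 = (x.2.2 : ℝ) := by
        have := congrArg (fun v => v.2.2) hwx
        simpa [ip] using this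
      have hw2 := (hw 2).ne'
      obtain ⟨s, t, hst, hsum⟩ := p_H2_dep (p := z 1 - z 0) (q := z 2 - z 0) (by
        rw [← ha2 0, ← ha2 1, ← ha2 2]
        exact p_H2_lin hw1 e2 e3 C1 hw2) (by
        rw [← ha2 0, ← ha2 1, ← ha2 2]
        exact p_H2_lin hw1 e3 e1 C2 hw2) (by
        rw [← ha2 0, ← ha2 1, ← ha2 2]
        exact p_H2_lin hw1 e1 e2 C3 hw2)
      rw [affineIndependent_iff] at hind
      have h5 := hind Finset.univ ![-(s + t), s, t] (by simp [Fin.sum_univ_three]) (by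
        rw [Fin.sum_univ_three]
        simp only [Matrix.cons_val_zero, Matrix.cons_val_one, Matrix.cons_val]
        rw [← hsum]
        module)
      have h6 : s = 0 := by simpa using h5 1 (Finset.mem_univ _)
      have h7 : t = 0 := by simpa using h5 2 (Finset.mem_univ _)
      rcases hst with h | h
      · exact h h6
      · exact h h7
  · left
    apply p_H2_inn
    refine interior_mono (convexHull_mono ?_) (p_H2_four hind hw hw1 hwx)
    rintro _ ⟨i, rfl⟩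
    exact ⟨a i, ha1 i, ha2 i⟩

end Pool.Agent.Lib.MP_0bc52e_nt.T
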