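import Pool.Agent.Lib.MP_0bc52e_nt.T.StmH

/-!
Piece HW: the integer points of a minimal configuration with an integer point that is not a vertex.
-/

namespace Pool.Agent.Lib.MP_0bc52e_nt.T

open Pool.Agent.Lib.MP_0bc52e_nt.LC

/-- A set with three points at height `0` and all points at height `0` does not meet all classes. -/
private theorem p_HW_height (V : Finset (ℤ × ℤ × ℤ)) (h : PC3 (hull V)) :
    ∃ v ∈ V, v.2.2 ≠ 0 := by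
  by_contra hc
  push Not at hc
  obtain ⟨x, y, z, hin, -, -, hz⟩ := h 0 0 1
  have hsub : hull V ⊆ {v : ℝ × ℝ × ℝ | v.2.2 = 0} := by
    refine convexHull_min ?_ ?_
    · rintro _ ⟨v, hv, rfl⟩
      show ((v.2.2 : ℤ) : ℝ) = 0
      rw [hc v hv]
      norm_num
    · intro u hu v hv a b _ _ _
      show a * u.2.2 + b * v.2.2 = 0
      rw [hu, hv]
      ring
  have h0 : ((z : ℤ) : ℝ) = 0 := hsub hin
  have h1 : z = 0 := by exact_mod_cast h0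
  rw [h1] at hz
  omega

private theorem p_HW_core (h_frM : S_frM) (h_fr1 : S_fr1) (h_fr2 : S_fr2) (h_W0 : S_W0)
    (h_Wh : S_Wh) (h_nrm3 : S_nrm3) (h_WMH : S_WMH) (V : Finset (ℤ × ℤ × ℤ)) (hV : Mini V)
    (hH : Hollow (hull V)) (f : ℝ × ℝ × ℝ → ℝ × ℝ × ℝ) (hf : IsFr f)
    (h1 : ∃ a ∈ V, f (ip (1, 0, 0)) = ip a) (h2 : ∃ a ∈ V, f (ip (0, 1, 0)) = ip a)
    (h3 : ∃ a ∈ V, f (ip (-1, -1, 0)) = ip a)
    (h4 : ∃ w : ℤ × ℤ × ℤ, 0 < w.2.2 ∧ ∃ a ∈ V, f (ip w) = ip a) :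
    (∃ f, IsFr f ∧ ∀ v ∈ V, ∃ w : ℤ × ℤ × ℤ, f (ip w) = ip v ∧ (w.1 = 0 ∨ w.1 = 1)) ∨
      ∃ f, IsFr f ∧ hull MH ⊆ f ⁻¹' (hull V) := by
  obtain ⟨V₁, hmem, hsurj, hhull, hmini, -⟩ := h_frM f hf V
  have hM := hmini hV
  have hHo : Hollow (hull V₁) := by
    rw [hhull]
    exact (h_fr2 f hf (hull V)).2.2.2.2.2.1 hH
  have hW : WIn V₁ := ⟨(hmem _).2 h1, (hmem _).2 h2, (hmem _).2 h3⟩
  have hpos : ∃ v ∈ V₁, 0 < v.2.2 := by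
    obtain ⟨w, hw, hw'⟩ := h4
    exact ⟨w, (hmem _).2 hw', hw⟩
  by_cases hu : ∃ u ∈ V₁, u.2.2 = 3
  · obtain ⟨u, huV, hu3⟩ := hu
    have hc := h_Wh V₁ hM hHo hW hpos u huV (by omega)
    have hc' : (((3 : ℤ) ∣ u.1 - 1 ∧ (3 : ℤ) ∣ u.2.1 + 1) ∨
        ((3 : ℤ) ∣ u.1 + 1 ∧ (3 : ℤ) ∣ u.2.1 - 1)) := by
      rcases hc with hc | hc
      · omega
      · exact hc.2
    obtain ⟨k, hk, hku, -, hkw, hk3⟩ := h_nrm3 u hu3 hc'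
    have hfk : IsFr (fun v => f (k v)) := h_fr1.2.1 f k hf hk
    obtain ⟨V₂, hmem2, -, hhull2, hmini2, -⟩ := h_frM (fun v => f (k v)) hfk V
    right
    refine ⟨fun v => f (k v), hfk, ?_⟩
    rw [← hhull2]
    refine h_WMH V₂ (hmini2 hV) ?_ ⟨(hmem2 _).2 ?_, (hmem2 _).2 ?_, (hmem2 _).2 ?_⟩
      ((hmem2 _).2 ?_)
    · rw [hhull2]
      exact (h_fr2 _ hfk (hull V)).2.2.2.2.2.1 hH
    · rcases hkw with ⟨e1, e2⟩ | ⟨e1, e2⟩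
      · simpa only [e1] using h1
      · simpa only [e1] using h2
    · rcases hkw with ⟨e1, e2⟩ | ⟨e1, e2⟩
      · simpa only [e2] using h2
      · simpa only [e2] using h1
    · simpa only [hk3] using h3
    · simpa only [hku] using (hmem u).1 huV
  · left
    refine ⟨fun v => f ((fun w : ℝ × ℝ × ℝ => (w.2.1, w.2.2, w.1)) v), h_fr1.2.1 f _ hf ?_, ?_⟩
    · refine ⟨0, (0, 0, 1), (1, 0, 0), (0, 1, 0), Or.inl ?_, fun v => ?_⟩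
      · simp [det3]
      · simp [fr]
    · intro v hv
      obtain ⟨w, hw, hwv⟩ := hsurj v hv
      refine ⟨(w.2.2, w.1, w.2.1), ?_, ?_⟩
      · show f (ip w) = ip v
        exact hwv
      · show w.2.2 = 0 ∨ w.2.2 = 1
        rcases h_W0 V₁ hM hHo hW hpos w hw with e | e | e | ⟨e, -⟩
        · left
          rw [e]
        · left
          rw [e]
        · left
          rw [e]
        · rcases h_Wh V₁ hM hHo hW hpos w hw e with e' | e'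
          · right
            exact e'
          · exact absurd ⟨w, hw, e'.1⟩ hu

theorem p_HW (h_H2 : S_H2) (h_frM : S_frM) (h_fr1 : S_fr1) (h_fr2 : S_fr2) (h_W0 : S_W0)
    (h_Wh : S_Wh) (h_nrm3 : S_nrm3) (h_WMH : S_WMH) : S_HW := by
  intro V hV hH x hx hxV
  rcases h_H2 V hV x hx hxV with hI | ⟨a₁, ha₁, a₂, ha₂, a₃, ha₃, hsum, c, hc⟩
  · exact absurd hI (hH x)
  have hf : IsFr (fr x (a₁ - x) (a₂ - x) c) := ⟨x, a₁ - x, a₂ - x, c, Or.inl hc, fun v => rfl⟩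
  have e1 : a₁.1 + a₂.1 + a₃.1 = x.1 + x.1 + x.1 := congrArg (fun v : ℤ × ℤ × ℤ => v.1) hsum
  have e2 : a₁.2.1 + a₂.2.1 + a₃.2.1 = x.2.1 + x.2.1 + x.2.1 :=
    congrArg (fun v : ℤ × ℤ × ℤ => v.2.1) hsum
  have e3 : a₁.2.2 + a₂.2.2 + a₃.2.2 = x.2.2 + x.2.2 + x.2.2 :=
    congrArg (fun v : ℤ × ℤ × ℤ => v.2.2) hsum
  have e1' : (a₁.1 : ℝ) + a₂.1 + a₃.1 = x.1 + x.1 + x.1 := by exact_mod_cast e1
  have e2' : (a₁.2.1 : ℝ) + a₂.2.1 + a₃.2.1 = x.2.1 + x.2.1 + x.2.1 := by exact_mod_cast e2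
  have e3' : (a₁.2.2 : ℝ) + a₂.2.2 + a₃.2.2 = x.2.2 + x.2.2 + x.2.2 := by exact_mod_cast e3
  have hA : ∀ s : ℤ, fr x (a₁ - x) (a₂ - x) c (ip (1, 0, s * 0)) = ip a₁ := by
    intro s
    simp [fr, ip]
  have hB : fr x (a₁ - x) (a₂ - x) c (ip (0, 1, 0)) = ip a₂ := by
    simp [fr, ip]
  have hA : fr x (a₁ - x) (a₂ - x) c (ip (1, 0, 0)) = ip a₁ := by
    simp [fr, ip]
  have hC : fr x (a₁ - x) (a₂ - x) c (ip (-1, -1, 0)) = ip a₃ := by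
    simp only [fr, ip, Prod.fst_sub, Prod.snd_sub, Int.cast_sub, Int.cast_neg, Int.cast_one,
      Int.cast_zero, Prod.mk.injEq]
    refine ⟨?_, ?_, ?_⟩ <;> linarith
  obtain ⟨V₁, hmem, -, hhull, hmini, -⟩ := h_frM _ hf V
  obtain ⟨v, hv, hv0⟩ := p_HW_height V₁ (hmini hV).pc
  rcases lt_or_gt_of_ne hv0 with hneg | hpos
  · have hr : IsFr (fun w : ℝ × ℝ × ℝ => (w.1, w.2.1, -w.2.2)) := by
      refine ⟨0, (1, 0, 0), (0, 1, 0), (0, 0, -1), Or.inr ?_, fun v => ?_⟩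
      · simp [det3]
      · simp [fr]
    refine p_HW_core h_frM h_fr1 h_fr2 h_W0 h_Wh h_nrm3 h_WMH V hV hH
      (fun w => fr x (a₁ - x) (a₂ - x) c ((fun w : ℝ × ℝ × ℝ => (w.1, w.2.1, -w.2.2)) w))
      (h_fr1.2.1 _ _ hf hr) ⟨a₁, ha₁, ?_⟩ ⟨a₂, ha₂, ?_⟩ ⟨a₃, ha₃, ?_⟩
      ⟨(v.1, v.2.1, -v.2.2), ?_, ?_⟩
    · rw [← hA]
      simp [ip]
    · rw [← hB]
      simp [ip]
    · rw [← hC]
      simp [ip]
    · show 0 < -v.2.2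
      omega
    · obtain ⟨a, ha, hav⟩ := (hmem v).1 hv
      refine ⟨a, ha, ?_⟩
      rw [← hav]
      simp [ip]
  · exact p_HW_core h_frM h_fr1 h_fr2 h_W0 h_Wh h_nrm3 h_WMH V hV hH _ hf ⟨a₁, ha₁, hA⟩
      ⟨a₂, ha₂, hB⟩ ⟨a₃, ha₃, hC⟩ ⟨v, hpos, (hmem v).1 hv⟩

end Pool.Agent.Lib.MP_0bc52e_nt.T
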