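import Pool.Agent.Lib.MP_0bc52e_nt.T.StmN

namespace Pool.Agent.Lib.MP_0bc52e_nt.T

open Pool.Agent.Lib.MP_0bc52e_nt.LC

private theorem p_J2_conv {Q : Set (ℝ × ℝ)} (hQ : Convex ℝ Q) {p q r : ℝ × ℝ} (hp : p ∈ Q)
    (hq : q ∈ Q) (hr : r ∈ Q) {α β γ : ℝ} (hα : 0 ≤ α) (hβ : 0 ≤ β) (hγ : 0 ≤ γ)
    (h : α + β + γ = 1) : α • p + β • q + γ • r ∈ Q := by
  have h1 := hQ.sum_mem (t := (Finset.univ : Finset (Fin 3))) (w := ![α, β, γ])
    (z := ![p, q, r]) (by
      intro i _
      fin_cases i
      · exact hα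
      · exact hβ
      · exact hγ) (by
      rw [Fin.sum_univ_three]
      exact h) (by
      intro i _
      fin_cases i
      · exact hp
      · exact hq
      · exact hr)
  rw [Fin.sum_univ_three] at h1
  exact h1

/-- the point `O + X` with `d X = s a + t b` -/
private theorem p_J2_comb {Q : Set (ℝ × ℝ)} (hQ : Convex ℝ Q) {P A B X : ℤ × ℤ} {d s t : ℤ}
    (hP : ip2 P ∈ Q) (hA : ip2 (P + A) ∈ Q) (hB : ip2 (P + B) ∈ Q) (hd : 0 < d) (hs : 0 ≤ s)
    (ht : 0 ≤ t) (hst : s + t ≤ d) (h1 : d * X.1 = s * A.1 + t * B.1)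
    (h2 : d * X.2 = s * A.2 + t * B.2) : ip2 (P + X) ∈ Q := by
  have hd' : (0 : ℝ) < d := by exact_mod_cast hd
  have hs' : (0 : ℝ) ≤ s := by exact_mod_cast hs
  have ht' : (0 : ℝ) ≤ t := by exact_mod_cast ht
  have hst' : (s : ℝ) + t ≤ d := by exact_mod_cast hst
  have h1' : (d : ℝ) * X.1 = s * A.1 + t * B.1 := by exact_mod_cast h1
  have h2' : (d : ℝ) * X.2 = s * A.2 + t * B.2 := by exact_mod_cast h2
  have h3 := p_J2_conv hQ hP hA hB (α := (d - s - t) / d) (β := s / d) (γ := t / d)
    (div_nonneg (by linarith) hd'.le) (div_nonneg hs' hd'.le) (div_nonneg ht' hd'.le)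
    (by field_simp; ring)
  have h4 : ((d - s - t) / d : ℝ) • ip2 P + (s / d : ℝ) • ip2 (P + A) + (t / d : ℝ) • ip2 (P + B) =
      ip2 (P + X) := by
    refine Prod.ext ?_ ?_
    · simp only [ip2, Prod.fst_add, Prod.smul_fst, smul_eq_mul, Int.cast_add]
      field_simp
      linear_combination -h1'
    · simp only [ip2, Prod.snd_add, Prod.smul_snd, smul_eq_mul, Int.cast_add]
      field_simp
      linear_combination -h2'
  rw [h4] at h3
  exact h3

private theorem p_J2_org {Q : Set (ℝ × ℝ)} (hQ : Convex ℝ Q) {P A B C : ℤ × ℤ}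
    (hA : ip2 (P + A) ∈ Q) (hB : ip2 (P + B) ∈ Q) (hC : ip2 (P + C) ∈ Q) (h1 : 0 < det2 A B)
    (h2 : 0 < det2 B C) (h3 : 0 < det2 C A) : ip2 P ∈ Q := by
  have h1' : (0 : ℝ) < det2 A B := by exact_mod_cast h1
  have h2' : (0 : ℝ) < det2 B C := by exact_mod_cast h2
  have h3' : (0 : ℝ) < det2 C A := by exact_mod_cast h3
  have hS : (0 : ℝ) < det2 B C + det2 C A + det2 A B := by linarith
  have h4 := p_J2_conv hQ hA hB hC (α := det2 B C / (det2 B C + det2 C A + det2 A B))
    (β := det2 C A / (det2 B C + det2 C A + det2 A B))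
    (γ := det2 A B / (det2 B C + det2 C A + det2 A B))
    (div_nonneg h2'.le hS.le) (div_nonneg h3'.le hS.le) (div_nonneg h1'.le hS.le)
    (by rw [← add_div, ← add_div, div_self hS.ne'])
  have e1 : (det2 B C : ℝ) * A.1 + det2 C A * B.1 + det2 A B * C.1 = 0 := by
    unfold det2
    push_cast
    ring
  have e2 : (det2 B C : ℝ) * A.2 + det2 C A * B.2 + det2 A B * C.2 = 0 := by
    unfold det2
    push_cast
    ring
  have h5 : (det2 B C / (det2 B C + det2 C A + det2 A B) : ℝ) • ip2 (P + A) +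
      (det2 C A / (det2 B C + det2 C A + det2 A B) : ℝ) • ip2 (P + B) +
      (det2 A B / (det2 B C + det2 C A + det2 A B) : ℝ) • ip2 (P + C) = ip2 P := by
    refine Prod.ext ?_ ?_
    · simp only [ip2, Prod.fst_add, Prod.smul_fst, smul_eq_mul, Int.cast_add]
      field_simp
      linear_combination e1
    · simp only [ip2, Prod.snd_add, Prod.smul_snd, smul_eq_mul, Int.cast_add]
      field_simp
      linear_combination e2
  rw [h5] at h4
  exact h4

private theorem p_J2_one {Q : Set (ℝ × ℝ)} {P A B C : ℤ × ℤ}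
    (hA : ip2 (P + A) ∈ Q) (hB : ip2 (P + B) ∈ Q) (hC : ip2 (P + C) ∈ Q) (h1 : det2 A B = 1)
    (h2 : det2 B C = 1) (h3 : det2 C A = 1) :
    ∃ g, IsUM g ∧ (W3 (g '' Q) ∨ D4 (g '' Q) ∨ T4 (g '' Q)) := by
  have e1 : det2 B C * A.1 + det2 C A * B.1 + det2 A B * C.1 = 0 := by
    unfold det2
    ring
  have e2 : det2 B C * A.2 + det2 C A * B.2 + det2 A B * C.2 = 0 := by
    unfold det2
    ring
  rw [h1, h2, h3] at e1 e2
  have h1' : (A.1 : ℝ) * B.2 - A.2 * B.1 = 1 := by exact_mod_cast h1
  have e1' : (C.1 : ℝ) = -A.1 - B.1 := by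
    have : (C.1 : ℤ) = -A.1 - B.1 := by linarith
    rw [this]
    push_cast
    ring
  have e2' : (C.2 : ℝ) = -A.2 - B.2 := by
    have : (C.2 : ℤ) = -A.2 - B.2 := by linarith
    rw [this]
    push_cast
    ring
  refine ⟨fun v => (B.2 * v.1 + (-B.1) * v.2 + (-P.1 * B.2 + P.2 * B.1),
    (-A.2) * v.1 + A.1 * v.2 + (P.1 * A.2 - P.2 * A.1)), ?_, Or.inl ⟨?_, ?_, ?_⟩⟩
  · refine ⟨B.2, -B.1, -A.2, A.1, -P.1 * B.2 + P.2 * B.1, P.1 * A.2 - P.2 * A.1, Or.inl ?_, ?_⟩
    · have h4 : A.1 * B.2 - A.2 * B.1 = 1 := h1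
      linear_combination h4
    · intro v
      push_cast
      rfl
  · refine ⟨_, hA, Prod.ext ?_ ?_⟩
    · simp only [ip2, Prod.fst_add, Prod.snd_add, Int.cast_add]
      linear_combination h1'
    · simp only [ip2, Prod.fst_add, Prod.snd_add, Int.cast_add]
      ring
  · refine ⟨_, hB, Prod.ext ?_ ?_⟩
    · simp only [ip2, Prod.fst_add, Prod.snd_add, Int.cast_add]
      ring
    · simp only [ip2, Prod.fst_add, Prod.snd_add, Int.cast_add]
      linear_combination h1'
  · refine ⟨_, hC, Prod.ext ?_ ?_⟩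
    · simp only [ip2, Prod.fst_add, Prod.snd_add, Int.cast_add]
      rw [e1', e2']
      linear_combination -h1'
    · simp only [ip2, Prod.fst_add, Prod.snd_add, Int.cast_add]
      rw [e1', e2']
      linear_combination -h1'

private theorem p_J2_opp (h_J1 : S_J1) {Q : Set (ℝ × ℝ)} (hQ : Convex ℝ Q) {P A B C X : ℤ × ℤ}
    (hP : ip2 P ∈ Q) (hA : ip2 (P + A) ∈ Q) (hB : ip2 (P + B) ∈ Q) (hC : ip2 (P + C) ∈ Q)
    (hX : ip2 (P + X) ∈ Q) {β s : ℤ} (hβ : 0 < β) (hs : 0 < s)
    (h0 : det2 X C = 0) (h1 : 0 < det2 X B) (h2 : det2 X A < 0)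
    (e1 : β * X.1 = -s * C.1) (e2 : β * X.2 = -s * C.2) :
    ∃ g, IsUM g ∧ (W3 (g '' Q) ∨ D4 (g '' Q) ∨ T4 (g '' Q)) := by
  obtain ⟨x₁, x₂⟩ := X
  obtain ⟨c₁, c₂⟩ := C
  simp only [det2] at h0 h1 h2 e1 e2
  have hne : x₁ ≠ 0 ∨ x₂ ≠ 0 := by
    by_contra hcon
    push Not at hcon
    rw [hcon.1, hcon.2] at h1
    simp at h1
  have hgpos : 0 < Int.gcd x₁ x₂ := Int.gcd_pos_iff.2 hne
  obtain ⟨t₁, t₂, hco, ht₁, ht₂⟩ := Int.exists_gcd_one hgpos
  set l : ℤ := (Int.gcd x₁ x₂ : ℤ) with hl
  have hlpos : 0 < l := by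
    rw [hl]
    exact_mod_cast hgpos
  have hbez : t₁ * Int.gcdA t₁ t₂ + t₂ * Int.gcdB t₁ t₂ = 1 := by
    have := Int.gcd_eq_gcd_ab t₁ t₂
    rw [hco] at this
    exact_mod_cast this.symm
  have htc : t₁ * c₂ = t₂ * c₁ := by
    have h3 : l * (t₁ * c₂ - t₂ * c₁) = 0 := by
      rw [ht₁, ht₂] at h0
      linear_combination h0
    rcases mul_eq_zero.1 h3 with h4 | h4
    · exact absurd h4 hlpos.ne'
    · linarith
  set k : ℤ := -(Int.gcdA t₁ t₂ * c₁ + Int.gcdB t₁ t₂ * c₂) with hk
  have hc₁ : c₁ = -k * t₁ := by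
    rw [hk]
    linear_combination (-c₁) * hbez - (Int.gcdB t₁ t₂) * htc
  have hc₂ : c₂ = -k * t₂ := by
    rw [hk]
    linear_combination (-c₂) * hbez + (Int.gcdA t₁ t₂) * htc
  have hk0 : 0 < k := by
    have h5 : (β * l - s * k) * t₁ = 0 := by
      rw [ht₁, hc₁] at e1
      linear_combination e1
    have h6 : (β * l - s * k) * t₂ = 0 := by
      rw [ht₂, hc₂] at e2
      linear_combination e2
    have h7 : β * l - s * k = 0 := by
      linear_combination (-(β * l - s * k)) * hbez + (Int.gcdA t₁ t₂) * h5 +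
        (Int.gcdB t₁ t₂) * h6
    have h8 : 0 < s * k := by
      have := mul_pos hβ hlpos
      linarith
    exact pos_of_mul_pos_right h8 hs.le
  have hQ1 : ip2 (P + (t₁, t₂)) ∈ Q := by
    refine p_J2_comb hQ hP hX hX (d := l) (s := 1) (t := 0) hlpos (by norm_num) le_rfl
      (by linarith) ?_ ?_
    · simp only
      rw [ht₁]
      ring
    · simp only
      rw [ht₂]
      ring
  have hQ2 : ip2 (P - (t₁, t₂)) ∈ Q := by
    rw [sub_eq_add_neg]
    refine p_J2_comb hQ hP hC hC (d := k) (s := 1) (t := 0) hk0 (by norm_num) le_rfl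
      (by linarith) ?_ ?_
    · simp only [Prod.neg_mk]
      rw [hc₁]
      ring
    · simp only [Prod.neg_mk]
      rw [hc₂]
      ring
  refine h_J1 Q P (t₁, t₂) (P + B) (P + A) hQ hQ1 hQ2 hB hA ?_ ?_
  · rw [add_sub_cancel_left]
    simp only [det2]
    rw [ht₁, ht₂] at h1
    have h9 : 0 < l * (t₁ * B.2 - t₂ * B.1) := by linarith
    exact pos_of_mul_pos_right h9 hlpos.le
  · rw [add_sub_cancel_left]
    simp only [det2]
    rw [ht₁, ht₂] at h2
    have h9 : l * (t₁ * A.2 - t₂ * A.1) < 0 := by linarith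
    exact (pos_iff_neg_of_mul_neg h9).1 hlpos

private theorem p_J2_core (h_J1 : S_J1) (h_emp2 : S_emp2) {Q : Set (ℝ × ℝ)} (hQ : Convex ℝ Q)
    (P : ℤ × ℤ) : ∀ (n : ℕ) (A B C : ℤ × ℤ), ip2 (P + A) ∈ Q → ip2 (P + B) ∈ Q →
    ip2 (P + C) ∈ Q → 0 < det2 A B → 0 < det2 B C → 0 < det2 C A →
    (det2 A B + det2 B C + det2 C A).toNat = n →
    ∃ g, IsUM g ∧ (W3 (g '' Q) ∨ D4 (g '' Q) ∨ T4 (g '' Q)) := by
  intro n
  induction n using Nat.strong_induction_on with
  | _ n ih =>
    have key : ∀ A B C : ℤ × ℤ, ip2 (P + A) ∈ Q → ip2 (P + B) ∈ Q →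
        ip2 (P + C) ∈ Q → 0 < det2 A B → 0 < det2 B C → 0 < det2 C A →
        (det2 A B + det2 B C + det2 C A).toNat = n → 2 ≤ det2 A B →
        ∃ g, IsUM g ∧ (W3 (g '' Q) ∨ D4 (g '' Q) ∨ T4 (g '' Q)) := by
      intro A B C hA hB hC hAB hBC hCA hn h2
      obtain ⟨X, hX0, hXA, hXB, hs, ht, hst⟩ := h_emp2 A B h2
      have hP : ip2 P ∈ Q := p_J2_org hQ hA hB hC hAB hBC hCA
      have eX1 : det2 A B * X.1 = det2 X B * A.1 + det2 A X * B.1 := by
        unfold det2
        ring
      have eX2 : det2 A B * X.2 = det2 X B * A.2 + det2 A X * B.2 := by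
        unfold det2
        ring
      have hX : ip2 (P + X) ∈ Q := p_J2_comb hQ hP hA hB hAB hs ht hst eX1 eX2
      have edet : det2 A B * det2 X C = det2 A X * det2 B C - det2 X B * det2 C A := by
        unfold det2
        ring
      have hs' : det2 X B < det2 A B := by
        rcases lt_or_ge (det2 X B) (det2 A B) with h | h
        · exact h
        · exfalso
          have h3 : det2 X B = det2 A B := by linarith
          have h4 : det2 A X = 0 := by linarith
          rw [h3, h4, zero_mul, add_zero] at eX1 eX2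
          exact hXA (Prod.ext (mul_left_cancel₀ hAB.ne' eX1) (mul_left_cancel₀ hAB.ne' eX2))
      have ht' : det2 A X < det2 A B := by
        rcases lt_or_ge (det2 A X) (det2 A B) with h | h
        · exact h
        · exfalso
          have h3 : det2 A X = det2 A B := by linarith
          have h4 : det2 X B = 0 := by linarith
          rw [h3, h4, zero_mul, zero_add] at eX1 eX2
          exact hXB (Prod.ext (mul_left_cancel₀ hAB.ne' eX1) (mul_left_cancel₀ hAB.ne' eX2))
      have hCX : det2 C X = -det2 X C := by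
        unfold det2
        ring
      have hXA' : det2 X A = -det2 A X := by
        unfold det2
        ring
      rcases lt_trichotomy (det2 X C) 0 with h | h | h
      · -- `X, B, C`
        have h3 : 0 < det2 X B := by
          rcases hs.lt_or_eq with h4 | h4
          · exact h4
          · exfalso
            rw [← h4, zero_mul, sub_zero] at edet
            have h5 := mul_nonneg ht hBC.le
            have h6 := mul_neg_of_pos_of_neg hAB h
            linarith
        have h7 : det2 X B + det2 C X < det2 A B + det2 C A := by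
          have h8 : det2 A B * (det2 X B + det2 C X) < det2 A B * (det2 A B + det2 C A) := by
            rw [hCX]
            have h9 : 0 < (det2 A B - det2 X B) * (det2 A B + det2 C A) :=
              mul_pos (by linarith) (by linarith)
            have h10 := mul_nonneg ht hBC.le
            nlinarith
          exact lt_of_mul_lt_mul_left h8 hAB.le
        have h11 : 0 < det2 C X := by
          rw [hCX]
          linarith
        refine ih (det2 X B + det2 B C + det2 C X).toNat ?_ X B C hX hB hC h3 hBC h11 rfl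
        omega
      · -- opposite
        rw [h, mul_zero] at edet
        have h3 : 0 < det2 X B := by
          rcases hs.lt_or_eq with h4 | h4
          · exact h4
          · exfalso
            rw [← h4, zero_mul, sub_zero] at edet
            rcases mul_eq_zero.1 edet.symm with h5 | h5
            · rw [← h4, h5, zero_mul, zero_mul, add_zero] at eX1 eX2
              rcases mul_eq_zero.1 eX1 with h6 | h6
              · exact hAB.ne' h6
              · rcases mul_eq_zero.1 eX2 with h7 | h7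
                · exact hAB.ne' h7
                · exact hX0 (Prod.ext h6 h7)
            · exact hBC.ne' h5
        have h4 : 0 < det2 A X := by
          have h5 : 0 < det2 A X * det2 B C := by
            have := mul_pos h3 hCA
            linarith
          exact pos_of_mul_pos_left h5 hBC.le
        have eC1 : det2 A B * C.1 = -(det2 B C * A.1 + det2 C A * B.1) := by
          unfold det2
          ring
        have eC2 : det2 A B * C.2 = -(det2 B C * A.2 + det2 C A * B.2) := by
          unfold det2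
          ring
        refine p_J2_opp h_J1 hQ hP hA hB hC hX hBC h3 h h3 (by rw [hXA']; linarith) ?_ ?_
        · refine mul_left_cancel₀ hAB.ne' ?_
          linear_combination (det2 B C) * eX1 + (det2 X B) * eC1 - B.1 * edet
        · refine mul_left_cancel₀ hAB.ne' ?_
          linear_combination (det2 B C) * eX2 + (det2 X B) * eC2 - B.2 * edet
      · -- `A, X, C`
        have h3 : 0 < det2 A X := by
          rcases ht.lt_or_eq with h4 | h4
          · exact h4
          · exfalso
            rw [← h4, zero_mul, zero_sub] at edet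
            have h5 := mul_nonneg hs hCA.le
            have h6 := mul_pos hAB h
            linarith
        have h7 : det2 A X + det2 X C < det2 A B + det2 B C := by
          have h8 : det2 A B * (det2 A X + det2 X C) < det2 A B * (det2 A B + det2 B C) := by
            have h9 : 0 < (det2 A B - det2 A X) * (det2 A B + det2 B C) :=
              mul_pos (by linarith) (by linarith)
            have h10 := mul_nonneg hs hCA.le
            nlinarith
          exact lt_of_mul_lt_mul_left h8 hAB.le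
        refine ih (det2 A X + det2 X C + det2 C A).toNat ?_ A X C hA hX hC h3 h hCA rfl
        omega
    intro A B C hA hB hC hAB hBC hCA hn
    by_cases h1 : 2 ≤ det2 A B
    · exact key A B C hA hB hC hAB hBC hCA hn h1
    by_cases h2 : 2 ≤ det2 B C
    · exact key B C A hB hC hA hBC hCA hAB (by rw [← hn]; congr 1; ring) h2
    by_cases h3 : 2 ≤ det2 C A
    · exact key C A B hC hA hB hCA hAB hBC (by rw [← hn]; congr 1; ring) h3
    exact p_J2_one hA hB hC (by omega) (by omega) (by omega)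

theorem p_J2 (h_J1 : S_J1) (h_emp2 : S_emp2) : S_J2 := by
  intro Q hQ hJ
  rcases hJ with ⟨O, A, B, C, hA, hB, hC, h1, h2, h3⟩ | ⟨O, t, C, D, h1, h2, h3, h4, h5, h6⟩
  · refine p_J2_core h_J1 h_emp2 hQ O _ (A - O) (B - O) (C - O) ?_ ?_ ?_ h1 h2 h3 rfl
    · rw [add_sub_cancel]
      exact hA
    · rw [add_sub_cancel]
      exact hB
    · rw [add_sub_cancel]
      exact hC
  · exact h_J1 Q O t C D hQ h1 h2 h3 h4 h5 h6

end Pool.Agent.Lib.MP_0bc52e_nt.T
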