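import Pool.Agent.Lib.MP_0bc52e_nt.T.StmH

/-!
# MP_0bc52e_nt, Theorem (T163): piece [MHv]
-/

namespace Pool.Agent.Lib.MP_0bc52e_nt.T

open Pool.Agent.Lib.MP_0bc52e_nt.LC

/-- The weights. -/
theorem p_MHv_weights (N x y z : ℝ) (i1 : 0 ≤ z) (i2 : x + y ≤ N)
    (i3 : -N ≤ -x + 2 * y + z) (i4 : -2 * N ≤ -2 * x + 3 * y + z) (i5 : x ≤ N)
    (i6 : -N ≤ 2 * x - y - z) (i7 : -N ≤ x - y - z) (i8 : -2 * N ≤ -x - 2 * y - z)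
    (i9 : -N ≤ y) (i10 : -2 * N ≤ 3 * x - y - 2 * z) :
    ∃ w₁ w₂ w₃ s t r g : ℝ, 0 ≤ w₁ ∧ 0 ≤ w₂ ∧ 0 ≤ w₃ ∧ 0 ≤ s ∧ 0 ≤ t ∧ 0 ≤ r ∧ 0 ≤ g ∧
      w₁ + w₂ + w₃ + s + t + r + g = N ∧ w₁ - w₃ + s + g = x ∧ w₂ - w₃ - t - g = y ∧
      s + t + r + 3 * g = z := by
  obtain ⟨γ, l1, l2, l3, l4, l5, u1, u2, u3, u4⟩ : ∃ γ : ℝ, 0 ≤ γ ∧ (z - N) / 2 ≤ γ ∧
      x - y - N ≤ γ ∧ z - N - x ≤ γ ∧ y - N + z ≤ γ ∧ γ ≤ z / 3 ∧ γ ≤ N - x - y ∧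
      γ ≤ N + z - x + 2 * y ∧ γ ≤ N - z + 2 * x - y := by
    refine ⟨max 0 (max ((z - N) / 2) (max (x - y - N) (max (z - N - x) (y - N + z)))), ?_⟩
    simp only [le_max_iff, max_le_iff, le_refl, true_or, or_true, true_and]
    refine ⟨⟨?_, ?_, ?_, ?_, ?_⟩, ⟨?_, ?_, ?_, ?_, ?_⟩, ⟨?_, ?_, ?_, ?_, ?_⟩, ?_, ?_, ?_, ?_, ?_⟩
      <;> linarith
  obtain ⟨α, hα⟩ : ∃ α, α = N - z + 2 * γ := ⟨_, rfl⟩
  obtain ⟨β, hβ⟩ : ∃ β, β = z - 3 * γ := ⟨_, rfl⟩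
  obtain ⟨a, ha⟩ : ∃ a, a = x - γ := ⟨_, rfl⟩
  obtain ⟨b, hb⟩ : ∃ b, b = y + γ := ⟨_, rfl⟩
  have hα0 : 0 ≤ α := by linarith
  have hβ0 : 0 ≤ β := by linarith
  have j1 : a + b ≤ α + β := by linarith
  have j2 : a - 2 * b ≤ α + 2 * β := by linarith
  have j3 : b - 2 * a ≤ α := by linarith
  have j4 : b ≤ α := by linarith
  have j5 : -a ≤ α := by linarith
  have j6 : a - b ≤ α + β := by linarith
  have j7 : a ≤ α + β := by linarith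
  obtain ⟨s, s1, s2, s3, v1, v2, v3, v4⟩ : ∃ s : ℝ, 0 ≤ s ∧ a + b - α ≤ s ∧ a - α ≤ s ∧
      s ≤ β ∧ s ≤ (α + 2 * a - b) / 2 ∧ s ≤ 2 * β + α - a + 2 * b ∧ s ≤ α + a := by
    refine ⟨max 0 (max (a + b - α) (a - α)), ?_⟩
    simp only [le_max_iff, max_le_iff, le_refl, true_or, or_true, true_and]
    refine ⟨⟨?_, ?_, ?_⟩, ⟨?_, ?_, ?_⟩, ⟨?_, ?_, ?_⟩, ?_, ?_, ?_⟩ <;> linarith
  obtain ⟨t, t1, t2, w1, w2, w3⟩ : ∃ t : ℝ, 0 ≤ t ∧ (a - 2 * b - α - s) / 2 ≤ t ∧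
      t ≤ β - s ∧ t ≤ α - a - b + s ∧ t ≤ α + 2 * a - b - 2 * s := by
    refine ⟨max 0 ((a - 2 * b - α - s) / 2), ?_⟩
    simp only [le_max_iff, max_le_iff, le_refl, true_or, or_true, true_and]
    refine ⟨⟨?_, ?_⟩, ⟨?_, ?_⟩, ?_, ?_⟩ <;> linarith
  refine ⟨(α + 2 * (a - s) - (b + t)) / 3, (α + 2 * (b + t) - (a - s)) / 3,
    (α - (a - s) - (b + t)) / 3, s, t, β - s - t, γ, ?_, ?_, ?_, s1, t1, ?_, l1, ?_, ?_, ?_, ?_⟩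
    <;> linarith

theorem p_MHv : S_MHv := by
  intro N x y z hN h
  obtain ⟨i1, i2, i3, i4, i5, i6, i7, i8, i9, i10⟩ := h
  have hN' : (0 : ℝ) < N := by exact_mod_cast hN
  obtain ⟨w₁, w₂, w₃, s, t, r, g, p1, p2, p3, p4, p5, p6, p7, e0, e1, e2, e3⟩ :=
    p_MHv_weights (N : ℝ) (x : ℝ) (y : ℝ) (z : ℝ)
    (by exact_mod_cast (by linarith : (0 : ℤ) ≤ z))
    (by exact_mod_cast (by linarith : x + y ≤ N))
    (by exact_mod_cast (by linarith : -N ≤ -x + 2 * y + z))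
    (by exact_mod_cast (by linarith : -2 * N ≤ -2 * x + 3 * y + z))
    (by exact_mod_cast (by linarith : x ≤ N))
    (by exact_mod_cast (by linarith : -N ≤ 2 * x - y - z))
    (by exact_mod_cast (by linarith : -N ≤ x - y - z))
    (by exact_mod_cast (by linarith : -2 * N ≤ -x - 2 * y - z))
    (by exact_mod_cast (by linarith : -N ≤ y))
    (by exact_mod_cast (by linarith : -2 * N ≤ 3 * x - y - 2 * z))
  have mem : ∀ v ∈ MH, ip v ∈ hull MH := fun v hv =>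
    subset_convexHull ℝ _ ⟨v, hv, rfl⟩
  have hconv : Convex ℝ (hull MH) := convex_convexHull ℝ _
  let W : Fin 7 → ℝ := ![w₁ / N, w₂ / N, w₃ / N, s / N, t / N, r / N, g / N]
  let Z : Fin 7 → ℝ × ℝ × ℝ := ![ip (1, 0, 0), ip (0, 1, 0), ip (-1, -1, 0), ip (1, 0, 1),
    ip (0, -1, 1), ip (0, 0, 1), ip (1, -1, 3)]
  refine ⟨∑ i : Fin 7, W i • Z i, ?_, ?_, ?_, ?_⟩
  · refine hconv.sum_mem ?_ ?_ ?_
    · intro i _
      fin_cases i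
      exacts [div_nonneg p1 hN'.le, div_nonneg p2 hN'.le, div_nonneg p3 hN'.le,
        div_nonneg p4 hN'.le, div_nonneg p5 hN'.le, div_nonneg p6 hN'.le, div_nonneg p7 hN'.le]
    · simp only [Fin.sum_univ_succ, Fin.sum_univ_zero, W]
      simp only [Matrix.cons_val_zero, Matrix.cons_val_succ, Fin.isValue]
      field_simp
      linarith
    · intro i _
      fin_cases i <;> exact mem _ (by decide)
  · simp [Fin.sum_univ_succ, W, Z, ip]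
    field_simp
    linarith
  · simp [Fin.sum_univ_succ, W, Z, ip]
    field_simp
    linarith
  · simp [Fin.sum_univ_succ, W, Z, ip]
    field_simp
    linarith

end Pool.Agent.Lib.MP_0bc52e_nt.T
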