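import Pool.Agent.Lib.MP_0bc52e_nt.T.StmN

/-!
Piece `[ML]` of MP_0bc52e_nt: Minkowski's theorem on three linear forms.
-/

open scoped Pointwise
open MeasureTheory

namespace Pool.Agent.Lib.MP_0bc52e_nt.T

open Pool.Agent.Lib.MP_0bc52e_nt.LC

/-- Minkowski's theorem for the lattice of integer vectors of space. -/
theorem p_ML_mink (K : Set (Fin 3 → ℝ)) (hs : ∀ x ∈ K, -x ∈ K) (hc : Convex ℝ K)
    (hv : 8 < volume K) : ∃ n : Fin 3 → ℤ, n ≠ 0 ∧ (fun i => (n i : ℝ)) ∈ K := by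
  have hfund := ZSpan.isAddFundamentalDomain' (Pi.basisFun ℝ (Fin 3)) volume
  have hF : volume (ZSpan.fundamentalDomain (Pi.basisFun ℝ (Fin 3))) = 1 := by
    rw [ZSpan.volume_fundamentalDomain]
    have : (Matrix.of (Pi.basisFun ℝ (Fin 3))) = 1 := by
      ext i j
      simp [Matrix.one_apply, Pi.single_apply, eq_comm]
    rw [this, Matrix.det_one]
    simp
  have hlt : volume (ZSpan.fundamentalDomain (Pi.basisFun ℝ (Fin 3))) *
      2 ^ Module.finrank ℝ (Fin 3 → ℝ) < volume K := by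
    rw [hF, one_mul, Module.finrank_fin_fun]
    refine lt_of_le_of_lt (le_of_eq ?_) hv
    norm_num
  have hcount : Countable (Submodule.span ℤ (Set.range (Pi.basisFun ℝ (Fin 3)))).toAddSubgroup :=
    inferInstanceAs (Countable (Submodule.span ℤ (Set.range (Pi.basisFun ℝ (Fin 3)))))
  obtain ⟨x, hx0, hxK⟩ := exists_ne_zero_mem_lattice_of_measure_mul_two_pow_lt_measure hfund
    hs hc hlt
  have hx := x.2
  have hint : ∀ i, ∃ n : ℤ, (n : ℝ) = (x : Fin 3 → ℝ) i := by
    intro i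
    have h1 := (Module.Basis.mem_span_iff_repr_mem ℤ (Pi.basisFun ℝ (Fin 3)) (x : Fin 3 → ℝ)).1 hx i
    obtain ⟨n, hn⟩ := h1
    exact ⟨n, by simpa using hn⟩
  choose v hv using hint
  have hvx : (fun i => (v i : ℝ)) = (x : Fin 3 → ℝ) := funext hv
  refine ⟨v, ?_, ?_⟩
  · rintro rfl
    apply hx0
    apply Subtype.ext
    rw [← hvx]
    funext i
    simp
  · rw [hvx]
    exact hxK

/-- [ML] -/
theorem p_ML : S_ML := by
  intro M c hc hM hlt
  have hdet : LinearMap.det (Matrix.toLin' M) ≠ 0 := by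
    rw [LinearMap.det_toLin']
    exact hM
  have hvol : (8 : ENNReal) <
      volume ((Matrix.toLin' M) ⁻¹' (Set.Icc (fun _ => -c) (fun _ => c))) := by
    rw [Measure.addHaar_preimage_linearMap volume hdet, LinearMap.det_toLin', Real.volume_Icc_pi]
    simp only [Finset.prod_const, Finset.card_univ, Fintype.card_fin]
    rw [← ENNReal.ofReal_pow (by linarith), ← ENNReal.ofReal_mul (abs_nonneg _)]
    have h8 : (8 : ENNReal) = ENNReal.ofReal 8 := by norm_num
    rw [h8]
    have hMp : 0 < |M.det| := abs_pos.mpr hM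
    have hlt2 : (8 : ℝ) < |M.det⁻¹| * (c - -c) ^ 3 := by
      rw [abs_inv, inv_mul_eq_div, lt_div_iff₀ hMp]
      nlinarith
    exact (ENNReal.ofReal_lt_ofReal_iff (lt_trans (by norm_num) hlt2)).mpr hlt2
  have hsym : ∀ x ∈ (Matrix.toLin' M) ⁻¹' (Set.Icc (fun _ => -c) (fun _ => c)),
      -x ∈ (Matrix.toLin' M) ⁻¹' (Set.Icc (fun _ => -c) (fun _ => c)) := by
    intro x hx
    rw [Set.mem_preimage, Set.mem_Icc] at hx ⊢
    rw [map_neg]
    refine ⟨fun i => ?_, fun i => ?_⟩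
    · have := hx.2 i
      simp only [Pi.neg_apply]
      linarith
    · have := hx.1 i
      simp only [Pi.neg_apply]
      linarith
  obtain ⟨n, hn0, hn⟩ := p_ML_mink _ hsym (Convex.linear_preimage
    (convex_Icc _ _) _) hvol
  · refine ⟨n, hn0, fun i => ?_⟩
    obtain ⟨h1, h2⟩ := hn
    have h1' := h1 i
    have h2' := h2 i
    simp only [Matrix.toLin'_apply, Matrix.mulVec, dotProduct] at h1' h2'
    exact abs_le.mpr ⟨h1', h2'⟩

end Pool.Agent.Lib.MP_0bc52e_nt.T
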