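import Pool.Agent.Lib.MP_0bc52e_nt.T.StmN

/-!
# MP_0bc52e_nt: piece MZ
-/

open scoped Pointwise
open MeasureTheory

namespace Pool.Agent.Lib.MP_0bc52e_nt.T

open Pool.Agent.Lib.MP_0bc52e_nt.LC

private lemma p_MZ_cube (c : ℝ) (hc : 0 < c) :
    volume (Set.pi Set.univ (fun _ : Fin 3 => Set.Ioo (0 : ℝ) c)) = ENNReal.ofReal (c ^ 3) := by
  rw [Real.volume_pi_Ioo]
  simp only [sub_zero, Finset.prod_const, Finset.card_univ, Fintype.card_fin]
  rw [ENNReal.ofReal_pow hc.le]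

private def p_MZ_B : Fin 4 → Matrix (Fin 3) (Fin 3) ℝ :=
  ![1, !![-1, 0, 0; -1, 1, 0; -1, 0, 1], !![1, -1, 0; 0, -1, 0; 0, -1, 1], !![1, 0, -1; 0, 1, -1; 0, 0, -1]]

private lemma p_MZ_Bdet (k : Fin 4) : |(p_MZ_B k).det| = 1 := by
  fin_cases k <;> simp [p_MZ_B, Matrix.det_fin_three]

private def p_MZ_S (c : ℝ) (k : Fin 4) : Set (Fin 3 → ℝ) :=
  (Matrix.toLin' (p_MZ_B k)) ⁻¹' (Set.pi Set.univ (fun _ : Fin 3 => Set.Ioo (0 : ℝ) c))

private lemma p_MZ_B0 (u : Fin 3 → ℝ) (c : ℝ) :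
    u ∈ p_MZ_S c 0 ↔ (0 < u 0 ∧ u 0 < c) ∧ (0 < u 1 ∧ u 1 < c) ∧ (0 < u 2 ∧ u 2 < c) := by
  simp [p_MZ_S, p_MZ_B, Set.mem_pi, Fin.forall_fin_succ]

private lemma p_MZ_B1 (u : Fin 3 → ℝ) (c : ℝ) :
    u ∈ p_MZ_S c 1 ↔
      (0 < - u 0 ∧ - u 0 < c) ∧ (0 < u 1 - u 0 ∧ u 1 - u 0 < c) ∧ (0 < u 2 - u 0 ∧ u 2 - u 0 < c) := by
  simp only [p_MZ_S, Set.mem_preimage, Set.mem_pi, Fin.forall_fin_succ, Set.mem_univ, true_imp_iff, Set.mem_Ioo,
    Matrix.toLin'_apply, p_MZ_B, Matrix.mulVec, dotProduct, Fin.sum_univ_three]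
  simp
  grind

private lemma p_MZ_B2 (u : Fin 3 → ℝ) (c : ℝ) :
    u ∈ p_MZ_S c 2 ↔
      (0 < u 0 - u 1 ∧ u 0 - u 1 < c) ∧ (0 < - u 1 ∧ - u 1 < c) ∧ (0 < u 2 - u 1 ∧ u 2 - u 1 < c) := by
  simp only [p_MZ_S, Set.mem_preimage, Set.mem_pi, Fin.forall_fin_succ, Set.mem_univ, true_imp_iff, Set.mem_Ioo,
    Matrix.toLin'_apply, p_MZ_B, Matrix.mulVec, dotProduct, Fin.sum_univ_three]
  simp
  grind

private lemma p_MZ_B3 (u : Fin 3 → ℝ) (c : ℝ) :
    u ∈ p_MZ_S c 3 ↔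
      (0 < u 0 - u 2 ∧ u 0 - u 2 < c) ∧ (0 < u 1 - u 2 ∧ u 1 - u 2 < c) ∧ (0 < - u 2 ∧ - u 2 < c) := by
  simp only [p_MZ_S, Set.mem_preimage, Set.mem_pi, Fin.forall_fin_succ, Set.mem_univ, true_imp_iff, Set.mem_Ioo,
    Matrix.toLin'_apply, p_MZ_B, Matrix.mulVec, dotProduct, Fin.sum_univ_three]
  simp
  grind

private lemma p_MZ_Svol (c : ℝ) (hc : 0 < c) (k : Fin 4) : volume (p_MZ_S c k) = ENNReal.ofReal (c ^ 3) := by
  have hd : LinearMap.det (Matrix.toLin' (p_MZ_B k)) ≠ 0 := by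
    rw [LinearMap.det_toLin']
    intro h
    have := p_MZ_Bdet k
    rw [h, abs_zero] at this
    exact absurd this (by norm_num)
  rw [p_MZ_S, Measure.addHaar_preimage_linearMap _ hd, p_MZ_cube c hc, LinearMap.det_toLin', abs_inv, p_MZ_Bdet]
  simp

private lemma p_MZ_Smeas (c : ℝ) (k : Fin 4) : MeasurableSet (p_MZ_S c k) := by
  have hcont : Continuous (Matrix.toLin' (p_MZ_B k)) := LinearMap.continuous_of_finiteDimensional _
  exact ((isOpen_set_pi Set.finite_univ (fun _ _ => isOpen_Ioo)).preimage hcont).measurableSet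

private lemma p_MZ_Sdisj (c : ℝ) : Pairwise (Function.onFun Disjoint (p_MZ_S c)) := by
  intro k l hkl
  rw [Function.onFun, Set.disjoint_left]
  intro u hk hl
  fin_cases k <;> fin_cases l <;>
    first
      | exact hkl rfl
      | (simp only [Fin.zero_eta, Fin.mk_one, Fin.reduceFinMk, p_MZ_B0, p_MZ_B1, p_MZ_B2, p_MZ_B3] at hk hl
         obtain ⟨⟨a1, a2⟩, ⟨a3, a4⟩, a5, a6⟩ := hk
         obtain ⟨⟨b1, b2⟩, ⟨b3, b4⟩, b5, b6⟩ := hl
         linarith)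

private lemma p_MZ_vol (c : ℝ) (hc : 0 < c) :
    ENNReal.ofReal (4 * c ^ 3) ≤ volume {u : Fin 3 → ℝ | ∀ i, |u i| ≤ c ∧ ∀ j, |u i - u j| ≤ c} := by
  have h1 : (⋃ k, p_MZ_S c k) ⊆ {u : Fin 3 → ℝ | ∀ i, |u i| ≤ c ∧ ∀ j, |u i - u j| ≤ c} := by
    intro u hu
    obtain ⟨k, hk⟩ := Set.mem_iUnion.1 hu
    have key : (|u 0| ≤ c ∧ |u 1| ≤ c ∧ |u 2| ≤ c) ∧ |u 0 - u 1| ≤ c ∧ |u 0 - u 2| ≤ c ∧ |u 1 - u 2| ≤ c := by
      fin_cases k <;>
      · simp only [Fin.zero_eta, Fin.mk_one, Fin.reduceFinMk, p_MZ_B0, p_MZ_B1, p_MZ_B2, p_MZ_B3] at hk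
        obtain ⟨⟨a1, a2⟩, ⟨a3, a4⟩, a5, a6⟩ := hk
        refine ⟨⟨?_, ?_, ?_⟩, ?_, ?_, ?_⟩ <;> (rw [abs_le]; constructor <;> linarith)
    obtain ⟨⟨h0, h1, h2⟩, h01, h02, h12⟩ := key
    intro i
    have e1 : |u 1 - u 0| ≤ c := by rw [abs_sub_comm]; exact h01
    have e2 : |u 2 - u 0| ≤ c := by rw [abs_sub_comm]; exact h02
    have e3 : |u 2 - u 1| ≤ c := by rw [abs_sub_comm]; exact h12
    have e0 : ∀ j, |u j - u j| ≤ c := fun j => by rw [sub_self, abs_zero]; exact hc.le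
    fin_cases i
    · refine ⟨h0, fun j => ?_⟩
      fin_cases j
      · exact e0 0
      · exact h01
      · exact h02
    · refine ⟨h1, fun j => ?_⟩
      fin_cases j
      · exact e1
      · exact e0 1
      · exact h12
    · refine ⟨h2, fun j => ?_⟩
      fin_cases j
      · exact e2
      · exact e3
      · exact e0 2
  refine le_trans ?_ (measure_mono h1)
  rw [measure_iUnion (p_MZ_Sdisj c) (p_MZ_Smeas c), tsum_fintype, Finset.sum_congr rfl (fun k _ => p_MZ_Svol c hc k),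
    Finset.sum_const, Finset.card_univ, Fintype.card_fin, nsmul_eq_mul, ENNReal.ofReal_mul (by norm_num)]
  norm_num

theorem p_MZ : S_MZ := by
  intro M c hc hM h2
  obtain ⟨Z, hZ⟩ : ∃ Z : Set (Fin 3 → ℝ), Z = {u | ∀ i, |u i| ≤ c ∧ ∀ j, |u i - u j| ≤ c} := ⟨_, rfl⟩
  have hZvol : ENNReal.ofReal (4 * c ^ 3) ≤ volume Z := by rw [hZ]; exact p_MZ_vol c hc
  obtain ⟨K, hK⟩ : ∃ K : Set (Fin 3 → ℝ), K = (Matrix.toLin' M) ⁻¹' Z := ⟨_, rfl⟩
  have hZconv : Convex ℝ Z := by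
    intro x hx y hy a b ha hb hab
    rw [hZ] at hx hy ⊢
    intro i
    have hx' := hx i
    have hy' := hy i
    have cv : ∀ s t : ℝ, |s| ≤ c → |t| ≤ c → |a * s + b * t| ≤ c := by
      intro s t hs ht
      calc |a * s + b * t| ≤ |a * s| + |b * t| := abs_add_le _ _
        _ = a * |s| + b * |t| := by rw [abs_mul, abs_mul, abs_of_nonneg ha, abs_of_nonneg hb]
        _ ≤ a * c + b * c := add_le_add (mul_le_mul_of_nonneg_left hs ha) (mul_le_mul_of_nonneg_left ht hb)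
        _ = c := by rw [← add_mul, hab, one_mul]
    refine ⟨?_, fun j => ?_⟩
    · simpa using cv _ _ hx'.1 hy'.1
    · have := cv _ _ (hx'.2 j) (hy'.2 j)
      have e : (a • x + b • y) i - (a • x + b • y) j = a * (x i - x j) + b * (y i - y j) := by
        simp only [Pi.add_apply, Pi.smul_apply, smul_eq_mul]
        ring
      rw [e]
      exact this
  have hKconv : Convex ℝ K := by
    rw [hK]
    exact hZconv.linear_preimage _
  have hKsymm : ∀ x ∈ K, -x ∈ K := by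
    intro x hx
    rw [hK, Set.mem_preimage, hZ] at hx ⊢
    intro i
    rw [map_neg]
    refine ⟨?_, fun j => ?_⟩
    · rw [Pi.neg_apply, abs_neg]
      exact (hx i).1
    · have e : (-(Matrix.toLin' M) x) i - (-(Matrix.toLin' M) x) j = -((Matrix.toLin' M) x i - (Matrix.toLin' M) x j) := by
        simp only [Pi.neg_apply]
        ring
      rw [e, abs_neg]
      exact (hx i).2 j
  have hMpos : 0 < |M.det| := abs_pos.2 hM
  have hKvol : ENNReal.ofReal (|M.det|⁻¹ * (4 * c ^ 3)) ≤ volume K := by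
    have hd : LinearMap.det (Matrix.toLin' M) ≠ 0 := by
      rw [LinearMap.det_toLin']
      exact hM
    rw [hK, Measure.addHaar_preimage_linearMap _ hd, LinearMap.det_toLin', abs_inv, ENNReal.ofReal_mul (by positivity)]
    exact mul_le_mul_right hZvol _
  have hfund := ZSpan.isAddFundamentalDomain' (Pi.basisFun ℝ (Fin 3)) volume
  have hF : volume (ZSpan.fundamentalDomain (Pi.basisFun ℝ (Fin 3))) = 1 := by
    rw [ZSpan.volume_fundamentalDomain]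
    have : (Matrix.of (Pi.basisFun ℝ (Fin 3))) = 1 := by
      ext i j
      simp [Matrix.one_apply, Pi.single_apply, eq_comm]
    rw [this, Matrix.det_one]
    simp
  have hlt : volume (ZSpan.fundamentalDomain (Pi.basisFun ℝ (Fin 3))) *
      2 ^ Module.finrank ℝ (Fin 3 → ℝ) < volume K := by
    refine lt_of_lt_of_le ?_ hKvol
    rw [hF, one_mul, Module.finrank_fin_fun]
    have h1 : (2 : ENNReal) ^ 3 = ENNReal.ofReal 8 := by
      have e : (8 : ℝ) = (2 : ℝ) ^ 3 := by norm_num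
      rw [e, ENNReal.ofReal_pow (by norm_num)]
      norm_num
    rw [h1]
    refine (ENNReal.ofReal_lt_ofReal_iff (by positivity)).2 ?_
    rw [inv_mul_eq_div, lt_div_iff₀ hMpos]
    linarith
  have hcount : Countable (Submodule.span ℤ (Set.range (Pi.basisFun ℝ (Fin 3)))).toAddSubgroup :=
    inferInstanceAs (Countable (Submodule.span ℤ (Set.range (Pi.basisFun ℝ (Fin 3)))))
  obtain ⟨x, hx0, hxK⟩ := exists_ne_zero_mem_lattice_of_measure_mul_two_pow_lt_measure hfund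
    hKsymm hKconv hlt
  have hx := x.2
  have hint : ∀ i, ∃ n : ℤ, (n : ℝ) = (x : Fin 3 → ℝ) i := by
    intro i
    have h1 := (Module.Basis.mem_span_iff_repr_mem ℤ (Pi.basisFun ℝ (Fin 3)) (x : Fin 3 → ℝ)).1 hx i
    obtain ⟨n, hn⟩ := h1
    exact ⟨n, by simpa using hn⟩
  choose v hv using hint
  have hvx : (fun i => (v i : ℝ)) = (x : Fin 3 → ℝ) := funext hv
  refine ⟨v, ?_, ?_⟩
  · rintro rfl
    apply hx0
    apply Subtype.ext
    rw [← hvx]
    funext i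
    simp
  · rw [hK, Set.mem_preimage, hZ] at hxK
    have e : ∀ i, (Matrix.toLin' M) (x : Fin 3 → ℝ) i = ∑ j, M i j * (v j : ℝ) := by
      intro i
      rw [← hvx, Matrix.toLin'_apply]
      rfl
    intro i
    refine ⟨?_, fun i' => ?_⟩
    · rw [← e i]
      exact (hxK i).1
    · rw [← e i, ← e i']
      exact (hxK i).2 i'

end Pool.Agent.Lib.MP_0bc52e_nt.T
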