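import Pool.Agent.Lib.MP_0bc52e_nt.T.StmH

/-!
# Piece [Mh]: the exceptional polytope does not satisfy the criterion
-/

namespace Pool.Agent.Lib.MP_0bc52e_nt.T

open Pool.Agent.Lib.MP_0bc52e_nt.LC

private lemma p_Mh_one (h_MHv : S_MHv) (p m : ℕ) (hp : 7 ≤ p) (hm : 0 < m) (hmp : m < p)
    (a b c : ℤ) (hcr : Crit3 (hull MH) p a b c) (x y z : ℤ) (hin : inMH ((p : ℤ) - m) x y z)
    (hx : (p : ℤ) ∣ x + m * a) (hy : (p : ℤ) ∣ y + m * b) (hz : (p : ℤ) ∣ z + m * c) : False := by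
  have hN : (0 : ℤ) < (p : ℤ) - m := by
    have : (m : ℤ) < p := by exact_mod_cast hmp
    linarith
  obtain ⟨u, hu, h1, h2, h3⟩ := h_MHv _ x y z hN hin
  have hcast : (((p : ℤ) - m : ℤ) : ℝ) = ((p - m : ℕ) : ℝ) := by
    rw [Nat.cast_sub hmp.le]; push_cast; ring
  have hcastz : ((p - m : ℕ) : ℤ) = (p : ℤ) - m := by
    rw [Nat.cast_sub hmp.le]
  rw [hcast] at h1 h2 h3
  refine hcr (p - m) (Nat.sub_pos_of_lt hmp) (Nat.sub_lt (by omega) hm) x y z u.1 u.2.1 u.2.2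
    (by simpa using hu) h1 h2 h3 ?_ ?_ ?_
  · rw [hcastz]
    have e : x - ((p : ℤ) - m) * a = (x + m * a) - p * a := by ring
    rw [e]
    exact dvd_sub hx (dvd_mul_right _ _)
  · rw [hcastz]
    have e : y - ((p : ℤ) - m) * b = (y + m * b) - p * b := by ring
    rw [e]
    exact dvd_sub hy (dvd_mul_right _ _)
  · rw [hcastz]
    have e : z - ((p : ℤ) - m) * c = (z + m * c) - p * c := by ring
    rw [e]
    exact dvd_sub hz (dvd_mul_right _ _)

private lemma p_Mh_emod (p a : ℤ) : p ∣ (-a) % p + a :=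
  ⟨-((-a) / p), by
    have := Int.emod_add_mul_ediv (-a) p
    linarith [mul_neg p ((-a) / p)]⟩

theorem p_Mh (h_MHv : S_MHv) (h_cov1 : S_cov1) (h_cov2 : S_cov2) : S_Mh := by
  rintro p hp ⟨a, b, c, hcr⟩
  have hp7 : (7 : ℤ) ≤ (p : ℤ) := by exact_mod_cast hp
  have hp0 : (0 : ℤ) < (p : ℤ) := by linarith
  have hX0 := Int.emod_nonneg (-a) hp0.ne'
  have hX1 := Int.emod_lt_of_pos (-a) hp0
  have hY0 := Int.emod_nonneg (-b) hp0.ne'
  have hY1 := Int.emod_lt_of_pos (-b) hp0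
  have hZ0 := Int.emod_nonneg (-c) hp0.ne'
  have hZ1 := Int.emod_lt_of_pos (-c) hp0
  have dX := p_Mh_emod p a
  have dY := p_Mh_emod p b
  have dZ := p_Mh_emod p c
  have key : ∀ t k w : ℤ, (p : ℤ) ∣ t + w → (p : ℤ) ∣ t + k * p + w := by
    intro t k w h
    have e : t + k * p + w = (t + w) + p * k := by ring
    rw [e]
    exact dvd_add h (dvd_mul_right _ _)
  by_cases hZ : (-c) % (p : ℤ) ≤ p - 2
  · obtain ⟨i, j, k, h⟩ := h_cov1 p _ _ _ hp7 hX0 hX1 hY0 hY1 hZ0 hZ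
    refine p_Mh_one h_MHv p 1 hp one_pos (by omega) a b c hcr _ _ _ (by simpa using h) ?_ ?_ ?_
    · simpa using key _ i _ dX
    · simpa using key _ j _ dY
    · simpa using key _ k _ dZ
  · have hZe : (-c) % (p : ℤ) = p - 1 := by omega
    obtain ⟨i, j, k, h⟩ := h_cov2 p _ _ _ hp7 hX0 hX1 hY0 hY1 hZe
    rcases h with h | h
    · refine p_Mh_one h_MHv p 1 hp one_pos (by omega) a b c hcr _ _ _ (by simpa using h) ?_ ?_ ?_
      · simpa using key _ i _ dX
      · simpa using key _ j _ dY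
      · simpa using key _ k _ dZ
    · have key3 : ∀ t w : ℤ, (p : ℤ) ∣ t + w → (p : ℤ) ∣ 3 * t + 3 * w := by
        intro t w h
        have e : 3 * t + 3 * w = 3 * (t + w) := by ring
        rw [e]
        exact dvd_mul_of_dvd_right h _
      refine p_Mh_one h_MHv p 3 hp (by norm_num) (by omega) a b c hcr _ _ _ (by simpa using h) ?_ ?_ ?_
      · simpa using key _ i _ (key3 _ _ dX)
      · simpa using key _ j _ (key3 _ _ dY)
      · simpa using key _ k _ (key3 _ _ dZ)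

end Pool.Agent.Lib.MP_0bc52e_nt.T
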