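import Pool.Agent.Lib.MP_0bc52e_nt.T.StmN

open scoped Pointwise

namespace Pool.Agent.Lib.MP_0bc52e_nt.T

open Pool.Agent.Lib.MP_0bc52e_nt.LC

theorem p_N (h_A : S_A) (h_B : S_B) (h_C : S_C) (h_circ : S_circ) (h_fr1 : S_fr1) (h_fr2 : S_fr2) :
    S_N := by
  intro P p hlp hpr hp hcr v hv
  have hf : IsFr (fr v (1, 0, 0) (0, 1, 0) (0, 0, 1)) :=
    ⟨v, (1, 0, 0), (0, 1, 0), (0, 0, 1), Or.inl (by simp [det3]), fun _ => rfl⟩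
  obtain ⟨-, h2, -, h4, h5, -, -⟩ := h_fr2 _ hf P
  have hf0 : fr v (1, 0, 0) (0, 1, 0) (0, 0, 1) 0 = ip v := by simp [fr, ip]
  have hlp' := h2 hlp
  have hcr' := h4 p hcr
  have hinn : Inn (fr v (1, 0, 0) (0, 1, 0) (0, 0, 1) ⁻¹' P) 0 := by
    rw [h5, hf0]; exact hv
  have hA : ¬ Opp (fr v (1, 0, 0) (0, 1, 0) (0, 0, 1) ⁻¹' P) := h_A _ p hlp' hp hcr' hinn
  have hB : ¬ Tri3 (fr v (1, 0, 0) (0, 1, 0) (0, 0, 1) ⁻¹' P) := h_B _ p hlp' hp hcr' hinn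
  obtain ⟨V', hV'⟩ := hlp'
  have hconv : Convex ℝ (fr v (1, 0, 0) (0, 1, 0) (0, 0, 1) ⁻¹' P) := by
    rw [hV']; exact convex_convexHull ℝ _
  have hC := h_C _ p hconv hpr hp hcr' hA hB
  have e : hull V' = fr v (1, 0, 0) (0, 1, 0) (0, 0, 1) ⁻¹' P := hV'.symm
  rcases h_circ V' (by rw [e]; exact hinn) with h | h | h
  · rw [e] at h; exact hA h
  · rw [e] at h; exact hB h
  · rw [e] at h; exact hC h

end Pool.Agent.Lib.MP_0bc52e_nt.T
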