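import Pool.Agent.Lib.MP_0bc52e_nt.T.StmN

open scoped Pointwise

namespace Pool.Agent.Lib.MP_0bc52e_nt.T

open Pool.Agent.Lib.MP_0bc52e_nt.LC

theorem p_NoOpp_lin (a b c : ℤ × ℤ × ℤ) (u v : ℝ × ℝ × ℝ) (α β : ℝ) :
    fr 0 a b c (α • u + β • v) = α • fr 0 a b c u + β • fr 0 a b c v := by
  simp only [fr, Prod.fst_add, Prod.snd_add, Prod.smul_fst, Prod.smul_snd, smul_eq_mul,
    Prod.fst_zero, Prod.snd_zero, Int.cast_zero]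
  ext <;> simp <;> ring

theorem p_NoOpp_smul (a b c : ℤ × ℤ × ℤ) (u : ℝ × ℝ × ℝ) (γ : ℝ) :
    fr 0 a b c (γ • u) = γ • fr 0 a b c u := by
  have h := p_NoOpp_lin a b c u 0 γ 0
  simpa using h

theorem p_NoOpp_ab (a b c : ℤ × ℤ × ℤ) (x y : ℤ) :
    fr 0 a b c (ip (x, y, 0)) = ip (x • a + y • b) := by
  simp only [fr, ip, Prod.fst_add, Prod.snd_add, Prod.smul_fst, Prod.smul_snd, smul_eq_mul,
    Prod.fst_zero, Prod.snd_zero, Int.cast_zero]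
  ext <;> simp

theorem p_NoOpp (h_pln : S_pln) (h_PL3 : S_PL3) (h_sides : S_sides) (h_fr1 : S_fr1)
    (h_fr2 : S_fr2) : S_NoOpp := by
  intro P p hlp hp hcr hinn t s s' α β γ ht hmt hs hs' hcrs hα hβ hrel
  obtain ⟨a, b, c, t₁, t₂, s₁, s₂, hdet, hpos, hta, hsa⟩ := h_pln t s hcrs
  have hf : IsFr (fr 0 a b c) := ⟨0, a, b, c, Or.inl hdet, fun _ => rfl⟩
  obtain ⟨h1, h2, -, h4, h5, -, -⟩ := h_fr2 _ hf P
  obtain ⟨g, hg, hgf, hfg⟩ := h_fr1.1 _ hf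
  obtain ⟨w, hw⟩ := h_fr1.2.2.1 g hg s'
  have hfw : fr 0 a b c (ip w) = ip s' := by rw [← hw, hfg]
  have hlp' := h2 hlp
  have hcr' := h4 p hcr
  have hf0 : fr 0 a b c 0 = 0 := by simp [fr]
  have hinn' : Inn (fr 0 a b c ⁻¹' P) 0 := by rw [h5, hf0]; exact hinn
  have hconv : Convex ℝ (fr 0 a b c ⁻¹' P) := by
    obtain ⟨V, hV⟩ := hlp'
    rw [hV]; exact convex_convexHull ℝ _
  have hft : fr 0 a b c (ip (t₁, t₂, 0)) = ip t := by rw [p_NoOpp_ab, hta]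
  have hfs : fr 0 a b c (ip (s₁, s₂, 0)) = ip s := by rw [p_NoOpp_ab, hsa]
  have hfmt : fr 0 a b c (ip (-t₁, -t₂, 0)) = ip (-t) := by
    rw [p_NoOpp_ab, hta]
    congr 1
    simp only [neg_smul]
    abel
  -- the relation in the new coordinates
  have hrel' : α • ip (s₁, s₂, 0) + β • ip w = γ • ip (t₁, t₂, 0) := by
    have h6 : fr 0 a b c (α • ip (s₁, s₂, 0) + β • ip w) = fr 0 a b c (γ • ip (t₁, t₂, 0)) := by
      rw [p_NoOpp_lin, p_NoOpp_smul, hfs, hfw, hft, hrel]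
    have h7 := congrArg g h6
    rwa [hgf, hgf] at h7
  obtain ⟨w₁, w₂, w₃⟩ := w
  simp only [ip, Prod.smul_mk, Prod.mk_add_mk, Prod.mk.injEq, smul_eq_mul, Int.cast_zero,
    mul_zero, zero_add] at hrel'
  obtain ⟨e1, e2, e3⟩ := hrel'
  have hw3 : w₃ = 0 := by
    have : (w₃ : ℝ) = 0 := by
      rcases mul_eq_zero.mp e3 with h | h
      · exact absurd h hβ.ne'
      · exact h
    exact_mod_cast this
  subst hw3
  have hposR : (0 : ℝ) < t₁ * s₂ - t₂ * s₁ := by exact_mod_cast hpos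
  have hneg : t₁ * w₂ - t₂ * w₁ < 0 := by
    have h6 : β * ((t₁ : ℝ) * w₂ - t₂ * w₁) = -(α * (t₁ * s₂ - t₂ * s₁)) := by
      have e1' : β * (w₁ : ℝ) = γ * t₁ - α * s₁ := by linarith
      have e2' : β * (w₂ : ℝ) = γ * t₂ - α * s₂ := by linarith
      calc β * ((t₁ : ℝ) * w₂ - t₂ * w₁) = t₁ * (β * w₂) - t₂ * (β * w₁) := by ring
        _ = t₁ * (γ * t₂ - α * s₂) - t₂ * (γ * t₁ - α * s₁) := by rw [e1', e2']
        _ = _ := by ring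
    have h7 : β * ((t₁ : ℝ) * w₂ - t₂ * w₁) < 0 := by
      rw [h6]; exact neg_neg_of_pos (mul_pos hα hposR)
    have h8 : ((t₁ : ℝ) * w₂ - t₂ * w₁) < 0 := by
      by_contra hcon
      have := mul_nonneg hβ.le (not_lt.mp hcon)
      linarith
    exact_mod_cast h8
  refine h_PL3 (fr 0 a b c ⁻¹' P) p hconv hp hcr' ?_ ?_ ?_
  · refine Or.inr ⟨0, (t₁, t₂), (s₁, s₂), (w₁, w₂), ?_, ?_, ?_, ?_, ?_, ?_⟩
    · change fr 0 a b c _ ∈ P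
      have : (((ip2 ((0 : ℤ × ℤ) + (t₁, t₂))).1, (ip2 ((0 : ℤ × ℤ) + (t₁, t₂))).2, (0 : ℝ)) :
          ℝ × ℝ × ℝ) = ip (t₁, t₂, 0) := by simp [ip2, ip]
      rw [this, hft]; exact ht
    · change fr 0 a b c _ ∈ P
      have : (((ip2 ((0 : ℤ × ℤ) - (t₁, t₂))).1, (ip2 ((0 : ℤ × ℤ) - (t₁, t₂))).2, (0 : ℝ)) :
          ℝ × ℝ × ℝ) = ip (-t₁, -t₂, 0) := by simp [ip2, ip]
      rw [this, hfmt]; exact hmt
    · change fr 0 a b c _ ∈ P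
      have : (((ip2 (s₁, s₂)).1, (ip2 (s₁, s₂)).2, (0 : ℝ)) : ℝ × ℝ × ℝ) = ip (s₁, s₂, 0) := by
        simp [ip2, ip]
      rw [this, hfs]; exact hs
    · change fr 0 a b c _ ∈ P
      have : (((ip2 (w₁, w₂)).1, (ip2 (w₁, w₂)).2, (0 : ℝ)) : ℝ × ℝ × ℝ) = ip (w₁, w₂, 0) := by
        simp [ip2, ip]
      rw [this, hfw]; exact hs'
    · simpa [det2] using hpos
    · simpa [det2] using hneg
  · obtain ⟨ε, hε, hεP⟩ := hinn' (0, 0, 1)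
    obtain ⟨v, hv1, hv2⟩ := h_sides _ hlp' ⟨_, hεP, by simpa using hε⟩
    exact ⟨ip v, hv1, by simp only [ip]; exact_mod_cast hv2⟩
  · have hm : IsFr (fr 0 (1, 0, 0) (0, 1, 0) (0, 0, -1)) :=
      ⟨0, (1, 0, 0), (0, 1, 0), (0, 0, -1), Or.inr (by simp [det3]), fun _ => rfl⟩
    obtain ⟨-, hm2, -, -, -, -, -⟩ := h_fr2 _ hm (fr 0 a b c ⁻¹' P)
    obtain ⟨ε, hε, hεP⟩ := hinn' (0, 0, -1)
    have hmem : ((0, 0, ε) : ℝ × ℝ × ℝ) ∈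
        fr 0 (1, 0, 0) (0, 1, 0) (0, 0, -1) ⁻¹' (fr 0 a b c ⁻¹' P) := by
      change fr 0 (1, 0, 0) (0, 1, 0) (0, 0, -1) (0, 0, ε) ∈ fr 0 a b c ⁻¹' P
      have : fr 0 (1, 0, 0) (0, 1, 0) (0, 0, -1) (0, 0, ε) =
          (0 : ℝ × ℝ × ℝ) + ε • ((0, 0, -1) : ℝ × ℝ × ℝ) := by simp [fr]
      rw [this]; exact hεP
    obtain ⟨v, hv1, hv2⟩ := h_sides _ (hm2 hlp') ⟨_, hmem, hε⟩
    refine ⟨fr 0 (1, 0, 0) (0, 1, 0) (0, 0, -1) (ip v), hv1, ?_⟩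
    simp only [fr, ip]
    have : (1 : ℝ) ≤ (v.2.2 : ℝ) := by exact_mod_cast hv2
    simp
    linarith

end Pool.Agent.Lib.MP_0bc52e_nt.T
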