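import Pool.Agent.Lib.MP_0bc52e_nt.T.StmN

namespace Pool.Agent.Lib.MP_0bc52e_nt.T

open Pool.Agent.Lib.MP_0bc52e_nt.LC

private theorem p_PL3_scale {P : Set (ℝ × ℝ × ℝ)} (hP : Convex ℝ P)
    (h0 : ((0 : ℝ), (0 : ℝ), (0 : ℝ)) ∈ P) {x y z t : ℝ} (h : (x, y, z) ∈ P) (ht : 0 ≤ t)
    (ht1 : t ≤ 1) : (t * x, t * y, t * z) ∈ P := by
  have h1 := hP h h0 ht (sub_nonneg.2 ht1) (by ring)
  convert h1 using 1
  ext <;> simp

private theorem p_PL3_cases {P : Set (ℝ × ℝ × ℝ)} {Q : Set (ℝ × ℝ)} (hP : Convex ℝ P)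
    (hQ : ∀ w ∈ Q, (w.1, w.2, (0 : ℝ)) ∈ P) (h : W3 Q ∨ D4 Q ∨ T4 Q) :
    ((0 : ℝ), (0 : ℝ), (0 : ℝ)) ∈ P := by
  rcases h with h | h | h
  · have a := hQ _ h.1
    have b := hQ _ h.2.1
    have c := hQ _ h.2.2
    have h1 := hP a b (show (0 : ℝ) ≤ 1 / 2 by norm_num) (show (0 : ℝ) ≤ 1 / 2 by norm_num)
      (by norm_num)
    have h2 := hP h1 c (show (0 : ℝ) ≤ 2 / 3 by norm_num) (show (0 : ℝ) ≤ 1 / 3 by norm_num)
      (by norm_num)
    convert h2 using 1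
    ext <;> simp <;> norm_num
  · have a := hQ _ h.1
    have b := hQ _ h.2.1
    have h1 := hP a b (show (0 : ℝ) ≤ 1 / 2 by norm_num) (show (0 : ℝ) ≤ 1 / 2 by norm_num)
      (by norm_num)
    convert h1 using 1
    ext <;> simp
  · have a := hQ _ h.1
    have b := hQ _ h.2.1
    have c := hQ _ h.2.2
    have h1 := hP a b (show (0 : ℝ) ≤ 1 / 2 by norm_num) (show (0 : ℝ) ≤ 1 / 2 by norm_num)
      (by norm_num)
    have h2 := hP h1 c (show (0 : ℝ) ≤ 1 / 2 by norm_num) (show (0 : ℝ) ≤ 1 / 2 by norm_num)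
      (by norm_num)
    convert h2 using 1
    ext <;> simp <;> norm_num

theorem p_PL3 (h_J2 : S_J2) (h_PLW : S_PLW) (h_PLD : S_PLD) (h_PLT : S_PLT) (h_fr1 : S_fr1)
    (h_fr2 : S_fr2) : S_PL3 := by
  intro P p hP hp hC hJ h1 h2
  obtain ⟨⟨x1, y1, z1⟩, hu1, hz1⟩ := h1
  obtain ⟨⟨x2, y2, z2⟩, hu2, hz2⟩ := h2
  have hQ : Convex ℝ {v : ℝ × ℝ | (v.1, v.2, (0 : ℝ)) ∈ P} := by
    intro v hv w hw s t hs ht hst
    have h := hP hv hw hs ht hst
    simp only [Set.mem_setOf_eq]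
    convert h using 1
    ext <;> simp
  obtain ⟨g, ⟨a, b, c, d, e, f, hD, hg⟩, hcases⟩ := h_J2 _ hQ hJ
  set D : ℤ := a * d - b * c with hDdef
  have hD2 : D * D = 1 := by rcases hD with h | h <;> rw [h] <;> norm_num
  have hD2r : ((a : ℝ) * d - b * c) * (a * d - b * c) = 1 := by
    have h : ((D * D : ℤ) : ℝ) = 1 := by rw [hD2]; norm_num
    rw [hDdef] at h
    push_cast at h
    exact h
  set F := fr (D * (b * f - d * e), D * (c * e - a * f), 0) (D * d, -(D * c), 0)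
    (-(D * b), D * a, 0) (0, 0, 1) with hF
  have hFr : IsFr F := by
    refine ⟨_, _, _, _, ?_, fun v => rfl⟩
    have h : det3 (D * d, -(D * c), 0) (-(D * b), D * a, 0) (0, 0, 1) = D := by
      simp only [det3]
      linear_combination (a * d - b * c) * hD2 + hDdef * (-1) * 1
    rw [h]
    exact hD
  have hFg : ∀ x y z : ℝ, F ((g (x, y)).1, (g (x, y)).2, z) = (x, y, z) := by
    intro x y z
    rw [hF, hg]
    simp only [fr, hDdef]
    push_cast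
    ext
    · simp only
      linear_combination x * hD2r
    · simp only
      linear_combination y * hD2r
    · simp only
      ring
  obtain ⟨hconv, -, -, hcr, -, -, -⟩ := h_fr2 F hFr P
  have hP' := hconv hP
  have hC' := hcr p hC
  have hmem : ∀ w ∈ g '' {v : ℝ × ℝ | (v.1, v.2, (0 : ℝ)) ∈ P}, (w.1, w.2, (0 : ℝ)) ∈ F ⁻¹' P := by
    rintro _ ⟨v, hv, rfl⟩
    rw [Set.mem_preimage, show g v = g (v.1, v.2) from rfl, hFg]
    exact hv
  have h0 := p_PL3_cases hP' hmem hcases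
  have hup : ∃ x y : ℝ, (x, y, (1 : ℝ)) ∈ F ⁻¹' P := by
    have hm : ((g (x1, y1)).1, (g (x1, y1)).2, z1) ∈ F ⁻¹' P := by
      rw [Set.mem_preimage, hFg]
      exact hu1
    simp only at hz1
    have hz : (0 : ℝ) < z1 := by linarith
    have h := p_PL3_scale hP' h0 hm (show (0 : ℝ) ≤ z1⁻¹ by positivity) (inv_le_one_of_one_le₀ hz1)
    rw [inv_mul_cancel₀ hz.ne'] at h
    exact ⟨_, _, h⟩
  have hdn : ∃ x y : ℝ, (x, y, (-1 : ℝ)) ∈ F ⁻¹' P := by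
    have hm : ((g (x2, y2)).1, (g (x2, y2)).2, z2) ∈ F ⁻¹' P := by
      rw [Set.mem_preimage, hFg]
      exact hu2
    simp only at hz2
    have hz : (0 : ℝ) < -z2 := by linarith
    have h := p_PL3_scale hP' h0 hm (show (0 : ℝ) ≤ (-z2)⁻¹ by positivity)
      (inv_le_one_of_one_le₀ (by linarith))
    have e : (-z2)⁻¹ * z2 = -1 := by
      rw [inv_neg, neg_mul, inv_mul_cancel₀ (by linarith : z2 ≠ 0)]
    rw [e] at h
    exact ⟨_, _, h⟩
  obtain ⟨X1, Y1, hu⟩ := hup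
  obtain ⟨X2, Y2, hd⟩ := hdn
  rcases hcases with h | h | h
  · exact h_PLW _ p X1 Y1 X2 Y2 hP' hp hC' (hmem _ h.1) (hmem _ h.2.1) (hmem _ h.2.2) hu hd
  · exact h_PLD _ p X1 Y1 X2 Y2 hP' hp hC' (hmem _ h.1) (hmem _ h.2.1) (hmem _ h.2.2.1)
      (hmem _ h.2.2.2) hu hd
  · exact h_PLT _ p X1 Y1 X2 Y2 hP' hp hC' (hmem _ h.1) (hmem _ h.2.1) (hmem _ h.2.2) hu hd

end Pool.Agent.Lib.MP_0bc52e_nt.T
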