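import Pool.Agent.Lib.MP_0bc52e_nt.T.StmN

/-! [TN PLW] (helper58) -/

namespace Pool.Agent.Lib.MP_0bc52e_nt.T

open Pool.Agent.Lib.MP_0bc52e_nt.LC

/-- The triangle `W` at level `0` is in `P`. -/
private theorem p_PLW_tri {P : Set (ℝ × ℝ × ℝ)} (hP : Convex ℝ P)
    (h1 : ((1 : ℝ), (0 : ℝ), (0 : ℝ)) ∈ P) (h2 : ((0 : ℝ), (1 : ℝ), (0 : ℝ)) ∈ P)
    (h3 : ((-1 : ℝ), (-1 : ℝ), (0 : ℝ)) ∈ P) {w₁ w₂ : ℝ} (hw : inW w₁ w₂ 1) :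
    (w₁, w₂, (0 : ℝ)) ∈ P := by
  obtain ⟨ha, hb, hc⟩ := hw
  have h := hP.sum_mem (t := Finset.univ)
    (w := ![(1 + 2 * w₁ - w₂) / 3, (1 + 2 * w₂ - w₁) / 3, (1 - w₁ - w₂) / 3])
    (z := ![((1 : ℝ), (0 : ℝ), (0 : ℝ)), ((0 : ℝ), (1 : ℝ), (0 : ℝ)),
      ((-1 : ℝ), (-1 : ℝ), (0 : ℝ))]) (by
      intro i _
      fin_cases i
      · show 0 ≤ (1 + 2 * w₁ - w₂) / 3
        linarith
      · show 0 ≤ (1 + 2 * w₂ - w₁) / 3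
        linarith
      · show 0 ≤ (1 - w₁ - w₂) / 3
        linarith) (by
      rw [Fin.sum_univ_three]
      show (1 + 2 * w₁ - w₂) / 3 + (1 + 2 * w₂ - w₁) / 3 + (1 - w₁ - w₂) / 3 = 1
      ring) (by
      intro i _
      fin_cases i
      · exact h1
      · exact h2
      · exact h3)
  rw [Fin.sum_univ_three] at h
  have e : (w₁, w₂, (0 : ℝ)) =
      ((1 + 2 * w₁ - w₂) / 3) • ((1 : ℝ), (0 : ℝ), (0 : ℝ)) +
      ((1 + 2 * w₂ - w₁) / 3) • ((0 : ℝ), (1 : ℝ), (0 : ℝ)) +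
      ((1 - w₁ - w₂) / 3) • ((-1 : ℝ), (-1 : ℝ), (0 : ℝ)) := by
    refine Prod.ext ?_ (Prod.ext ?_ ?_)
    · show w₁ = (1 + 2 * w₁ - w₂) / 3 * 1 + (1 + 2 * w₂ - w₁) / 3 * 0 + (1 - w₁ - w₂) / 3 * (-1)
      ring
    · show w₂ = (1 + 2 * w₁ - w₂) / 3 * 0 + (1 + 2 * w₂ - w₁) / 3 * 1 + (1 - w₁ - w₂) / 3 * (-1)
      ring
    · show (0 : ℝ) = (1 + 2 * w₁ - w₂) / 3 * 0 + (1 + 2 * w₂ - w₁) / 3 * 0 +
        (1 - w₁ - w₂) / 3 * 0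
      ring
  rw [e]
  exact h

private theorem p_PLW_claim {P : Set (ℝ × ℝ × ℝ)} (hP : Convex ℝ P) {p : ℕ} {a b c : ℤ}
    (hcr : Crit3 P p a b c)
    (h1 : ((1 : ℝ), (0 : ℝ), (0 : ℝ)) ∈ P) (h2 : ((0 : ℝ), (1 : ℝ), (0 : ℝ)) ∈ P)
    (h3 : ((-1 : ℝ), (-1 : ℝ), (0 : ℝ)) ∈ P) {h : ℕ} (hh : 0 < h) {k : ℤ}
    (hs : 9 * ((h : ℤ) + |k|) ≤ p) (hd : (p : ℤ) ∣ k - h * c) {X Y e : ℝ} (hX : (X, Y, e) ∈ P)
    (hk : ((|k| : ℤ) : ℝ) * e = -(k : ℝ)) {m : ℕ} (hm : 1 ≤ m) (hm3 : m ≤ 3) (i j : ℤ)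
    (hW : inW (m * ((-(h : ℝ) * a - ((|k| : ℤ) : ℝ) * X) / p) - i)
      (m * ((-(h : ℝ) * b - ((|k| : ℤ) : ℝ) * Y) / p) - j)
      (1 - m * (((h : ℝ) + ((|k| : ℤ) : ℝ)) / p))) : False := by
  have hk0 : 0 ≤ |k| := abs_nonneg k
  have hmh : m * h < p := by
    have h5 : m * h ≤ 3 * h := Nat.mul_le_mul_right h hm3
    have h6 : 9 * (h : ℤ) ≤ p := by linarith
    have h7 : 9 * h ≤ p := by exact_mod_cast h6
    omega
  have hpR : (0 : ℝ) < p := by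
    have : 0 < p := by omega
    exact_mod_cast this
  have hkR : (0 : ℝ) ≤ ((|k| : ℤ) : ℝ) := by exact_mod_cast hk0
  have hhR : (1 : ℝ) ≤ h := by exact_mod_cast hh
  have hmR : (1 : ℝ) ≤ m := by exact_mod_cast hm
  have hm3R : (m : ℝ) ≤ 3 := by exact_mod_cast hm3
  have hsR : 9 * ((h : ℝ) + ((|k| : ℤ) : ℝ)) ≤ p := by exact_mod_cast hs
  have hD : 0 < (p : ℝ) - m * ((h : ℝ) + ((|k| : ℤ) : ℝ)) := by
    have h5 : (m : ℝ) * ((h : ℝ) + ((|k| : ℤ) : ℝ)) ≤ 3 * ((h : ℝ) + ((|k| : ℤ) : ℝ)) :=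
      mul_le_mul_of_nonneg_right hm3R (by linarith)
    linarith
  have hmk : 0 ≤ (m : ℝ) * ((|k| : ℤ) : ℝ) := mul_nonneg (by linarith) hkR
  have hN : ((p - m * h : ℕ) : ℝ) = (p : ℝ) - m * h := by
    rw [Nat.cast_sub hmh.le]
    push_cast
    ring
  have hNpos : (0 : ℝ) < (p : ℝ) - m * h := by
    have : (m : ℝ) * ((h : ℝ) + ((|k| : ℤ) : ℝ)) = m * h + m * ((|k| : ℤ) : ℝ) := by ring
    linarith
  set D : ℝ := (p : ℝ) - m * ((h : ℝ) + ((|k| : ℤ) : ℝ)) with hDdef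
  set N : ℝ := (p : ℝ) - m * h with hNdef
  set κ : ℝ := ((|k| : ℤ) : ℝ) with hκ
  have hND : N = m * κ + D := by
    rw [hNdef, hDdef]
    ring
  -- the point of the triangle
  set u₁ : ℝ := m * ((-(h : ℝ) * a - κ * X) / p) - i with hu₁
  set u₂ : ℝ := m * ((-(h : ℝ) * b - κ * Y) / p) - j with hu₂
  have hr : 1 - (m : ℝ) * (((h : ℝ) + κ) / p) = D / p := by
    rw [hDdef]
    field_simp
  rw [hr] at hW
  obtain ⟨hW1, hW2, hW3⟩ := hW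
  have hDp : (p : ℝ) / D * (D / p) = 1 := by field_simp
  have hpD : 0 < (p : ℝ) / D := div_pos hpR hD
  have hw : inW ((p : ℝ) / D * u₁) ((p : ℝ) / D * u₂) 1 := by
    refine ⟨?_, ?_, ?_⟩
    · calc (p : ℝ) / D * u₁ + (p : ℝ) / D * u₂ = (p : ℝ) / D * (u₁ + u₂) := by ring
        _ ≤ (p : ℝ) / D * (D / p) := mul_le_mul_of_nonneg_left hW1 hpD.le
        _ = 1 := hDp
    · calc (p : ℝ) / D * u₁ - 2 * ((p : ℝ) / D * u₂) = (p : ℝ) / D * (u₁ - 2 * u₂) := by ring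
        _ ≤ (p : ℝ) / D * (D / p) := mul_le_mul_of_nonneg_left hW2 hpD.le
        _ = 1 := hDp
    · calc (p : ℝ) / D * u₂ - 2 * ((p : ℝ) / D * u₁) = (p : ℝ) / D * (u₂ - 2 * u₁) := by ring
        _ ≤ (p : ℝ) / D * (D / p) := mul_le_mul_of_nonneg_left hW3 hpD.le
        _ = 1 := hDp
  have hT := p_PLW_tri hP h1 h2 h3 hw
  -- the point of `P`
  have hQ : (m * κ / N) • (X, Y, e) + (D / N) • ((p : ℝ) / D * u₁, (p : ℝ) / D * u₂, (0 : ℝ)) ∈ P := by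
    apply hP hX hT (div_nonneg hmk hNpos.le) (div_nonneg hD.le hNpos.le)
    rw [← add_div, ← hND, div_self hNpos.ne']
  have hNe : N ≠ 0 := hNpos.ne'
  have hDe : D ≠ 0 := hD.ne'
  have hpe : (p : ℝ) ≠ 0 := hpR.ne'
  refine hcr (p - m * h) (by omega) (by
      have : 0 < m * h := Nat.mul_pos hm hh
      omega) (-(m * h * a) - p * i) (-(m * h * b) - p * j) (-(m * k))
    (m * κ / N * X + D / N * ((p : ℝ) / D * u₁)) (m * κ / N * Y + D / N * ((p : ℝ) / D * u₂))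
    (m * κ / N * e + D / N * 0) hQ ?_ ?_ ?_ ?_ ?_ ?_
  · rw [hN, hu₁]
    push_cast
    field_simp
    ring
  · rw [hN, hu₂]
    push_cast
    field_simp
    ring
  · rw [hN]
    push_cast
    have e1 : N * (m * κ / N * e + D / N * 0) = m * (κ * e) := by
      field_simp
      ring
    rw [e1, hk]
    ring
  · rw [Nat.cast_sub hmh.le]
    push_cast
    exact ⟨-i - a, by ring⟩
  · rw [Nat.cast_sub hmh.le]
    push_cast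
    exact ⟨-j - b, by ring⟩
  · rw [Nat.cast_sub hmh.le]
    push_cast
    obtain ⟨t, ht⟩ := hd
    refine ⟨-(m * t) - c, ?_⟩
    have e1 : k = h * c + p * t := by linarith
    rw [e1]
    ring

theorem p_PLW (h_short : S_short) (h_holeW : S_holeW) : S_PLW := by
  intro P p x₁ y₁ x₂ y₂ hP hp hCr h1 h2 h3 h4 h5
  obtain ⟨a, b, c, hcr⟩ := hCr
  obtain ⟨h, hh, k, hs, hd⟩ := h_short p c hp
  obtain ⟨X, Y, e, hX, hk⟩ : ∃ X Y e : ℝ, (X, Y, e) ∈ P ∧ ((|k| : ℤ) : ℝ) * e = -(k : ℝ) := by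
    rcases le_total 0 k with hk | hk
    · exact ⟨x₂, y₂, -1, h5, by rw [abs_of_nonneg hk]; ring⟩
    · exact ⟨x₁, y₁, 1, h4, by rw [abs_of_nonpos hk]; push_cast; ring⟩
  have hpR : (0 : ℝ) < p := by
    have : 0 < p := by omega
    exact_mod_cast this
  have hsR : 9 * ((h : ℝ) + ((|k| : ℤ) : ℝ)) ≤ p := by exact_mod_cast hs
  have hsp : 9 * (((h : ℝ) + ((|k| : ℤ) : ℝ)) / p) ≤ 1 := by
    rw [← mul_div_assoc, div_le_one hpR]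
    exact hsR
  have claim := fun (m : ℕ) (hm : 1 ≤ m) (hm3 : m ≤ 3) (i j : ℤ) =>
    p_PLW_claim hP hcr h1 h2 h3 hh hs hd hX hk hm hm3 i j
  set x : ℝ := (-(h : ℝ) * a - ((|k| : ℤ) : ℝ) * X) / p with hx
  set y : ℝ := (-(h : ℝ) * b - ((|k| : ℤ) : ℝ) * Y) / p with hy
  set s : ℝ := ((h : ℝ) + ((|k| : ℤ) : ℝ)) / p with hsdef
  obtain ⟨i, j, σ, -, v₁, v₂, ex, ey, g1, g2, g3⟩ := h_holeW x y (1 - s) (fun i j hW => by
    apply claim 1 le_rfl (by norm_num) i j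
    rw [Nat.cast_one, one_mul, one_mul, one_mul]
    exact hW)
  refine claim 3 (by norm_num) le_rfl (3 * i + σ) (3 * j - σ) ?_
  have e1 : ((3 : ℕ) : ℝ) * x - ((3 * i + σ : ℤ) : ℝ) = 3 * v₁ := by
    rw [ex]
    push_cast
    ring
  have e2 : ((3 : ℕ) : ℝ) * y - ((3 * j - σ : ℤ) : ℝ) = 3 * v₂ := by
    rw [ey]
    push_cast
    ring
  rw [e1, e2]
  push_cast
  refine ⟨?_, ?_, ?_⟩ <;> linarith

end Pool.Agent.Lib.MP_0bc52e_nt.T
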