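import Pool.Agent.Lib.MP_0bc52e_nt.T.StmN

/-!
# MP_0bc52e_nt, Theorem (T163), part N: piece SX
-/

set_option autoImplicit false

namespace Pool.Agent.Lib.MP_0bc52e_nt.T

open Pool.Agent.Lib.MP_0bc52e_nt.LC

/-- points with small `κ_i` are in the dilate -/
private theorem p_SX_mem {P : Set (ℝ × ℝ × ℝ)} (hc : Convex ℝ P) {w₀ w₁ w₂ w₃ x : ℝ × ℝ × ℝ}
    (m₀ : w₀ ∈ P) (m₁ : w₁ ∈ P) (m₂ : w₂ ∈ P) (m₃ : w₃ ∈ P) {d₀ d₁ d₂ d₃ k₀ k₁ k₂ k₃ ρ : ℝ}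
    (q₀ : 0 < d₀) (q₁ : 0 < d₁) (q₂ : 0 < d₂) (q₃ : 0 < d₃)
    (hrel : d₀ • w₀ + d₁ • w₁ + d₂ • w₂ + d₃ • w₃ = 0)
    (hk : d₀ * k₀ + d₁ * k₁ + d₂ * k₂ + d₃ * k₃ = 0)
    (hx : (d₀ + d₁ + d₂ + d₃) • x + ((d₀ * k₀) • w₀ + (d₁ * k₁) • w₁ + (d₂ * k₂) • w₂ +
      (d₃ * k₃) • w₃) = 0)
    (hρ : 0 < ρ) (l₀ : k₀ ≤ ρ) (l₁ : k₁ ≤ ρ) (l₂ : k₂ ≤ ρ) (l₃ : k₃ ≤ ρ) :
    ∃ u ∈ P, x = ρ • u := by
  have hE : 0 < d₀ + d₁ + d₂ + d₃ := by positivity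
  have hEρ : 0 < (d₀ + d₁ + d₂ + d₃) * ρ := mul_pos hE hρ
  let μ : Fin 4 → ℝ := ![d₀ * (ρ - k₀) / ((d₀ + d₁ + d₂ + d₃) * ρ),
    d₁ * (ρ - k₁) / ((d₀ + d₁ + d₂ + d₃) * ρ), d₂ * (ρ - k₂) / ((d₀ + d₁ + d₂ + d₃) * ρ),
    d₃ * (ρ - k₃) / ((d₀ + d₁ + d₂ + d₃) * ρ)]
  let w : Fin 4 → ℝ × ℝ × ℝ := ![w₀, w₁, w₂, w₃]
  have hμ0 : ∀ i ∈ Finset.univ, 0 ≤ μ i := by
    intro i _
    fin_cases i
    · exact div_nonneg (mul_nonneg q₀.le (sub_nonneg.mpr l₀)) hEρ.le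
    · exact div_nonneg (mul_nonneg q₁.le (sub_nonneg.mpr l₁)) hEρ.le
    · exact div_nonneg (mul_nonneg q₂.le (sub_nonneg.mpr l₂)) hEρ.le
    · exact div_nonneg (mul_nonneg q₃.le (sub_nonneg.mpr l₃)) hEρ.le
  have hμ1 : ∑ i, μ i = 1 := by
    rw [Fin.sum_univ_four]
    show d₀ * (ρ - k₀) / ((d₀ + d₁ + d₂ + d₃) * ρ) + d₁ * (ρ - k₁) / ((d₀ + d₁ + d₂ + d₃) * ρ) +
      d₂ * (ρ - k₂) / ((d₀ + d₁ + d₂ + d₃) * ρ) + d₃ * (ρ - k₃) / ((d₀ + d₁ + d₂ + d₃) * ρ) = 1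
    rw [← add_div, ← add_div, ← add_div, div_eq_one_iff_eq hEρ.ne']
    linear_combination -hk
  have hw : ∀ i ∈ Finset.univ, w i ∈ P := by
    intro i _
    fin_cases i
    · exact m₀
    · exact m₁
    · exact m₂
    · exact m₃
  refine ⟨_, hc.sum_mem hμ0 hμ1 hw, ?_⟩
  rw [Fin.sum_univ_four]
  show x = ρ • ((d₀ * (ρ - k₀) / ((d₀ + d₁ + d₂ + d₃) * ρ)) • w₀ +
    (d₁ * (ρ - k₁) / ((d₀ + d₁ + d₂ + d₃) * ρ)) • w₁ +
    (d₂ * (ρ - k₂) / ((d₀ + d₁ + d₂ + d₃) * ρ)) • w₂ +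
    (d₃ * (ρ - k₃) / ((d₀ + d₁ + d₂ + d₃) * ρ)) • w₃)
  have key : (d₀ + d₁ + d₂ + d₃) • x = (d₀ + d₁ + d₂ + d₃) •
      (ρ • ((d₀ * (ρ - k₀) / ((d₀ + d₁ + d₂ + d₃) * ρ)) • w₀ +
    (d₁ * (ρ - k₁) / ((d₀ + d₁ + d₂ + d₃) * ρ)) • w₁ +
    (d₂ * (ρ - k₂) / ((d₀ + d₁ + d₂ + d₃) * ρ)) • w₂ +
    (d₃ * (ρ - k₃) / ((d₀ + d₁ + d₂ + d₃) * ρ)) • w₃)) := by
    have e : ∀ t : ℝ, (d₀ + d₁ + d₂ + d₃) * (ρ * (t / ((d₀ + d₁ + d₂ + d₃) * ρ))) = t := by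
      intro t
      field_simp
    simp only [smul_add, smul_smul, e]
    have h1 : (d₀ + d₁ + d₂ + d₃) • x = -((d₀ * k₀) • w₀ + (d₁ * k₁) • w₁ + (d₂ * k₂) • w₂ +
      (d₃ * k₃) • w₃) := eq_neg_of_add_eq_zero_left hx
    have h2 : (d₀ * (ρ - k₀)) • w₀ + (d₁ * (ρ - k₁)) • w₁ + (d₂ * (ρ - k₂)) • w₂ +
        (d₃ * (ρ - k₃)) • w₃ = ρ • (d₀ • w₀ + d₁ • w₁ + d₂ • w₂ + d₃ • w₃) -
        ((d₀ * k₀) • w₀ + (d₁ * k₁) • w₁ + (d₂ * k₂) • w₂ + (d₃ * k₃) • w₃) := by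
      module
    rw [h1, h2, hrel, smul_zero, zero_sub]
  exact smul_right_injective _ hE.ne' key

/-- the determinant of the three forms -/
private theorem p_SX_det {A G : Matrix (Fin 3) (Fin 3) ℝ} {d₀ d₁ d₂ d₃ E p : ℝ} (q₀ : 0 < d₀)
    (q₁ : 0 < d₁) (q₂ : 0 < d₂) (q₃ : 0 < d₃) (hE : 0 < E) (hp : 0 < p) (hA : A.det = d₀ ^ 2)
    (hG : G.det = p ^ 2) (h : 2 * E ^ 3 < p * (d₀ * d₁ * d₂ * d₃)) :
    (Matrix.diagonal ![-(E / (d₀ * d₁)), -(E / (d₀ * d₂)), -(E / (d₀ * d₃))] * (A * G)).det ≠ 0 ∧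
    2 * |(Matrix.diagonal ![-(E / (d₀ * d₁)), -(E / (d₀ * d₂)), -(E / (d₀ * d₃))] * (A * G)).det|
      < p ^ 3 := by
  have e : (Matrix.diagonal ![-(E / (d₀ * d₁)), -(E / (d₀ * d₂)), -(E / (d₀ * d₃))] *
      (A * G)).det = -(E ^ 3 * p ^ 2 / (d₀ * d₁ * d₂ * d₃)) := by
    rw [Matrix.det_mul, Matrix.det_mul, Matrix.det_diagonal, Fin.prod_univ_three, hA, hG]
    show -(E / (d₀ * d₁)) * -(E / (d₀ * d₂)) * -(E / (d₀ * d₃)) * (d₀ ^ 2 * p ^ 2) = _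
    field_simp
  have hpos : 0 < E ^ 3 * p ^ 2 / (d₀ * d₁ * d₂ * d₃) := by positivity
  rw [e, abs_neg, abs_of_pos hpos]
  refine ⟨neg_ne_zero.mpr hpos.ne', ?_⟩
  rw [← mul_div_assoc, div_lt_iff₀ (by positivity)]
  have h2 : 0 < p ^ 2 := by positivity
  nlinarith [mul_lt_mul_of_pos_right h h2]

/-- a form with weighted sum zero -/
private theorem p_SX_le {d₀ d₁ d₂ d₃ t₀ t₁ t₂ t₃ p : ℝ} (q₀ : 0 < d₀) (q₁ : 0 < d₁)
    (q₂ : 0 < d₂) (q₃ : 0 < d₃) (hp : 0 < p) (ht : d₀ * t₀ + d₁ * t₁ + d₂ * t₂ + d₃ * t₃ = 0)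
    (a₁ : t₀ - t₁ ≤ p) (a₂ : t₀ - t₂ ≤ p) (a₃ : t₀ - t₃ ≤ p) : t₀ ≤ p := by
  by_contra hcon
  have hcon' := not_le.mp hcon
  have p0 : 0 < d₀ * t₀ := mul_pos q₀ (by linarith)
  have p1 : 0 < d₁ * t₁ := mul_pos q₁ (by linarith)
  have p2 : 0 < d₂ * t₂ := mul_pos q₂ (by linarith)
  have p3 : 0 < d₃ * t₃ := mul_pos q₃ (by linarith)
  linarith

/-- all four values -/
private theorem p_SX_all {d₀ d₁ d₂ d₃ t₀ t₁ t₂ t₃ p : ℝ} (q₀ : 0 < d₀) (q₁ : 0 < d₁)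
    (q₂ : 0 < d₂) (q₃ : 0 < d₃) (hp : 0 < p) (ht : d₀ * t₀ + d₁ * t₁ + d₂ * t₂ + d₃ * t₃ = 0)
    (a01 : -p ≤ t₀ - t₁ ∧ t₀ - t₁ ≤ p) (a02 : -p ≤ t₀ - t₂ ∧ t₀ - t₂ ≤ p)
    (a03 : -p ≤ t₀ - t₃ ∧ t₀ - t₃ ≤ p) (a12 : -p ≤ t₁ - t₂ ∧ t₁ - t₂ ≤ p)
    (a13 : -p ≤ t₁ - t₃ ∧ t₁ - t₃ ≤ p) (a23 : -p ≤ t₂ - t₃ ∧ t₂ - t₃ ≤ p) :
    t₀ ≤ p ∧ t₁ ≤ p ∧ t₂ ≤ p ∧ t₃ ≤ p :=
  ⟨p_SX_le q₀ q₁ q₂ q₃ hp ht a01.2 a02.2 a03.2,
    p_SX_le (t₁ := t₀) q₁ q₀ q₂ q₃ hp (by linarith) (by linarith [a01.1]) a12.2 a13.2,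
    p_SX_le (t₁ := t₀) (t₂ := t₁) q₂ q₀ q₁ q₃ hp (by linarith) (by linarith [a02.1])
      (by linarith [a12.1]) a23.2,
    p_SX_le (t₁ := t₀) (t₂ := t₁) (t₃ := t₂) q₃ q₀ q₁ q₂ hp (by linarith) (by linarith [a03.1])
      (by linarith [a13.1]) (by linarith [a23.1])⟩

private theorem p_SX_form (A G : Matrix (Fin 3) (Fin 3) ℝ) (e n : Fin 3 → ℝ) (i : Fin 3) :
    ∑ j, (Matrix.diagonal e * (A * G)) i j * n j = e i * ∑ k, A i k * ∑ j, G k j * n j := by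
  have h : (Matrix.diagonal e * (A * G)).mulVec n =
      (Matrix.diagonal e).mulVec (A.mulVec (G.mulVec n)) := by
    rw [Matrix.mulVec_mulVec, Matrix.mulVec_mulVec, Matrix.mul_assoc]
  have h2 := congrFun h i
  rw [Matrix.mulVec_diagonal] at h2
  exact h2

theorem p_SX (h_MZ : S_MZ) (h_gam : S_gam) : S_SX := by
  rintro P p ⟨x0, y0, z0⟩ ⟨x1, y1, z1⟩ ⟨x2, y2, z2⟩ ⟨x3, y3, z3⟩ d₀ d₁ d₂ d₃ hc hp
    ⟨a, b, c, hcr⟩ ⟨e0, e1, e2, e3, q0, q1, q2, q3⟩ ⟨m0, m1, m2, m3⟩ hlt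
  simp only [det3] at e0 e1 e2 e3
  have hp2 : 1 < p := hp.one_lt
  have hpR : (0 : ℝ) < p := by exact_mod_cast hp.pos
  -- real versions
  have Q0 : (0 : ℝ) < d₀ := by exact_mod_cast q0
  have Q1 : (0 : ℝ) < d₁ := by exact_mod_cast q1
  have Q2 : (0 : ℝ) < d₂ := by exact_mod_cast q2
  have Q3 : (0 : ℝ) < d₃ := by exact_mod_cast q3
  have r1 : d₀ * x0 + d₁ * x1 + d₂ * x2 + d₃ * x3 = 0 := by rw [e0, e1, e2, e3]; ring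
  have r2 : d₀ * y0 + d₁ * y1 + d₂ * y2 + d₃ * y3 = 0 := by rw [e0, e1, e2, e3]; ring
  have r3 : d₀ * z0 + d₁ * z1 + d₂ * z2 + d₃ * z3 = 0 := by rw [e0, e1, e2, e3]; ring
  have R1 : (d₀ : ℝ) * x0 + d₁ * x1 + d₂ * x2 + d₃ * x3 = 0 := by exact_mod_cast r1
  have R2 : (d₀ : ℝ) * y0 + d₁ * y1 + d₂ * y2 + d₃ * y3 = 0 := by exact_mod_cast r2
  have R3 : (d₀ : ℝ) * z0 + d₁ * z1 + d₂ * z2 + d₃ * z3 = 0 := by exact_mod_cast r3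
  have E0 : (d₀ : ℝ) = x1 * (y2 * z3 - z2 * y3) - y1 * (x2 * z3 - z2 * x3) +
      z1 * (x2 * y3 - y2 * x3) := by
    exact_mod_cast e0
  have hEpos : (0 : ℝ) < (d₀ : ℝ) + d₁ + d₂ + d₃ := by positivity
  have hltR : 2 * ((d₀ : ℝ) + d₁ + d₂ + d₃) ^ 3 < p * ((d₀ : ℝ) * d₁ * d₂ * d₃) := by
    exact_mod_cast hlt
  have hrel : (d₀ : ℝ) • ip (x0, y0, z0) + (d₁ : ℝ) • ip (x1, y1, z1) +
      (d₂ : ℝ) • ip (x2, y2, z2) + (d₃ : ℝ) • ip (x3, y3, z3) = 0 := by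
    simp only [ip, Prod.smul_mk, smul_eq_mul, Prod.mk_add_mk, Prod.mk_eq_zero]
    exact ⟨R1, R2, R3⟩
  -- the dilates, in terms of the forms `N_i`
  have hmem : ∀ (σ X Y Z ρ : ℝ), 0 < ρ →
      let N1 := X * (y2 * z3 - z2 * y3) - Y * (x2 * z3 - z2 * x3) + Z * (x2 * y3 - y2 * x3)
      let N2 := -(X * (y1 * z3 - z1 * y3) - Y * (x1 * z3 - z1 * x3) + Z * (x1 * y3 - y1 * x3))
      let N3 := X * (y1 * z2 - z1 * y2) - Y * (x1 * z2 - z1 * x2) + Z * (x1 * y2 - y1 * x2)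
      let s := (N1 + N2 + N3) / (d₀ : ℝ)
      σ * s ≤ ρ → σ * (s - N1 * ((d₀ : ℝ) + d₁ + d₂ + d₃) / (d₀ * d₁)) ≤ ρ →
      σ * (s - N2 * ((d₀ : ℝ) + d₁ + d₂ + d₃) / (d₀ * d₂)) ≤ ρ →
      σ * (s - N3 * ((d₀ : ℝ) + d₁ + d₂ + d₃) / (d₀ * d₃)) ≤ ρ →
      ∃ u v w : ℝ, (u, v, w) ∈ P ∧ σ * X = ρ * u ∧ σ * Y = ρ * v ∧ σ * Z = ρ * w := by
    intro σ X Y Z ρ hρ N1 N2 N3 s l0 l1 l2 l3
    have c1 : (d₀ : ℝ) * X = N1 * x1 + N2 * x2 + N3 * x3 := by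
      simp only [N1, N2, N3]; rw [E0]; ring
    have c2 : (d₀ : ℝ) * Y = N1 * y1 + N2 * y2 + N3 * y3 := by
      simp only [N1, N2, N3]; rw [E0]; ring
    have c3 : (d₀ : ℝ) * Z = N1 * z1 + N2 * z2 + N3 * z3 := by
      simp only [N1, N2, N3]; rw [E0]; ring
    have hs : (d₀ : ℝ) * s = N1 + N2 + N3 := mul_div_cancel₀ _ Q0.ne'
    clear_value s N1 N2 N3
    have hN1 : (d₁ : ℝ) * (σ * (s - N1 * ((d₀ : ℝ) + d₁ + d₂ + d₃) / (d₀ * d₁))) =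
        σ * (d₁ * s - N1 * ((d₀ : ℝ) + d₁ + d₂ + d₃) / d₀) := by field_simp
    have hN2 : (d₂ : ℝ) * (σ * (s - N2 * ((d₀ : ℝ) + d₁ + d₂ + d₃) / (d₀ * d₂))) =
        σ * (d₂ * s - N2 * ((d₀ : ℝ) + d₁ + d₂ + d₃) / d₀) := by field_simp
    have hN3 : (d₃ : ℝ) * (σ * (s - N3 * ((d₀ : ℝ) + d₁ + d₂ + d₃) / (d₀ * d₃))) =
        σ * (d₃ * s - N3 * ((d₀ : ℝ) + d₁ + d₂ + d₃) / d₀) := by field_simp
    have hcoord : ∀ (T t0 t1 t2 t3 : ℝ), (d₀ : ℝ) * T = N1 * t1 + N2 * t2 + N3 * t3 →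
        (d₀ : ℝ) * t0 + d₁ * t1 + d₂ * t2 + d₃ * t3 = 0 →
        ((d₀ : ℝ) + d₁ + d₂ + d₃) * (σ * T) + ((d₀ : ℝ) * (σ * s) * t0 +
          σ * (d₁ * s - N1 * ((d₀ : ℝ) + d₁ + d₂ + d₃) / d₀) * t1 +
          σ * (d₂ * s - N2 * ((d₀ : ℝ) + d₁ + d₂ + d₃) / d₀) * t2 +
          σ * (d₃ * s - N3 * ((d₀ : ℝ) + d₁ + d₂ + d₃) / d₀) * t3) = 0 := by
      intro T t0 t1 t2 t3 hT ht
      have hT' : T = (N1 * t1 + N2 * t2 + N3 * t3) / d₀ := by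
        rw [eq_div_iff Q0.ne', mul_comm]
        exact hT
      rw [hT']
      have : ((d₀ : ℝ) + d₁ + d₂ + d₃) * (σ * ((N1 * t1 + N2 * t2 + N3 * t3) / d₀)) +
          ((d₀ : ℝ) * (σ * s) * t0 +
          σ * (d₁ * s - N1 * ((d₀ : ℝ) + d₁ + d₂ + d₃) / d₀) * t1 +
          σ * (d₂ * s - N2 * ((d₀ : ℝ) + d₁ + d₂ + d₃) / d₀) * t2 +
          σ * (d₃ * s - N3 * ((d₀ : ℝ) + d₁ + d₂ + d₃) / d₀) * t3) =
          σ * s * ((d₀ : ℝ) * t0 + d₁ * t1 + d₂ * t2 + d₃ * t3) := by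
        field_simp
        ring
      rw [this, ht, mul_zero]
    obtain ⟨u, hu, hxu⟩ := p_SX_mem hc (x := (σ * X, σ * Y, σ * Z)) m0 m1 m2 m3 Q0 Q1 Q2 Q3 hrel
      (k₀ := σ * s) (k₁ := σ * (s - N1 * ((d₀ : ℝ) + d₁ + d₂ + d₃) / (d₀ * d₁)))
      (k₂ := σ * (s - N2 * ((d₀ : ℝ) + d₁ + d₂ + d₃) / (d₀ * d₂)))
      (k₃ := σ * (s - N3 * ((d₀ : ℝ) + d₁ + d₂ + d₃) / (d₀ * d₃)))
      (by
        rw [hN1, hN2, hN3]
        have : (d₀ : ℝ) * (σ * s) + σ * (d₁ * s - N1 * ((d₀ : ℝ) + d₁ + d₂ + d₃) / d₀) +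
            σ * (d₂ * s - N2 * ((d₀ : ℝ) + d₁ + d₂ + d₃) / d₀) +
            σ * (d₃ * s - N3 * ((d₀ : ℝ) + d₁ + d₂ + d₃) / d₀) =
            σ * ((d₀ : ℝ) + d₁ + d₂ + d₃) * (s - (N1 + N2 + N3) / d₀) := by
          field_simp
          ring
        rw [this, ← hs, mul_div_cancel_left₀ _ Q0.ne', sub_self, mul_zero])
      (by
        rw [hN1, hN2, hN3]
        simp only [ip, Prod.smul_mk, smul_eq_mul, Prod.mk_add_mk, Prod.mk_eq_zero]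
        exact ⟨hcoord _ _ _ _ _ c1 R1, hcoord _ _ _ _ _ c2 R2, hcoord _ _ _ _ _ c3 R3⟩)
      hρ l0 l1 l2 l3
    refine ⟨u.1, u.2.1, u.2.2, hu, ?_, ?_, ?_⟩
    · exact congrArg Prod.fst hxu
    · exact congrArg (fun t => t.2.1) hxu
    · exact congrArg (fun t => t.2.2) hxu
  -- the class is not zero
  have hnd : ¬ ((p : ℤ) ∣ a ∧ (p : ℤ) ∣ b ∧ (p : ℤ) ∣ c) := by
    rintro ⟨ha, hb, hcc⟩
    obtain ⟨u, v, w, hu, hu1, hu2, hu3⟩ := hmem 0 0 0 0 1 one_pos (by simp) (by simp) (by simp)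
      (by simp)
    refine hcr 1 one_pos hp2 0 0 0 u v w hu ?_ ?_ ?_ ?_ ?_ ?_
    · push_cast
      linarith
    · push_cast
      linarith
    · push_cast
      linarith
    · simpa using ha
    · simpa using hb
    · simpa using hcc
  obtain ⟨⟨g11, g12, g13⟩, ⟨g21, g22, g23⟩, ⟨g31, g32, g33⟩, hdet, hg⟩ := h_gam p a b c hp hnd
  obtain ⟨h1, h11, h12, h13⟩ := hg (g11, g12, g13) (by simp)
  obtain ⟨h2, h21, h22, h23⟩ := hg (g21, g22, g23) (by simp)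
  obtain ⟨h3, h31, h32, h33⟩ := hg (g31, g32, g33) (by simp)
  simp only [det3] at hdet
  simp only at h11 h12 h13 h21 h22 h23 h31 h32 h33
  let A : Matrix (Fin 3) (Fin 3) ℝ :=
    !![(y2 : ℝ) * z3 - z2 * y3, -((x2 : ℝ) * z3 - z2 * x3), (x2 : ℝ) * y3 - y2 * x3;
      -((y1 : ℝ) * z3 - z1 * y3), (x1 : ℝ) * z3 - z1 * x3, -((x1 : ℝ) * y3 - y1 * x3);
      (y1 : ℝ) * z2 - z1 * y2, -((x1 : ℝ) * z2 - z1 * x2), (x1 : ℝ) * y2 - y1 * x2]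
  let G : Matrix (Fin 3) (Fin 3) ℝ :=
    !![(g11 : ℝ), (g21 : ℝ), (g31 : ℝ); (g12 : ℝ), (g22 : ℝ), (g32 : ℝ);
      (g13 : ℝ), (g23 : ℝ), (g33 : ℝ)]
  have hA : A.det = (d₀ : ℝ) ^ 2 := by
    rw [Matrix.det_fin_three, E0]
    simp only [A, Matrix.of_apply, Matrix.cons_val', Matrix.cons_val_zero, Matrix.cons_val_one,
      Matrix.cons_val]
    ring
  have hdetR : (g11 : ℝ) * (g22 * g33 - g23 * g32) - g12 * (g21 * g33 - g23 * g31) +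
      g13 * (g21 * g32 - g22 * g31) = (p : ℝ) ^ 2 := by
    exact_mod_cast hdet
  have hG : G.det = (p : ℝ) ^ 2 := by
    rw [Matrix.det_fin_three, ← hdetR]
    simp only [G, Matrix.of_apply, Matrix.cons_val', Matrix.cons_val_zero, Matrix.cons_val_one,
      Matrix.cons_val]
    ring
  obtain ⟨hM0, hM1⟩ := p_SX_det Q0 Q1 Q2 Q3 hEpos hpR hA hG hltR
  obtain ⟨n, hn, hu⟩ := h_MZ _ p hpR hM0 hM1
  -- the integer point
  obtain ⟨n1, hn1⟩ : ∃ n1, n1 = n 0 := ⟨_, rfl⟩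
  obtain ⟨n2, hn2⟩ : ∃ n2, n2 = n 1 := ⟨_, rfl⟩
  obtain ⟨n3, hn3⟩ : ∃ n3, n3 = n 2 := ⟨_, rfl⟩
  obtain ⟨X, hX⟩ : ∃ X : ℤ, X = n1 * g11 + n2 * g21 + n3 * g31 := ⟨_, rfl⟩
  obtain ⟨Y, hY⟩ : ∃ Y : ℤ, Y = n1 * g12 + n2 * g22 + n3 * g32 := ⟨_, rfl⟩
  obtain ⟨Z, hZ⟩ : ∃ Z : ℤ, Z = n1 * g13 + n2 * g23 + n3 * g33 := ⟨_, rfl⟩
  have hne : ¬ (X = 0 ∧ Y = 0 ∧ Z = 0) := by
    rintro ⟨hX0, hY0, hZ0⟩
    rw [hX] at hX0
    rw [hY] at hY0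
    rw [hZ] at hZ0
    have hpz : (p : ℤ) ^ 2 ≠ 0 := by
      have : (p : ℤ) ≠ 0 := by exact_mod_cast hp.ne_zero
      exact pow_ne_zero 2 this
    apply hn
    have t1 : n1 * (p : ℤ) ^ 2 = 0 := by
      rw [← hdet]
      linear_combination (g22 * g33 - g23 * g32) * hX0 - (g21 * g33 - g23 * g31) * hY0 +
        (g21 * g32 - g22 * g31) * hZ0
    have t2 : n2 * (p : ℤ) ^ 2 = 0 := by
      rw [← hdet]
      linear_combination -(g12 * g33 - g13 * g32) * hX0 + (g11 * g33 - g13 * g31) * hY0 -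
        (g11 * g32 - g12 * g31) * hZ0
    have t3 : n3 * (p : ℤ) ^ 2 = 0 := by
      rw [← hdet]
      linear_combination (g12 * g23 - g13 * g22) * hX0 - (g11 * g23 - g13 * g21) * hY0 +
        (g11 * g22 - g12 * g21) * hZ0
    funext i
    fin_cases i
    · show n 0 = 0
      rw [← hn1]
      exact (mul_eq_zero.mp t1).resolve_right hpz
    · show n 1 = 0
      rw [← hn2]
      exact (mul_eq_zero.mp t2).resolve_right hpz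
    · show n 2 = 0
      rw [← hn3]
      exact (mul_eq_zero.mp t3).resolve_right hpz
  -- the values of the forms
  obtain ⟨N1, hN1⟩ : ∃ N1 : ℝ, N1 = X * (y2 * z3 - z2 * y3) - Y * (x2 * z3 - z2 * x3) +
    Z * (x2 * y3 - y2 * x3) := ⟨_, rfl⟩
  obtain ⟨N2, hN2⟩ : ∃ N2 : ℝ, N2 = -(X * (y1 * z3 - z1 * y3) - Y * (x1 * z3 - z1 * x3) +
    Z * (x1 * y3 - y1 * x3)) := ⟨_, rfl⟩
  obtain ⟨N3, hN3⟩ : ∃ N3 : ℝ, N3 = X * (y1 * z2 - z1 * y2) - Y * (x1 * z2 - z1 * x2) +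
    Z * (x1 * y2 - y1 * x2) := ⟨_, rfl⟩
  have hXR : (X : ℝ) = n1 * g11 + n2 * g21 + n3 * g31 := by rw [hX]; push_cast; ring
  have hYR : (Y : ℝ) = n1 * g12 + n2 * g22 + n3 * g32 := by rw [hY]; push_cast; ring
  have hZR : (Z : ℝ) = n1 * g13 + n2 * g23 + n3 * g33 := by rw [hZ]; push_cast; ring
  set E : ℝ := (d₀ : ℝ) + d₁ + d₂ + d₃ with hEdef
  have hform : ∀ i, ∑ j, (Matrix.diagonal ![-(E / ((d₀ : ℝ) * d₁)), -(E / ((d₀ : ℝ) * d₂)),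
      -(E / ((d₀ : ℝ) * d₃))] * (A * G)) i j * (n j : ℝ) =
      ![-(N1 * E / ((d₀ : ℝ) * d₁)), -(N2 * E / ((d₀ : ℝ) * d₂)), -(N3 * E / ((d₀ : ℝ) * d₃))] i := by
    intro i
    rw [p_SX_form A G _ (fun j => (n j : ℝ)) i]
    have t1 : ∑ j, G 0 j * (n j : ℝ) = X := by
      rw [Fin.sum_univ_three, ← hn1, ← hn2, ← hn3, hXR]
      simp only [G, Matrix.of_apply, Matrix.cons_val', Matrix.cons_val_zero, Matrix.cons_val_one,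
        Matrix.cons_val]
      ring
    have t2 : ∑ j, G 1 j * (n j : ℝ) = Y := by
      rw [Fin.sum_univ_three, ← hn1, ← hn2, ← hn3, hYR]
      simp only [G, Matrix.of_apply, Matrix.cons_val', Matrix.cons_val_zero, Matrix.cons_val_one,
        Matrix.cons_val]
      ring
    have t3 : ∑ j, G 2 j * (n j : ℝ) = Z := by
      rw [Fin.sum_univ_three, ← hn1, ← hn2, ← hn3, hZR]
      simp only [G, Matrix.of_apply, Matrix.cons_val', Matrix.cons_val_zero, Matrix.cons_val_one,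
        Matrix.cons_val]
      ring
    rw [Fin.sum_univ_three, t1, t2, t3]
    fin_cases i
    · simp only [A, Matrix.of_apply, Matrix.cons_val', Matrix.cons_val_zero,
        Matrix.cons_val_one, Matrix.cons_val, Fin.zero_eta, Fin.isValue]
      rw [hN1]
      ring
    · simp only [A, Matrix.of_apply, Matrix.cons_val', Matrix.cons_val_zero,
        Matrix.cons_val_one, Matrix.cons_val, Fin.mk_one, Fin.isValue]
      rw [hN2]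
      ring
    · simp only [A, Matrix.of_apply, Matrix.cons_val', Matrix.cons_val_zero,
        Matrix.cons_val_one, Matrix.cons_val, Fin.reduceFinMk, Fin.isValue]
      rw [hN3]
      ring
  simp only [hform] at hu
  obtain ⟨s, hs⟩ : ∃ s : ℝ, s = (N1 + N2 + N3) / (d₀ : ℝ) := ⟨_, rfl⟩
  obtain ⟨U1, hU1⟩ : ∃ U : ℝ, U = N1 * E / ((d₀ : ℝ) * d₁) := ⟨_, rfl⟩
  obtain ⟨U2, hU2⟩ : ∃ U : ℝ, U = N2 * E / ((d₀ : ℝ) * d₂) := ⟨_, rfl⟩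
  obtain ⟨U3, hU3⟩ : ∃ U : ℝ, U = N3 * E / ((d₀ : ℝ) * d₃) := ⟨_, rfl⟩
  rw [← hU1, ← hU2, ← hU3] at hu
  have b1 := hu 0
  have b2 := hu 1
  have b3 := hu 2
  have b12 := b1.2 1
  have b13 := b1.2 2
  have b23 := b2.2 2
  have b1 := b1.1
  have b2 := b2.1
  have b3 := b3.1
  simp only [Matrix.cons_val_zero, Matrix.cons_val_one, Matrix.cons_val, abs_le] at b1 b2 b3 b12 b13 b23
  -- `∑ d_i κ_i = 0`
  have hsum : (d₀ : ℝ) * s + d₁ * (s - U1) + d₂ * (s - U2) + d₃ * (s - U3) = 0 := by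
    rw [hU1, hU2, hU3]
    have : (d₀ : ℝ) * s + d₁ * (s - N1 * E / ((d₀ : ℝ) * d₁)) +
        d₂ * (s - N2 * E / ((d₀ : ℝ) * d₂)) + d₃ * (s - N3 * E / ((d₀ : ℝ) * d₃)) =
        E * (s - (N1 + N2 + N3) / d₀) := by
      rw [hEdef]
      field_simp
      ring
    rw [this, ← hs, sub_self, mul_zero]
  have hmem' : ∀ (σ ρ : ℝ), 0 < ρ → σ * s ≤ ρ → σ * (s - U1) ≤ ρ → σ * (s - U2) ≤ ρ →
      σ * (s - U3) ≤ ρ →
      ∃ u v w : ℝ, (u, v, w) ∈ P ∧ σ * X = ρ * u ∧ σ * Y = ρ * v ∧ σ * Z = ρ * w := by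
    intro σ ρ hρ l0 l1 l2 l3
    have := hmem σ X Y Z ρ hρ
    simp only at this
    rw [← hN1, ← hN2, ← hN3, ← hs, ← hU1, ← hU2, ← hU3] at this
    exact this l0 l1 l2 l3
  -- the residue
  set H : ℤ := n1 * h1 + n2 * h2 + n3 * h3 with hH
  have hXH : (p : ℤ) ∣ X - H * a := by
    have : X - H * a = n1 * (g11 - h1 * a) + n2 * (g21 - h2 * a) + n3 * (g31 - h3 * a) := by
      rw [hX, hH]; ring
    rw [this]
    exact dvd_add (dvd_add (h11.mul_left _) (h21.mul_left _)) (h31.mul_left _)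
  have hYH : (p : ℤ) ∣ Y - H * b := by
    have : Y - H * b = n1 * (g12 - h1 * b) + n2 * (g22 - h2 * b) + n3 * (g32 - h3 * b) := by
      rw [hY, hH]; ring
    rw [this]
    exact dvd_add (dvd_add (h12.mul_left _) (h22.mul_left _)) (h32.mul_left _)
  have hZH : (p : ℤ) ∣ Z - H * c := by
    have : Z - H * c = n1 * (g13 - h1 * c) + n2 * (g23 - h2 * c) + n3 * (g33 - h3 * c) := by
      rw [hZ, hH]; ring
    rw [this]
    exact dvd_add (dvd_add (h13.mul_left _) (h23.mul_left _)) (h33.mul_left _)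
  have hpz : (0 : ℤ) < p := by exact_mod_cast hp.pos
  obtain ⟨h, hh0, hhp, hhH⟩ : ∃ h : ℕ, 0 ≤ h ∧ h < p ∧ (p : ℤ) ∣ H - h := by
    refine ⟨(H % p).toNat, Nat.zero_le _, ?_, ?_⟩
    · zify
      rw [Int.toNat_of_nonneg (Int.emod_nonneg _ hpz.ne')]
      exact Int.emod_lt_of_pos _ hpz
    · rw [Int.toNat_of_nonneg (Int.emod_nonneg _ hpz.ne')]
      exact Int.dvd_self_sub_emod
  have hred : ∀ {T t : ℤ}, (p : ℤ) ∣ T - H * t → (p : ℤ) ∣ T - h * t := by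
    intro T t hT
    have : T - h * t = (T - H * t) + (H - h) * t := by ring
    rw [this]
    exact dvd_add hT (hhH.mul_right _)
  rcases Nat.eq_zero_or_pos h with hz | hpos
  · -- `x = p n'`
    have hX' := hred hXH
    have hY' := hred hYH
    have hZ' := hred hZH
    rw [hz] at hX' hY' hZ'
    simp only [Nat.cast_zero, zero_mul, sub_zero] at hX' hY' hZ'
    obtain ⟨X', hX'⟩ := hX'
    obtain ⟨Y', hY'⟩ := hY'
    obtain ⟨Z', hZ'⟩ := hZ'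
    obtain ⟨k0, k1, k2, k3⟩ := p_SX_all (t₀ := s) (t₁ := s - U1) (t₂ := s - U2) (t₃ := s - U3)
      Q0 Q1 Q2 Q3 hpR hsum ⟨by linarith [b1.1], by linarith [b1.2]⟩
      ⟨by linarith [b2.1], by linarith [b2.2]⟩ ⟨by linarith [b3.1], by linarith [b3.2]⟩
      ⟨by linarith [b12.1], by linarith [b12.2]⟩ ⟨by linarith [b13.1], by linarith [b13.2]⟩
      ⟨by linarith [b23.1], by linarith [b23.2]⟩
    obtain ⟨l0, l1, l2, l3⟩ := p_SX_all (t₀ := -1 * s) (t₁ := -1 * (s - U1))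
      (t₂ := -1 * (s - U2)) (t₃ := -1 * (s - U3)) Q0 Q1 Q2 Q3 hpR (by linarith [hsum])
      ⟨by linarith [b1.2], by linarith [b1.1]⟩
      ⟨by linarith [b2.2], by linarith [b2.1]⟩ ⟨by linarith [b3.2], by linarith [b3.1]⟩
      ⟨by linarith [b12.2], by linarith [b12.1]⟩ ⟨by linarith [b13.2], by linarith [b13.1]⟩
      ⟨by linarith [b23.2], by linarith [b23.1]⟩
    rw [← one_mul s] at k0
    rw [← one_mul (s - U1)] at k1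
    rw [← one_mul (s - U2)] at k2
    rw [← one_mul (s - U3)] at k3
    obtain ⟨u, v, w, hP, hu1, hu2, hu3⟩ := hmem' 1 p hpR k0 k1 k2 k3
    obtain ⟨u', v', w', hP', hu1', hu2', hu3'⟩ := hmem' (-1) p hpR l0 l1 l2 l3
    have hXR' : (X : ℝ) = p * X' := by rw [hX']; push_cast; ring
    have hYR' : (Y : ℝ) = p * Y' := by rw [hY']; push_cast; ring
    have hZR' : (Z : ℝ) = p * Z' := by rw [hZ']; push_cast; ring
    refine ⟨(X', Y', Z'), ?_, ?_, ?_⟩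
    · intro h0
      apply hne
      simp only [Prod.mk_eq_zero] at h0
      rw [hX', hY', hZ', h0.1, h0.2.1, h0.2.2]
      simp
    · have : ip (X', Y', Z') = (u, v, w) := by
        simp only [ip, Prod.mk.injEq]
        rw [hXR', one_mul] at hu1
        rw [hYR', one_mul] at hu2
        rw [hZR', one_mul] at hu3
        exact ⟨mul_left_cancel₀ hpR.ne' hu1, mul_left_cancel₀ hpR.ne' hu2,
          mul_left_cancel₀ hpR.ne' hu3⟩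
      rw [this]
      exact hP
    · have : ip (-(X', Y', Z')) = (u', v', w') := by
        simp only [ip, Prod.neg_mk, Prod.mk.injEq]
        push_cast
        rw [hXR'] at hu1'
        rw [hYR'] at hu2'
        rw [hZR'] at hu3'
        exact ⟨mul_left_cancel₀ hpR.ne' (by linarith), mul_left_cancel₀ hpR.ne' (by linarith),
          mul_left_cancel₀ hpR.ne' (by linarith)⟩
      rw [this]
      exact hP'
  · exfalso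
    have hposR : (0 : ℝ) < h := by exact_mod_cast hpos
    have hhpR : (h : ℝ) < p := by exact_mod_cast hhp
    by_cases hcase : s ≤ h ∧ s - U1 ≤ h ∧ s - U2 ≤ h ∧ s - U3 ≤ h
    · obtain ⟨u, v, w, hP, hu1, hu2, hu3⟩ := hmem' 1 h hposR (by linarith [hcase.1])
        (by linarith [hcase.2.1]) (by linarith [hcase.2.2.1]) (by linarith [hcase.2.2.2])
      exact hcr h hpos hhp X Y Z u v w hP (by linarith) (by linarith) (by linarith) (hred hXH)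
        (hred hYH) (hred hZH)
    · have hall : -s ≤ p - h ∧ -(s - U1) ≤ p - h ∧ -(s - U2) ≤ p - h ∧ -(s - U3) ≤ p - h := by
        by_contra hcon
        apply hcase
        refine ⟨?_, ?_, ?_, ?_⟩ <;> by_contra hc1 <;> apply hcon <;>
          refine ⟨?_, ?_, ?_, ?_⟩ <;> linarith
      obtain ⟨u, v, w, hP, hu1, hu2, hu3⟩ := hmem' (-1) (p - h) (by linarith)
        (by linarith [hall.1]) (by linarith [hall.2.1]) (by linarith [hall.2.2.1])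
        (by linarith [hall.2.2.2])
      have hcast : ((p - h : ℕ) : ℝ) = p - h := Nat.cast_sub hhp.le
      have hcastz : ((p - h : ℕ) : ℤ) = p - h := Nat.cast_sub hhp.le
      have hneg : ∀ {T t : ℤ}, (p : ℤ) ∣ T - h * t → (p : ℤ) ∣ -T - ((p - h : ℕ) : ℤ) * t := by
        intro T t hT
        rw [hcastz]
        have : -T - ((p : ℤ) - h) * t = -(T - h * t) + (p : ℤ) * (-t) := by ring
        rw [this]
        exact dvd_add (dvd_neg.mpr hT) (dvd_mul_right _ _)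
      refine hcr (p - h) (by omega) (by omega) (-X) (-Y) (-Z) u v w hP ?_ ?_ ?_
        (hneg (hred hXH)) (hneg (hred hYH)) (hneg (hred hZH))
      · rw [hcast]; push_cast; linarith
      · rw [hcast]; push_cast; linarith
      · rw [hcast]; push_cast; linarith

end Pool.Agent.Lib.MP_0bc52e_nt.T
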