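import Pool.Agent.Lib.MP_0bc52e_nt.T.StmH

/-!
Piece `[T]` of MP_0bc52e_nt: the theorem for primes at least 163.
-/

namespace Pool.Agent.Lib.MP_0bc52e_nt.T

open Pool.Agent.Lib.MP_0bc52e_nt.LC

theorem p_T_fam (C s t : ℤ) : fam C s t = fam C t s := by
  unfold fam
  rw [Set.pair_comm (ip (0, 1, s)) (ip (0, 1, t))]

/-- [T] -/
theorem p_T (h_N : S_N) (h_H : S_H) (h_wid : S_wid) (h_fr2 : S_fr2) : S_T := by
  intro P p hlp hpc hpr hp hcr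
  have hho := h_N P p hlp hpr hp hcr
  obtain ⟨f, hf, V₀, hV, hV2⟩ := h_H P p hlp hpc hho (by omega) hcr
  obtain ⟨-, h2, -, h4, -, h6, h7⟩ := h_fr2 f hf P
  obtain ⟨C, s, t, hC, hpC, hz⟩ := h_wid (f ⁻¹' P) p (h2 hlp) hpr (by omega) (h4 p hcr) (h6 hho) V₀ hV hV2
  have hz' := h7 _ hz
  rcases le_total s t with hst | hst
  · exact ⟨C, s, t, hC, hpC, hst, hz'⟩
  · exact ⟨C, t, s, hC, hpC, hst, by rw [p_T_fam]; exact hz'⟩

end Pool.Agent.Lib.MP_0bc52e_nt.T
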