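import Pool.Agent.Lib.MP_0bc52e_nt.T.StmH

/-!
# MP_0bc52e_nt: piece TH
-/

namespace Pool.Agent.Lib.MP_0bc52e_nt.T

open Pool.Agent.Lib.MP_0bc52e_nt.LC

private theorem p_TH_swap (C s t : ℤ) : fam C s t = fam C t s := by
  unfold fam
  congr 1
  ext v
  simp only [Set.mem_insert_iff, Set.mem_singleton_iff]
  tauto

theorem p_TH (h_H : S_H) (h_wid : S_wid) (h_fr2 : S_fr2) : S_TH := by
  intro P p hP hpc hH hp h13 hC
  obtain ⟨f, hf, V₀, hV, hV2⟩ := h_H P p hP hpc hH (by omega) hC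
  obtain ⟨f1, f2, f3, f4, f5, f6, f7⟩ := h_fr2 f hf P
  obtain ⟨C, s, t, h1, h2, h3⟩ := h_wid (f ⁻¹' P) p (f2 hP) hp h13 (f4 p hC) (f6 hH) V₀ hV hV2
  rcases le_total s t with h | h
  · exact ⟨C, s, t, h1, h2, h, f7 _ h3⟩
  · refine ⟨C, t, s, h1, h2, h, ?_⟩
    rw [← p_TH_swap]
    exact f7 _ h3

end Pool.Agent.Lib.MP_0bc52e_nt.T
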