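import Pool.Agent.Lib.MP_0bc52e_nt.T.StmH

set_option autoImplicit false

namespace Pool.Agent.Lib.MP_0bc52e_nt.T

open Pool.Agent.Lib.MP_0bc52e_nt.LC

private theorem conv4 {C : Set (ℝ × ℝ × ℝ)} (hC : Convex ℝ C) {p1 p2 p3 p4 : ℝ × ℝ × ℝ}
    (h1 : p1 ∈ C) (h2 : p2 ∈ C) (h3 : p3 ∈ C) (h4 : p4 ∈ C) {a b c d : ℝ} (ha : 0 ≤ a)
    (hb : 0 ≤ b) (hc : 0 ≤ c) (hd : 0 ≤ d) (hs : a + b + c + d = 1) :
    a • p1 + b • p2 + c • p3 + d • p4 ∈ C := by
  have h := hC.sum_mem (t := Finset.univ) (w := ![a, b, c, d]) (z := ![p1, p2, p3, p4]) (by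
    intro i _
    fin_cases i <;> simpa) (by
    simp [Fin.sum_univ_four, hs]) (by
    intro i _
    fin_cases i <;> simpa)
  simpa [Fin.sum_univ_four] using h

private theorem mem_hull {V : Finset (ℤ × ℤ × ℤ)} {v : ℤ × ℤ × ℤ} (hv : v ∈ V) : ip v ∈ hull V :=
  subset_convexHull ℝ _ ⟨v, hv, rfl⟩

private theorem dir {V : Finset (ℤ × ℤ × ℤ)} (hW : WIn V) {u : ℤ × ℤ × ℤ} (hu : u ∈ V)
    {d : ℝ × ℝ × ℝ} {t : ℝ} (ht : 0 ≤ t) (hd : d.2.2 = t * u.2.2) :
    ∃ ε : ℝ, 0 < ε ∧ ip 0 + ε • d ∈ hull V := by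
  set X : ℝ := d.1 - t * u.1 with hX
  set Y : ℝ := d.2.1 - t * u.2.1 with hY
  have hM : 0 < 1 + t + 2 * |X| + 2 * |Y| := by positivity
  refine ⟨1 / (1 + t + 2 * |X| + 2 * |Y|), by positivity, ?_⟩
  set ε : ℝ := 1 / (1 + t + 2 * |X| + 2 * |Y|) with hε
  have hε0 : 0 < ε := by positivity
  have hε1 : ε * (1 + t + 2 * |X| + 2 * |Y|) = 1 := by
    rw [hε, one_div, inv_mul_cancel₀ hM.ne']
  have x1 := abs_le.1 (le_refl |X|)
  have y1 := abs_le.1 (le_refl |Y|)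
  have xx := mul_le_mul_of_nonneg_left x1.1 hε0.le
  have xx' := mul_le_mul_of_nonneg_left x1.2 hε0.le
  have yy := mul_le_mul_of_nonneg_left y1.1 hε0.le
  have yy' := mul_le_mul_of_nonneg_left y1.2 hε0.le
  have hX0 : 0 ≤ ε * |X| := by positivity
  have hY0 : 0 ≤ ε * |Y| := by positivity
  have h := conv4 (convex_convexHull ℝ _) (mem_hull hW.1) (mem_hull hW.2.1) (mem_hull hW.2.2)
    (mem_hull hu) (a := (1 - ε * t + 2 * (ε * X) - ε * Y) / 3)
    (b := (1 - ε * t + 2 * (ε * Y) - ε * X) / 3) (c := (1 - ε * t - ε * X - ε * Y) / 3)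
    (d := ε * t) (by nlinarith) (by nlinarith) (by nlinarith) (by positivity) (by ring)
  have he : ip 0 + ε • d = ((1 - ε * t + 2 * (ε * X) - ε * Y) / 3) • ip (1, 0, 0) +
      ((1 - ε * t + 2 * (ε * Y) - ε * X) / 3) • ip (0, 1, 0) +
      ((1 - ε * t - ε * X - ε * Y) / 3) • ip (-1, -1, 0) + (ε * t) • ip u := by
    obtain ⟨d1, d2, d3⟩ := d
    obtain ⟨u1, u2, u3⟩ := u
    simp only at hd hX hY
    simp only [ip, Prod.smul_mk, Prod.mk_add_mk, smul_eq_mul, Prod.mk.injEq, Prod.fst_zero,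
      Prod.snd_zero]
    push_cast
    refine ⟨?_, ?_, ?_⟩
    · rw [hX]; ring
    · rw [hY]; ring
    · rw [hd]; ring
  rw [he]
  exact h

private theorem cen {V : Finset (ℤ × ℤ × ℤ)} (hW : WIn V) : ip 0 ∈ hull V := by
  have h := conv4 (convex_convexHull ℝ _) (mem_hull hW.1) (mem_hull hW.2.1) (mem_hull hW.2.2)
    (mem_hull hW.1) (a := 1 / 3) (b := 1 / 3) (c := 1 / 3) (d := 0) (by norm_num) (by norm_num)
    (by norm_num) (by norm_num) (by norm_num)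
  have he : ip 0 = (1 / 3 : ℝ) • ip (1, 0, 0) + (1 / 3 : ℝ) • ip (0, 1, 0) +
      (1 / 3 : ℝ) • ip (-1, -1, 0) + (0 : ℝ) • ip (1, 0, 0) := by
    simp only [ip, Prod.smul_mk, Prod.mk_add_mk, smul_eq_mul, Prod.mk.injEq, Prod.fst_zero,
      Prod.snd_zero]
    push_cast
    refine ⟨?_, ?_, ?_⟩ <;> norm_num
  rw [he]
  exact h

theorem p_W0 : S_W0 := by
  intro V hV hH hW ⟨u, hu, hu0⟩
  have h1 : ∀ v ∈ V, 0 ≤ v.2.2 := by
    intro v hv
    by_contra hneg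
    push Not at hneg
    refine hH 0 fun d => ?_
    have hu' : (0 : ℝ) < u.2.2 := by exact_mod_cast hu0
    have hv' : (v.2.2 : ℝ) < 0 := by exact_mod_cast hneg
    rcases le_total 0 d.2.2 with hd | hd
    · exact dir hW hu (t := d.2.2 / u.2.2) (by positivity) (by field_simp)
    · exact dir hW hv (t := d.2.2 / v.2.2) (div_nonneg_of_nonpos hd hv'.le)
        (by rw [div_mul_cancel₀ _ hv'.ne])
  intro v hv
  by_cases h2 : (2 : ℤ) ∣ v.2.2
  · have hvh := mem_hull hv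
    rcases Int.even_or_odd v.1 with ⟨a, ha⟩ | ⟨a, ha⟩ <;>
      rcases Int.even_or_odd v.2.1 with ⟨b, hb⟩ | ⟨b, hb⟩
    · exfalso
      have h0 : (0 : ℤ × ℤ × ℤ) = v := hV.alone v hv 0 (cen hW) (by simp [ha]; omega)
        (by simp [hb]; omega) (by simpa using h2)
      refine hV.ext v hv ?_
      rw [← h0]
      refine cen ⟨?_, ?_, ?_⟩
      · exact Finset.mem_erase.2 ⟨by decide, hW.1⟩
      · exact Finset.mem_erase.2 ⟨by decide, hW.2.1⟩
      · exact Finset.mem_erase.2 ⟨by decide, hW.2.2⟩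
    · refine Or.inr (Or.inl (hV.alone _ hW.2.1 v hvh ?_ ?_ ?_))
      · simp only; omega
      · simp only; omega
      · simpa using h2
    · refine Or.inl (hV.alone _ hW.1 v hvh ?_ ?_ ?_)
      · simp only; omega
      · simp only; omega
      · simpa using h2
    · refine Or.inr (Or.inr (Or.inl (hV.alone _ hW.2.2 v hvh ?_ ?_ ?_)))
      · simp only; omega
      · simp only; omega
      · simpa using h2
  · refine Or.inr (Or.inr (Or.inr ⟨?_, h2⟩))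
    have := h1 v hv
    rcases this.lt_or_eq with h | h
    · exact h
    · exact absurd (h ▸ dvd_zero 2) h2

end Pool.Agent.Lib.MP_0bc52e_nt.T
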