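import Pool.Agent.Lib.MP_0bc52e_nt.T.StmH

open scoped Pointwise

namespace Pool.Agent.Lib.MP_0bc52e_nt.T

open Pool.Agent.Lib.MP_0bc52e_nt.LC

private theorem p_W8_fr {O a b c w v : ℤ × ℤ × ℤ} (h : fr O a b c (ip w) = ip v) :
    v = (O.1 + w.1 * a.1 + w.2.1 * b.1 + w.2.2 * c.1,
      O.2.1 + w.1 * a.2.1 + w.2.1 * b.2.1 + w.2.2 * c.2.1,
      O.2.2 + w.1 * a.2.2 + w.2.1 * b.2.2 + w.2.2 * c.2.2) := by
  simp only [fr, ip, Prod.mk.injEq] at h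
  obtain ⟨h1, h2, h3⟩ := h
  refine Prod.ext ?_ (Prod.ext ?_ ?_)
  · exact_mod_cast h1.symm
  · exact_mod_cast h2.symm
  · exact_mod_cast h3.symm

private theorem p_W8_det {f : ℝ × ℝ × ℝ → ℝ × ℝ × ℝ} (hf : IsFr f)
    {w₀ w₁ w₂ w₃ v₀ v₁ v₂ v₃ : ℤ × ℤ × ℤ} (h0 : f (ip w₀) = ip v₀) (h1 : f (ip w₁) = ip v₁)
    (h2 : f (ip w₂) = ip v₂) (h3 : f (ip w₃) = ip v₃) :
    |det3 (v₁ - v₀) (v₂ - v₀) (v₃ - v₀)| = |det3 (w₁ - w₀) (w₂ - w₀) (w₃ - w₀)| := by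
  obtain ⟨O, a, b, c, hd, hfr⟩ := hf
  rw [hfr] at h0 h1 h2 h3
  have e0 := p_W8_fr h0
  have e1 := p_W8_fr h1
  have e2 := p_W8_fr h2
  have e3 := p_W8_fr h3
  have key : det3 (v₁ - v₀) (v₂ - v₀) (v₃ - v₀) =
      det3 a b c * det3 (w₁ - w₀) (w₂ - w₀) (w₃ - w₀) := by
    rw [e0, e1, e2, e3]
    simp only [det3, Prod.fst_sub, Prod.snd_sub]
    ring
  rw [key, abs_mul]
  rcases hd with hd | hd
  · rw [hd, abs_one, one_mul]
  · rw [hd, abs_neg, abs_one, one_mul]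

private theorem p_W8_cop {V : Finset (ℤ × ℤ × ℤ)} (hE : Emp V) {y q : ℤ} (hq : 2 ≤ q)
    (h1 : ((1 : ℤ), (0 : ℤ), (0 : ℤ)) ∈ V) (h3 : ((1 : ℤ), y, q) ∈ V) : IsCoprime q y := by
  rw [Int.isCoprime_iff_gcd_eq_one]
  by_contra hg
  obtain ⟨r, hr⟩ : ∃ r : ℕ, r = Int.gcd q y := ⟨_, rfl⟩
  have hr0 : r ≠ 0 := by
    intro h0
    rw [h0] at hr
    have := (Int.gcd_eq_zero_iff.1 hr.symm).1
    omega
  have hr2 : 2 ≤ r := by
    have : r ≠ 1 := by rw [hr]; exact hg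
    omega
  obtain ⟨q', hq'⟩ : (r : ℤ) ∣ q := by rw [hr]; exact Int.gcd_dvd_left ..
  obtain ⟨y', hy'⟩ : (r : ℤ) ∣ y := by rw [hr]; exact Int.gcd_dvd_right ..
  have hr2' : (2 : ℤ) ≤ r := by exact_mod_cast hr2
  have hq'0 : 0 < q' := by
    by_contra hcon
    push Not at hcon
    nlinarith
  have hq'q : q' < q := by nlinarith
  have hrr : (2 : ℝ) ≤ r := by exact_mod_cast hr2
  have hrp : (0 : ℝ) < r := by linarith
  have hseg : ip (1, y', q') = (1 - 1 / (r : ℝ)) • ip (1, 0, 0) + (1 / (r : ℝ)) • ip (1, y, q) := by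
    have ey : (y : ℝ) = r * y' := by exact_mod_cast hy'
    have eq : (q : ℝ) = r * q' := by exact_mod_cast hq'
    simp only [ip, Prod.smul_mk, Prod.mk_add_mk, smul_eq_mul, Prod.mk.injEq, Int.cast_one,
      Int.cast_zero]
    rw [ey, eq]
    refine ⟨by ring, ?_, ?_⟩
    · field_simp
      ring
    · field_simp
      ring
  have h1r : 0 ≤ 1 - 1 / (r : ℝ) := by
    rw [sub_nonneg, div_le_one hrp]
    linarith
  have h2r : 0 ≤ 1 / (r : ℝ) := by positivity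
  have hin : ip (1, y', q') ∈ hull V := by
    rw [hseg]
    exact convex_convexHull ℝ (ip '' (V : Set (ℤ × ℤ × ℤ)))
      (subset_convexHull ℝ _ (Set.mem_image_of_mem ip (Finset.mem_coe.2 h1)))
      (subset_convexHull ℝ _ (Set.mem_image_of_mem ip (Finset.mem_coe.2 h3))) h1r h2r (by ring)
  have hw := hE.all _ hin
  refine hE.ext _ hw ?_
  rw [hseg]
  have n1 : ((1 : ℤ), (0 : ℤ), (0 : ℤ)) ∈ V.erase (1, y', q') := by
    rw [Finset.mem_erase]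
    refine ⟨fun h => ?_, h1⟩
    simp only [Prod.mk.injEq] at h
    omega
  have n2 : ((1 : ℤ), y, q) ∈ V.erase (1, y', q') := by
    rw [Finset.mem_erase]
    refine ⟨fun h => ?_, h3⟩
    simp only [Prod.mk.injEq] at h
    omega
  exact convex_convexHull ℝ (ip '' ((V.erase (1, y', q') : Finset (ℤ × ℤ × ℤ)) : Set (ℤ × ℤ × ℤ)))
    (subset_convexHull ℝ _ (Set.mem_image_of_mem ip (Finset.mem_coe.2 n1)))
    (subset_convexHull ℝ _ (Set.mem_image_of_mem ip (Finset.mem_coe.2 n2))) h1r h2r (by ring)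

theorem p_W8 (h_det2s : S_det2s) (h_W8n : S_W8n) (h_Zpyr : S_Zpyr) (h_frM : S_frM)
    (h_fr1 : S_fr1) (h_fr2 : S_fr2) : S_W8 := by
  intro V hE hPC
  have hcls : ∀ a b c : ℤ, ∃ v ∈ V, (2 : ℤ) ∣ v.1 - a ∧ (2 : ℤ) ∣ v.2.1 - b ∧ (2 : ℤ) ∣ v.2.2 - c := by
    intro a b c
    obtain ⟨x, y, z, hx, h1, h2, h3⟩ := hPC a b c
    exact ⟨(x, y, z), hE.all _ hx, h1, h2, h3⟩
  obtain ⟨a₀, ha0, a₁, ha1, a₂, ha2, a₃, ha3, hdet⟩ := h_det2s V hcls
  let g : (ℤ × ℤ × ℤ) × (ℤ × ℤ × ℤ) × (ℤ × ℤ × ℤ) × (ℤ × ℤ × ℤ) → ℤ := fun t =>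
    |det3 (t.2.1 - t.1) (t.2.2.1 - t.1) (t.2.2.2 - t.1)|
  obtain ⟨⟨v₀, v₁, v₂, v₃⟩, hmem, hmax⟩ := Finset.exists_max_image (V ×ˢ V ×ˢ V ×ˢ V) g
    ⟨(a₀, a₁, a₂, a₃), by simp only [Finset.mem_product]; exact ⟨ha0, ha1, ha2, ha3⟩⟩
  simp only [Finset.mem_product] at hmem
  obtain ⟨hv0, hv1, hv2, hv3⟩ := hmem
  have hmax' : ∀ b₀ ∈ V, ∀ b₁ ∈ V, ∀ b₂ ∈ V, ∀ b₃ ∈ V,
      |det3 (b₁ - b₀) (b₂ - b₀) (b₃ - b₀)| ≤ |det3 (v₁ - v₀) (v₂ - v₀) (v₃ - v₀)| := by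
    intro b₀ h0 b₁ h1 b₂ h2 b₃ h3
    exact hmax (b₀, b₁, b₂, b₃) (by simp only [Finset.mem_product]; exact ⟨h0, h1, h2, h3⟩)
  have hq2 : 2 ≤ |det3 (v₁ - v₀) (v₂ - v₀) (v₃ - v₀)| :=
    hdet.trans (hmax' a₀ ha0 a₁ ha1 a₂ ha2 a₃ ha3)
  obtain ⟨f, hf, y, u₀, hu0, u₁, hu1, u₂, hu2, u₃, hu3, e0, e1, e2, e3⟩ :=
    h_W8n V hE v₀ hv0 v₁ hv1 v₂ hv2 v₃ hv3 hq2
  obtain ⟨q, hq⟩ : ∃ q : ℤ, q = |det3 (v₁ - v₀) (v₂ - v₀) (v₃ - v₀)| := ⟨_, rfl⟩
  rw [← hq] at e3 hq2 hmax'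
  obtain ⟨V', hV', hVV, hhull, -, hEE⟩ := h_frM f hf V
  have hE' : Emp V' := hEE hE
  have m0 : ((0 : ℤ), (0 : ℤ), (0 : ℤ)) ∈ V' := (hV' _).2 ⟨u₀, hu0, e0⟩
  have m1 : ((1 : ℤ), (0 : ℤ), (0 : ℤ)) ∈ V' := (hV' _).2 ⟨u₁, hu1, e1⟩
  have m2 : ((0 : ℤ), (1 : ℤ), (0 : ℤ)) ∈ V' := (hV' _).2 ⟨u₂, hu2, e2⟩
  have m3 : ((1 : ℤ), y, q) ∈ V' := (hV' _).2 ⟨u₃, hu3, e3⟩
  have hb : ∀ b₀ ∈ V', ∀ b₁ ∈ V', ∀ b₂ ∈ V', ∀ b₃ ∈ V',
      |det3 (b₁ - b₀) (b₂ - b₀) (b₃ - b₀)| ≤ q := by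
    intro b₀ h0 b₁ h1 b₂ h2 b₃ h3
    obtain ⟨c₀, hc0, g0⟩ := (hV' _).1 h0
    obtain ⟨c₁, hc1, g1⟩ := (hV' _).1 h1
    obtain ⟨c₂, hc2, g2⟩ := (hV' _).1 h2
    obtain ⟨c₃, hc3, g3⟩ := (hV' _).1 h3
    rw [← p_W8_det hf g0 g1 g2 g3]
    exact hmax' c₀ hc0 c₁ hc1 c₂ hc2 c₃ hc3
  have hcop : IsCoprime q y := p_W8_cop hE' hq2 m1 m3
  have hqp : 0 < q := by linarith
  have key : ∀ w ∈ V', w.1 = 0 ∨ w.1 = 1 := by
    rintro ⟨X, Y, Z⟩ hw
    have b1 := hb _ m0 _ m1 _ m2 _ hw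
    have b2 := hb _ m0 _ m2 _ m3 _ hw
    have b3 := hb _ m0 _ m1 _ m3 _ hw
    have b4 := hb _ m1 _ m2 _ m3 _ hw
    simp only [det3, Prod.mk_sub_mk] at b1 b2 b3 b4
    rw [abs_le] at b1 b2 b3 b4
    show X = 0 ∨ X = 1
    have c1 : -q ≤ Z ∧ Z ≤ q := by
      constructor
      · linarith [b1.1]
      · linarith [b1.2]
    have c2 : -q ≤ q * X - Z ∧ q * X - Z ≤ q := by
      constructor
      · linarith [b2.1]
      · linarith [b2.2]
    have c3 : -q ≤ q * Y - y * Z ∧ q * Y - y * Z ≤ q := by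
      constructor
      · linarith [b3.2]
      · linarith [b3.1]
    have c4 : -q ≤ q - q * X - q * Y + y * Z ∧ q - q * X - q * Y + y * Z ≤ q := by
      constructor
      · linarith [b4.2]
      · linarith [b4.1]
    have hX1 : -1 ≤ X := by
      by_contra hcon
      have : X ≤ -2 := by omega
      nlinarith
    have hX2 : X ≤ 2 := by
      by_contra hcon
      have : 3 ≤ X := by omega
      nlinarith
    have hXc : X = -1 ∨ X = 0 ∨ X = 1 ∨ X = 2 := by omega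
    rcases hXc with hX | hX | hX | hX
    · exfalso
      subst hX
      have hZ0 : Z ≤ 0 := by linarith [c2.1]
      have hYZ : q * Y - y * Z = q := le_antisymm c3.2 (by linarith [c4.2])
      have hdvd : q ∣ y * Z := ⟨Y - 1, by linarith⟩
      obtain ⟨k, hk⟩ := hcop.dvd_of_dvd_mul_left hdvd
      have hk0 : k ≤ 0 := by
        by_contra hcon
        have : 1 ≤ k := by omega
        nlinarith
      have hk1 : -1 ≤ k := by
        by_contra hcon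
        have : k ≤ -2 := by omega
        nlinarith [c1.1]
      have hkc : k = 0 ∨ k = -1 := by omega
      rcases hkc with hk' | hk'
      · have hZ : Z = 0 := by rw [hk, hk', mul_zero]
        have hY : Y = 1 := by
          rw [hZ] at hYZ
          have : q * (Y - 1) = 0 := by linarith
          rcases mul_eq_zero.1 this with h | h
          · omega
          · omega
        subst hY
        rw [hZ] at hw
        refine h_Zpyr V' hE' (0, 1, 0) m2 (0, 0, 0) m0 (1, 0, 0) m1 (1, y, q) m3 ?_ ?_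
        · simp only [Prod.mk_add_mk, Prod.mk_sub_mk]
          convert hw using 3 <;> ring
        · simp only [det3, Prod.mk_sub_mk]
          rw [show ((0 : ℤ) - 1) * ((0 - 0) * (q - 0) - (0 - 0) * (y - 0)) -
            (1 - 0) * ((0 - 1) * (q - 0) - (0 - 0) * (1 - 1)) +
            (0 - 0) * ((0 - 1) * (y - 0) - (0 - 0) * (1 - 1)) = q by ring]
          rw [abs_of_pos hqp]
          exact hq2
      · have hZ : Z = -q := by rw [hk, hk']; ring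
        have hY : Y = 1 - y := by
          rw [hZ] at hYZ
          have : q * (Y - (1 - y)) = 0 := by linarith
          rcases mul_eq_zero.1 this with h | h
          · omega
          · omega
        rw [hZ, hY] at hw
        refine h_Zpyr V' hE' (0, 1, 0) m2 (0, 0, 0) m0 (1, y, q) m3 (1, 0, 0) m1 ?_ ?_
        · simp only [Prod.mk_add_mk, Prod.mk_sub_mk]
          convert hw using 3 <;> ring
        · simp only [det3, Prod.mk_sub_mk]
          rw [show ((0 : ℤ) - 1) * ((0 - y) * (0 - q) - (0 - q) * (0 - y)) -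
            (1 - y) * ((0 - 1) * (0 - q) - (0 - q) * (1 - 1)) +
            (0 - q) * ((0 - 1) * (0 - y) - (0 - y) * (1 - 1)) = -q by ring]
          rw [abs_neg, abs_of_pos hqp]
          exact hq2
    · exact Or.inl hX
    · exact Or.inr hX
    · exfalso
      subst hX
      have hZ : Z = q := le_antisymm c1.2 (by linarith [c2.2])
      subst hZ
      have h1 : Y - y ≤ 1 := by
        by_contra hcon
        have : 2 ≤ Y - y := by omega
        nlinarith [c3.2]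
      have h2 : -1 ≤ Y - y := by
        by_contra hcon
        have : Y - y ≤ -2 := by omega
        nlinarith [c3.1]
      have h3 : Y - y ≤ 0 := by
        by_contra hcon
        have : 1 ≤ Y - y := by omega
        nlinarith [c4.1]
      have hYc : Y = y ∨ Y = y - 1 := by omega
      rcases hYc with hY | hY
      · subst hY
        refine h_Zpyr V' hE' (1, Y, Z) m3 (1, 0, 0) m1 (0, 0, 0) m0 (0, 1, 0) m2 ?_ ?_
        · simp only [Prod.mk_add_mk, Prod.mk_sub_mk]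
          convert hw using 3 <;> ring
        · simp only [det3, Prod.mk_sub_mk]
          rw [show ((1 : ℤ) - 0) * ((0 - 0) * (0 - 0) - (0 - 0) * (1 - 0)) -
            (Y - 0) * ((1 - 0) * (0 - 0) - (0 - 0) * (0 - 0)) +
            (Z - 0) * ((1 - 0) * (1 - 0) - (0 - 0) * (0 - 0)) = Z by ring]
          rw [abs_of_pos hqp]
          exact hq2
      · subst hY
        refine h_Zpyr V' hE' (1, y, Z) m3 (1, 0, 0) m1 (0, 1, 0) m2 (0, 0, 0) m0 ?_ ?_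
        · simp only [Prod.mk_add_mk, Prod.mk_sub_mk]
          convert hw using 3 <;> ring
        · simp only [det3, Prod.mk_sub_mk]
          rw [show ((1 : ℤ) - 0) * ((0 - 1) * (0 - 0) - (0 - 0) * (0 - 1)) -
            (y - 1) * ((1 - 0) * (0 - 0) - (0 - 0) * (0 - 0)) +
            (Z - 0) * ((1 - 0) * (0 - 1) - (0 - 1) * (0 - 0)) = -Z by ring]
          rw [abs_neg, abs_of_pos hqp]
          exact hq2
  refine ⟨f, hf, fun v hv => ?_⟩
  obtain ⟨w, hw, hwv⟩ := hVV v hv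
  exact ⟨w, hwv, key w hw⟩

end Pool.Agent.Lib.MP_0bc52e_nt.T
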