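import Pool.Agent.Lib.MP_0bc52e_nt.T.StmH

set_option autoImplicit false

namespace Pool.Agent.Lib.MP_0bc52e_nt.T

open Pool.Agent.Lib.MP_0bc52e_nt.LC

private lemma p_W8n_conv4 {s : Set (ℝ × ℝ × ℝ)} (hs : Convex ℝ s) {p0 p1 p2 p3 : ℝ × ℝ × ℝ}
    (h0 : p0 ∈ s) (h1 : p1 ∈ s) (h2 : p2 ∈ s) (h3 : p3 ∈ s) {a b c d : ℝ} (ha : 0 ≤ a)
    (hb : 0 ≤ b) (hc : 0 ≤ c) (hd : 0 ≤ d) (hsum : a + b + c + d = 1) :
    a • p0 + b • p1 + c • p2 + d • p3 ∈ s := by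
  have h := hs.sum_mem (t := (Finset.univ : Finset (Fin 4))) (w := ![a, b, c, d])
    (z := ![p0, p1, p2, p3]) (by intro i _; fin_cases i <;> assumption)
    (by simpa [Fin.sum_univ_four] using hsum) (by intro i _; fin_cases i <;> assumption)
  simpa [Fin.sum_univ_four] using h

private lemma p_W8n_key (a b c : ℤ × ℤ × ℤ) (hd : det3 a b c = 1 ∨ det3 a b c = -1)
    (α β γ : ℤ) (e1 : α * a.1 + β * b.1 + γ * c.1 = 0)
    (e2 : α * a.2.1 + β * b.2.1 + γ * c.2.1 = 0) (e3 : α * a.2.2 + β * b.2.2 + γ * c.2.2 = 0) :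
    γ = 0 := by
  have h : γ * det3 a b c = 0 := by
    simp only [det3]
    linear_combination (a.2.1 * b.2.2 - a.2.2 * b.2.1) * e1 +
      (a.2.2 * b.1 - a.1 * b.2.2) * e2 + (a.1 * b.2.1 - a.2.1 * b.1) * e3
  rcases hd with hd | hd <;> rw [hd] at h <;> linarith

private lemma p_W8n_cramer (a b c w : ℤ × ℤ × ℤ) (h : det3 a b c = 1) :
    w.1 = det3 w b c * a.1 + det3 a w c * b.1 + det3 a b w * c.1 ∧
    w.2.1 = det3 w b c * a.2.1 + det3 a w c * b.2.1 + det3 a b w * c.2.1 ∧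
    w.2.2 = det3 w b c * a.2.2 + det3 a w c * b.2.2 + det3 a b w * c.2.2 := by
  simp only [det3] at *
  refine ⟨?_, ?_, ?_⟩
  · linear_combination (-w.1) * h
  · linear_combination (-w.2.1) * h
  · linear_combination (-w.2.2) * h

private lemma p_W8n_hyp (V : Finset (ℤ × ℤ × ℤ)) (hV : Emp V) (v₀ v₁ v₂ v₃ c : ℤ × ℤ × ℤ)
    (h0 : v₀ ∈ V) (h1 : v₁ ∈ V) (h2 : v₂ ∈ V) (h3 : v₃ ∈ V) (X Y q : ℤ) (hq : 2 ≤ q)
    (hd : det3 (v₁ - v₀) (v₂ - v₀) c = 1 ∨ det3 (v₁ - v₀) (v₂ - v₀) c = -1)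
    (e1 : v₃.1 = v₀.1 + X * (v₁.1 - v₀.1) + Y * (v₂.1 - v₀.1) + q * c.1)
    (e2 : v₃.2.1 = v₀.2.1 + X * (v₁.2.1 - v₀.2.1) + Y * (v₂.2.1 - v₀.2.1) + q * c.2.1)
    (e3 : v₃.2.2 = v₀.2.2 + X * (v₁.2.2 - v₀.2.2) + Y * (v₂.2.2 - v₀.2.2) + q * c.2.2) :
    ∀ k : ℤ, 0 < k → k < q → q < (-k * X) % q + (-k * Y) % q + k := by
  intro k hk hkq
  by_contra hcon
  push Not at hcon
  obtain ⟨r, hr⟩ : ∃ r : ℤ, r = (-k * X) % q := ⟨_, rfl⟩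
  obtain ⟨s, hs⟩ : ∃ s : ℤ, s = (-k * Y) % q := ⟨_, rfl⟩
  have hr0 : 0 ≤ r := by rw [hr]; exact Int.emod_nonneg _ (by omega)
  have hs0 : 0 ≤ s := by rw [hs]; exact Int.emod_nonneg _ (by omega)
  obtain ⟨i, hi⟩ : ∃ i : ℤ, q * i = k * X + r := ⟨-((-k * X) / q), by
    have h := Int.mul_ediv_add_emod (-k * X) q
    rw [← hr] at h
    linarith⟩
  obtain ⟨j, hj⟩ : ∃ j : ℤ, q * j = k * Y + s := ⟨-((-k * Y) / q), by
    have h := Int.mul_ediv_add_emod (-k * Y) q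
    rw [← hs] at h
    linarith⟩
  rw [← hr, ← hs] at hcon
  obtain ⟨w, hw⟩ : ∃ w : ℤ × ℤ × ℤ, w = (v₀.1 + i * (v₁.1 - v₀.1) + j * (v₂.1 - v₀.1) + k * c.1,
    v₀.2.1 + i * (v₁.2.1 - v₀.2.1) + j * (v₂.2.1 - v₀.2.1) + k * c.2.1,
    v₀.2.2 + i * (v₁.2.2 - v₀.2.2) + j * (v₂.2.2 - v₀.2.2) + k * c.2.2) := ⟨_, rfl⟩
  have w1 : w.1 = v₀.1 + i * (v₁.1 - v₀.1) + j * (v₂.1 - v₀.1) + k * c.1 := by rw [hw]
  have w2 : w.2.1 = v₀.2.1 + i * (v₁.2.1 - v₀.2.1) + j * (v₂.2.1 - v₀.2.1) + k * c.2.1 := by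
    rw [hw]
  have w3 : w.2.2 = v₀.2.2 + i * (v₁.2.2 - v₀.2.2) + j * (v₂.2.2 - v₀.2.2) + k * c.2.2 := by
    rw [hw]
  have hne : ∀ (u : ℤ × ℤ × ℤ) (α β γ : ℤ), γ ≠ k →
      u.1 = v₀.1 + α * (v₁.1 - v₀.1) + β * (v₂.1 - v₀.1) + γ * c.1 →
      u.2.1 = v₀.2.1 + α * (v₁.2.1 - v₀.2.1) + β * (v₂.2.1 - v₀.2.1) + γ * c.2.1 →
      u.2.2 = v₀.2.2 + α * (v₁.2.2 - v₀.2.2) + β * (v₂.2.2 - v₀.2.2) + γ * c.2.2 → u ≠ w := by
    intro u α β γ hγ u1 u2 u3 huw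
    apply hγ
    have h := p_W8n_key (v₁ - v₀) (v₂ - v₀) c hd (α - i) (β - j) (γ - k)
      (by rw [huw, w1] at u1; simp only [Prod.fst_sub]; linarith)
      (by rw [huw, w2] at u2; simp only [Prod.fst_sub, Prod.snd_sub]; linarith)
      (by rw [huw, w3] at u3; simp only [Prod.snd_sub]; linarith)
    linarith
  have m0 : v₀ ∈ V.erase w := Finset.mem_erase.mpr ⟨hne v₀ 0 0 0 (by omega) (by ring) (by ring)
    (by ring), h0⟩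
  have m1 : v₁ ∈ V.erase w := Finset.mem_erase.mpr ⟨hne v₁ 1 0 0 (by omega) (by ring) (by ring)
    (by ring), h1⟩
  have m2 : v₂ ∈ V.erase w := Finset.mem_erase.mpr ⟨hne v₂ 0 1 0 (by omega) (by ring) (by ring)
    (by ring), h2⟩
  have m3 : v₃ ∈ V.erase w := Finset.mem_erase.mpr ⟨hne v₃ X Y q (by omega) e1 e2 e3, h3⟩
  have hqR : (0 : ℝ) < q := by exact_mod_cast (by omega : (0 : ℤ) < q)
  have hcR : (r : ℝ) + s + k ≤ q := by exact_mod_cast hcon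
  have hrR : (0 : ℝ) ≤ r := by exact_mod_cast hr0
  have hsR : (0 : ℝ) ≤ s := by exact_mod_cast hs0
  have hkR : (0 : ℝ) ≤ k := by exact_mod_cast hk.le
  have hiR : (q : ℝ) * i = k * X + r := by exact_mod_cast hi
  have hjR : (q : ℝ) * j = k * Y + s := by exact_mod_cast hj
  have hmem : ∀ u ∈ V.erase w, ip u ∈ hull (V.erase w) := fun u hu =>
    subset_convexHull ℝ _ ⟨u, hu, rfl⟩
  have hcomb : ip w = (((q : ℝ) - r - s - k) / q) • ip v₀ + ((r : ℝ) / q) • ip v₁ +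
      ((s : ℝ) / q) • ip v₂ + ((k : ℝ) / q) • ip v₃ := by
    have hq0 : (q : ℝ) ≠ 0 := hqR.ne'
    have W1 : (w.1 : ℝ) = v₀.1 + i * (v₁.1 - v₀.1) + j * (v₂.1 - v₀.1) + k * c.1 := by
      exact_mod_cast w1
    have W2 : (w.2.1 : ℝ) = v₀.2.1 + i * (v₁.2.1 - v₀.2.1) + j * (v₂.2.1 - v₀.2.1) + k * c.2.1 := by
      exact_mod_cast w2
    have W3 : (w.2.2 : ℝ) = v₀.2.2 + i * (v₁.2.2 - v₀.2.2) + j * (v₂.2.2 - v₀.2.2) + k * c.2.2 := by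
      exact_mod_cast w3
    have E1 : (v₃.1 : ℝ) = v₀.1 + X * (v₁.1 - v₀.1) + Y * (v₂.1 - v₀.1) + q * c.1 := by
      exact_mod_cast e1
    have E2 : (v₃.2.1 : ℝ) = v₀.2.1 + X * (v₁.2.1 - v₀.2.1) + Y * (v₂.2.1 - v₀.2.1) + q * c.2.1 := by
      exact_mod_cast e2
    have E3 : (v₃.2.2 : ℝ) = v₀.2.2 + X * (v₁.2.2 - v₀.2.2) + Y * (v₂.2.2 - v₀.2.2) + q * c.2.2 := by
      exact_mod_cast e3
    refine Prod.ext ?_ (Prod.ext ?_ ?_)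
    · simp only [ip, Prod.fst_add, Prod.smul_fst, smul_eq_mul]
      field_simp
      rw [W1, E1]
      linear_combination ((v₁.1 : ℝ) - v₀.1) * hiR + ((v₂.1 : ℝ) - v₀.1) * hjR
    · simp only [ip, Prod.fst_add, Prod.snd_add, Prod.smul_fst, Prod.smul_snd, smul_eq_mul]
      field_simp
      rw [W2, E2]
      linear_combination ((v₁.2.1 : ℝ) - v₀.2.1) * hiR + ((v₂.2.1 : ℝ) - v₀.2.1) * hjR
    · simp only [ip, Prod.snd_add, Prod.smul_snd, smul_eq_mul]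
      field_simp
      rw [W3, E3]
      linear_combination ((v₁.2.2 : ℝ) - v₀.2.2) * hiR + ((v₂.2.2 : ℝ) - v₀.2.2) * hjR
  have hin : ip w ∈ hull (V.erase w) := by
    rw [hcomb]
    refine p_W8n_conv4 (convex_convexHull ℝ _) (hmem _ m0) (hmem _ m1) (hmem _ m2) (hmem _ m3)
      (div_nonneg (by linarith) hqR.le) (div_nonneg hrR hqR.le) (div_nonneg hsR hqR.le)
      (div_nonneg hkR hqR.le) ?_
    field_simp
    ring
  have hVw : ip w ∈ hull V := convexHull_mono (Set.image_mono (by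
    intro x hx; exact Finset.mem_of_mem_erase hx)) hin
  exact hV.ext w (hV.all w hVw) hin

private lemma p_W8n_frip (O a b c : ℤ × ℤ × ℤ) (x y z : ℤ) (v : ℤ × ℤ × ℤ)
    (e1 : v.1 = O.1 + x * a.1 + y * b.1 + z * c.1)
    (e2 : v.2.1 = O.2.1 + x * a.2.1 + y * b.2.1 + z * c.2.1)
    (e3 : v.2.2 = O.2.2 + x * a.2.2 + y * b.2.2 + z * c.2.2) :
    fr O a b c (ip (x, y, z)) = ip v := by
  refine Prod.ext ?_ (Prod.ext ?_ ?_)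
  · simp only [fr, ip]
    rw [e1]
    push_cast
    ring
  · simp only [fr, ip]
    rw [e2]
    push_cast
    ring
  · simp only [fr, ip]
    rw [e3]
    push_cast
    ring

theorem p_W8n (h_uni : S_uni) (h_white : S_white) (h_fr1 : S_fr1) : S_W8n := by
  have _ := h_fr1
  intro V hV v₀ h0 v₁ h1 v₂ h2 v₃ h3 hdet
  obtain ⟨δ, hδ⟩ : ∃ δ, δ = det3 (v₁ - v₀) (v₂ - v₀) (v₃ - v₀) := ⟨_, rfl⟩
  rw [← hδ] at hdet ⊢
  have hcr : cr (v₁ - v₀) (v₂ - v₀) ≠ 0 := by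
    intro h
    have g1 := congrArg Prod.fst h
    have g2 := congrArg (fun x => x.2.1) h
    have g3 := congrArg (fun x => x.2.2) h
    simp only [cr, Prod.fst_zero, Prod.snd_zero] at g1 g2 g3
    have hz : δ = 0 := by
      rw [hδ]
      simp only [det3]
      linear_combination (v₃ - v₀).1 * g1 + (v₃ - v₀).2.1 * g2 + (v₃ - v₀).2.2 * g3
    rw [hz] at hdet
    norm_num at hdet
  obtain ⟨c, hc⟩ := h_uni V hV v₁ h1 v₂ h2 v₀ h0 hcr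
  obtain ⟨c1, c2, c3⟩ := p_W8n_cramer (v₁ - v₀) (v₂ - v₀) c (v₃ - v₀) hc
  rw [← hδ] at c1 c2 c3
  obtain ⟨X, hX⟩ : ∃ X, X = det3 (v₃ - v₀) (v₂ - v₀) c := ⟨_, rfl⟩
  obtain ⟨Y, hY⟩ : ∃ Y, Y = det3 (v₁ - v₀) (v₃ - v₀) c := ⟨_, rfl⟩
  rw [← hX, ← hY] at c1 c2 c3
  obtain ⟨ε, hε, hq⟩ : ∃ ε : ℤ, (ε = 1 ∨ ε = -1) ∧ |δ| = ε * δ := by
    rcases abs_choice δ with h | h
    · exact ⟨1, Or.inl rfl, by rw [h]; ring⟩
    · exact ⟨-1, Or.inr rfl, by rw [h]; ring⟩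
  have hε2 : ε * ε = 1 := by rcases hε with h | h <;> rw [h] <;> norm_num
  obtain ⟨q, hq'⟩ : ∃ q, q = |δ| := ⟨_, rfl⟩
  rw [← hq'] at hdet ⊢
  rw [← hq'] at hq
  obtain ⟨c', hc'⟩ : ∃ c' : ℤ × ℤ × ℤ, c' = (ε * c.1, ε * c.2.1, ε * c.2.2) := ⟨_, rfl⟩
  have k1 : c'.1 = ε * c.1 := by rw [hc']
  have k2 : c'.2.1 = ε * c.2.1 := by rw [hc']
  have k3 : c'.2.2 = ε * c.2.2 := by rw [hc']
  have hdc : det3 (v₁ - v₀) (v₂ - v₀) c' = ε := by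
    simp only [det3] at hc ⊢
    rw [k1, k2, k3]
    linear_combination ε * hc
  have hd : det3 (v₁ - v₀) (v₂ - v₀) c' = 1 ∨ det3 (v₁ - v₀) (v₂ - v₀) c' = -1 := by
    rw [hdc]; exact hε
  simp only [Prod.fst_sub, Prod.snd_sub] at c1 c2 c3
  have e1 : v₃.1 = v₀.1 + X * (v₁.1 - v₀.1) + Y * (v₂.1 - v₀.1) + q * c'.1 := by
    rw [k1, hq]
    linear_combination c1 - δ * c.1 * hε2
  have e2 : v₃.2.1 = v₀.2.1 + X * (v₁.2.1 - v₀.2.1) + Y * (v₂.2.1 - v₀.2.1) + q * c'.2.1 := by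
    rw [k2, hq]
    linear_combination c2 - δ * c.2.1 * hε2
  have e3 : v₃.2.2 = v₀.2.2 + X * (v₁.2.2 - v₀.2.2) + Y * (v₂.2.2 - v₀.2.2) + q * c'.2.2 := by
    rw [k3, hq]
    linear_combination c3 - δ * c.2.2 * hε2
  have hw := h_white q X Y hdet (p_W8n_hyp V hV v₀ v₁ v₂ v₃ c' h0 h1 h2 h3 X Y q hdet hd e1 e2 e3)
  have hdd : ∀ (A B C : ℤ × ℤ × ℤ), det3 A B C = ε ∨ det3 A B C = -ε →
      det3 A B C = 1 ∨ det3 A B C = -1 := by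
    intro A B C h
    rcases hε with h' | h' <;> rw [h'] at h <;> omega
  simp only [det3, Prod.fst_sub, Prod.snd_sub] at hdc
  rcases hw with ⟨m, hm⟩ | ⟨m, hm⟩ | ⟨m, hm⟩
  · -- `X = 1 + q m`
    have hX1 : X = 1 + q * m := by linarith
    refine ⟨fr v₀ (v₁ - v₀) (v₂ - v₀) (m * (v₁.1 - v₀.1) + c'.1, m * (v₁.2.1 - v₀.2.1) + c'.2.1,
      m * (v₁.2.2 - v₀.2.2) + c'.2.2), ⟨_, _, _, _, hdd _ _ _ (Or.inl ?_), fun v => rfl⟩, Y,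
      v₀, h0, v₁, h1, v₂, h2, v₃, h3, p_W8n_frip _ _ _ _ _ _ _ _ ?_ ?_ ?_,
      p_W8n_frip _ _ _ _ _ _ _ _ ?_ ?_ ?_, p_W8n_frip _ _ _ _ _ _ _ _ ?_ ?_ ?_,
      p_W8n_frip _ _ _ _ _ _ _ _ ?_ ?_ ?_⟩
    · simp only [det3, Prod.fst_sub, Prod.snd_sub]
      linear_combination hdc
    all_goals simp only [Prod.fst_sub, Prod.snd_sub]
    · ring
    · ring
    · ring
    · ring
    · ring
    · ring
    · ring
    · ring
    · ring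
    · rw [e1, hX1]; ring
    · rw [e2, hX1]; ring
    · rw [e3, hX1]; ring
  · -- `Y = 1 + q m`
    have hY1 : Y = 1 + q * m := by linarith
    refine ⟨fr v₀ (v₂ - v₀) (v₁ - v₀) (m * (v₂.1 - v₀.1) + c'.1, m * (v₂.2.1 - v₀.2.1) + c'.2.1,
      m * (v₂.2.2 - v₀.2.2) + c'.2.2), ⟨_, _, _, _, hdd _ _ _ (Or.inr ?_), fun v => rfl⟩, X,
      v₀, h0, v₂, h2, v₁, h1, v₃, h3, p_W8n_frip _ _ _ _ _ _ _ _ ?_ ?_ ?_,
      p_W8n_frip _ _ _ _ _ _ _ _ ?_ ?_ ?_, p_W8n_frip _ _ _ _ _ _ _ _ ?_ ?_ ?_,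
      p_W8n_frip _ _ _ _ _ _ _ _ ?_ ?_ ?_⟩
    · simp only [det3, Prod.fst_sub, Prod.snd_sub]
      linear_combination -hdc
    all_goals simp only [Prod.fst_sub, Prod.snd_sub]
    · ring
    · ring
    · ring
    · ring
    · ring
    · ring
    · ring
    · ring
    · ring
    · rw [e1, hY1]; ring
    · rw [e2, hY1]; ring
    · rw [e3, hY1]; ring
  · -- `X + Y = q m`
    have hX1 : X = q * m - Y := by linarith
    refine ⟨fr v₁ (v₀ - v₁) (v₂ - v₁) (m * (v₁.1 - v₀.1) + c'.1, m * (v₁.2.1 - v₀.2.1) + c'.2.1,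
      m * (v₁.2.2 - v₀.2.2) + c'.2.2), ⟨_, _, _, _, hdd _ _ _ (Or.inr ?_), fun v => rfl⟩, Y,
      v₁, h1, v₀, h0, v₂, h2, v₃, h3, p_W8n_frip _ _ _ _ _ _ _ _ ?_ ?_ ?_,
      p_W8n_frip _ _ _ _ _ _ _ _ ?_ ?_ ?_, p_W8n_frip _ _ _ _ _ _ _ _ ?_ ?_ ?_,
      p_W8n_frip _ _ _ _ _ _ _ _ ?_ ?_ ?_⟩
    · simp only [det3, Prod.fst_sub, Prod.snd_sub]
      linear_combination -hdc
    all_goals simp only [Prod.fst_sub, Prod.snd_sub]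
    · ring
    · ring
    · ring
    · ring
    · ring
    · ring
    · ring
    · ring
    · ring
    · rw [e1, hX1]; ring
    · rw [e2, hX1]; ring
    · rw [e3, hX1]; ring

end Pool.Agent.Lib.MP_0bc52e_nt.T
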