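import Pool.Agent.Lib.MP_0bc52e_nt.T.StmH

/-!
Piece `[WE]` of MP_0bc52e_nt: no integer point strictly between the triangle `W` and a vertex.
-/

namespace Pool.Agent.Lib.MP_0bc52e_nt.T

open Pool.Agent.Lib.MP_0bc52e_nt.LC

/-- Weights of a point of a hull of four points. -/
theorem p_WE_hull4 (a b c d p : ℝ × ℝ × ℝ) (hp : p ∈ convexHull ℝ {a, b, c, d}) :
    ∃ α β γ δ : ℝ, 0 ≤ α ∧ 0 ≤ β ∧ 0 ≤ γ ∧ 0 ≤ δ ∧ α + β + γ + δ = 1 ∧
      p = α • a + β • b + γ • c + δ • d := by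
  set S : Set (ℝ × ℝ × ℝ) := {p | ∃ α β γ δ : ℝ, 0 ≤ α ∧ 0 ≤ β ∧ 0 ≤ γ ∧ 0 ≤ δ ∧
    α + β + γ + δ = 1 ∧ p = α • a + β • b + γ • c + δ • d} with hS
  have hSc : Convex ℝ S := by
    rintro x ⟨α, β, γ, δ, h1, h2, h3, h4, h5, rfl⟩ y ⟨α', β', γ', δ', k1, k2, k3, k4, k5, rfl⟩
      s t hs ht hst
    refine ⟨s * α + t * α', s * β + t * β', s * γ + t * γ', s * δ + t * δ', by positivity,
      by positivity, by positivity, by positivity, ?_, ?_⟩
    · linear_combination s * h5 + t * k5 + hst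
    · module
  have hsub : convexHull ℝ {a, b, c, d} ⊆ S := by
    apply convexHull_min _ hSc
    intro v hv
    simp only [Set.mem_insert_iff, Set.mem_singleton_iff] at hv
    rcases hv with rfl | rfl | rfl | rfl
    · exact ⟨1, 0, 0, 0, by norm_num, by norm_num, by norm_num, by norm_num, by norm_num, by simp⟩
    · exact ⟨0, 1, 0, 0, by norm_num, by norm_num, by norm_num, by norm_num, by norm_num, by simp⟩
    · exact ⟨0, 0, 1, 0, by norm_num, by norm_num, by norm_num, by norm_num, by norm_num, by simp⟩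
    · exact ⟨0, 0, 0, 1, by norm_num, by norm_num, by norm_num, by norm_num, by norm_num, by simp⟩
  exact hsub hp

/-- Combinations of four points of a convex set. -/
theorem p_WE_in4 (H : Set (ℝ × ℝ × ℝ)) (hH : Convex ℝ H) (a b c d : ℝ × ℝ × ℝ)
    (ha : a ∈ H) (hb : b ∈ H) (hc : c ∈ H) (hd : d ∈ H) (α β γ δ : ℝ) (h1 : 0 ≤ α) (h2 : 0 ≤ β)
    (h3 : 0 ≤ γ) (h4 : 0 ≤ δ) (h5 : α + β + γ + δ = 1) :
    α • a + β • b + γ • c + δ • d ∈ H := by
  have h := hH.sum_mem (t := Finset.univ) (w := ![α, β, γ, δ]) (z := ![a, b, c, d])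
    (by intro i _; fin_cases i <;> simp [h1, h2, h3, h4])
    (by simp [Fin.sum_univ_four, h5])
    (by intro i _; fin_cases i <;> simp [ha, hb, hc, hd])
  simpa [Fin.sum_univ_four] using h

/-- A small perturbation of positive weights. -/
theorem p_WE_small (α δ m D : ℝ) (hm : m ≤ α) (hm0 : 0 < m) (hD : |δ| ≤ D) :
    0 ≤ α + m / (D + 1) * δ := by
  have hD0 : 0 ≤ D := le_trans (abs_nonneg _) hD
  have h1 : m / (D + 1) * δ ≥ -(m / (D + 1) * D) := by
    have h2 : 0 ≤ m / (D + 1) := by positivity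
    have h3 : -D ≤ δ := by linarith [neg_abs_le δ]
    have := mul_le_mul_of_nonneg_left h3 h2
    linarith
  have h4 : m / (D + 1) * D ≤ m := by
    rw [div_mul_eq_mul_div, div_le_iff₀ (by linarith)]
    nlinarith
  linarith

/-- The interior case. -/
theorem p_WE_inn (H : Set (ℝ × ℝ × ℝ)) (hH : Convex ℝ H) (u1 u2 u3 : ℝ) (hu3 : 0 < u3)
    (h1 : ((1 : ℝ), (0 : ℝ), (0 : ℝ)) ∈ H) (h2 : ((0 : ℝ), (1 : ℝ), (0 : ℝ)) ∈ H)
    (h3 : ((-1 : ℝ), (-1 : ℝ), (0 : ℝ)) ∈ H) (h4 : (u1, u2, u3) ∈ H) (α₁ α₂ α₃ β : ℝ)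
    (p1 : 0 < α₁) (p2 : 0 < α₂) (p3 : 0 < α₃) (p4 : 0 < β) (hs : α₁ + α₂ + α₃ + β = 1) :
    Inn H (α₁ • ((1 : ℝ), (0 : ℝ), (0 : ℝ)) + α₂ • ((0 : ℝ), (1 : ℝ), (0 : ℝ)) +
      α₃ • ((-1 : ℝ), (-1 : ℝ), (0 : ℝ)) + β • (u1, u2, u3)) := by
  rintro ⟨d1, d2, d3⟩
  obtain ⟨e, he⟩ : ∃ e, e = d3 / u3 := ⟨_, rfl⟩
  have he' : e * u3 = d3 := by
    rw [he]
    field_simp
  obtain ⟨x, hx⟩ : ∃ x, x = d1 - e * u1 := ⟨_, rfl⟩
  obtain ⟨y, hy⟩ : ∃ y, y = d2 - e * u2 := ⟨_, rfl⟩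
  obtain ⟨δ₁, g1⟩ : ∃ δ, δ = (-e + 2 * x - y) / 3 := ⟨_, rfl⟩
  obtain ⟨δ₂, g2⟩ : ∃ δ, δ = (-e + 2 * y - x) / 3 := ⟨_, rfl⟩
  obtain ⟨δ₃, g3⟩ : ∃ δ, δ = (-e - x - y) / 3 := ⟨_, rfl⟩
  obtain ⟨m, hm, m1, m2, m3, m4⟩ : ∃ m : ℝ, 0 < m ∧ m ≤ α₁ ∧ m ≤ α₂ ∧ m ≤ α₃ ∧ m ≤ β :=
    ⟨min (min α₁ α₂) (min α₃ β), by positivity,
      le_trans (min_le_left _ _) (min_le_left _ _), le_trans (min_le_left _ _) (min_le_right _ _),
      le_trans (min_le_right _ _) (min_le_left _ _),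
      le_trans (min_le_right _ _) (min_le_right _ _)⟩
  obtain ⟨D, hD⟩ : ∃ D, D = |δ₁| + |δ₂| + |δ₃| + |e| := ⟨_, rfl⟩
  have b1 := abs_nonneg δ₁
  have b2 := abs_nonneg δ₂
  have b3 := abs_nonneg δ₃
  have b4 := abs_nonneg e
  refine ⟨m / (D + 1), by
    have : 0 ≤ D := by linarith
    positivity, ?_⟩
  have key := p_WE_in4 H hH _ _ _ _ h1 h2 h3 h4 (α₁ + m / (D + 1) * δ₁) (α₂ + m / (D + 1) * δ₂)
    (α₃ + m / (D + 1) * δ₃) (β + m / (D + 1) * e)
    (p_WE_small _ _ _ _ m1 hm (by linarith)) (p_WE_small _ _ _ _ m2 hm (by linarith))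
    (p_WE_small _ _ _ _ m3 hm (by linarith)) (p_WE_small _ _ _ _ m4 hm (by linarith))
    (by
      have : δ₁ + δ₂ + δ₃ + e = 0 := by
        rw [g1, g2, g3]
        ring
      linear_combination hs + m / (D + 1) * this)
  have e1 : δ₁ - δ₃ + e * u1 = d1 := by
    rw [g1, g3, hx]
    ring
  have e2 : δ₂ - δ₃ + e * u2 = d2 := by
    rw [g2, g3, hy]
    ring
  convert key using 1
  simp only [Prod.smul_mk, Prod.mk_add_mk, smul_eq_mul, Prod.mk.injEq]
  refine ⟨?_, ?_, ?_⟩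
  · linear_combination (-(m / (D + 1))) * e1
  · linear_combination (-(m / (D + 1))) * e2
  · linear_combination (-(m / (D + 1))) * he'

/-- The case of a face: `w` is the third vertex of `W`. -/
theorem p_WE_face (h_triM : S_triM) (V : Finset (ℤ × ℤ × ℤ)) (hV : Mini V)
    (v₁ v₂ w u y : ℤ × ℤ × ℤ) (h1 : v₁ ∈ V) (h2 : v₂ ∈ V) (hw : w ∈ V) (hu : u ∈ V)
    (z1 : v₁.2.2 = 0) (z2 : v₂.2.2 = 0) (hne : v₁.1 ≠ v₂.1 ∨ v₁.2.1 ≠ v₂.2.1)
    (hsum : v₁ + v₂ + w = 0) (hy : 0 < y.2.2) (α β γ : ℝ) (hα : 0 < α) (hβ : 0 < β) (hγ : 0 < γ)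
    (hs : α + β + γ = 1) (h : ip y = α • ip v₁ + β • ip v₂ + γ • ip u) : False := by
  have hcr : cr (v₁ - y) (v₂ - y) ≠ 0 := by
    intro hc
    have c1 := congrArg Prod.fst hc
    have c2 := congrArg (fun v => v.2.1) hc
    simp only [cr, Prod.fst_sub, Prod.snd_sub, z1, z2, Prod.fst_zero, Prod.snd_zero] at c1 c2
    have k1 : y.2.2 * (v₁.2.1 - v₂.2.1) = 0 := by linear_combination -c1
    have k2 : y.2.2 * (v₁.1 - v₂.1) = 0 := by linear_combination c2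
    have k1' := (mul_eq_zero.mp k1).resolve_left (ne_of_gt hy)
    have k2' := (mul_eq_zero.mp k2).resolve_left (ne_of_gt hy)
    rcases hne with hne | hne
    · apply hne
      omega
    · apply hne
      omega
  obtain ⟨h3, -⟩ := h_triM V hV v₁ h1 v₂ h2 u hu y α β γ hα hβ hγ hs h hcr
  have hu2 : u = y + y + y + w := by
    have : v₁ + v₂ = -w := by
      rw [← sub_eq_zero, sub_neg_eq_add]
      exact hsum
    rw [this] at h3
    rw [← h3]
    abel
  have hmem : ip (y + w) ∈ hull V := by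
    have hc : Convex ℝ (hull V) := convex_convexHull ℝ _
    have m1 : ip u ∈ hull V := subset_convexHull ℝ _ (Set.mem_image_of_mem _ hu)
    have m2 : ip w ∈ hull V := subset_convexHull ℝ _ (Set.mem_image_of_mem _ hw)
    have h := hc m1 m2 (a := 1 / 3) (b := 2 / 3) (by norm_num) (by norm_num) (by norm_num)
    convert h using 1
    rw [hu2]
    simp only [ip, Prod.fst_add, Prod.snd_add, Prod.smul_mk, Prod.mk_add_mk, smul_eq_mul,
      Prod.mk.injEq]
    push_cast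
    refine ⟨by ring, by ring, by ring⟩
  have hfin := hV.alone u hu (y + w) hmem
    ⟨-y.1, by rw [hu2]; simp only [Prod.fst_add]; ring⟩
    ⟨-y.2.1, by rw [hu2]; simp only [Prod.fst_add, Prod.snd_add]; ring⟩
    ⟨-y.2.2, by rw [hu2]; simp only [Prod.snd_add]; ring⟩
  rw [hu2] at hfin
  have := congrArg (fun v => v.2.2) hfin
  simp only [Prod.snd_add] at this
  omega

/-- [WE] -/
theorem p_WE (h_segM : S_segM) (h_triM : S_triM) : S_WE := by
  intro V hV hH hW u hu y hy hyu hmem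
  obtain ⟨w1, w2, w3⟩ := hW
  obtain ⟨α₁, α₂, α₃, β, p1, p2, p3, p4, hs, he⟩ := p_WE_hull4 _ _ _ _ _ hmem
  have hz : (y.2.2 : ℝ) = β * u.2.2 := by
    have := congrArg (fun v => v.2.2) he
    simpa [ip] using this
  have hy' : (0 : ℝ) < y.2.2 := by exact_mod_cast hy
  have hyu' : (y.2.2 : ℝ) < u.2.2 := by exact_mod_cast hyu
  have hu0 : (0 : ℝ) < u.2.2 := lt_trans hy' hyu'
  have hu0' : 0 < u.2.2 := lt_trans hy hyu
  have hβ : 0 < β := by
    rcases p4.lt_or_eq with h | h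
    · exact h
    · rw [← h, zero_mul] at hz
      linarith
  have hβ1 : β < 1 := by
    by_contra hcon
    push Not at hcon
    nlinarith
  have hmV : ∀ v ∈ V, ip v ∈ hull V := fun v hv =>
    subset_convexHull ℝ _ (Set.mem_image_of_mem _ hv)
  have hc : Convex ℝ (hull V) := convex_convexHull ℝ _
  have seg : ∀ w ∈ V, w.2.2 = 0 → ip y = (1 - β) • ip w + β • ip u → False := by
    intro w hw hw0 h
    refine h_segM V hV w hw u hu y β hβ hβ1 ?_ h
    rintro rfl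
    omega
  rcases p1.lt_or_eq with q1 | q1
  · rcases p2.lt_or_eq with q2 | q2
    · rcases p3.lt_or_eq with q3 | q3
      · -- interior
        have m1 := hmV _ w1
        have m2 := hmV _ w2
        have m3 := hmV _ w3
        have m4 := hmV _ hu
        have hin := p_WE_inn (hull V) hc u.1 u.2.1 u.2.2 hu0 (by simpa [ip] using m1)
          (by simpa [ip] using m2) (by simpa [ip] using m3) (by simpa [ip] using m4)
          α₁ α₂ α₃ β q1 q2 q3 hβ hs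
        apply hH y
        rw [he]
        convert hin using 2 <;> simp [ip]
      · refine p_WE_face h_triM V hV (1, 0, 0) (0, 1, 0) (-1, -1, 0) u y w1 w2 w3 hu rfl rfl
          (Or.inl (by norm_num)) (by simp) hy α₁ α₂ β q1 q2 hβ (by rw [← hs, ← q3]; ring) ?_
        rw [he, ← q3]
        simp
    · rcases p3.lt_or_eq with q3 | q3
      · refine p_WE_face h_triM V hV (1, 0, 0) (-1, -1, 0) (0, 1, 0) u y w1 w3 w2 hu rfl rfl
          (Or.inl (by norm_num)) (by simp) hy α₁ α₃ β q1 q3 hβ (by rw [← hs, ← q2]; ring) ?_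
        rw [he, ← q2]
        simp
      · apply seg _ w1 rfl
        have e : α₁ = 1 - β := by linarith
        rw [he, ← q2, ← q3, e]
        simp
  · rcases p2.lt_or_eq with q2 | q2
    · rcases p3.lt_or_eq with q3 | q3
      · refine p_WE_face h_triM V hV (0, 1, 0) (-1, -1, 0) (1, 0, 0) u y w2 w3 w1 hu rfl rfl
          (Or.inl (by norm_num)) (by simp) hy α₂ α₃ β q2 q3 hβ (by rw [← hs, ← q1]; ring) ?_
        rw [he, ← q1]
        simp
      · apply seg _ w2 rfl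
        have e : α₂ = 1 - β := by linarith
        rw [he, ← q1, ← q3, e]
        simp
    · apply seg _ w3 rfl
      have e : α₃ = 1 - β := by linarith
      rw [he, ← q1, ← q2, e]
      simp

end Pool.Agent.Lib.MP_0bc52e_nt.T
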