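import Pool.Agent.Lib.MP_0bc52e_nt.T.StmH

/-!
# MP_0bc52e_nt, T163, piece WMH
-/

namespace Pool.Agent.Lib.MP_0bc52e_nt.T

open Pool.Agent.Lib.MP_0bc52e_nt.LC

private theorem p_WMH_conv : Convex ℝ {q : ℝ × ℝ × ℝ | 0 ≤ q.2.2 ∧ (q.2.2 < 3 ∨ q = (1, -1, 3))} := by
  intro x hx y hy a b ha hb hab
  obtain ⟨hx0, hx⟩ := hx
  obtain ⟨hy0, hy⟩ := hy
  have hz : (a • x + b • y).2.2 = a * x.2.2 + b * y.2.2 := rfl
  refine ⟨by rw [hz]; positivity, ?_⟩
  have hx3 : x.2.2 ≤ 3 := by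
    rcases hx with h | h
    · exact h.le
    · rw [h]
  have hy3 : y.2.2 ≤ 3 := by
    rcases hy with h | h
    · exact h.le
    · rw [h]
  rcases hx with h | h
  · rcases eq_or_lt_of_le ha with h0 | h0
    · have hb1 : b = 1 := by linarith
      rw [← h0, hb1, zero_smul, one_smul, zero_add]
      exact hy
    · left
      rw [hz]
      have : b = 1 - a := by linarith
      subst this
      nlinarith
  · rcases hy with h' | h'
    · rcases eq_or_lt_of_le hb with h0 | h0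
      · have hb1 : a = 1 := by linarith
        rw [← h0, hb1, zero_smul, one_smul, add_zero]
        exact Or.inr h
      · left
        rw [hz, h]
        have : a = 1 - b := by linarith
        subst this
        nlinarith
    · right
      rw [h, h', ← add_smul, hab, one_smul]

private theorem p_WMH_seg (P : Set (ℝ × ℝ × ℝ)) (hP : Convex ℝ P) (x y : ℝ × ℝ × ℝ) (hx : x ∈ P)
    (hy : y ∈ P) (t : ℝ) (h0 : 0 ≤ t) (h1 : t ≤ 1) (z : ℝ × ℝ × ℝ)
    (e1 : z.1 = (1 - t) * x.1 + t * y.1) (e2 : z.2.1 = (1 - t) * x.2.1 + t * y.2.1)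
    (e3 : z.2.2 = (1 - t) * x.2.2 + t * y.2.2) : z ∈ P := by
  have h := hP hx hy (sub_nonneg.2 h1) h0 (by ring)
  have hz : z = (1 - t) • x + t • y := by
    apply Prod.ext
    · exact e1
    · apply Prod.ext
      · exact e2
      · exact e3
  rw [hz]
  exact h

theorem p_WMH (h_Wh : S_Wh) (h_W0 : S_W0) (h_two3 : S_two3) (h_reg : S_reg) (h_lev1 : S_lev1) :
    S_WMH := by
  intro V hM hH hW hu
  have hex : ∃ v ∈ V, 0 < v.2.2 := ⟨_, hu, by norm_num⟩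
  have hV : ∀ v ∈ V, (0 : ℝ) ≤ (ip v).2.2 ∧ ((ip v).2.2 < 3 ∨ ip v = (1, -1, 3)) := by
    intro v hv
    rcases h_W0 V hM hH hW hex v hv with h | h | h | ⟨h, h'⟩
    · rw [h]; norm_num [ip]
    · rw [h]; norm_num [ip]
    · rw [h]; norm_num [ip]
    · rcases h_Wh V hM hH hW hex v hv h with h1 | ⟨h1, h2⟩
      · refine ⟨?_, Or.inl ?_⟩
        · change (0 : ℝ) ≤ ((v.2.2 : ℤ) : ℝ)
          rw [h1]; norm_num
        · change ((v.2.2 : ℤ) : ℝ) < 3
          rw [h1]; norm_num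
      · have h3 := h_two3 V hM hH hW hu v hv h1 h2
        rw [h3]
        norm_num [ip]
  have hhull : ∀ q ∈ hull V, 0 ≤ q.2.2 ∧ (q.2.2 < 3 ∨ q = (1, -1, 3)) := by
    have h := convexHull_min (s := ip '' (V : Set (ℤ × ℤ × ℤ))) (by
      rintro _ ⟨v, hv, rfl⟩
      exact hV v hv) p_WMH_conv
    exact fun q hq => h hq
  have hc : Convex ℝ (hull V) := convex_convexHull ℝ _
  have hin : ∀ v ∈ V, ip v ∈ hull V := fun v hv => subset_convexHull ℝ _ ⟨v, hv, rfl⟩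
  have i1 := hin _ hW.1
  have i2 := hin _ hW.2.1
  have i3 := hin _ hW.2.2
  have i4 := hin _ hu
  have key : ∀ x y z : ℤ, ip (x, y, z) ∈ hull V → (2 : ℤ) ∣ z - 1 →
      ¬ ((2 : ℤ) ∣ x - 1 ∧ (2 : ℤ) ∣ y - 1) → z = 1 ∧
      ((2 : ℤ) ∣ x ∧ (2 : ℤ) ∣ y → (x, y) = (0, 0) ∨ (x, y) = (-2, -2)) ∧
      ((2 : ℤ) ∣ x - 1 ∧ (2 : ℤ) ∣ y → (x, y) = (1, 0) ∨ (x, y) = (1, 2)) ∧
      ((2 : ℤ) ∣ x ∧ (2 : ℤ) ∣ y - 1 → (x, y) = (0, -1) ∨ (x, y) = (2, -1)) := by
    intro x y z hq hz hxy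
    obtain ⟨g1, g2⟩ := hhull _ hq
    have g1' : (0 : ℝ) ≤ ((z : ℤ) : ℝ) := g1
    have g1'' : 0 ≤ z := by exact_mod_cast g1'
    have hz1 : z = 1 := by
      rcases g2 with g2 | g2
      · have g2' : ((z : ℤ) : ℝ) < 3 := g2
        have g2'' : z < 3 := by exact_mod_cast g2'
        omega
      · exfalso
        apply hxy
        have e1 : ((x : ℤ) : ℝ) = 1 := congrArg Prod.fst g2
        have e2 : ((y : ℤ) : ℝ) = -1 := congrArg (fun q => q.2.1) g2
        have e1' : x = 1 := by exact_mod_cast e1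
        have e2' : y = -1 := by exact_mod_cast e2
        subst e1' e2'
        norm_num
    refine ⟨hz1, ?_⟩
    subst hz1
    have hq' : ((x : ℝ), (y : ℝ), (1 : ℝ)) ∈ hull V := by
      have : ip (x, y, 1) = ((x : ℝ), (y : ℝ), (1 : ℝ)) := by norm_num [ip]
      rwa [this] at hq
    obtain ⟨r1, r2, r3⟩ := h_reg (hull V) x y hc i1 i2 i3 i4 hq'
    refine h_lev1 x y ?_ ?_ ?_
    · rintro ⟨k1, k2⟩
      exact hH _ (r1 (by exact_mod_cast k1) (by exact_mod_cast k2))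
    · rintro ⟨k1, k2⟩
      exact hH _ (r2 (by exact_mod_cast k1) (by exact_mod_cast k2))
    · rintro ⟨k1, k2⟩
      exact hH _ (r3 (by exact_mod_cast k1) (by exact_mod_cast k2))
  have m1 : ((1 / 3 : ℝ), (1 / 3 : ℝ), (1 : ℝ)) ∈ hull V :=
    p_WMH_seg _ hc _ _ i2 i4 (1 / 3) (by norm_num) (by norm_num) _ (by norm_num [ip])
      (by norm_num [ip]) (by norm_num [ip])
  have m2 : ((1 : ℝ), (-1 / 3 : ℝ), (1 : ℝ)) ∈ hull V :=
    p_WMH_seg _ hc _ _ i1 i4 (1 / 3) (by norm_num) (by norm_num) _ (by norm_num [ip])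
      (by norm_num [ip]) (by norm_num [ip])
  have m3 : ((-1 / 3 : ℝ), (-1 : ℝ), (1 : ℝ)) ∈ hull V :=
    p_WMH_seg _ hc _ _ i3 i4 (1 / 3) (by norm_num) (by norm_num) _ (by norm_num [ip])
      (by norm_num [ip]) (by norm_num [ip])
  have n1 : ip (0, 0, 1) ∈ hull V := by
    obtain ⟨x, y, z, hq, a1, a2, a3⟩ := hM.pc 0 0 1
    obtain ⟨hz, h1, -, -⟩ := key x y z hq a3 (by omega)
    rcases h1 ⟨by omega, by omega⟩ with h | h
    · obtain ⟨rfl, rfl⟩ := Prod.mk.inj h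
      rwa [hz] at hq
    · obtain ⟨rfl, rfl⟩ := Prod.mk.inj h
      rw [hz] at hq
      exact p_WMH_seg _ hc _ _ hq m1 (6 / 7) (by norm_num) (by norm_num) _ (by norm_num [ip])
        (by norm_num [ip]) (by norm_num [ip])
  have n2 : ip (1, 0, 1) ∈ hull V := by
    obtain ⟨x, y, z, hq, a1, a2, a3⟩ := hM.pc 1 0 1
    obtain ⟨hz, -, h1, -⟩ := key x y z hq a3 (by omega)
    rcases h1 ⟨by omega, by omega⟩ with h | h
    · obtain ⟨rfl, rfl⟩ := Prod.mk.inj h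
      rwa [hz] at hq
    · obtain ⟨rfl, rfl⟩ := Prod.mk.inj h
      rw [hz] at hq
      exact p_WMH_seg _ hc _ _ hq m2 (6 / 7) (by norm_num) (by norm_num) _ (by norm_num [ip])
        (by norm_num [ip]) (by norm_num [ip])
  have n3 : ip (0, -1, 1) ∈ hull V := by
    obtain ⟨x, y, z, hq, a1, a2, a3⟩ := hM.pc 0 1 1
    obtain ⟨hz, -, -, h1⟩ := key x y z hq a3 (by omega)
    rcases h1 ⟨by omega, by omega⟩ with h | h
    · obtain ⟨rfl, rfl⟩ := Prod.mk.inj h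
      rwa [hz] at hq
    · obtain ⟨rfl, rfl⟩ := Prod.mk.inj h
      rw [hz] at hq
      exact p_WMH_seg _ hc _ _ hq m3 (6 / 7) (by norm_num) (by norm_num) _ (by norm_num [ip])
        (by norm_num [ip]) (by norm_num [ip])
  refine convexHull_min ?_ hc
  rintro _ ⟨v, hv, rfl⟩
  have hv' : v ∈ MH := hv
  simp only [MH, Finset.mem_insert, Finset.mem_singleton] at hv'
  rcases hv' with rfl | rfl | rfl | rfl | rfl | rfl | rfl
  · exact i1
  · exact i2
  · exact i3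
  · exact n3
  · exact n1
  · exact n2
  · exact i4

end Pool.Agent.Lib.MP_0bc52e_nt.T
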