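import Pool.Agent.Lib.MP_0bc52e_nt.T.StmH

set_option autoImplicit false

namespace Pool.Agent.Lib.MP_0bc52e_nt.T

open Pool.Agent.Lib.MP_0bc52e_nt.LC

theorem p_Wh (h_W0 : S_W0) (h_WE : S_WE) (h_h3 : S_h3) : S_Wh := by
  intro V hV hH hW hex u hu hu0
  have hodd : ¬ (2 : ℤ) ∣ u.2.2 := by
    rcases h_W0 V hV hH hW hex u hu with h | h | h | h
    · rw [h] at hu0
      exact absurd hu0 (lt_irrefl _)
    · rw [h] at hu0
      exact absurd hu0 (lt_irrefl _)
    · rw [h] at hu0
      exact absurd hu0 (lt_irrefl _)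
    · exact h.2
  by_cases h1 : u.2.2 = 1
  · exact Or.inl h1
  · right
    refine h_h3 u.2.2 u.1 u.2.1 (by omega) hodd ?_
    rintro k y₁ y₂ hk0 hkh ⟨g1, g2, g3⟩
    refine h_WE V hV hH hW u hu (y₁, y₂, k) hk0 hkh ?_
    obtain ⟨u₁, u₂, h⟩ := u
    simp only at hu0 hkh g1 g2 g3
    have hh : (0 : ℝ) < h := by exact_mod_cast hu0
    have hk : (0 : ℝ) < k := by exact_mod_cast hk0
    have r1 : (h : ℝ) * y₁ - k * u₁ + (h * y₂ - k * u₂) ≤ h - k := by exact_mod_cast g1
    have r2 : (h : ℝ) * y₁ - k * u₁ - 2 * (h * y₂ - k * u₂) ≤ h - k := by exact_mod_cast g2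
    have r3 : (h : ℝ) * y₂ - k * u₂ - 2 * (h * y₁ - k * u₁) ≤ h - k := by exact_mod_cast g3
    have hm := (convex_convexHull ℝ ({ip (1, 0, 0), ip (0, 1, 0), ip (-1, -1, 0),
        ip (u₁, u₂, h)} : Set (ℝ × ℝ × ℝ))).sum_mem (t := Finset.univ)
      (w := ![((h : ℝ) - k + 2 * (h * y₁ - k * u₁) - (h * y₂ - k * u₂)) / (3 * h),
        ((h : ℝ) - k + 2 * (h * y₂ - k * u₂) - (h * y₁ - k * u₁)) / (3 * h),
        ((h : ℝ) - k - (h * y₁ - k * u₁) - (h * y₂ - k * u₂)) / (3 * h), (k : ℝ) / h])
      (z := ![ip (1, 0, 0), ip (0, 1, 0), ip (-1, -1, 0), ip (u₁, u₂, h)]) (by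
        intro i _
        fin_cases i
        · simp only [Fin.zero_eta, Matrix.cons_val_zero]
          exact div_nonneg (by linarith) (by linarith)
        · simp only [Fin.mk_one, Matrix.cons_val_one, Matrix.cons_val_zero]
          exact div_nonneg (by linarith) (by linarith)
        · change 0 ≤ ((h : ℝ) - k - (h * y₁ - k * u₁) - (h * y₂ - k * u₂)) / (3 * h)
          exact div_nonneg (by linarith) (by linarith)
        · change 0 ≤ (k : ℝ) / h
          exact div_nonneg hk.le hh.le) (by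
        simp only [Fin.sum_univ_four, Matrix.cons_val_zero, Matrix.cons_val_one, Matrix.cons_val]
        field_simp
        ring) (by
        intro i _
        fin_cases i
        · exact subset_convexHull ℝ _ (by simp)
        · exact subset_convexHull ℝ _ (by simp)
        · exact subset_convexHull ℝ _ (by simp)
        · exact subset_convexHull ℝ _ (by simp))
    simp only [Fin.sum_univ_four, Matrix.cons_val_zero, Matrix.cons_val_one, Matrix.cons_val] at hm
    have e : (((h : ℝ) - k + 2 * (h * y₁ - k * u₁) - (h * y₂ - k * u₂)) / (3 * h)) • ip (1, 0, 0) +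
        (((h : ℝ) - k + 2 * (h * y₂ - k * u₂) - (h * y₁ - k * u₁)) / (3 * h)) • ip (0, 1, 0) +
        (((h : ℝ) - k - (h * y₁ - k * u₁) - (h * y₂ - k * u₂)) / (3 * h)) • ip (-1, -1, 0) +
        ((k : ℝ) / h) • ip (u₁, u₂, h) = ip (y₁, y₂, k) := by
      ext
      · simp only [ip, Prod.fst_add, Prod.smul_fst, smul_eq_mul]
        push_cast
        field_simp
        ring
      · simp only [ip, Prod.fst_add, Prod.snd_add, Prod.smul_fst, Prod.smul_snd, smul_eq_mul]
        push_cast
        field_simp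
        ring
      · simp only [ip, Prod.snd_add, Prod.smul_snd, smul_eq_mul]
        push_cast
        field_simp
        ring
    rw [e] at hm
    exact hm

end Pool.Agent.Lib.MP_0bc52e_nt.T
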