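import Pool.Agent.Lib.MP_0bc52e_nt.T.StmH

/-!
# Piece [Zpyr]: no pyramid of height at least two over a parallelogram in an empty configuration
-/

namespace Pool.Agent.Lib.MP_0bc52e_nt.T

open Pool.Agent.Lib.MP_0bc52e_nt.LC

private lemma p_Zpyr_conv5 {S : Set (ℝ × ℝ × ℝ)} (hS : Convex ℝ S) {p₁ p₂ p₃ p₄ p₅ : ℝ × ℝ × ℝ}
    (h₁ : p₁ ∈ S) (h₂ : p₂ ∈ S) (h₃ : p₃ ∈ S) (h₄ : p₄ ∈ S) (h₅ : p₅ ∈ S) {w₁ w₂ w₃ w₄ w₅ : ℝ}
    (k₁ : 0 ≤ w₁) (k₂ : 0 ≤ w₂) (k₃ : 0 ≤ w₃) (k₄ : 0 ≤ w₄) (k₅ : 0 ≤ w₅)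
    (h : w₁ + w₂ + w₃ + w₄ + w₅ = 1) :
    w₁ • p₁ + w₂ • p₂ + w₃ • p₃ + w₄ • p₄ + w₅ • p₅ ∈ S := by
  have := hS.sum_mem (t := (Finset.univ : Finset (Fin 5))) (w := ![w₁, w₂, w₃, w₄, w₅])
    (z := ![p₁, p₂, p₃, p₄, p₅])
    (by intro i _; fin_cases i <;> simp [k₁, k₂, k₃, k₄, k₅])
    (by simp [Fin.sum_univ_five, h])
    (by intro i _; fin_cases i <;> simp [h₁, h₂, h₃, h₄, h₅])
  simpa [Fin.sum_univ_five] using this

/-- Cramer's rule for a basis of determinant one. -/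
private lemma p_Zpyr_cramer (a b c w : ℤ × ℤ × ℤ) (h : det3 a b c = 1) :
    w = det3 w b c • a + det3 a w c • b + det3 a b w • c := by
  have hd := h
  simp only [det3] at hd
  refine Prod.ext ?_ (Prod.ext ?_ ?_)
  · simp only [det3, Prod.fst_add, Prod.snd_add, Prod.smul_fst, Prod.smul_snd, smul_eq_mul]
    linear_combination (-w.1) * hd
  · simp only [det3, Prod.fst_add, Prod.snd_add, Prod.smul_fst, Prod.smul_snd, smul_eq_mul]
    linear_combination (-w.2.1) * hd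
  · simp only [det3, Prod.fst_add, Prod.snd_add, Prod.smul_fst, Prod.smul_snd, smul_eq_mul]
    linear_combination (-w.2.2) * hd

theorem p_Zpyr (h_uni : S_uni) (h_fr1 : S_fr1) : S_Zpyr := by
  intro V hV A hA B hB C hC D hD hAB hdet
  have hcr : cr (A - C) (B - C) ≠ 0 := by
    intro h
    have : det3 (A - C) (B - C) (D - C) = 0 := by
      have h1 := congrArg (fun x : ℤ × ℤ × ℤ => x.1) h
      have h2 := congrArg (fun x : ℤ × ℤ × ℤ => x.2.1) h
      have h3 := congrArg (fun x : ℤ × ℤ × ℤ => x.2.2) h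
      simp only [cr, Prod.fst_zero, Prod.snd_zero] at h1 h2 h3
      simp only [det3]
      linear_combination (D - C).1 * h1 + (D - C).2.1 * h2 + (D - C).2.2 * h3
    rw [this] at hdet
    norm_num at hdet
  obtain ⟨c₀, hc₀⟩ := h_uni V hV A hA B hB C hC hcr
  set a := A - C with ha
  set b := B - C with hb
  -- choose the sign of the third vector
  obtain ⟨c, u₁, u₂, q, hq, hDC, hc⟩ : ∃ (c : ℤ × ℤ × ℤ) (u₁ u₂ q : ℤ), 2 ≤ q ∧
      D - C = u₁ • a + u₂ • b + q • c ∧ det3 a b c ≠ 0 := by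
    have hk := p_Zpyr_cramer a b c₀ (D - C) hc₀
    rcases le_or_gt 0 (det3 a b (D - C)) with hs | hs
    · refine ⟨c₀, _, _, _, ?_, hk, by rw [hc₀]; norm_num⟩
      rwa [abs_of_nonneg hs] at hdet
    · refine ⟨-c₀, det3 (D - C) b c₀, det3 a (D - C) c₀, - det3 a b (D - C), ?_, ?_, ?_⟩
      · rwa [abs_of_neg hs] at hdet
      · rw [neg_smul, smul_neg, neg_neg]; exact hk
      · have : det3 a b (-c₀) = - det3 a b c₀ := by
          simp only [det3, Prod.fst_neg, Prod.snd_neg]; ring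
        rw [this, hc₀]; norm_num
  -- ceilings
  set i : ℤ := -((-u₁) / q) with hi
  set j : ℤ := -((-u₂) / q) with hj
  have hq0 : 0 < q := by linarith
  have hi1 : 0 ≤ q * i - u₁ := by
    have h1 := Int.emod_add_mul_ediv (-u₁) q
    have h2 := Int.emod_nonneg (-u₁) hq0.ne'
    have : q * i - u₁ = (-u₁) % q := by rw [hi]; linarith [mul_neg q ((-u₁) / q)]
    rw [this]; exact h2
  have hi2 : q * i - u₁ ≤ q - 1 := by
    have h1 := Int.emod_add_mul_ediv (-u₁) q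
    have h2 := Int.emod_lt_of_pos (-u₁) hq0
    have : q * i - u₁ = (-u₁) % q := by rw [hi]; linarith [mul_neg q ((-u₁) / q)]
    rw [this]; linarith
  have hj1 : 0 ≤ q * j - u₂ := by
    have h1 := Int.emod_add_mul_ediv (-u₂) q
    have h2 := Int.emod_nonneg (-u₂) hq0.ne'
    have : q * j - u₂ = (-u₂) % q := by rw [hj]; linarith [mul_neg q ((-u₂) / q)]
    rw [this]; exact h2
  have hj2 : q * j - u₂ ≤ q - 1 := by
    have h1 := Int.emod_add_mul_ediv (-u₂) q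
    have h2 := Int.emod_lt_of_pos (-u₂) hq0
    have : q * j - u₂ = (-u₂) % q := by rw [hj]; linarith [mul_neg q ((-u₂) / q)]
    rw [this]; linarith
  have hqR : (2 : ℝ) ≤ q := by exact_mod_cast hq
  have hi1R : (0 : ℝ) ≤ q * i - u₁ := by exact_mod_cast hi1
  have hi2R : (q : ℝ) * i - u₁ ≤ q - 1 := by exact_mod_cast hi2
  have hj1R : (0 : ℝ) ≤ q * j - u₂ := by exact_mod_cast hj1
  have hj2R : (q : ℝ) * j - u₂ ≤ q - 1 := by exact_mod_cast hj2
  set s : ℝ := (q * i - u₁) / (q - 1) with hs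
  set t : ℝ := (q * j - u₂) / (q - 1) with ht
  have hq1 : (0 : ℝ) < q - 1 := by linarith
  have hs0 : 0 ≤ s := div_nonneg hi1R hq1.le
  have hs1 : s ≤ 1 := (div_le_one hq1).2 hi2R
  have ht0 : 0 ≤ t := div_nonneg hj1R hq1.le
  have ht1 : t ≤ 1 := (div_le_one hq1).2 hj2R
  have hsi : (i : ℝ) = (1 / q) * u₁ + (1 - 1 / q) * s := by
    rw [hs]; field_simp; ring
  have htj : (j : ℝ) = (1 / q) * u₂ + (1 - 1 / q) * t := by
    rw [ht]; field_simp; ring
  set y : ℤ × ℤ × ℤ := C + (i • a + j • b + c) with hy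
  have hdy : det3 a b (y - C) = det3 a b c := by
    rw [hy]
    simp only [det3, Prod.fst_add, Prod.snd_add, Prod.fst_sub, Prod.snd_sub, Prod.smul_fst,
      Prod.smul_snd, smul_eq_mul]
    ring
  have hne : ∀ z : ℤ × ℤ × ℤ, det3 a b (z - C) = 0 → z ≠ y := by
    intro z hz h
    rw [h, hdy] at hz
    exact hc hz
  have hneA : A ≠ y := hne A (by rw [← ha]; simp only [det3]; ring)
  have hneB : B ≠ y := hne B (by rw [← hb]; simp only [det3]; ring)
  have hneC : C ≠ y := hne C (by simp [det3])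
  have hneE : A + B - C ≠ y := hne _ (by
    have : A + B - C - C = a + b := by rw [ha, hb]; abel
    rw [this]
    simp only [det3, Prod.fst_add, Prod.snd_add]; ring)
  have hneD : D ≠ y := by
    intro h
    have h1 : det3 a b (D - C) = q * det3 a b c := by
      rw [hDC]
      simp only [det3, Prod.fst_add, Prod.snd_add, Prod.smul_fst, Prod.smul_snd, smul_eq_mul]
      ring
    rw [h, hdy] at h1
    have h2 : (q - 1) * det3 a b c = 0 := by linarith
    rcases mul_eq_zero.1 h2 with h3 | h3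
    · linarith
    · exact hc h3
  have hA' : A = C + a := by rw [ha]; abel
  have hB' : B = C + b := by rw [hb]; abel
  have hE' : A + B - C = C + (a + b) := by rw [ha, hb]; abel
  have hD' : D = C + (u₁ • a + u₂ • b + q • c) := by rw [← hDC]; abel
  have hcomb : ip y = (1 / q : ℝ) • ip D + ((1 - 1 / q) * ((1 - s) * (1 - t)) : ℝ) • ip C +
      ((1 - 1 / q) * (s * (1 - t)) : ℝ) • ip A + ((1 - 1 / q) * ((1 - s) * t) : ℝ) • ip B +
      ((1 - 1 / q) * (s * t) : ℝ) • ip (A + B - C) := by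
    have hqq : (1 / (q : ℝ)) * q = 1 := by
      field_simp
    rw [hE', hD', hy, hA', hB']
    refine Prod.ext ?_ (Prod.ext ?_ ?_)
    · simp only [ip, Prod.fst_add, Prod.snd_add, Prod.smul_fst, Prod.smul_snd, smul_eq_mul]
      push_cast
      rw [hsi, htj]
      linear_combination (-(c.1 : ℝ)) * hqq
    · simp only [ip, Prod.fst_add, Prod.snd_add, Prod.smul_fst, Prod.smul_snd, smul_eq_mul]
      push_cast
      rw [hsi, htj]
      linear_combination (-(c.2.1 : ℝ)) * hqq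
    · simp only [ip, Prod.fst_add, Prod.snd_add, Prod.smul_fst, Prod.smul_snd, smul_eq_mul]
      push_cast
      rw [hsi, htj]
      linear_combination (-(c.2.2 : ℝ)) * hqq
  have hq2 : (0 : ℝ) ≤ 1 / q := by positivity
  have hq3 : (0 : ℝ) ≤ 1 - 1 / q := by
    have : 1 / (q : ℝ) ≤ 1 := by
      rw [div_le_one (by linarith)]; linarith
    linarith
  have hs' : 0 ≤ 1 - s := by linarith
  have ht' : 0 ≤ 1 - t := by linarith
  have hmem : ∀ W : Finset (ℤ × ℤ × ℤ), A ∈ W → B ∈ W → C ∈ W → D ∈ W → A + B - C ∈ W →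
      ip y ∈ hull W := by
    intro W h1 h2 h3 h4 h5
    rw [hcomb]
    have hsub : ∀ z ∈ W, ip z ∈ hull W := fun z hz =>
      subset_convexHull ℝ _ (Set.mem_image_of_mem ip (Finset.mem_coe.2 hz))
    refine p_Zpyr_conv5 (convex_convexHull ℝ _) (hsub D h4) (hsub C h3) (hsub A h1) (hsub B h2)
      (hsub _ h5) hq2 (mul_nonneg hq3 (mul_nonneg hs' ht')) (mul_nonneg hq3 (mul_nonneg hs0 ht'))
      (mul_nonneg hq3 (mul_nonneg hs' ht0)) (mul_nonneg hq3 (mul_nonneg hs0 ht0)) ?_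
    ring
  have hyV : y ∈ V := hV.all y (hmem V hA hB hC hD hAB)
  exact hV.ext y hyV (hmem (V.erase y) (Finset.mem_erase.2 ⟨hneA, hA⟩)
    (Finset.mem_erase.2 ⟨hneB, hB⟩) (Finset.mem_erase.2 ⟨hneC, hC⟩)
    (Finset.mem_erase.2 ⟨hneD, hD⟩) (Finset.mem_erase.2 ⟨hneE, hAB⟩))

end Pool.Agent.Lib.MP_0bc52e_nt.T
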