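import Pool.Agent.Lib.MP_0bc52e_nt.T.StmN

/-!
# Piece [arith3]: an inequality for three weights
-/

namespace Pool.Agent.Lib.MP_0bc52e_nt.T

open Pool.Agent.Lib.MP_0bc52e_nt.LC

private lemma p_arith3_sorted (d₁ d₂ d₃ : ℤ) (h1 : 0 < d₁) (h12 : d₁ ≤ d₂) (h23 : d₂ ≤ d₃)
    (h3 : 3 * d₃ < 2 * (d₁ + d₂ + d₃)) : 8 * (d₁ + d₂ + d₃) ^ 2 < 163 * (d₁ * d₂ * d₃) := by
  have h2 : 0 < d₂ := by linarith
  have hd3 : 0 < d₃ := by linarith
  by_cases hs : 3 ≤ d₁ + d₂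
  · have hm : 2 * (d₁ + d₂) ≤ 3 * (d₁ * d₂) := by
      have : 0 ≤ (d₁ - 1) * (d₂ - 1) := mul_nonneg (by linarith) (by linarith)
      nlinarith
    have hk : 0 ≤ (2 * (d₁ + d₂) - d₃) * (2 * d₃ - (d₁ + d₂)) :=
      mul_nonneg (by linarith) (by linarith)
    have hE : 2 * (d₁ + d₂ + d₃) ^ 2 ≤ 9 * ((d₁ + d₂) * d₃) := by nlinarith
    have hp : 2 * (d₁ + d₂) * d₃ ≤ 3 * (d₁ * d₂) * d₃ := mul_le_mul_of_nonneg_right hm hd3.le
    have hpos : 0 < (d₁ + d₂ + d₃) ^ 2 := by positivity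
    nlinarith
  · have e1 : d₁ = 1 := by omega
    have e2 : d₂ = 1 := by omega
    subst e1 e2
    have : d₃ ≤ 3 := by omega
    interval_cases d₃ <;> norm_num

theorem p_arith3 : S_arith3 := by
  intro d₁ d₂ d₃ h1 h2 h3 k1 k2 k3
  rcases le_total d₁ d₂ with a | a <;> rcases le_total d₂ d₃ with b | b <;>
    rcases le_total d₁ d₃ with c | c
  · exact p_arith3_sorted d₁ d₂ d₃ h1 a b k3
  · exact p_arith3_sorted d₁ d₂ d₃ h1 a b k3
  · have := p_arith3_sorted d₁ d₃ d₂ h1 c b (by linarith)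
    nlinarith [this]
  · have := p_arith3_sorted d₃ d₁ d₂ h3 c a (by linarith)
    nlinarith [this]
  · have := p_arith3_sorted d₂ d₁ d₃ h2 a c (by linarith)
    nlinarith [this]
  · have := p_arith3_sorted d₂ d₃ d₁ h2 b c (by linarith)
    nlinarith [this]
  · have := p_arith3_sorted d₃ d₂ d₁ h3 b a (by linarith)
    nlinarith [this]
  · have := p_arith3_sorted d₃ d₂ d₁ h3 b a (by linarith)
    nlinarith [this]

end Pool.Agent.Lib.MP_0bc52e_nt.T
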