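import Pool.Agent.Lib.MP_0bc52e_nt.T.StmN

set_option autoImplicit false

namespace Pool.Agent.Lib.MP_0bc52e_nt.T

open Pool.Agent.Lib.MP_0bc52e_nt.LC

private theorem p_circ_ip0 : ip (0 : ℤ × ℤ × ℤ) = 0 := by
  simp [ip]

private theorem p_circ_ip_ne {v : ℤ × ℤ × ℤ} (h : v ≠ 0) : ip v ≠ 0 := by
  intro h0
  apply h
  have h1 : ((v.1 : ℤ) : ℝ) = 0 := congrArg (fun q : ℝ × ℝ × ℝ => q.1) h0
  have h2 : ((v.2.1 : ℤ) : ℝ) = 0 := congrArg (fun q : ℝ × ℝ × ℝ => q.2.1) h0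
  have h3 : ((v.2.2 : ℤ) : ℝ) = 0 := congrArg (fun q : ℝ × ℝ × ℝ => q.2.2) h0
  have e1 : v.1 = 0 := by exact_mod_cast h1
  have e2 : v.2.1 = 0 := by exact_mod_cast h2
  have e3 : v.2.2 = 0 := by exact_mod_cast h3
  exact Prod.ext e1 (Prod.ext e2 e3)

/-- the origin is in the hull of the nonzero points -/
private theorem p_circ_zero (V : Finset (ℤ × ℤ × ℤ)) (h : Inn (hull V) 0) :
    (0 : ℝ × ℝ × ℝ) ∈ convexHull ℝ (ip '' ((V.erase 0 : Finset (ℤ × ℤ × ℤ)) : Set (ℤ × ℤ × ℤ))) := by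
  have hsub : ip '' (V : Set (ℤ × ℤ × ℤ)) ⊆
      insert (0 : ℝ × ℝ × ℝ) (ip '' ((V.erase 0 : Finset (ℤ × ℤ × ℤ)) : Set (ℤ × ℤ × ℤ))) := by
    rintro _ ⟨v, hv, rfl⟩
    by_cases h0 : v = 0
    · left; rw [h0, p_circ_ip0]
    · right
      exact ⟨v, by simpa [h0] using hv, rfl⟩
  have hne : (ip '' ((V.erase 0 : Finset (ℤ × ℤ × ℤ)) : Set (ℤ × ℤ × ℤ))).Nonempty := by
    by_contra hemp
    rw [Set.not_nonempty_iff_eq_empty] at hemp
    rw [hemp] at hsub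
    obtain ⟨ε, hε, hm⟩ := h (1, 0, 0)
    have h1 := convexHull_mono (𝕜 := ℝ) hsub hm
    have h2 : insert (0 : ℝ × ℝ × ℝ) (∅ : Set (ℝ × ℝ × ℝ)) = {0} := by simp
    rw [h2, convexHull_singleton, Set.mem_singleton_iff] at h1
    have h3 := congrArg (fun q : ℝ × ℝ × ℝ => q.1) h1
    simp at h3
    exact hε.ne' h3
  obtain ⟨_, ⟨v, hv, rfl⟩⟩ := hne
  have hv0 : v ≠ 0 := by
    intro h0
    simp [h0] at hv
  obtain ⟨ε, hε, hm⟩ := h (-(ip v))
  have h1 := convexHull_mono (𝕜 := ℝ) hsub hm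
  have hne' : (ip '' ((V.erase 0 : Finset (ℤ × ℤ × ℤ)) : Set (ℤ × ℤ × ℤ))).Nonempty :=
    ⟨ip v, ⟨v, hv, rfl⟩⟩
  rw [convexHull_insert hne', mem_convexJoin] at h1
  obtain ⟨a, ha, y, hy, hseg⟩ := h1
  rw [Set.mem_singleton_iff] at ha
  rw [ha, segment_eq_image] at hseg
  obtain ⟨t, ⟨ht0, _⟩, ht⟩ := hseg
  have ht' : t • y = -(ε • ip v) := by
    have h2 : (1 - t) • (0 : ℝ × ℝ × ℝ) + t • y = 0 + ε • -(ip v) := ht
    rw [smul_zero, zero_add, zero_add, smul_neg] at h2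
    exact h2
  have hvV : ip v ∈ convexHull ℝ (ip '' ((V.erase 0 : Finset (ℤ × ℤ × ℤ)) : Set (ℤ × ℤ × ℤ))) :=
    subset_convexHull ℝ _ ⟨v, hv, rfl⟩
  have hs : 0 < ε + t := by linarith
  have hcx := (convex_convexHull ℝ (ip '' ((V.erase 0 : Finset (ℤ × ℤ × ℤ)) : Set (ℤ × ℤ × ℤ))))
    hvV hy (div_nonneg hε.le hs.le) (div_nonneg ht0 hs.le) (by rw [← add_div, div_self hs.ne'])
  have h3 : (ε / (ε + t)) • ip v + (t / (ε + t)) • y = 0 := by
    have e1 : (ε / (ε + t)) • ip v + (t / (ε + t)) • y = (ε + t)⁻¹ • (ε • ip v + t • y) := by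
      rw [smul_add, smul_smul, smul_smul, div_eq_inv_mul, div_eq_inv_mul]
    rw [e1, ht', add_neg_cancel, smul_zero]
  rw [h3] at hcx
  exact hcx

/-- all but one of the points are linearly independent -/
private theorem p_circ_lin {ι : Type} [Fintype ι] (z : ι → ℝ × ℝ × ℝ) (w : ι → ℝ)
    (hz : AffineIndependent ℝ z) (hw : ∀ i, 0 < w i) (h1 : ∑ i, w i = 1)
    (h0 : ∑ i, w i • z i = 0) (j : ι) (a : ι → ℝ) (hj : a j = 0) (ha : ∑ i, a i • z i = 0) :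
    ∀ i, a i = 0 := by
  have key := hz.eq_zero_of_sum_eq_zero (s := Finset.univ)
    (w := fun i => a i - (∑ l, a l) * w i) (by
      rw [Finset.sum_sub_distrib, ← Finset.mul_sum, h1, mul_one, sub_self]) (by
      have e : ∀ i ∈ Finset.univ, (a i - (∑ l, a l) * w i) • z i =
          a i • z i - (∑ l, a l) • (w i • z i) := by
        intro i _
        rw [sub_smul, mul_smul]
      rw [Finset.sum_congr rfl e, Finset.sum_sub_distrib, ← Finset.smul_sum, ha, h0, smul_zero,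
        sub_zero])
  have hA : ∑ l, a l = 0 := by
    have h2 := key j (Finset.mem_univ j)
    simp only [hj, zero_sub, neg_eq_zero] at h2
    exact (mul_eq_zero.mp h2).resolve_right (hw j).ne'
  intro i
  have h2 := key i (Finset.mem_univ i)
  simpa [hA] using h2

/-- dependence of parallel vectors -/
private theorem p_circ_cr {r s : ℤ × ℤ × ℤ} (h : cr r s = 0) :
    ((s.1 * s.1 + s.2.1 * s.2.1 + s.2.2 * s.2.2 : ℤ) : ℝ) • ip r +
      (-((r.1 * s.1 + r.2.1 * s.2.1 + r.2.2 * s.2.2 : ℤ) : ℝ)) • ip s = 0 := by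
  have h1 : r.2.1 * s.2.2 - r.2.2 * s.2.1 = 0 := congrArg (fun q : ℤ × ℤ × ℤ => q.1) h
  have h2 : r.2.2 * s.1 - r.1 * s.2.2 = 0 := congrArg (fun q : ℤ × ℤ × ℤ => q.2.1) h
  have h3 : r.1 * s.2.1 - r.2.1 * s.1 = 0 := congrArg (fun q : ℤ × ℤ × ℤ => q.2.2) h
  have e1 : (r.2.1 : ℝ) * s.2.2 - r.2.2 * s.2.1 = 0 := by exact_mod_cast h1
  have e2 : (r.2.2 : ℝ) * s.1 - r.1 * s.2.2 = 0 := by exact_mod_cast h2
  have e3 : (r.1 : ℝ) * s.2.1 - r.2.1 * s.1 = 0 := by exact_mod_cast h3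
  simp only [ip, Prod.smul_mk, Prod.mk_add_mk, smul_eq_mul, Int.cast_add, Int.cast_mul,
    Prod.mk_eq_zero]
  refine ⟨?_, ?_, ?_⟩
  · linear_combination (s.2.1 : ℝ) * e3 - (s.2.2 : ℝ) * e2
  · linear_combination (s.2.2 : ℝ) * e1 - (s.1 : ℝ) * e3
  · linear_combination (s.1 : ℝ) * e2 - (s.2.1 : ℝ) * e1

private theorem p_circ_sq {s : ℤ × ℤ × ℤ}
    (h : ((s.1 * s.1 + s.2.1 * s.2.1 + s.2.2 * s.2.2 : ℤ) : ℝ) = 0) : s = 0 := by
  have h1 : s.1 * s.1 + s.2.1 * s.2.1 + s.2.2 * s.2.2 = 0 := by exact_mod_cast h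
  have a1 := mul_self_nonneg s.1
  have a2 := mul_self_nonneg s.2.1
  have a3 := mul_self_nonneg s.2.2
  have e1 : s.1 * s.1 = 0 := by linarith
  have e2 : s.2.1 * s.2.1 = 0 := by linarith
  have e3 : s.2.2 * s.2.2 = 0 := by linarith
  exact Prod.ext (mul_self_eq_zero.mp e1) (Prod.ext (mul_self_eq_zero.mp e2)
    (mul_self_eq_zero.mp e3))

/-- Cramer -/
private theorem p_circ_cramer (a b c u : ℤ × ℤ × ℤ) (h : det3 a b c = 0) :
    ((det3 u b c : ℤ) : ℝ) • ip a + ((det3 a u c : ℤ) : ℝ) • ip b +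
      ((det3 a b u : ℤ) : ℝ) • ip c = 0 := by
  have h1 : ((det3 a b c : ℤ) : ℝ) = 0 := by exact_mod_cast h
  simp only [det3] at h1 ⊢
  push_cast at h1
  simp only [ip, Prod.smul_mk, Prod.mk_add_mk, smul_eq_mul, Prod.mk_eq_zero]
  push_cast
  refine ⟨?_, ?_, ?_⟩
  · linear_combination (u.1 : ℝ) * h1
  · linear_combination (u.2.1 : ℝ) * h1
  · linear_combination (u.2.2 : ℝ) * h1

/-- the determinant of the relation -/
private theorem p_circ_rel (v : Fin 4 → ℤ × ℤ × ℤ) (w : Fin 4 → ℝ)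
    (h : w 0 • ip (v 0) + w 1 • ip (v 1) + w 2 • ip (v 2) + w 3 • ip (v 3) = 0) (b c : ℤ × ℤ × ℤ) :
    w 0 * ((det3 (v 0) b c : ℤ) : ℝ) + w 1 * ((det3 (v 1) b c : ℤ) : ℝ) +
      w 2 * ((det3 (v 2) b c : ℤ) : ℝ) + w 3 * ((det3 (v 3) b c : ℤ) : ℝ) = 0 := by
  simp only [ip, Prod.smul_mk, Prod.mk_add_mk, smul_eq_mul, Prod.mk_eq_zero] at h
  obtain ⟨h1, h2, h3⟩ := h
  simp only [det3]
  push_cast
  linear_combination ((b.2.1 : ℝ) * c.2.2 - b.2.2 * c.2.1) * h1 -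
    ((b.1 : ℝ) * c.2.2 - b.2.2 * c.1) * h2 + ((b.1 : ℝ) * c.2.1 - b.2.1 * c.1) * h3

theorem p_circ (h_opp2 : S_opp2) : S_circ := by
  intro V hV
  have hP : Convex ℝ (hull V) := convex_convexHull ℝ _
  have hsubV : ∀ v ∈ V.erase 0, ip v ∈ hull V := fun v hv =>
    subset_convexHull ℝ _ ⟨v, Finset.mem_of_mem_erase hv, rfl⟩
  have h00 := p_circ_zero V hV
  have h0P : (0 : ℝ × ℝ × ℝ) ∈ hull V :=
    convexHull_mono (Set.image_mono (by
      intro v hv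
      exact Finset.mem_of_mem_erase hv)) h00
  obtain ⟨ι, _, z, w, hzV, hai, hw, hw1, hw0⟩ := eq_pos_convex_span_of_mem_convexHull h00
  have hcard : Fintype.card ι ≤ 4 := by
    have h1 := hai.card_le_finrank_succ
    have h2 : Module.finrank ℝ (vectorSpan ℝ (Set.range z)) ≤ Module.finrank ℝ (ℝ × ℝ × ℝ) :=
      Submodule.finrank_le _
    have h3 : Module.finrank ℝ (ℝ × ℝ × ℝ) = 3 := by simp
    omega
  have hpos : 0 < Fintype.card ι := by
    rw [Fintype.card_pos_iff]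
    by_contra hemp
    rw [not_nonempty_iff] at hemp
    rw [Finset.univ_eq_empty, Finset.sum_empty] at hw1
    exact zero_ne_one hw1
  -- integer points
  have hint : ∀ i, ∃ v : ℤ × ℤ × ℤ, v ∈ V.erase 0 ∧ ip v = z i := by
    intro i
    obtain ⟨v, hv, hvz⟩ := hzV ⟨i, rfl⟩
    exact ⟨v, hv, hvz⟩
  choose v hvV hvz using hint
  have hv0 : ∀ i, v i ≠ 0 := fun i => Finset.ne_of_mem_erase (hvV i)
  have gen : ∀ n : ℕ, Fintype.card ι = n → ∃ (v : Fin n → ℤ × ℤ × ℤ) (w : Fin n → ℝ),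
      (∀ i, v i ≠ 0) ∧ (∀ i, ip (v i) ∈ hull V) ∧ AffineIndependent ℝ (fun i => ip (v i)) ∧
      (∀ i, 0 < w i) ∧ ∑ i, w i = 1 ∧ ∑ i, w i • ip (v i) = 0 := by
    intro n hn
    let e : Fin n ≃ ι := (Fintype.equivFinOfCardEq hn).symm
    refine ⟨v ∘ e, w ∘ e, fun i => hv0 _, fun i => hsubV _ (hvV _), ?_, fun i => hw _, ?_, ?_⟩
    · have h1 := hai.comp_embedding e.toEmbedding
      have h2 : (fun i => ip ((v ∘ e) i)) = z ∘ e.toEmbedding := by
        funext i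
        exact hvz (e i)
      rw [h2]
      exact h1
    · rw [← hw1]
      exact Equiv.sum_comp e w
    · rw [← hw0, ← Equiv.sum_comp e]
      refine Finset.sum_congr rfl fun i _ => ?_
      rw [Function.comp_apply, Function.comp_apply, hvz]
  have hc : Fintype.card ι = 1 ∨ Fintype.card ι = 2 ∨ Fintype.card ι = 3 ∨ Fintype.card ι = 4 := by
    omega
  rcases hc with hc | hc | hc | hc
  · exfalso
    obtain ⟨v, w, hv0, _, _, hw, _, hw0⟩ := gen 1 hc
    rw [Fin.sum_univ_one] at hw0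
    rcases smul_eq_zero.mp hw0 with h1 | h1
    · exact (hw 0).ne' h1
    · exact p_circ_ip_ne (hv0 0) h1
  · left
    obtain ⟨v, w, hv0, hvP, _, hw, _, hw0⟩ := gen 2 hc
    rw [Fin.sum_univ_two] at hw0
    exact h_opp2 (hull V) (v 0) (v 1) (w 0) (w 1) hP h0P (hvP 0) (hvP 1) (hv0 0) (hw 0) (hw 1) hw0
  · right; left
    obtain ⟨v, w, hv0, hvP, hai, hw, hw1, hw0⟩ := gen 3 hc
    have hw0' := hw0
    rw [Fin.sum_univ_three] at hw0'
    refine ⟨v 0, v 1, v 2, w 0, w 1, w 2, hw 0, hw 1, hw 2, hvP 0, hvP 1, hvP 2, ?_, hw0'⟩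
    intro hcr
    have h1 := p_circ_cr hcr
    have h2 := p_circ_lin _ w hai hw hw1 hw0 2
      ![(((v 1).1 * (v 1).1 + (v 1).2.1 * (v 1).2.1 + (v 1).2.2 * (v 1).2.2 : ℤ) : ℝ),
        -(((v 0).1 * (v 1).1 + (v 0).2.1 * (v 1).2.1 + (v 0).2.2 * (v 1).2.2 : ℤ) : ℝ), 0] rfl (by
        rw [Fin.sum_univ_three]
        change _ • ip (v 0) + _ • ip (v 1) + (0 : ℝ) • ip (v 2) = 0
        rw [zero_smul, add_zero]
        exact h1) 0
    exact hv0 1 (p_circ_sq h2)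
  · right; right
    obtain ⟨v, w, hv0, hvP, hai, hw, hw1, hw0⟩ := gen 4 hc
    have hw0' := hw0
    rw [Fin.sum_univ_four] at hw0'
    have hd0 : det3 (v 1) (v 2) (v 3) ≠ 0 := by
      intro hd
      have hu : ∀ u : ℤ × ℤ × ℤ, det3 u (v 2) (v 3) = 0 := by
        intro u
        have h1 := p_circ_cramer (v 1) (v 2) (v 3) u hd
        have h2 := p_circ_lin _ w hai hw hw1 hw0 0
          ![0, ((det3 u (v 2) (v 3) : ℤ) : ℝ), ((det3 (v 1) u (v 3) : ℤ) : ℝ),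
            ((det3 (v 1) (v 2) u : ℤ) : ℝ)] rfl (by
            rw [Fin.sum_univ_four]
            change (0 : ℝ) • ip (v 0) + _ • ip (v 1) + _ • ip (v 2) + _ • ip (v 3) = 0
            rw [zero_smul, zero_add]
            exact h1) 1
        have h3 : ((det3 u (v 2) (v 3) : ℤ) : ℝ) = 0 := h2
        exact_mod_cast h3
      have hcr : cr (v 2) (v 3) = 0 := by
        have u1 := hu (1, 0, 0)
        have u2 := hu (0, 1, 0)
        have u3 := hu (0, 0, 1)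
        simp only [det3] at u1 u2 u3
        refine Prod.ext ?_ (Prod.ext ?_ ?_)
        · change (v 2).2.1 * (v 3).2.2 - (v 2).2.2 * (v 3).2.1 = 0
          linarith
        · change (v 2).2.2 * (v 3).1 - (v 2).1 * (v 3).2.2 = 0
          linarith
        · change (v 2).1 * (v 3).2.1 - (v 2).2.1 * (v 3).1 = 0
          linarith
      have h1 := p_circ_cr hcr
      have h2 := p_circ_lin _ w hai hw hw1 hw0 0
        ![0, 0, (((v 3).1 * (v 3).1 + (v 3).2.1 * (v 3).2.1 + (v 3).2.2 * (v 3).2.2 : ℤ) : ℝ),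
          -(((v 2).1 * (v 3).1 + (v 2).2.1 * (v 3).2.1 + (v 2).2.2 * (v 3).2.2 : ℤ) : ℝ)] rfl (by
          rw [Fin.sum_univ_four]
          change (0 : ℝ) • ip (v 0) + (0 : ℝ) • ip (v 1) + _ • ip (v 2) + _ • ip (v 3) = 0
          rw [zero_smul, zero_smul, zero_add, zero_add]
          exact h1) 2
      exact hv0 3 (p_circ_sq h2)
    -- Cramer
    have r1 : w 0 * ((det3 (v 0) (v 2) (v 3) : ℤ) : ℝ) + w 1 * ((det3 (v 1) (v 2) (v 3) : ℤ) : ℝ)
        = 0 := by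
      have h1 := p_circ_rel v w hw0' (v 2) (v 3)
      have e2 : det3 (v 2) (v 2) (v 3) = 0 := by simp only [det3]; ring
      have e3 : det3 (v 3) (v 2) (v 3) = 0 := by simp only [det3]; ring
      rw [e2, e3] at h1
      simpa using h1
    have r2 : w 0 * ((det3 (v 0) (v 1) (v 3) : ℤ) : ℝ) - w 2 * ((det3 (v 1) (v 2) (v 3) : ℤ) : ℝ)
        = 0 := by
      have h1 := p_circ_rel v w hw0' (v 1) (v 3)
      have e2 : det3 (v 1) (v 1) (v 3) = 0 := by simp only [det3]; ring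
      have e3 : det3 (v 3) (v 1) (v 3) = 0 := by simp only [det3]; ring
      have e4 : det3 (v 2) (v 1) (v 3) = -det3 (v 1) (v 2) (v 3) := by simp only [det3]; ring
      rw [e2, e3, e4] at h1
      push_cast at h1
      linarith
    have r3 : w 0 * ((det3 (v 0) (v 1) (v 2) : ℤ) : ℝ) + w 3 * ((det3 (v 1) (v 2) (v 3) : ℤ) : ℝ)
        = 0 := by
      have h1 := p_circ_rel v w hw0' (v 1) (v 2)
      have e2 : det3 (v 1) (v 1) (v 2) = 0 := by simp only [det3]; ring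
      have e3 : det3 (v 2) (v 1) (v 2) = 0 := by simp only [det3]; ring
      have e4 : det3 (v 3) (v 1) (v 2) = det3 (v 1) (v 2) (v 3) := by simp only [det3]; ring
      rw [e2, e3, e4] at h1
      push_cast at h1
      linarith
    rcases lt_or_gt_of_ne hd0 with hneg | hpos'
    · have hn : ((det3 (v 1) (v 2) (v 3) : ℤ) : ℝ) < 0 := by exact_mod_cast hneg
      have a1 : (0 : ℝ) < ((det3 (v 0) (v 2) (v 3) : ℤ) : ℝ) := by
        by_contra hle
        rw [not_lt] at hle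
        nlinarith [hw 0, hw 1, mul_nonneg (hw 0).le (neg_nonneg.mpr hle),
          mul_pos (hw 1) (neg_pos.mpr hn)]
      have a2 : ((det3 (v 0) (v 1) (v 3) : ℤ) : ℝ) < 0 := by
        by_contra hle
        rw [not_lt] at hle
        nlinarith [mul_nonneg (hw 0).le hle, mul_pos (hw 2) (neg_pos.mpr hn)]
      have a3 : (0 : ℝ) < ((det3 (v 0) (v 1) (v 2) : ℤ) : ℝ) := by
        by_contra hle
        rw [not_lt] at hle
        nlinarith [mul_nonneg (hw 0).le (neg_nonneg.mpr hle), mul_pos (hw 3) (neg_pos.mpr hn)]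
      have b1 : 0 < det3 (v 0) (v 2) (v 3) := by exact_mod_cast a1
      have b2 : det3 (v 0) (v 1) (v 3) < 0 := by exact_mod_cast a2
      have b3 : 0 < det3 (v 0) (v 1) (v 2) := by exact_mod_cast a3
      have c2 : det3 (v 1) (v 0) (v 3) = -det3 (v 0) (v 1) (v 3) := by simp only [det3]; ring
      have c3 : det3 (v 1) (v 0) (v 2) = -det3 (v 0) (v 1) (v 2) := by simp only [det3]; ring
      refine ⟨v 1, v 0, v 2, v 3, _, _, _, _, ⟨rfl, rfl, rfl, rfl, b1, ?_, ?_, ?_⟩,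
        hvP 1, hvP 0, hvP 2, hvP 3⟩
      · linarith
      · rw [c2]; linarith
      · rw [c3]; linarith
    · have hp : (0 : ℝ) < ((det3 (v 1) (v 2) (v 3) : ℤ) : ℝ) := by exact_mod_cast hpos'
      have a1 : ((det3 (v 0) (v 2) (v 3) : ℤ) : ℝ) < 0 := by
        by_contra hle
        rw [not_lt] at hle
        nlinarith [mul_nonneg (hw 0).le hle, mul_pos (hw 1) hp]
      have a2 : (0 : ℝ) < ((det3 (v 0) (v 1) (v 3) : ℤ) : ℝ) := by
        by_contra hle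
        rw [not_lt] at hle
        nlinarith [mul_nonneg (hw 0).le (neg_nonneg.mpr hle), mul_pos (hw 2) hp]
      have a3 : ((det3 (v 0) (v 1) (v 2) : ℤ) : ℝ) < 0 := by
        by_contra hle
        rw [not_lt] at hle
        nlinarith [mul_nonneg (hw 0).le hle, mul_pos (hw 3) hp]
      have b1 : det3 (v 0) (v 2) (v 3) < 0 := by exact_mod_cast a1
      have b2 : 0 < det3 (v 0) (v 1) (v 3) := by exact_mod_cast a2
      have b3 : det3 (v 0) (v 1) (v 2) < 0 := by exact_mod_cast a3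
      refine ⟨v 0, v 1, v 2, v 3, _, _, _, _, ⟨rfl, rfl, rfl, rfl, hpos', ?_, b2, ?_⟩,
        hvP 0, hvP 1, hvP 2, hvP 3⟩
      · linarith
      · linarith

end Pool.Agent.Lib.MP_0bc52e_nt.T
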