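import Pool.Agent.Lib.MP_0bc52e_nt.T.StmN

/-!
# MP_0bc52e_nt, Theorem (T163): piece [circ2]
-/

namespace Pool.Agent.Lib.MP_0bc52e_nt.T

open Pool.Agent.Lib.MP_0bc52e_nt.LC

/-- In every direction there is a point of `U`. -/
theorem p_circ2_pos (U : Finset (ℤ × ℤ))
    (hU : ∀ d : ℝ × ℝ, ∃ ε : ℝ, 0 < ε ∧ ε • d ∈ convexHull ℝ (ip2 '' (U : Set (ℤ × ℤ))))
    (a b : ℤ) (hab : 0 < a * a + b * b) : ∃ u ∈ U, 0 < a * u.1 + b * u.2 := by
  by_contra hcon
  push Not at hcon
  obtain ⟨ε, hε, hm⟩ := hU ((a : ℝ), (b : ℝ))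
  have hsub : convexHull ℝ (ip2 '' (U : Set (ℤ × ℤ))) ⊆
      {x : ℝ × ℝ | (a : ℝ) * x.1 + (b : ℝ) * x.2 ≤ 0} := by
    refine convexHull_min ?_ ?_
    · rintro _ ⟨u, hu, rfl⟩
      have := hcon u hu
      simp only [ip2, Set.mem_ofPred_eq]
      exact_mod_cast this
    · intro x hx y hy s t hs ht hst
      simp only [Set.mem_ofPred_eq, Prod.fst_add, Prod.snd_add, Prod.smul_fst, Prod.smul_snd,
        smul_eq_mul] at hx hy ⊢
      have h1 := mul_le_mul_of_nonneg_left hx hs
      have h2 := mul_le_mul_of_nonneg_left hy ht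
      nlinarith
  have h := hsub hm
  simp only [Set.mem_ofPred_eq, smul_eq_mul, Prod.smul_mk] at h
  have hab' : (0 : ℝ) < (a : ℝ) * a + (b : ℝ) * b := by exact_mod_cast hab
  nlinarith [mul_pos hε hab']

theorem p_circ2 : S_circ2 := by
  intro U hU
  by_cases hopp : ∃ u ∈ U, ∃ u' ∈ U, u ≠ 0 ∧ det2 u u' = 0 ∧ u.1 * u'.1 + u.2 * u'.2 < 0
  · exact Or.inl hopp
  refine Or.inr ?_
  push Not at hopp
  obtain ⟨⟨p, q⟩, hu₁, hp⟩ := p_circ2_pos U hU 1 0 (by norm_num)
  simp only [one_mul, zero_mul, add_zero] at hp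
  have hn : 0 < p * p + q * q := by nlinarith [mul_pos hp hp, mul_self_nonneg q]
  have hu₁0 : ((p, q) : ℤ × ℤ) ≠ 0 := by
    intro h
    have := congrArg Prod.fst h
    simp only [Prod.fst_zero] at this
    omega
  -- the extreme element of the left half plane
  obtain ⟨a, ha, ha'⟩ := p_circ2_pos U hU (-q) p (by nlinarith)
  obtain ⟨b, hb, hb'⟩ := p_circ2_pos U hU q (-p) (by nlinarith)
  obtain ⟨u₂, hu₂, hu₂m⟩ := Finset.exists_min_image
    (U.filter (fun u => 0 < p * u.2 - q * u.1))
    (fun u => ((p * u.1 + q * u.2 : ℤ) : ℚ) / ((p * u.2 - q * u.1 : ℤ) : ℚ))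
    ⟨a, Finset.mem_filter.mpr ⟨ha, by linarith⟩⟩
  obtain ⟨u₃, hu₃, hu₃m⟩ := Finset.exists_min_image
    (U.filter (fun u => 0 < q * u.1 - p * u.2))
    (fun u => ((p * u.1 + q * u.2 : ℤ) : ℚ) / ((q * u.1 - p * u.2 : ℤ) : ℚ))
    ⟨b, Finset.mem_filter.mpr ⟨hb, by linarith⟩⟩
  obtain ⟨hu₂U, hu₂p⟩ := Finset.mem_filter.mp hu₂
  obtain ⟨hu₃U, hu₃p⟩ := Finset.mem_filter.mp hu₃
  obtain ⟨c, d⟩ := u₂
  obtain ⟨e, f⟩ := u₃
  simp only at hu₂p hu₃p
  have ext2 : ∀ x y : ℤ, (x, y) ∈ U → 0 < p * y - q * x → 0 ≤ x * d - y * c := by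
    intro x y hx hxy
    have h := hu₂m (x, y) (Finset.mem_filter.mpr ⟨hx, hxy⟩)
    simp only at h
    rw [div_le_div_iff₀ (by exact_mod_cast hu₂p) (by exact_mod_cast hxy)] at h
    have h' : (p * c + q * d) * (p * y - q * x) ≤ (p * x + q * y) * (p * d - q * c) := by
      exact_mod_cast h
    have h2 : 0 ≤ (p * p + q * q) * (x * d - y * c) := by nlinarith
    exact nonneg_of_mul_nonneg_right h2 hn
  have ext3 : ∀ x y : ℤ, (x, y) ∈ U → 0 < q * x - p * y → x * f - y * e ≤ 0 := by
    intro x y hx hxy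
    have h := hu₃m (x, y) (Finset.mem_filter.mpr ⟨hx, hxy⟩)
    simp only at h
    rw [div_le_div_iff₀ (by exact_mod_cast hu₃p) (by exact_mod_cast hxy)] at h
    have h' : (p * e + q * f) * (q * x - p * y) ≤ (p * x + q * y) * (q * e - p * f) := by
      exact_mod_cast h
    have h2 : 0 ≤ (p * p + q * q) * (y * e - x * f) := by nlinarith
    have h3 := nonneg_of_mul_nonneg_right h2 hn
    linarith
  refine ⟨(p, q), hu₁, (c, d), hu₂U, (e, f), hu₃U, ?_, ?_, ?_⟩
  · exact hu₂p
  · simp only [det2]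
    by_contra hneg
    push Not at hneg
    rcases hneg.lt_or_eq with hlt | heq
    · -- all of `U` is in a half plane
      obtain ⟨⟨x, y⟩, hx, hxy⟩ := p_circ2_pos U hU (-d) c (by
        rcases eq_or_ne c 0 with h | h
        · rcases eq_or_ne d 0 with h' | h'
          · rw [h, h'] at hu₂p
            simp at hu₂p
          · have := mul_self_pos.mpr h'
            nlinarith [mul_self_nonneg c]
        · have := mul_self_pos.mpr h
          nlinarith [mul_self_nonneg d])
      simp only at hxy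
      rcases lt_trichotomy 0 (p * y - q * x) with h1 | h1 | h1
      · have := ext2 x y hx h1
        linarith
      · -- on the line through `u₁`
        have h2 := hopp (p, q) hu₁ (x, y) hx hu₁0 (by simp only [det2]; linarith)
        simp only at h2
        -- (p² + q²) (x d - y c) = (p x + q y)(p d - q c) + ...
        have h3 : (p * p + q * q) * (x * d - y * c) =
            (p * x + q * y) * (p * d - q * c) - (p * y - q * x) * (p * c + q * d) := by ring
        rw [← h1] at h3
        have h4 : 0 ≤ (p * p + q * q) * (x * d - y * c) := by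
          rw [h3]
          nlinarith [mul_nonneg h2 hu₂p.le]
        have h5 := nonneg_of_mul_nonneg_right h4 hn
        linarith
      · have h2 := ext3 x y hx (by linarith)
        -- u = a u₁ + b u₃
        have h3 : (q * e - p * f) * (x * d - y * c) =
            (y * e - x * f) * (p * d - q * c) + (q * x - p * y) * (e * d - f * c) := by ring
        have h4 : 0 ≤ (q * e - p * f) * (x * d - y * c) := by
          rw [h3]
          exact add_nonneg (mul_nonneg (by linarith) hu₂p.le)
            (mul_nonneg (by linarith) (by linarith))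
        have h5 := nonneg_of_mul_nonneg_right h4 hu₃p
        linarith
    · -- opposite
      have hc0 : ((c, d) : ℤ × ℤ) ≠ 0 := by
        intro h
        have h1 := congrArg Prod.fst h
        have h2 := congrArg Prod.snd h
        simp only [Prod.fst_zero, Prod.snd_zero] at h1 h2
        rw [h1, h2] at hu₂p
        simp at hu₂p
      have h2 := hopp (c, d) hu₂U (e, f) hu₃U hc0 heq
      simp only at h2
      have hcd : 0 < c * c + d * d := by
        rcases eq_or_ne c 0 with h | h
        · rcases eq_or_ne d 0 with h' | h'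
          · exact absurd (by rw [h, h']; rfl) hc0
          · have := mul_self_pos.mpr h'
            nlinarith [mul_self_nonneg c]
        · have := mul_self_pos.mpr h
          nlinarith [mul_self_nonneg d]
      have h3 : (c * c + d * d) * (q * e - p * f) =
          - (c * e + d * f) * (p * d - q * c) + (c * f - d * e) * (- (p * c + q * d)) := by ring
      rw [heq] at h3
      have h4 : 0 < (c * c + d * d) * (q * e - p * f) := mul_pos hcd hu₃p
      rw [h3] at h4
      nlinarith [mul_nonneg h2 hu₂p.le]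
  · simp only [det2]
    linarith

end Pool.Agent.Lib.MP_0bc52e_nt.T
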