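import Pool.Agent.Lib.MP_0bc52e_nt.T.StmH

/-!
# MP_0bc52e_nt: piece cov1 (generated decision tree)
-/

namespace Pool.Agent.Lib.MP_0bc52e_nt.T

private theorem p_cov1_aux (p X Y Z : ℤ) (hp : 7 ≤ p) (hX : 0 ≤ X) (hX' : X < p) (hY : 0 ≤ Y) (hY' : Y < p) (hZ : 0 ≤ Z) (hZ' : Z ≤ p - 2) :
    inMH (p - 1) (X + 0 * p) (Y + 0 * p) (Z + 0 * p) ∨
    inMH (p - 1) (X + 0 * p) (Y - 1 * p) (Z + 0 * p) ∨
    inMH (p - 1) (X - 1 * p) (Y + 0 * p) (Z + 0 * p) ∨
    inMH (p - 1) (X - 1 * p) (Y - 1 * p) (Z + 0 * p) ∨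
    inMH (p - 1) (X + 0 * p) (Y - 1 * p) (Z + 1 * p) ∨
    inMH (p - 1) (X + 0 * p) (Y - 1 * p) (Z + 2 * p) := by
  by_contra hcon
  have hc0 : ¬ inMH (p - 1) (X + 0 * p) (Y + 0 * p) (Z + 0 * p) := fun hh => hcon (Or.inl hh)
  have hc1 : ¬ inMH (p - 1) (X + 0 * p) (Y - 1 * p) (Z + 0 * p) := fun hh => hcon (Or.inr (Or.inl hh))
  have hc2 : ¬ inMH (p - 1) (X - 1 * p) (Y + 0 * p) (Z + 0 * p) := fun hh => hcon (Or.inr (Or.inr (Or.inl hh)))
  have hc3 : ¬ inMH (p - 1) (X - 1 * p) (Y - 1 * p) (Z + 0 * p) := fun hh => hcon (Or.inr (Or.inr (Or.inr (Or.inl hh))))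
  have hc4 : ¬ inMH (p - 1) (X + 0 * p) (Y - 1 * p) (Z + 1 * p) := fun hh => hcon (Or.inr (Or.inr (Or.inr (Or.inr (Or.inl hh)))))
  have hc5 : ¬ inMH (p - 1) (X + 0 * p) (Y - 1 * p) (Z + 2 * p) := fun hh => hcon (Or.inr (Or.inr (Or.inr (Or.inr (Or.inr (hh))))))
  unfold inMH at *
  by_cases h1_2 : -1 * (p - 1) ≤ -1 * (X + 0 * p) + 2 * (Y - 1 * p) + 1 * (Z + 0 * p)
  swap
  ·
    by_cases h0_1 : -1 * (p - 1) ≤ -1 * (X + 0 * p) + -1 * (Y + 0 * p) + 0 * (Z + 0 * p)
    swap
    ·
      by_cases h4_2 : -1 * (p - 1) ≤ -1 * (X + 0 * p) + 2 * (Y - 1 * p) + 1 * (Z + 1 * p)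
      swap
      ·
        by_cases h2_5 : -1 * (p - 1) ≤ 2 * (X - 1 * p) + -1 * (Y + 0 * p) + -1 * (Z + 0 * p)
        swap
        ·
          exact hc5 ⟨by omega, by omega, by omega, by omega, by omega, by omega, by omega, by omega, by omega, by omega⟩
        exact hc2 ⟨by omega, by omega, by omega, by omega, by omega, by omega, by omega, by omega, by omega, by omega⟩
      by_cases h4_3 : -2 * (p - 1) ≤ -2 * (X + 0 * p) + 3 * (Y - 1 * p) + 1 * (Z + 1 * p)
      swap
      ·
        by_cases h3_2 : -1 * (p - 1) ≤ -1 * (X - 1 * p) + 2 * (Y - 1 * p) + 1 * (Z + 0 * p)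
        swap
        ·
          by_cases h2_5 : -1 * (p - 1) ≤ 2 * (X - 1 * p) + -1 * (Y + 0 * p) + -1 * (Z + 0 * p)
          swap
          ·
            exact hc5 ⟨by omega, by omega, by omega, by omega, by omega, by omega, by omega, by omega, by omega, by omega⟩
          exact hc2 ⟨by omega, by omega, by omega, by omega, by omega, by omega, by omega, by omega, by omega, by omega⟩
        by_cases h3_3 : -2 * (p - 1) ≤ -2 * (X - 1 * p) + 3 * (Y - 1 * p) + 1 * (Z + 0 * p)
        swap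
        ·
          exact hc2 ⟨by omega, by omega, by omega, by omega, by omega, by omega, by omega, by omega, by omega, by omega⟩
        exact hc3 ⟨by omega, by omega, by omega, by omega, by omega, by omega, by omega, by omega, by omega, by omega⟩
      exact hc4 ⟨by omega, by omega, by omega, by omega, by omega, by omega, by omega, by omega, by omega, by omega⟩
    by_cases h0_7 : -2 * (p - 1) ≤ -1 * (X + 0 * p) + -2 * (Y + 0 * p) + -1 * (Z + 0 * p)
    swap
    ·
      by_cases h4_3 : -2 * (p - 1) ≤ -2 * (X + 0 * p) + 3 * (Y - 1 * p) + 1 * (Z + 1 * p)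
      swap
      ·
        exact hc3 ⟨by omega, by omega, by omega, by omega, by omega, by omega, by omega, by omega, by omega, by omega⟩
      exact hc4 ⟨by omega, by omega, by omega, by omega, by omega, by omega, by omega, by omega, by omega, by omega⟩
    exact hc0 ⟨by omega, by omega, by omega, by omega, by omega, by omega, by omega, by omega, by omega, by omega⟩
  by_cases h1_3 : -2 * (p - 1) ≤ -2 * (X + 0 * p) + 3 * (Y - 1 * p) + 1 * (Z + 0 * p)
  swap
  ·
    by_cases h0_1 : -1 * (p - 1) ≤ -1 * (X + 0 * p) + -1 * (Y + 0 * p) + 0 * (Z + 0 * p)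
    swap
    ·
      by_cases h4_2 : -1 * (p - 1) ≤ -1 * (X + 0 * p) + 2 * (Y - 1 * p) + 1 * (Z + 1 * p)
      swap
      ·
        by_cases h2_5 : -1 * (p - 1) ≤ 2 * (X - 1 * p) + -1 * (Y + 0 * p) + -1 * (Z + 0 * p)
        swap
        ·
          exact hc5 ⟨by omega, by omega, by omega, by omega, by omega, by omega, by omega, by omega, by omega, by omega⟩
        exact hc2 ⟨by omega, by omega, by omega, by omega, by omega, by omega, by omega, by omega, by omega, by omega⟩
      by_cases h4_3 : -2 * (p - 1) ≤ -2 * (X + 0 * p) + 3 * (Y - 1 * p) + 1 * (Z + 1 * p)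
      swap
      ·
        by_cases h3_2 : -1 * (p - 1) ≤ -1 * (X - 1 * p) + 2 * (Y - 1 * p) + 1 * (Z + 0 * p)
        swap
        ·
          by_cases h2_5 : -1 * (p - 1) ≤ 2 * (X - 1 * p) + -1 * (Y + 0 * p) + -1 * (Z + 0 * p)
          swap
          ·
            exact hc5 ⟨by omega, by omega, by omega, by omega, by omega, by omega, by omega, by omega, by omega, by omega⟩
          exact hc2 ⟨by omega, by omega, by omega, by omega, by omega, by omega, by omega, by omega, by omega, by omega⟩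
        by_cases h3_3 : -2 * (p - 1) ≤ -2 * (X - 1 * p) + 3 * (Y - 1 * p) + 1 * (Z + 0 * p)
        swap
        ·
          exact hc2 ⟨by omega, by omega, by omega, by omega, by omega, by omega, by omega, by omega, by omega, by omega⟩
        exact hc3 ⟨by omega, by omega, by omega, by omega, by omega, by omega, by omega, by omega, by omega, by omega⟩
      by_cases h4_7 : -2 * (p - 1) ≤ -1 * (X + 0 * p) + -2 * (Y - 1 * p) + -1 * (Z + 1 * p)
      swap
      ·
        exact hc3 ⟨by omega, by omega, by omega, by omega, by omega, by omega, by omega, by omega, by omega, by omega⟩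
      exact hc4 ⟨by omega, by omega, by omega, by omega, by omega, by omega, by omega, by omega, by omega, by omega⟩
    by_cases h0_7 : -2 * (p - 1) ≤ -1 * (X + 0 * p) + -2 * (Y + 0 * p) + -1 * (Z + 0 * p)
    swap
    ·
      by_cases h3_5 : -1 * (p - 1) ≤ 2 * (X - 1 * p) + -1 * (Y - 1 * p) + -1 * (Z + 0 * p)
      swap
      ·
        exact hc4 ⟨by omega, by omega, by omega, by omega, by omega, by omega, by omega, by omega, by omega, by omega⟩
      by_cases h3_9 : -2 * (p - 1) ≤ 3 * (X - 1 * p) + -1 * (Y - 1 * p) + -2 * (Z + 0 * p)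
      swap
      ·
        exact hc4 ⟨by omega, by omega, by omega, by omega, by omega, by omega, by omega, by omega, by omega, by omega⟩
      exact hc3 ⟨by omega, by omega, by omega, by omega, by omega, by omega, by omega, by omega, by omega, by omega⟩
    exact hc0 ⟨by omega, by omega, by omega, by omega, by omega, by omega, by omega, by omega, by omega, by omega⟩
  by_cases h1_8 : -1 * (p - 1) ≤ 0 * (X + 0 * p) + 1 * (Y - 1 * p) + 0 * (Z + 0 * p)
  swap
  ·
    exact hc0 ⟨by omega, by omega, by omega, by omega, by omega, by omega, by omega, by omega, by omega, by omega⟩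
  exact hc1 ⟨by omega, by omega, by omega, by omega, by omega, by omega, by omega, by omega, by omega, by omega⟩

theorem p_cov1 : S_cov1 := by
  intro p X Y Z hp hX hX' hY hY' hZ hZ'
  rcases p_cov1_aux p X Y Z hp hX hX' hY hY' hZ hZ' with h | h | h | h | h | h
  · exact ⟨0, 0, 0, by simpa [sub_eq_add_neg] using h⟩
  · exact ⟨0, -1, 0, by simpa [sub_eq_add_neg] using h⟩
  · exact ⟨-1, 0, 0, by simpa [sub_eq_add_neg] using h⟩
  · exact ⟨-1, -1, 0, by simpa [sub_eq_add_neg] using h⟩
  · exact ⟨0, -1, 1, by simpa [sub_eq_add_neg] using h⟩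
  · exact ⟨0, -1, 2, by simpa [sub_eq_add_neg] using h⟩

end Pool.Agent.Lib.MP_0bc52e_nt.T
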