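import Pool.Agent.Lib.MP_0bc52e_nt.T.StmH

/-!
# MP_0bc52e_nt: piece cov2 (generated decision tree)
-/

namespace Pool.Agent.Lib.MP_0bc52e_nt.T

private theorem p_cov2_aux (p X Y Z : ℤ) (hp : 7 ≤ p) (hX : 0 ≤ X) (hX' : X < p) (hY : 0 ≤ Y) (hY' : Y < p) (hZ : Z = p - 1) :
    inMH (p - 1) (X - 1 * p) (Y - 1 * p) (Z + 0 * p) ∨
    inMH (p - 1) (X + 0 * p) (Y - 1 * p) (Z + 0 * p) ∨
    inMH (p - 1) (X + 0 * p) (Y - 1 * p) (Z + 1 * p) ∨
    inMH (p - 1) (X + 0 * p) (Y + 0 * p) (Z + 0 * p) ∨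
    inMH (p - 3) (3 * X - 2 * p) (3 * Y - 2 * p) (3 * Z - 2 * p) ∨
    inMH (p - 3) (3 * X - 2 * p) (3 * Y - 1 * p) (3 * Z - 2 * p) ∨
    inMH (p - 3) (3 * X - 1 * p) (3 * Y - 1 * p) (3 * Z - 2 * p) := by
  by_contra hcon
  have hc0 : ¬ inMH (p - 1) (X - 1 * p) (Y - 1 * p) (Z + 0 * p) := fun hh => hcon (Or.inl hh)
  have hc1 : ¬ inMH (p - 1) (X + 0 * p) (Y - 1 * p) (Z + 0 * p) := fun hh => hcon (Or.inr (Or.inl hh))
  have hc2 : ¬ inMH (p - 1) (X + 0 * p) (Y - 1 * p) (Z + 1 * p) := fun hh => hcon (Or.inr (Or.inr (Or.inl hh)))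
  have hc3 : ¬ inMH (p - 1) (X + 0 * p) (Y + 0 * p) (Z + 0 * p) := fun hh => hcon (Or.inr (Or.inr (Or.inr (Or.inl hh))))
  have hc4 : ¬ inMH (p - 3) (3 * X - 2 * p) (3 * Y - 2 * p) (3 * Z - 2 * p) := fun hh => hcon (Or.inr (Or.inr (Or.inr (Or.inr (Or.inl hh)))))
  have hc5 : ¬ inMH (p - 3) (3 * X - 2 * p) (3 * Y - 1 * p) (3 * Z - 2 * p) := fun hh => hcon (Or.inr (Or.inr (Or.inr (Or.inr (Or.inr (Or.inl hh))))))
  have hc6 : ¬ inMH (p - 3) (3 * X - 1 * p) (3 * Y - 1 * p) (3 * Z - 2 * p) := fun hh => hcon (Or.inr (Or.inr (Or.inr (Or.inr (Or.inr (Or.inr (hh)))))))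
  unfold inMH at *
  by_cases h1_2 : -1 * (p - 1) ≤ -1 * (X + 0 * p) + 2 * (Y - 1 * p) + 1 * (Z + 0 * p)
  swap
  ·
    by_cases h3_1 : -1 * (p - 1) ≤ -1 * (X + 0 * p) + -1 * (Y + 0 * p) + 0 * (Z + 0 * p)
    swap
    ·
      by_cases h2_3 : -2 * (p - 1) ≤ -2 * (X + 0 * p) + 3 * (Y - 1 * p) + 1 * (Z + 1 * p)
      swap
      ·
        exact hc0 ⟨by omega, by omega, by omega, by omega, by omega, by omega, by omega, by omega, by omega, by omega⟩
      exact hc2 ⟨by omega, by omega, by omega, by omega, by omega, by omega, by omega, by omega, by omega, by omega⟩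
    by_cases h3_7 : -2 * (p - 1) ≤ -1 * (X + 0 * p) + -2 * (Y + 0 * p) + -1 * (Z + 0 * p)
    swap
    ·
      by_cases h2_3 : -2 * (p - 1) ≤ -2 * (X + 0 * p) + 3 * (Y - 1 * p) + 1 * (Z + 1 * p)
      swap
      ·
        by_cases h0_9 : -2 * (p - 1) ≤ 3 * (X - 1 * p) + -1 * (Y - 1 * p) + -2 * (Z + 0 * p)
        swap
        ·
          exact hc5 ⟨by omega, by omega, by omega, by omega, by omega, by omega, by omega, by omega, by omega, by omega⟩
        exact hc0 ⟨by omega, by omega, by omega, by omega, by omega, by omega, by omega, by omega, by omega, by omega⟩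
      exact hc2 ⟨by omega, by omega, by omega, by omega, by omega, by omega, by omega, by omega, by omega, by omega⟩
    exact hc3 ⟨by omega, by omega, by omega, by omega, by omega, by omega, by omega, by omega, by omega, by omega⟩
  by_cases h1_3 : -2 * (p - 1) ≤ -2 * (X + 0 * p) + 3 * (Y - 1 * p) + 1 * (Z + 0 * p)
  swap
  ·
    by_cases h3_1 : -1 * (p - 1) ≤ -1 * (X + 0 * p) + -1 * (Y + 0 * p) + 0 * (Z + 0 * p)
    swap
    ·
      by_cases h0_5 : -1 * (p - 1) ≤ 2 * (X - 1 * p) + -1 * (Y - 1 * p) + -1 * (Z + 0 * p)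
      swap
      ·
        exact hc2 ⟨by omega, by omega, by omega, by omega, by omega, by omega, by omega, by omega, by omega, by omega⟩
      by_cases h0_9 : -2 * (p - 1) ≤ 3 * (X - 1 * p) + -1 * (Y - 1 * p) + -2 * (Z + 0 * p)
      swap
      ·
        by_cases h2_7 : -2 * (p - 1) ≤ -1 * (X + 0 * p) + -2 * (Y - 1 * p) + -1 * (Z + 1 * p)
        swap
        ·
          exact hc4 ⟨by omega, by omega, by omega, by omega, by omega, by omega, by omega, by omega, by omega, by omega⟩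
        exact hc2 ⟨by omega, by omega, by omega, by omega, by omega, by omega, by omega, by omega, by omega, by omega⟩
      exact hc0 ⟨by omega, by omega, by omega, by omega, by omega, by omega, by omega, by omega, by omega, by omega⟩
    by_cases h3_7 : -2 * (p - 1) ≤ -1 * (X + 0 * p) + -2 * (Y + 0 * p) + -1 * (Z + 0 * p)
    swap
    ·
      by_cases h0_5 : -1 * (p - 1) ≤ 2 * (X - 1 * p) + -1 * (Y - 1 * p) + -1 * (Z + 0 * p)
      swap
      ·
        by_cases h2_9 : -2 * (p - 1) ≤ 3 * (X + 0 * p) + -1 * (Y - 1 * p) + -2 * (Z + 1 * p)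
        swap
        ·
          exact hc6 ⟨by omega, by omega, by omega, by omega, by omega, by omega, by omega, by omega, by omega, by omega⟩
        exact hc2 ⟨by omega, by omega, by omega, by omega, by omega, by omega, by omega, by omega, by omega, by omega⟩
      by_cases h0_9 : -2 * (p - 1) ≤ 3 * (X - 1 * p) + -1 * (Y - 1 * p) + -2 * (Z + 0 * p)
      swap
      ·
        by_cases h2_3 : -2 * (p - 1) ≤ -2 * (X + 0 * p) + 3 * (Y - 1 * p) + 1 * (Z + 1 * p)
        swap
        ·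
          exact hc5 ⟨by omega, by omega, by omega, by omega, by omega, by omega, by omega, by omega, by omega, by omega⟩
        by_cases h2_7 : -2 * (p - 1) ≤ -1 * (X + 0 * p) + -2 * (Y - 1 * p) + -1 * (Z + 1 * p)
        swap
        ·
          exact hc4 ⟨by omega, by omega, by omega, by omega, by omega, by omega, by omega, by omega, by omega, by omega⟩
        by_cases h2_9 : -2 * (p - 1) ≤ 3 * (X + 0 * p) + -1 * (Y - 1 * p) + -2 * (Z + 1 * p)
        swap
        ·
          exact hc6 ⟨by omega, by omega, by omega, by omega, by omega, by omega, by omega, by omega, by omega, by omega⟩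
        exact hc2 ⟨by omega, by omega, by omega, by omega, by omega, by omega, by omega, by omega, by omega, by omega⟩
      exact hc0 ⟨by omega, by omega, by omega, by omega, by omega, by omega, by omega, by omega, by omega, by omega⟩
    exact hc3 ⟨by omega, by omega, by omega, by omega, by omega, by omega, by omega, by omega, by omega, by omega⟩
  by_cases h1_8 : -1 * (p - 1) ≤ 0 * (X + 0 * p) + 1 * (Y - 1 * p) + 0 * (Z + 0 * p)
  swap
  ·
    exact hc3 ⟨by omega, by omega, by omega, by omega, by omega, by omega, by omega, by omega, by omega, by omega⟩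
  exact hc1 ⟨by omega, by omega, by omega, by omega, by omega, by omega, by omega, by omega, by omega, by omega⟩

theorem p_cov2 : S_cov2 := by
  intro p X Y Z hp hX hX' hY hY' hZ
  rcases p_cov2_aux p X Y Z hp hX hX' hY hY' hZ with h | h | h | h | h | h | h
  · exact ⟨-1, -1, 0, Or.inl (by simpa [sub_eq_add_neg] using h)⟩
  · exact ⟨0, -1, 0, Or.inl (by simpa [sub_eq_add_neg] using h)⟩
  · exact ⟨0, -1, 1, Or.inl (by simpa [sub_eq_add_neg] using h)⟩
  · exact ⟨0, 0, 0, Or.inl (by simpa [sub_eq_add_neg] using h)⟩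
  · exact ⟨-2, -2, -2, Or.inr (by simpa [sub_eq_add_neg] using h)⟩
  · exact ⟨-2, -1, -2, Or.inr (by simpa [sub_eq_add_neg] using h)⟩
  · exact ⟨-1, -1, -2, Or.inr (by simpa [sub_eq_add_neg] using h)⟩

end Pool.Agent.Lib.MP_0bc52e_nt.T
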