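import Pool.Agent.Lib.MP_0bc52e_nt.T.StmH

/-!
# MP_0bc52e_nt, Theorem (T163): piece [det2s]
-/

namespace Pool.Agent.Lib.MP_0bc52e_nt.T

open Pool.Agent.Lib.MP_0bc52e_nt.LC

/-- The finite check. -/
theorem p_det2s_check :
    ∀ A ∈ ([(1, 1, 0), (1, -1, 0), (-1, 1, 0)] : List (ℤ × ℤ × ℤ)),
    ∀ B ∈ ([(1, 0, 1), (1, 0, -1), (-1, 0, 1)] : List (ℤ × ℤ × ℤ)),
    ∀ C ∈ ([(0, 1, 1), (0, 1, -1), (0, -1, 1)] : List (ℤ × ℤ × ℤ)),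
    ∀ D ∈ ([(1, 1, -1), (1, -1, 1), (-1, 1, 1)] : List (ℤ × ℤ × ℤ)),
      ¬ ((det3 (A - (0, 0, 0)) (B - (0, 0, 0)) (C - (0, 0, 0))).natAbs ≤ 1 ∧
        (det3 (A - (1, 0, 0)) (B - (1, 0, 0)) (D - (1, 0, 0))).natAbs ≤ 1 ∧
        (det3 (A - (0, 1, 0)) (C - (0, 1, 0)) (D - (0, 1, 0))).natAbs ≤ 1 ∧
        (det3 ((1, 0, 0) - (0, 0, 0)) (C - (0, 0, 0)) (D - (0, 0, 0))).natAbs ≤ 1 ∧
        (det3 ((0, 1, 0) - (0, 0, 0)) (B - (0, 0, 0)) (D - (0, 0, 0))).natAbs ≤ 1 ∧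
        (det3 ((0, 0, 1) - (0, 0, 0)) (A - (0, 0, 0)) (D - (0, 0, 0))).natAbs ≤ 1) := by
  decide +kernel

/-- The case of coordinates. -/
theorem p_det2s_fin (S : ℤ × ℤ × ℤ → Prop) (h0 : S (0, 0, 0)) (h1 : S (1, 0, 0))
    (h2 : S (0, 1, 0)) (h3 : S (0, 0, 1))
    (hpar : ∀ a b c : ℤ, ∃ v, S v ∧ (2 : ℤ) ∣ v.1 - a ∧ (2 : ℤ) ∣ v.2.1 - b ∧
      (2 : ℤ) ∣ v.2.2 - c)
    (hdet : ∀ p₀ p₁ p₂ p₃, S p₀ → S p₁ → S p₂ → S p₃ →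
      (det3 (p₁ - p₀) (p₂ - p₀) (p₃ - p₀)).natAbs ≤ 1) : False := by
  have key : ∀ x y z : ℤ, S (x, y, z) → (-1 ≤ x ∧ x ≤ 1) ∧ (-1 ≤ y ∧ y ≤ 1) ∧
      (-1 ≤ z ∧ z ≤ 1) ∧ (-1 ≤ 1 - x - y - z ∧ 1 - x - y - z ≤ 1) := by
    intro x y z h
    have e1 := hdet _ _ _ _ h0 h h2 h3
    have e2 := hdet _ _ _ _ h0 h h1 h3
    have e3 := hdet _ _ _ _ h0 h h1 h2
    have e4 := hdet _ _ _ _ h1 h2 h3 h
    simp only [det3, Prod.mk_sub_mk] at e1 e2 e3 e4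
    ring_nf at e1 e2 e3 e4
    omega
  obtain ⟨⟨a1, a2, a3⟩, hA, pA1, pA2, pA3⟩ := hpar 1 1 0
  obtain ⟨⟨b1, b2, b3⟩, hB, pB1, pB2, pB3⟩ := hpar 1 0 1
  obtain ⟨⟨c1, c2, c3⟩, hC, pC1, pC2, pC3⟩ := hpar 0 1 1
  obtain ⟨⟨d1, d2, d3⟩, hD, pD1, pD2, pD3⟩ := hpar 1 1 1
  simp only at pA1 pA2 pA3 pB1 pB2 pB3 pC1 pC2 pC3 pD1 pD2 pD3
  have kA := key _ _ _ hA
  have kB := key _ _ _ hB
  have kC := key _ _ _ hC
  have kD := key _ _ _ hD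
  have mA : ((a1, a2, a3) : ℤ × ℤ × ℤ) ∈
      ([(1, 1, 0), (1, -1, 0), (-1, 1, 0)] : List (ℤ × ℤ × ℤ)) := by
    simp only [List.mem_cons, List.not_mem_nil, or_false, Prod.mk.injEq]
    clear kB kC kD hA hB hC hD key hdet hpar pB1 pB2 pB3 pC1 pC2 pC3 pD1 pD2 pD3
    omega
  have mB : ((b1, b2, b3) : ℤ × ℤ × ℤ) ∈
      ([(1, 0, 1), (1, 0, -1), (-1, 0, 1)] : List (ℤ × ℤ × ℤ)) := by
    simp only [List.mem_cons, List.not_mem_nil, or_false, Prod.mk.injEq]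
    clear kA kC kD hA hB hC hD key hdet hpar pA1 pA2 pA3 pC1 pC2 pC3 pD1 pD2 pD3
    omega
  have mC : ((c1, c2, c3) : ℤ × ℤ × ℤ) ∈
      ([(0, 1, 1), (0, 1, -1), (0, -1, 1)] : List (ℤ × ℤ × ℤ)) := by
    simp only [List.mem_cons, List.not_mem_nil, or_false, Prod.mk.injEq]
    clear kA kB kD hA hB hC hD key hdet hpar pB1 pB2 pB3 pA1 pA2 pA3 pD1 pD2 pD3
    omega
  have mD : ((d1, d2, d3) : ℤ × ℤ × ℤ) ∈
      ([(1, 1, -1), (1, -1, 1), (-1, 1, 1)] : List (ℤ × ℤ × ℤ)) := by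
    simp only [List.mem_cons, List.not_mem_nil, or_false, Prod.mk.injEq]
    clear kA kB kC hA hB hC hD key hdet hpar pB1 pB2 pB3 pC1 pC2 pC3 pA1 pA2 pA3
    omega
  exact p_det2s_check _ mA _ mB _ mC _ mD ⟨hdet _ _ _ _ h0 hA hB hC, hdet _ _ _ _ h1 hA hB hD,
    hdet _ _ _ _ h2 hA hC hD, hdet _ _ _ _ h0 h1 hC hD, hdet _ _ _ _ h0 h2 hB hD,
    hdet _ _ _ _ h0 h3 hA hD⟩

theorem p_det2s : S_det2s := by
  intro V hV
  by_contra hcon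
  push Not at hcon
  obtain ⟨⟨o1, o2, o3⟩, hv0, q01, q02, q03⟩ := hV 0 0 0
  obtain ⟨⟨a1, a2, a3⟩, hv1, q11, q12, q13⟩ := hV 1 0 0
  obtain ⟨⟨b1, b2, b3⟩, hv2, q21, q22, q23⟩ := hV 0 1 0
  obtain ⟨⟨c1, c2, c3⟩, hv3, q31, q32, q33⟩ := hV 0 0 1
  simp only at q01 q02 q03 q11 q12 q13 q21 q22 q23 q31 q32 q33
  -- differences
  obtain ⟨k11, e11⟩ : ∃ k, a1 - o1 = 1 + 2 * k := ⟨(a1 - o1 - 1) / 2, by omega⟩
  obtain ⟨k12, e12⟩ : ∃ k, a2 - o2 = 2 * k := ⟨(a2 - o2) / 2, by omega⟩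
  obtain ⟨k13, e13⟩ : ∃ k, a3 - o3 = 2 * k := ⟨(a3 - o3) / 2, by omega⟩
  obtain ⟨k21, e21⟩ : ∃ k, b1 - o1 = 2 * k := ⟨(b1 - o1) / 2, by omega⟩
  obtain ⟨k22, e22⟩ : ∃ k, b2 - o2 = 1 + 2 * k := ⟨(b2 - o2 - 1) / 2, by omega⟩
  obtain ⟨k23, e23⟩ : ∃ k, b3 - o3 = 2 * k := ⟨(b3 - o3) / 2, by omega⟩
  obtain ⟨k31, e31⟩ : ∃ k, c1 - o1 = 2 * k := ⟨(c1 - o1) / 2, by omega⟩
  obtain ⟨k32, e32⟩ : ∃ k, c2 - o2 = 2 * k := ⟨(c2 - o2) / 2, by omega⟩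
  obtain ⟨k33, e33⟩ : ∃ k, c3 - o3 = 1 + 2 * k := ⟨(c3 - o3 - 1) / 2, by omega⟩
  set A1 := a1 - o1 with hA1
  set A2 := a2 - o2 with hA2
  set A3 := a3 - o3 with hA3
  set B1 := b1 - o1 with hB1
  set B2 := b2 - o2 with hB2
  set B3 := b3 - o3 with hB3
  set C1 := c1 - o1 with hC1
  set C2 := c2 - o2 with hC2
  set C3 := c3 - o3 with hC3
  have hD0 := hcon _ hv0 _ hv1 _ hv2 _ hv3
  simp only [Prod.mk_sub_mk, ← hA1, ← hA2, ← hA3, ← hB1, ← hB2, ← hB3, ← hC1, ← hC2, ← hC3]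
    at hD0
  obtain ⟨D, hD⟩ : ∃ D, D = det3 (A1, A2, A3) (B1, B2, B3) (C1, C2, C3) := ⟨_, rfl⟩
  rw [← hD] at hD0
  have hD' : D = A1 * (B2 * C3 - B3 * C2) - A2 * (B1 * C3 - B3 * C1) +
      A3 * (B1 * C2 - B2 * C1) := hD
  have hodd : D % 2 = 1 := by
    have : D = 1 + 2 * (k11 * (B2 * C3 - B3 * C2) + k22 * C3 + k33 - k23 * C2
        - k12 * (B1 * C3 - B3 * C1) + k13 * (B1 * C2 - B2 * C1)) := by
      rw [hD', e11, e12, e13, e22, e33, e23]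
      ring
    omega
  have hDD : D * D = 1 := by
    rw [abs_lt] at hD0
    have : D = 1 ∨ D = -1 := by omega
    rcases this with h | h <;> rw [h] <;> norm_num
  refine p_det2s_fin (fun p => ((o1 + p.1 * A1 + p.2.1 * B1 + p.2.2 * C1,
    o2 + p.1 * A2 + p.2.1 * B2 + p.2.2 * C2, o3 + p.1 * A3 + p.2.1 * B3 + p.2.2 * C3) :
      ℤ × ℤ × ℤ) ∈ V) ?_ ?_ ?_ ?_ ?_ ?_
  · simpa using hv0
  · have : ((o1 + 1 * A1 + 0 * B1 + 0 * C1, o2 + 1 * A2 + 0 * B2 + 0 * C2,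
        o3 + 1 * A3 + 0 * B3 + 0 * C3) : ℤ × ℤ × ℤ) = (a1, a2, a3) := by
      simp only [Prod.mk.injEq]
      omega
    simp only
    rw [this]
    exact hv1
  · have : ((o1 + 0 * A1 + 1 * B1 + 0 * C1, o2 + 0 * A2 + 1 * B2 + 0 * C2,
        o3 + 0 * A3 + 1 * B3 + 0 * C3) : ℤ × ℤ × ℤ) = (b1, b2, b3) := by
      simp only [Prod.mk.injEq]
      omega
    simp only
    rw [this]
    exact hv2
  · have : ((o1 + 0 * A1 + 0 * B1 + 1 * C1, o2 + 0 * A2 + 0 * B2 + 1 * C2,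
        o3 + 0 * A3 + 0 * B3 + 1 * C3) : ℤ × ℤ × ℤ) = (c1, c2, c3) := by
      simp only [Prod.mk.injEq]
      omega
    simp only
    rw [this]
    exact hv3
  · intro a b c
    obtain ⟨⟨w1, w2, w3⟩, hw, r1, r2, r3⟩ := hV (o1 + a) (o2 + b) (o3 + c)
    simp only at r1 r2 r3
    obtain ⟨W1, hW1⟩ : ∃ W, W = w1 - o1 := ⟨_, rfl⟩
    obtain ⟨W2, hW2⟩ : ∃ W, W = w2 - o2 := ⟨_, rfl⟩
    obtain ⟨W3, hW3⟩ : ∃ W, W = w3 - o3 := ⟨_, rfl⟩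
    obtain ⟨x, hx⟩ : ∃ x, x = D * det3 (W1, W2, W3) (B1, B2, B3) (C1, C2, C3) := ⟨_, rfl⟩
    obtain ⟨y, hy⟩ : ∃ y, y = D * det3 (A1, A2, A3) (W1, W2, W3) (C1, C2, C3) := ⟨_, rfl⟩
    obtain ⟨z, hz⟩ : ∃ z, z = D * det3 (A1, A2, A3) (B1, B2, B3) (W1, W2, W3) := ⟨_, rfl⟩
    have f1 : x * A1 + y * B1 + z * C1 = W1 := by
      have : x * A1 + y * B1 + z * C1 = D * D * W1 := by
        rw [hx, hy, hz]
        simp only [det3]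
        linear_combination (-D * W1) * hD'
      rw [this, hDD, one_mul]
    have f2 : x * A2 + y * B2 + z * C2 = W2 := by
      have : x * A2 + y * B2 + z * C2 = D * D * W2 := by
        rw [hx, hy, hz]
        simp only [det3]
        linear_combination (-D * W2) * hD'
      rw [this, hDD, one_mul]
    have f3 : x * A3 + y * B3 + z * C3 = W3 := by
      have : x * A3 + y * B3 + z * C3 = D * D * W3 := by
        rw [hx, hy, hz]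
        simp only [det3]
        linear_combination (-D * W3) * hD'
      rw [this, hDD, one_mul]
    refine ⟨(x, y, z), ?_, ?_, ?_, ?_⟩
    · have : ((o1 + x * A1 + y * B1 + z * C1, o2 + x * A2 + y * B2 + z * C2,
          o3 + x * A3 + y * B3 + z * C3) : ℤ × ℤ × ℤ) = (w1, w2, w3) := by
        simp only [Prod.mk.injEq]
        refine ⟨by linarith, by linarith, by linarith⟩
      simp only
      rw [this]
      exact hw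
    · have : W1 - x = 2 * (x * k11 + y * k21 + z * k31) := by
        rw [← f1, e11, e21, e31]
        ring
      simp only
      omega
    · have : W2 - y = 2 * (x * k12 + y * k22 + z * k32) := by
        rw [← f2, e12, e22, e32]
        ring
      simp only
      omega
    · have : W3 - z = 2 * (x * k13 + y * k23 + z * k33) := by
        rw [← f3, e13, e23, e33]
        ring
      simp only
      omega
  · rintro ⟨x0, y0, z0⟩ ⟨x1, y1, z1⟩ ⟨x2, y2, z2⟩ ⟨x3, y3, z3⟩ m0 m1 m2 m3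
    have h := hcon _ m0 _ m1 _ m2 _ m3
    simp only [Prod.mk_sub_mk] at h ⊢
    have e : det3 (o1 + x1 * A1 + y1 * B1 + z1 * C1 - (o1 + x0 * A1 + y0 * B1 + z0 * C1),
        o2 + x1 * A2 + y1 * B2 + z1 * C2 - (o2 + x0 * A2 + y0 * B2 + z0 * C2),
        o3 + x1 * A3 + y1 * B3 + z1 * C3 - (o3 + x0 * A3 + y0 * B3 + z0 * C3))
        (o1 + x2 * A1 + y2 * B1 + z2 * C1 - (o1 + x0 * A1 + y0 * B1 + z0 * C1),
        o2 + x2 * A2 + y2 * B2 + z2 * C2 - (o2 + x0 * A2 + y0 * B2 + z0 * C2),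
        o3 + x2 * A3 + y2 * B3 + z2 * C3 - (o3 + x0 * A3 + y0 * B3 + z0 * C3))
        (o1 + x3 * A1 + y3 * B1 + z3 * C1 - (o1 + x0 * A1 + y0 * B1 + z0 * C1),
        o2 + x3 * A2 + y3 * B2 + z3 * C2 - (o2 + x0 * A2 + y0 * B2 + z0 * C2),
        o3 + x3 * A3 + y3 * B3 + z3 * C3 - (o3 + x0 * A3 + y0 * B3 + z0 * C3)) =
        det3 (x1 - x0, y1 - y0, z1 - z0) (x2 - x0, y2 - y0, z2 - z0)
          (x3 - x0, y3 - y0, z3 - z0) * D := by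
      rw [hD]
      simp only [det3]
      ring
    rw [e, abs_lt] at h
    have hD1 : D = 1 ∨ D = -1 := by
      rcases Int.isUnit_iff.mp (IsUnit.of_mul_eq_one D hDD) with h | h
      · exact Or.inl h
      · exact Or.inr h
    rcases hD1 with h' | h' <;> rw [h'] at h <;> omega

end Pool.Agent.Lib.MP_0bc52e_nt.T
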