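import Pool.Agent.Lib.MP_0bc52e_nt.T.StmN

set_option autoImplicit false

namespace Pool.Agent.Lib.MP_0bc52e_nt.T

open Pool.Agent.Lib.MP_0bc52e_nt.LC

private theorem p_emp2_aux (A B X₀ : ℤ × ℤ) (hd : 2 ≤ det2 A B)
    (h : ¬ (det2 A B ∣ det2 X₀ B ∧ det2 A B ∣ det2 A X₀)) :
    ∃ X : ℤ × ℤ, X ≠ 0 ∧ X ≠ A ∧ X ≠ B ∧ 0 ≤ det2 X B ∧ 0 ≤ det2 A X ∧
      det2 X B + det2 A X ≤ det2 A B := by
  obtain ⟨d, hdd⟩ : ∃ d, d = det2 A B := ⟨_, rfl⟩
  rw [← hdd] at hd h ⊢
  have hd0 : d ≠ 0 := by omega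
  have hdpos : 0 < d := by omega
  obtain ⟨X, hX⟩ : ∃ X : ℤ × ℤ, X = (X₀.1 - det2 X₀ B / d * A.1 - det2 A X₀ / d * B.1,
    X₀.2 - det2 X₀ B / d * A.2 - det2 A X₀ / d * B.2) := ⟨_, rfl⟩
  have hs : det2 X B = det2 X₀ B % d := by
    have h1 := Int.emod_add_mul_ediv (det2 X₀ B) d
    have h2 : det2 X B = det2 X₀ B - det2 X₀ B / d * d := by
      rw [hX, hdd]
      simp only [det2]
      ring
    rw [h2]
    linarith
  have ht : det2 A X = det2 A X₀ % d := by
    have h1 := Int.emod_add_mul_ediv (det2 A X₀) d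
    have h2 : det2 A X = det2 A X₀ - det2 A X₀ / d * d := by
      rw [hX, hdd]
      simp only [det2]
      ring
    rw [h2]
    linarith
  have s0 : 0 ≤ det2 X B := by rw [hs]; exact Int.emod_nonneg _ hd0
  have t0 : 0 ≤ det2 A X := by rw [ht]; exact Int.emod_nonneg _ hd0
  have s1 : det2 X B < d := by rw [hs]; exact Int.emod_lt_of_pos _ hdpos
  have t1 : det2 A X < d := by rw [ht]; exact Int.emod_lt_of_pos _ hdpos
  have hne : ¬ (det2 X B = 0 ∧ det2 A X = 0) := by
    rintro ⟨h1, h2⟩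
    rw [hs] at h1
    rw [ht] at h2
    exact h ⟨Int.dvd_of_emod_eq_zero h1, Int.dvd_of_emod_eq_zero h2⟩
  have hX0 : X ≠ 0 := by
    rintro rfl
    exact hne ⟨by simp [det2], by simp [det2]⟩
  have hXA : X ≠ A := by
    rintro rfl
    omega
  have hXB : X ≠ B := by
    rintro rfl
    omega
  by_cases hle : det2 X B + det2 A X ≤ d
  · exact ⟨X, hX0, hXA, hXB, s0, t0, hle⟩
  · have e1 : det2 (A + B - X) B = d - det2 X B := by
      rw [hdd]
      simp only [det2, Prod.fst_add, Prod.fst_sub, Prod.snd_add, Prod.snd_sub]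
      ring
    have e2 : det2 A (A + B - X) = d - det2 A X := by
      rw [hdd]
      simp only [det2, Prod.fst_add, Prod.fst_sub, Prod.snd_add, Prod.snd_sub]
      ring
    refine ⟨A + B - X, ?_, ?_, ?_, by rw [e1]; omega, by rw [e2]; omega, by rw [e1, e2]; omega⟩
    · intro h0
      rw [h0] at e1
      have : det2 0 B = 0 := by simp [det2]
      omega
    · intro h0
      rw [h0] at e1
      omega
    · intro h0
      rw [h0] at e2
      omega

theorem p_emp2 : S_emp2 := by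
  intro A B hd
  by_cases h1 : det2 A B ∣ det2 (1, 0) B ∧ det2 A B ∣ det2 A (1, 0)
  · by_cases h2 : det2 A B ∣ det2 (0, 1) B ∧ det2 A B ∣ det2 A (0, 1)
    · exfalso
      obtain ⟨⟨a, ha⟩, ⟨b, hb⟩⟩ := h1
      obtain ⟨⟨c, hc⟩, ⟨e, he⟩⟩ := h2
      have hB2 : B.2 = det2 A B * a := by
        rw [← ha]
        simp [det2]
      have hA2 : A.2 = -(det2 A B * b) := by
        rw [← hb]
        simp [det2]
      have hB1 : B.1 = -(det2 A B * c) := by
        rw [← hc]
        simp [det2]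
      have hA1 : A.1 = det2 A B * e := by
        rw [← he]
        simp [det2]
      have h3 : det2 A B = det2 A B * (det2 A B * (e * a - b * c)) := by
        calc det2 A B = A.1 * B.2 - A.2 * B.1 := rfl
          _ = (det2 A B * e) * (det2 A B * a) - (-(det2 A B * b)) * (-(det2 A B * c)) := by
            rw [← hA1, ← hB2, ← hA2, ← hB1]
          _ = _ := by ring
      have h4 : det2 A B * (e * a - b * c) = 1 := by
        have h5 : det2 A B * 1 = det2 A B * (det2 A B * (e * a - b * c)) := by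
          rw [mul_one]
          exact h3
        exact (mul_left_cancel₀ (by omega) h5).symm
      have h6 : det2 A B ∣ 1 := ⟨_, h4.symm⟩
      have := Int.le_of_dvd one_pos h6
      omega
    · exact p_emp2_aux A B (0, 1) hd h2
  · exact p_emp2_aux A B (1, 0) hd h1

end Pool.Agent.Lib.MP_0bc52e_nt.T
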