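import Pool.Agent.Lib.MP_0bc52e_nt.T.StmN

set_option autoImplicit false

namespace Pool.Agent.Lib.MP_0bc52e_nt.T

open Pool.Agent.Lib.MP_0bc52e_nt.LC

private theorem p_fr1_inv (O a b c : ℤ × ℤ × ℤ) (D : ℤ) (hD : det3 a b c = D) (hDD : D * D = 1) :
    ∃ O' a' b' c' : ℤ × ℤ × ℤ, det3 a' b' c' = D ∧ (∀ v, fr O' a' b' c' (fr O a b c v) = v) ∧
      (∀ v, fr O a b c (fr O' a' b' c' v) = v) := by
  obtain ⟨o₁, o₂, o₃⟩ := O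
  obtain ⟨a₁, a₂, a₃⟩ := a
  obtain ⟨b₁, b₂, b₃⟩ := b
  obtain ⟨c₁, c₂, c₃⟩ := c
  have hDr : (a₁ : ℝ) * (b₂ * c₃ - b₃ * c₂) - a₂ * (b₁ * c₃ - b₃ * c₁) +
      a₃ * (b₁ * c₂ - b₂ * c₁) = D := by exact_mod_cast hD
  have hDDr : (D : ℝ) * D = 1 := by exact_mod_cast hDD
  have hD' : a₁ * (b₂ * c₃ - b₃ * c₂) - a₂ * (b₁ * c₃ - b₃ * c₁) +
      a₃ * (b₁ * c₂ - b₂ * c₁) = D := hD
  refine ⟨(-D * (o₁ * (b₂ * c₃ - b₃ * c₂) + o₂ * (b₃ * c₁ - b₁ * c₃) + o₃ * (b₁ * c₂ - b₂ * c₁)),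
      -D * (o₁ * (c₂ * a₃ - c₃ * a₂) + o₂ * (c₃ * a₁ - c₁ * a₃) + o₃ * (c₁ * a₂ - c₂ * a₁)),
      -D * (o₁ * (a₂ * b₃ - a₃ * b₂) + o₂ * (a₃ * b₁ - a₁ * b₃) + o₃ * (a₁ * b₂ - a₂ * b₁))),
    (D * (b₂ * c₃ - b₃ * c₂), D * (c₂ * a₃ - c₃ * a₂), D * (a₂ * b₃ - a₃ * b₂)),
    (D * (b₃ * c₁ - b₁ * c₃), D * (c₃ * a₁ - c₁ * a₃), D * (a₃ * b₁ - a₁ * b₃)),
    (D * (b₁ * c₂ - b₂ * c₁), D * (c₁ * a₂ - c₂ * a₁), D * (a₁ * b₂ - a₂ * b₁)), ?_, ?_, ?_⟩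
  · have e : det3 (D * (b₂ * c₃ - b₃ * c₂), D * (c₂ * a₃ - c₃ * a₂), D * (a₂ * b₃ - a₃ * b₂))
        (D * (b₃ * c₁ - b₁ * c₃), D * (c₃ * a₁ - c₁ * a₃), D * (a₃ * b₁ - a₁ * b₃))
        (D * (b₁ * c₂ - b₂ * c₁), D * (c₁ * a₂ - c₂ * a₁), D * (a₁ * b₂ - a₂ * b₁)) =
        D ^ 3 * (a₁ * (b₂ * c₃ - b₃ * c₂) - a₂ * (b₁ * c₃ - b₃ * c₁) +
          a₃ * (b₁ * c₂ - b₂ * c₁)) ^ 2 := by
      simp only [det3]
      ring
    rw [e, hD']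
    calc D ^ 3 * D ^ 2 = (D * D) * (D * D) * D := by ring
      _ = D := by rw [hDD]; ring
  · rintro ⟨x, y, z⟩
    simp only [fr]
    push_cast
    ext
    · simp only
      linear_combination (x * D) * hDr + x * hDDr
    · simp only
      linear_combination (y * D) * hDr + y * hDDr
    · simp only
      linear_combination (z * D) * hDr + z * hDDr
  · rintro ⟨x, y, z⟩
    simp only [fr]
    push_cast
    ext
    · simp only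
      linear_combination ((x - o₁) * D) * hDr + (x - o₁) * hDDr
    · simp only
      linear_combination ((y - o₂) * D) * hDr + (y - o₂) * hDDr
    · simp only
      linear_combination ((z - o₃) * D) * hDr + (z - o₃) * hDDr

theorem p_fr1 : S_fr1 := by
  refine ⟨?_, ?_, ?_, ?_⟩
  · rintro f ⟨O, a, b, c, hdet, hf⟩
    obtain ⟨D, hD, hDD, hD'⟩ : ∃ D : ℤ, det3 a b c = D ∧ D * D = 1 ∧ (D = 1 ∨ D = -1) := by
      rcases hdet with h | h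
      · exact ⟨1, h, by ring, Or.inl rfl⟩
      · exact ⟨-1, h, by ring, Or.inr rfl⟩
    obtain ⟨O', a', b', c', h1, h2, h3⟩ := p_fr1_inv O a b c D hD hDD
    refine ⟨fr O' a' b' c', ⟨O', a', b', c', by rw [h1]; exact hD', fun v => rfl⟩, fun v => ?_,
      fun v => ?_⟩
    · rw [hf, h2]
    · rw [hf, h3]
  · rintro f g ⟨O, a, b, c, hdet, hf⟩ ⟨O', a', b', c', hdet', hg⟩
    refine ⟨(O.1 + O'.1 * a.1 + O'.2.1 * b.1 + O'.2.2 * c.1,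
      O.2.1 + O'.1 * a.2.1 + O'.2.1 * b.2.1 + O'.2.2 * c.2.1,
      O.2.2 + O'.1 * a.2.2 + O'.2.1 * b.2.2 + O'.2.2 * c.2.2),
      (a'.1 * a.1 + a'.2.1 * b.1 + a'.2.2 * c.1, a'.1 * a.2.1 + a'.2.1 * b.2.1 + a'.2.2 * c.2.1,
        a'.1 * a.2.2 + a'.2.1 * b.2.2 + a'.2.2 * c.2.2),
      (b'.1 * a.1 + b'.2.1 * b.1 + b'.2.2 * c.1, b'.1 * a.2.1 + b'.2.1 * b.2.1 + b'.2.2 * c.2.1,
        b'.1 * a.2.2 + b'.2.1 * b.2.2 + b'.2.2 * c.2.2),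
      (c'.1 * a.1 + c'.2.1 * b.1 + c'.2.2 * c.1, c'.1 * a.2.1 + c'.2.1 * b.2.1 + c'.2.2 * c.2.1,
        c'.1 * a.2.2 + c'.2.1 * b.2.2 + c'.2.2 * c.2.2), ?_, fun v => ?_⟩
    · have e : det3
        (a'.1 * a.1 + a'.2.1 * b.1 + a'.2.2 * c.1, a'.1 * a.2.1 + a'.2.1 * b.2.1 + a'.2.2 * c.2.1,
        a'.1 * a.2.2 + a'.2.1 * b.2.2 + a'.2.2 * c.2.2)
        (b'.1 * a.1 + b'.2.1 * b.1 + b'.2.2 * c.1, b'.1 * a.2.1 + b'.2.1 * b.2.1 + b'.2.2 * c.2.1,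
        b'.1 * a.2.2 + b'.2.1 * b.2.2 + b'.2.2 * c.2.2)
        (c'.1 * a.1 + c'.2.1 * b.1 + c'.2.2 * c.1, c'.1 * a.2.1 + c'.2.1 * b.2.1 + c'.2.2 * c.2.1,
        c'.1 * a.2.2 + c'.2.1 * b.2.2 + c'.2.2 * c.2.2) = det3 a b c * det3 a' b' c' := by
        simp only [det3]
        ring
      rw [e]
      rcases hdet with h | h <;> rcases hdet' with h' | h' <;> rw [h, h'] <;> simp
    · change f (g v) = _
      rw [hf, hg]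
      simp only [fr]
      push_cast
      ext
      · simp only
        ring
      · simp only
        ring
      · simp only
        ring
  · rintro f ⟨O, a, b, c, _, hf⟩ v
    refine ⟨(O.1 + v.1 * a.1 + v.2.1 * b.1 + v.2.2 * c.1,
      O.2.1 + v.1 * a.2.1 + v.2.1 * b.2.1 + v.2.2 * c.2.1,
      O.2.2 + v.1 * a.2.2 + v.2.1 * b.2.2 + v.2.2 * c.2.2), ?_⟩
    rw [hf]
    simp only [fr, ip]
    push_cast
    rfl
  · rintro f ⟨O, a, b, c, _, hf⟩ u v s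
    rw [hf, hf, hf]
    simp only [fr]
    ext
    · simp
      ring
    · simp
      ring
    · simp
      ring

end Pool.Agent.Lib.MP_0bc52e_nt.T
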