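import Pool.Agent.Lib.MP_0bc52e_nt.T.StmN

namespace Pool.Agent.Lib.MP_0bc52e_nt.T

open Pool.Agent.Lib.MP_0bc52e_nt.LC

private lemma p_fr2_ip_sub (u v : ℤ × ℤ × ℤ) : ip u - ip v = ip (u - v) := by
  simp [ip]

private lemma p_fr2_ip_smul (k : ℤ) (v : ℤ × ℤ × ℤ) : ip (k • v) = (k : ℝ) • ip v := by
  simp [ip]

private lemma p_fr2_ip_inj {u v : ℤ × ℤ × ℤ} (h : ip u = ip v) : u = v := by
  simp only [ip, Prod.mk.injEq, Int.cast_inj] at h
  exact Prod.ext h.1 (Prod.ext h.2.1 h.2.2)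

/-- The linear part of a frame. -/
private def p_fr2_lin (a b c : ℤ × ℤ × ℤ) : (ℝ × ℝ × ℝ) →ₗ[ℝ] (ℝ × ℝ × ℝ) where
  toFun := fr 0 a b c
  map_add' := by
    intro u v
    simp only [fr, Prod.fst_add, Prod.snd_add, Prod.mk_add_mk, Prod.mk.injEq]
    refine ⟨?_, ?_, ?_⟩ <;> simp <;> ring
  map_smul' := by
    intro r v
    simp only [fr, Prod.smul_fst, Prod.smul_snd, smul_eq_mul, RingHom.id_apply, Prod.smul_mk,
      Prod.mk.injEq]
    refine ⟨?_, ?_, ?_⟩ <;> simp <;> ring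

private lemma p_fr2_fr (O a b c : ℤ × ℤ × ℤ) (v : ℝ × ℝ × ℝ) :
    fr O a b c v = p_fr2_lin a b c v + fr O a b c 0 := by
  show fr O a b c v = fr 0 a b c v + fr O a b c 0
  simp only [fr, Prod.mk_add_mk, Prod.mk.injEq]
  refine ⟨?_, ?_, ?_⟩ <;> simp <;> ring

private lemma p_fr2_aff (h1 : S_fr1) (f : ℝ × ℝ × ℝ → ℝ × ℝ × ℝ) (hf : IsFr f) :
    ∃ E : (ℝ × ℝ × ℝ) ≃ᵃ[ℝ] (ℝ × ℝ × ℝ), (∀ v, E v = f v) ∧
      (∀ v : ℤ × ℤ × ℤ, ∃ w : ℤ × ℤ × ℤ, E (ip v) = ip w) ∧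
      (∀ v : ℤ × ℤ × ℤ, ∃ w : ℤ × ℤ × ℤ, E.symm (ip v) = ip w) := by
  obtain ⟨g, hg, hgf, hfg⟩ := h1.1 f hf
  obtain ⟨O, a, b, c, hd, hO⟩ := id hf
  obtain ⟨O', a', b', c', hd', hO'⟩ := id hg
  have e1 : ∀ v, f v = p_fr2_lin a b c v + f 0 := fun v => by
    rw [hO v, hO 0]; exact p_fr2_fr O a b c v
  have e2 : ∀ v, g v = p_fr2_lin a' b' c' v + g 0 := fun v => by
    rw [hO' v, hO' 0]; exact p_fr2_fr O' a' b' c' v
  have i1 : ∀ v, p_fr2_lin a' b' c' (p_fr2_lin a b c v) = v := by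
    intro v
    have a1 := hgf v
    have a2 := hgf 0
    rw [e2 (f v), e1 v, map_add] at a1
    rw [e2 (f 0)] at a2
    have : p_fr2_lin a' b' c' (p_fr2_lin a b c v) + (p_fr2_lin a' b' c' (f 0) + g 0) = v := by
      rw [← add_assoc]; exact a1
    rw [a2, add_zero] at this
    exact this
  have i2 : ∀ v, p_fr2_lin a b c (p_fr2_lin a' b' c' v) = v := by
    intro v
    have a1 := hfg v
    have a2 := hfg 0
    rw [e1 (g v), e2 v, map_add] at a1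
    rw [e1 (g 0)] at a2
    have : p_fr2_lin a b c (p_fr2_lin a' b' c' v) + (p_fr2_lin a b c (g 0) + f 0) = v := by
      rw [← add_assoc]; exact a1
    rw [a2, add_zero] at this
    exact this
  refine ⟨{ toFun := f, invFun := g, left_inv := hgf, right_inv := hfg,
            linear := LinearEquiv.ofLinearMap (p_fr2_lin a b c) (p_fr2_lin a' b' c')
              (LinearMap.ext i2) (LinearMap.ext i1),
            map_vadd' := ?_ }, fun v => rfl, ?_, ?_⟩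
  · intro q v
    show f (v + q) = p_fr2_lin a b c v + f q
    rw [e1 (v + q), e1 q, map_add]
    abel
  · intro v
    exact h1.2.2.1 f hf v
  · intro v
    exact h1.2.2.1 g hg v

private lemma p_fr2_vs (E : (ℝ × ℝ × ℝ) ≃ᵃ[ℝ] (ℝ × ℝ × ℝ)) (u v : ℝ × ℝ × ℝ) :
    E u - E v = E.linear (u - v) :=
  (E.toAffineMap.linearMap_vsub u v).symm

/-- An affine map that preserves integrality preserves congruences. -/
private lemma p_fr2_cong (E : (ℝ × ℝ × ℝ) ≃ᵃ[ℝ] (ℝ × ℝ × ℝ))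
    (hE : ∀ v : ℤ × ℤ × ℤ, ∃ w : ℤ × ℤ × ℤ, E (ip v) = ip w) (r : ℤ × ℤ × ℤ) :
    ∃ w : ℤ × ℤ × ℤ, E.linear (ip r) = ip w := by
  obtain ⟨w1, h1⟩ := hE r
  obtain ⟨w0, h0⟩ := hE 0
  refine ⟨w1 - w0, ?_⟩
  rw [← p_fr2_ip_sub, ← h1, ← h0]
  have hz : ip 0 = 0 := by simp [ip]
  rw [p_fr2_vs, hz, sub_zero]

theorem p_fr2 (h_fr1 : S_fr1) : S_fr2 := by
  intro f hf P
  obtain ⟨E, hE, hI, hJ⟩ := p_fr2_aff h_fr1 f hf
  have hfE : f = E := funext fun v => (hE v).symm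
  have himg : ∀ Q : Set (ℝ × ℝ × ℝ), f ⁻¹' Q = E.symm '' Q := by
    intro Q
    rw [hfE]
    exact (E.toEquiv.symm.image_eq_preimage_symm Q).symm
  have hlin : ∀ u v, E u - E v = E.linear (u - v) := p_fr2_vs E
  have hlin' : ∀ u v, E.symm u - E.symm v = E.symm.linear (u - v) := p_fr2_vs E.symm
  have hinn : ∀ v, Inn (f ⁻¹' P) v ↔ Inn P (f v) := by
    intro v
    constructor
    · intro h d
      obtain ⟨ε, hε, hm⟩ := h (E.symm.linear d)
      refine ⟨ε, hε, ?_⟩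
      have h2 : f (v + ε • E.symm.linear d) = f v + ε • d := by
        rw [← sub_eq_iff_eq_add', hfE, hlin]
        simp
      rw [← h2]
      exact hm
    · intro h d
      obtain ⟨ε, hε, hm⟩ := h (E.linear d)
      refine ⟨ε, hε, ?_⟩
      have h2 : f (v + ε • d) = f v + ε • E.linear d := by
        rw [← sub_eq_iff_eq_add', hfE, hlin]
        simp
      show f (v + ε • d) ∈ P
      rw [h2]
      exact hm
  refine ⟨?_, ?_, ?_, ?_, hinn, ?_, ?_⟩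
  · intro hP
    rw [hfE]
    exact hP.affine_preimage E.toAffineMap
  · rintro ⟨V, rfl⟩
    choose G hG using hJ
    refine ⟨V.image G, ?_⟩
    rw [himg]
    have := E.symm.toAffineMap.image_convexHull (ip '' (V : Set (ℤ × ℤ × ℤ)))
    have h3 : (E.symm '' (convexHull ℝ (ip '' (V : Set (ℤ × ℤ × ℤ))))) =
        convexHull ℝ (E.symm '' (ip '' (V : Set (ℤ × ℤ × ℤ)))) := this
    rw [h3]
    congr 1
    rw [Finset.coe_image, Set.image_image, Set.image_image]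
    exact Set.image_congr fun v _ => hG v
  · intro hP a b c
    obtain ⟨⟨A, B, C⟩, hA⟩ := hI (a, b, c)
    obtain ⟨x, y, z, hx, ⟨r1, e1⟩, ⟨r2, e2⟩, ⟨r3, e3⟩⟩ := hP A B C
    obtain ⟨⟨x', y', z'⟩, hx'⟩ := hJ (x, y, z)
    obtain ⟨⟨s1, s2, s3⟩, hs⟩ := p_fr2_cong E.symm hJ (r1, r2, r3)
    have key : ip (x', y', z') - ip (a, b, c) = ip ((2 : ℤ) • (s1, s2, s3)) := by
      have h4 : E.symm (ip (A, B, C)) = ip (a, b, c) := by
        rw [← hA, E.symm_apply_apply]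
      rw [← hx', ← h4, hlin', p_fr2_ip_sub, p_fr2_ip_smul, ← hs, ← map_smul, ← p_fr2_ip_smul]
      congr 2
      simp [e1, e2, e3]
    rw [p_fr2_ip_sub] at key
    have key2 := p_fr2_ip_inj key
    simp only [Prod.mk_sub_mk, Prod.smul_mk, smul_eq_mul, Prod.mk.injEq] at key2
    refine ⟨x', y', z', ?_, ⟨s1, key2.1⟩, ⟨s2, key2.2.1⟩, ⟨s3, key2.2.2⟩⟩
    show f (ip (x', y', z')) ∈ P
    rw [← hx', hfE, E.apply_symm_apply]
    exact hx
  · rintro p ⟨a, b, c, hc⟩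
    obtain ⟨⟨a', b', c'⟩, ho⟩ := hJ (a, b, c)
    refine ⟨a', b', c', ?_⟩
    rintro h hh0 hhp x y z u v w hm hx hy hz ⟨r1, e1⟩ ⟨r2, e2⟩ ⟨r3, e3⟩
    have hm' : f (u, v, w) ∈ P := hm
    obtain ⟨⟨s1, s2, s3⟩, hs⟩ := p_fr2_cong E hI (r1, r2, r3)
    -- the point `q = h • f (u, v, w)`
    have hq : (h : ℝ) • f (u, v, w) = ip ((h : ℤ) • (a, b, c) + (p : ℤ) • (s1, s2, s3)) := by
      have h5 : E (ip (a', b', c')) = ip (a, b, c) := by
        rw [← ho, E.apply_symm_apply]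
      have h6 : (h : ℝ) • f (u, v, w) - (h : ℝ) • ip (a, b, c) = (p : ℝ) • ip (s1, s2, s3) := by
        rw [← smul_sub, ← h5, hfE, hlin, ← map_smul, ← hs, ← map_smul]
        congr 1
        have q1 : (x : ℝ) - h * a' = p * r1 := by exact_mod_cast e1
        have q2 : (y : ℝ) - h * b' = p * r2 := by exact_mod_cast e2
        have q3 : (z : ℝ) - h * c' = p * r3 := by exact_mod_cast e3
        simp only [ip, Prod.mk_sub_mk, Prod.smul_mk, smul_eq_mul, Prod.mk.injEq]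
        refine ⟨?_, ?_, ?_⟩ <;> linarith
      have h7 : (h : ℝ) • f (u, v, w) = (h : ℝ) • ip (a, b, c) + (p : ℝ) • ip (s1, s2, s3) := by
        rw [← h6]; abel
      rw [h7]
      simp [ip]
    obtain ⟨⟨u', v', w'⟩, huvw⟩ : ∃ t : ℝ × ℝ × ℝ, t = f (u, v, w) := ⟨_, rfl⟩
    rw [← huvw] at hq hm'
    simp only [ip, Prod.smul_mk, smul_eq_mul, Prod.mk_add_mk, Prod.mk.injEq] at hq
    refine hc h hh0 hhp (h * a + p * s1) (h * b + p * s2) (h * c + p * s3) u' v' w' hm' ?_ ?_ ?_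
      ⟨s1, by ring⟩ ⟨s2, by ring⟩ ⟨s3, by ring⟩
    · rw [hq.1]
    · rw [hq.2.1]
    · rw [hq.2.2]
  · intro hP v hv
    obtain ⟨w, hw⟩ := hI v
    have := (hinn (ip v)).1 hv
    rw [hfE, hw] at this
    exact hP w this
  · rintro P' ⟨e, he, hP'⟩
    refine ⟨E.symm.trans e, ?_, ?_⟩
    · intro v
      have h8 : (E.symm.trans e) v = e (E.symm v) := rfl
      rw [h8, he]
      constructor
      · rintro ⟨w, hw⟩
        obtain ⟨w', hw'⟩ := hI w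
        refine ⟨w', ?_⟩
        rw [← hw', ← hw, E.apply_symm_apply]
      · rintro ⟨w, hw⟩
        obtain ⟨w', hw'⟩ := hJ w
        refine ⟨w', ?_⟩
        rw [hw, hw']
    · rw [← hP', himg, Set.image_image]
      rfl

end Pool.Agent.Lib.MP_0bc52e_nt.T
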