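import Pool.Agent.Lib.MP_0bc52e_nt.T.StmH

/-!
Piece frM (MP_0bc52e_nt, Theorem (T163)): frames transport minimal and empty configurations.
-/

namespace Pool.Agent.Lib.MP_0bc52e_nt.T

open Pool.Agent.Lib.MP_0bc52e_nt.LC

private theorem p_frM_ip_inj {v w : ℤ × ℤ × ℤ} (h : ip v = ip w) : v = w := by
  obtain ⟨a, b, c⟩ := v
  obtain ⟨a', b', c'⟩ := w
  simp only [ip, Prod.mk.injEq, Int.cast_inj] at h
  obtain ⟨h1, h2, h3⟩ := h
  rw [h1, h2, h3]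

private theorem p_frM_coord {f : ℝ × ℝ × ℝ → ℝ × ℝ × ℝ} {O a b c : ℤ × ℤ × ℤ}
    (hf : ∀ v, f v = fr O a b c v) {w v : ℤ × ℤ × ℤ} (h : f (ip w) = ip v) :
    v.1 = O.1 + w.1 * a.1 + w.2.1 * b.1 + w.2.2 * c.1 ∧
    v.2.1 = O.2.1 + w.1 * a.2.1 + w.2.1 * b.2.1 + w.2.2 * c.2.1 ∧
    v.2.2 = O.2.2 + w.1 * a.2.2 + w.2.1 * b.2.2 + w.2.2 * c.2.2 := by
  rw [hf] at h
  simp only [fr, ip, Prod.mk.injEq] at h
  obtain ⟨h1, h2, h3⟩ := h
  refine ⟨?_, ?_, ?_⟩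
  · exact_mod_cast h1.symm
  · exact_mod_cast h2.symm
  · exact_mod_cast h3.symm

private theorem p_frM_cong {f : ℝ × ℝ × ℝ → ℝ × ℝ × ℝ} (hf : IsFr f) {w v w' v' : ℤ × ℤ × ℤ}
    (h : f (ip w) = ip v) (h' : f (ip w') = ip v') (c1 : (2 : ℤ) ∣ w.1 - w'.1)
    (c2 : (2 : ℤ) ∣ w.2.1 - w'.2.1) (c3 : (2 : ℤ) ∣ w.2.2 - w'.2.2) :
    (2 : ℤ) ∣ v.1 - v'.1 ∧ (2 : ℤ) ∣ v.2.1 - v'.2.1 ∧ (2 : ℤ) ∣ v.2.2 - v'.2.2 := by
  obtain ⟨O, a, b, c, -, hfr⟩ := hf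
  obtain ⟨e1, e2, e3⟩ := p_frM_coord hfr h
  obtain ⟨e1', e2', e3'⟩ := p_frM_coord hfr h'
  obtain ⟨k1, hk1⟩ := c1
  obtain ⟨k2, hk2⟩ := c2
  obtain ⟨k3, hk3⟩ := c3
  rw [e1, e2, e3, e1', e2', e3']
  refine ⟨⟨k1 * a.1 + k2 * b.1 + k3 * c.1, ?_⟩, ⟨k1 * a.2.1 + k2 * b.2.1 + k3 * c.2.1, ?_⟩,
    ⟨k1 * a.2.2 + k2 * b.2.2 + k3 * c.2.2, ?_⟩⟩
  · linear_combination a.1 * hk1 + b.1 * hk2 + c.1 * hk3
  · linear_combination a.2.1 * hk1 + b.2.1 * hk2 + c.2.1 * hk3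
  · linear_combination a.2.2 * hk1 + b.2.2 * hk2 + c.2.2 * hk3

theorem p_frM (h_fr1 : S_fr1) (h_fr2 : S_fr2) : S_frM := by
  intro f hf V
  classical
  obtain ⟨g, hg, hgf, hfg⟩ := h_fr1.1 f hf
  choose G hG using h_fr1.2.2.1 g hg
  choose F hF using h_fr1.2.2.1 f hf
  have hfG : ∀ v, f (ip (G v)) = ip v := fun v => by rw [← hG, hfg]
  have hGF : ∀ w, G (F w) = w := fun w => by
    apply p_frM_ip_inj
    rw [← hG, ← hF, hgf]
  have hFG : ∀ v, F (G v) = v := fun v => by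
    apply p_frM_ip_inj
    rw [← hF, ← hG, hfg]
  have hGinj : Function.Injective G := fun a b h => by rw [← hFG a, ← hFG b, h]
  have hhull : ∀ W : Finset (ℤ × ℤ × ℤ), hull (W.image G) = f ⁻¹' (hull W) := by
    intro W
    apply Set.Subset.antisymm
    · refine convexHull_min ?_ ((h_fr2 f hf (hull W)).1 (convex_convexHull ℝ _))
      rintro _ ⟨w, hw, rfl⟩
      obtain ⟨v, hv, rfl⟩ := Finset.mem_image.1 (Finset.mem_coe.1 hw)
      change f (ip (G v)) ∈ hull W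
      rw [hfG]
      exact subset_convexHull ℝ _ ⟨v, Finset.mem_coe.2 hv, rfl⟩
    · intro x hx
      have h1 : hull W ⊆ g ⁻¹' (hull (W.image G)) := by
        refine convexHull_min ?_ ((h_fr2 g hg (hull (W.image G))).1 (convex_convexHull ℝ _))
        rintro _ ⟨v, hv, rfl⟩
        change g (ip v) ∈ hull (W.image G)
        rw [hG]
        exact subset_convexHull ℝ _
          ⟨G v, Finset.mem_coe.2 (Finset.mem_image_of_mem G (Finset.mem_coe.1 hv)), rfl⟩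
      have h2 : g (f x) ∈ hull (W.image G) := h1 hx
      rwa [hgf] at h2
  have hmem : ∀ w, w ∈ V.image G ↔ ∃ v ∈ V, f (ip w) = ip v := by
    intro w
    constructor
    · intro hw
      obtain ⟨v, hv, rfl⟩ := Finset.mem_image.1 hw
      exact ⟨v, hv, hfG v⟩
    · rintro ⟨v, hv, h⟩
      refine Finset.mem_image.2 ⟨v, hv, ?_⟩
      apply p_frM_ip_inj
      rw [← hG, ← h, hgf]
  have hext : (∀ v ∈ V, ip v ∉ hull (V.erase v)) →
      ∀ w ∈ V.image G, ip w ∉ hull ((V.image G).erase w) := by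
    intro hV w hw hcon
    obtain ⟨v, hv, rfl⟩ := Finset.mem_image.1 hw
    rw [← Finset.image_erase hGinj, hhull] at hcon
    have h1 : f (ip (G v)) ∈ hull (V.erase v) := hcon
    rw [hfG] at h1
    exact hV v hv h1
  refine ⟨V.image G, hmem, ?_, hhull V, ?_, ?_⟩
  · intro v hv
    exact ⟨G v, Finset.mem_image_of_mem G hv, hfG v⟩
  · intro hM
    refine ⟨?_, hext hM.ext, ?_⟩
    · rw [hhull]
      exact (h_fr2 f hf (hull V)).2.2.1 hM.pc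
    · intro w hw x hx c1 c2 c3
      obtain ⟨v, hv, rfl⟩ := Finset.mem_image.1 hw
      rw [hhull] at hx
      have hx' : f (ip x) ∈ hull V := hx
      rw [hF] at hx'
      obtain ⟨d1, d2, d3⟩ := p_frM_cong hf (hF x) (hfG v) c1 c2 c3
      have h1 := hM.alone v hv (F x) hx' d1 d2 d3
      rw [← h1, hGF]
  · intro hE
    refine ⟨?_, hext hE.ext⟩
    intro x hx
    rw [hhull] at hx
    have hx' : f (ip x) ∈ hull V := hx
    rw [hF] at hx'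
    have h1 := hE.all (F x) hx'
    exact Finset.mem_image.2 ⟨F x, h1, hGF x⟩

end Pool.Agent.Lib.MP_0bc52e_nt.T
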