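import Pool.Agent.Lib.MP_0bc52e_nt.T.StmN

/-!
# Piece [gam]: a basis of a lattice of integer vectors congruent to multiples of a vector
-/

namespace Pool.Agent.Lib.MP_0bc52e_nt.T

open Pool.Agent.Lib.MP_0bc52e_nt.LC

private lemma p_gam_inv (p : ℕ) (a : ℤ) (hp : p.Prime) (h : ¬ (p : ℤ) ∣ a) :
    ∃ a' : ℤ, (p : ℤ) ∣ 1 - a' * a := by
  have hc : IsCoprime (p : ℤ) a := by
    rw [Int.isCoprime_iff_gcd_eq_one]
    have : (p : ℤ).natAbs = p := Int.natAbs_natCast p
    rw [Int.gcd, this]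
    exact (Nat.Prime.coprime_iff_not_dvd hp).2 (fun hd => h (Int.natCast_dvd.2 hd))
  obtain ⟨u, v, huv⟩ := hc
  exact ⟨v, u, by linarith⟩

theorem p_gam : S_gam := by
  intro p a b c hp hn
  by_cases ha : (p : ℤ) ∣ a
  · by_cases hb : (p : ℤ) ∣ b
    · have hc : ¬ (p : ℤ) ∣ c := fun hc => hn ⟨ha, hb, hc⟩
      obtain ⟨c', k, hk⟩ := p_gam_inv p c hp hc
      refine ⟨(p, 0, 0), (0, p, 0), (c' * a, c' * b, 1), by simp [det3]; ring, ?_⟩
      intro g hg
      simp only [List.mem_cons, List.not_mem_nil, or_false] at hg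
      rcases hg with rfl | rfl | rfl
      · exact ⟨0, by simp⟩
      · exact ⟨0, by simp⟩
      · exact ⟨c', by simp, by simp, k, by simpa using hk⟩
    · obtain ⟨b', k, hk⟩ := p_gam_inv p b hp hb
      refine ⟨(p, 0, 0), (b' * a, 1, b' * c), (0, 0, p), by simp [det3]; ring, ?_⟩
      intro g hg
      simp only [List.mem_cons, List.not_mem_nil, or_false] at hg
      rcases hg with rfl | rfl | rfl
      · exact ⟨0, by simp⟩
      · exact ⟨b', by simp, ⟨k, by simpa using hk⟩, by simp⟩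
      · exact ⟨0, by simp⟩
  · obtain ⟨a', k, hk⟩ := p_gam_inv p a hp ha
    refine ⟨(1, a' * b, a' * c), (0, p, 0), (0, 0, p), by simp [det3]; ring, ?_⟩
    intro g hg
    simp only [List.mem_cons, List.not_mem_nil, or_false] at hg
    rcases hg with rfl | rfl | rfl
    · exact ⟨a', ⟨k, by simpa using hk⟩, by simp, by simp⟩
    · exact ⟨0, by simp⟩
    · exact ⟨0, by simp⟩

end Pool.Agent.Lib.MP_0bc52e_nt.T
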