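import Pool.Agent.Lib.MP_0bc52e_nt.T.StmH

/-!
# [TH gap] (MP_0bc52e_nt, Theorem (T163)): an arithmetic lemma on floors
-/

namespace Pool.Agent.Lib.MP_0bc52e_nt.T

open Pool.Agent.Lib.MP_0bc52e_nt.LC

/-- the least `k` with `N ≤ k c` -/
private lemma p_gap_least (c N : ℤ) (hc : 0 < c) : ∃ k : ℤ, (k - 1) * c < N ∧ N ≤ k * c := by
  refine ⟨(N - 1) / c + 1, ?_, ?_⟩
  · have h := Int.mul_ediv_self_le (x := N - 1) (k := c) hc.ne'
    have e : ((N - 1) / c + 1 - 1) * c = c * ((N - 1) / c) := by ring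
    rw [e]
    omega
  · have h := Int.lt_mul_ediv_self_add (x := N - 1) hc
    have e : ((N - 1) / c + 1) * c = c * ((N - 1) / c) + c := by ring
    rw [e]
    omega

private lemma p_gap_mono {q b x y : ℤ} (hq : 0 < q) (hb : 0 < b) (h : x ≤ y) :
    x * b / q ≤ y * b / q :=
  Int.ediv_le_ediv hq (mul_le_mul_of_nonneg_right h hb.le)

/-- two jumps of `k b / q` are at distance at least `κ - 1` -/
private lemma p_gap_two {q b κ x y : ℤ} (hq : 0 < q) (hb : 0 < b) (hκ : (κ - 1) * b < q)
    (hxy : x < y) (hx : (x - 1) * b / q < x * b / q) (hy : (y - 1) * b / q < y * b / q) :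
    κ ≤ y - x + 1 := by
  by_contra hcon
  push Not at hcon
  have h1 : x * b / q ≤ (y - 1) * b / q := p_gap_mono hq hb (by omega)
  have h2 : q * (y * b / q) ≤ y * b := Int.mul_ediv_self_le hq.ne'
  have h3 : (x - 1) * b < q * ((x - 1) * b / q) + q := Int.lt_mul_ediv_self_add hq
  have h4 : (y - x + 1) * b ≤ (κ - 1) * b := mul_le_mul_of_nonneg_right (by omega) hb.le
  have h5 : q * ((x - 1) * b / q + 2) ≤ q * (y * b / q) :=
    mul_le_mul_of_nonneg_left (by omega) hq.le
  have e1 : (y - x + 1) * b = y * b - (x - 1) * b := by ring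
  have e2 : q * ((x - 1) * b / q + 2) = q * ((x - 1) * b / q) + 2 * q := by ring
  rw [e1] at h4
  rw [e2] at h5
  omega

private lemma p_gap_last {q b : ℤ} (hb : 0 < b) (hbq : b < q) : (q - 1) * b / q = b - 1 := by
  have hq : 0 < q := by omega
  rw [Int.ediv_eq_iff_of_pos hq]
  constructor
  · nlinarith
  · nlinarith

/-- the main case -/
private lemma p_gap_main {q b c d κ : ℤ} (hq : 3 ≤ q) (hb : 0 < b) (hc : 2 ≤ c) (hd : 2 ≤ d)
    (hbq : 2 * b < q) (hsum : 1 + b = c + d)
    (H : ∀ k : ℤ, 0 ≤ k → k < q → k * b / q = k * c / q + k * d / q)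
    (hκ3 : 3 ≤ κ) (hκ1 : (κ - 1) * b < q) (hκc : q ≤ κ * c) (hκd : κ * d < q) : False := by
  have hq0 : 0 < q := by omega
  have hc0 : 0 < c := by omega
  have hd0 : 0 < d := by omega
  -- the first jump of `F_d`
  obtain ⟨k0, hk0a, hk0b⟩ := p_gap_least d q hd0
  have hκk0 : κ < k0 := by
    by_contra hcon
    push Not at hcon
    have := mul_le_mul_of_nonneg_right hcon hd0.le
    omega
  have hk0q : k0 ≤ q - 1 := by
    by_contra hcon
    push Not at hcon
    have h1 : (q - 1) * d ≤ (k0 - 1) * d := mul_le_mul_of_nonneg_right (by omega) hd0.le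
    have h2 : q ≤ (q - 1) * d := by nlinarith
    omega
  have hd1 : 1 ≤ k0 * d / q := by
    rw [Int.le_ediv_iff_mul_le hq0, one_mul]; exact hk0b
  have hd2 : (k0 - 1) * d / q < 1 := by
    rw [Int.ediv_lt_iff_lt_mul hq0, one_mul]; exact hk0a
  have hd3 : 0 ≤ (k0 - 1) * d / q := Int.ediv_nonneg (by
    have : 0 ≤ k0 - 1 := by omega
    positivity) hq0.le
  have Hk0 := H k0 (by omega) (by omega)
  have Hk0' := H (k0 - 1) (by omega) (by omega)
  -- `F_b` jumps by at most one
  have hstep : k0 * b / q ≤ (k0 - 1) * b / q + 1 := by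
    have h1 : k0 * b / q ≤ ((k0 - 1) * b + q) / q := by
      apply Int.ediv_le_ediv hq0
      have e : k0 * b = (k0 - 1) * b + b := by ring
      rw [e]; omega
    have h2 : ((k0 - 1) * b + q) / q = (k0 - 1) * b / q + 1 := by
      rw [Int.add_ediv_of_dvd_right (dvd_refl q), Int.ediv_self hq0.ne']
    omega
  have hmono := p_gap_mono (x := k0 - 1) (y := k0) hq0 hc0 (by omega)
  obtain ⟨m, hm⟩ : ∃ m, m = (k0 - 1) * c / q := ⟨_, rfl⟩
  have hm1 : k0 * c / q = m := by omega
  have hm2 : 1 ≤ m := by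
    have h1 : 1 ≤ κ * c / q := by rw [Int.le_ediv_iff_mul_le hq0, one_mul]; exact hκc
    have h2 := p_gap_mono (x := κ) (y := k0 - 1) hq0 hc0 (by omega)
    omega
  have hcq : c < q := by omega
  have hmc : m ≤ c - 1 := by
    have h1 := p_gap_mono (x := k0) (y := q - 1) hq0 hc0 (by omega)
    rw [p_gap_last hc0 hcq] at h1
    omega
  -- `k1` and `k2`
  obtain ⟨k1, hk1a, hk1b⟩ := p_gap_least c (m * q) hc0
  obtain ⟨k2, hk2a, hk2b⟩ := p_gap_least c ((m + 1) * q) hc0
  have hlow : m * q ≤ (k0 - 1) * c := by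
    have := (Int.le_ediv_iff_mul_le (a := m) (b := (k0 - 1) * c) hq0).1 (by omega)
    exact this
  have hupp : k0 * c < (m + 1) * q := by
    have := (Int.ediv_lt_iff_lt_mul (a := k0 * c) (b := m + 1) hq0).1 (by omega)
    exact this
  have hk1k0 : k1 ≤ k0 - 1 := by
    by_contra hcon
    push Not at hcon
    have h1 : (k0 - 1) * c ≤ (k1 - 1) * c := mul_le_mul_of_nonneg_right (by omega) hc0.le
    omega
  have hk1pos : 1 ≤ k1 := by
    by_contra hcon
    push Not at hcon
    have h1 : k1 * c ≤ 0 := mul_nonpos_of_nonpos_of_nonneg (by omega) hc0.le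
    have h2 : 0 < m * q := by positivity
    omega
  have hk2k0 : k0 < k2 := by
    by_contra hcon
    push Not at hcon
    have h1 : k2 * c ≤ k0 * c := mul_le_mul_of_nonneg_right hcon hc0.le
    omega
  have hk2q : k2 ≤ q := by
    by_contra hcon
    push Not at hcon
    have h1 : q * c ≤ (k2 - 1) * c := mul_le_mul_of_nonneg_right (by omega) hc0.le
    have h2 : (m + 1) * q ≤ c * q := mul_le_mul_of_nonneg_right (by omega) hq0.le
    have e : c * q = q * c := by ring
    omega
  -- jumps of `F_b`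
  have j0 : (k0 - 1) * b / q < k0 * b / q := by omega
  have j1 : (k1 - 1) * b / q < k1 * b / q := by
    have a1 : m ≤ k1 * c / q := (Int.le_ediv_iff_mul_le hq0).2 hk1b
    have a2 : (k1 - 1) * c / q < m := (Int.ediv_lt_iff_lt_mul hq0).2 hk1a
    have a3 := p_gap_mono (x := k1 - 1) (y := k1) hq0 hd0 (by omega)
    have a4 := H k1 (by omega) (by omega)
    have a5 := H (k1 - 1) (by omega) (by omega)
    omega
  have j2 : (k2 - 1) * b / q < k2 * b / q := by
    rcases eq_or_lt_of_le hk2q with h | h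
    · rw [h, p_gap_last hb (by omega), Int.mul_ediv_cancel_left _ hq0.ne']
      omega
    · have a1 : m + 1 ≤ k2 * c / q := (Int.le_ediv_iff_mul_le hq0).2 hk2b
      have a2 : (k2 - 1) * c / q < m + 1 := (Int.ediv_lt_iff_lt_mul hq0).2 hk2a
      have a3 := p_gap_mono (x := k2 - 1) (y := k2) hq0 hd0 (by omega)
      have a4 := H k2 (by omega) (by omega)
      have a5 := H (k2 - 1) (by omega) (by omega)
      omega
  have g1 := p_gap_two hq0 hb hκ1 (x := k1) (y := k0) (by omega) j1 j0
  have g2 := p_gap_two hq0 hb hκ1 (x := k0) (y := k2) (by omega) j0 j2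
  have g3 : k2 ≤ k1 + κ := by
    by_contra hcon
    push Not at hcon
    have h1 : (k1 + κ) * c ≤ (k2 - 1) * c := mul_le_mul_of_nonneg_right (by omega) hc0.le
    have e1 : (k1 + κ) * c = k1 * c + κ * c := by ring
    have e2 : (m + 1) * q = m * q + q := by ring
    omega
  omega

theorem p_gap : S_gap := by
  intro q b c d hq hb hc hd hbq hsum H
  by_contra hcon
  push Not at hcon
  obtain ⟨hc1, hd1⟩ := hcon
  have hq0 : 0 < q := by omega
  have H' : ∀ k : ℤ, 0 ≤ k → k < q → k * b / q = k * c / q + k * d / q := by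
    intro k h1 h2
    rcases eq_or_lt_of_le h1 with h | h
    · rw [← h]; simp
    · exact H k h h2
  obtain ⟨κ, hκ1, hκ2⟩ := p_gap_least b q hb
  have hκ3 : 3 ≤ κ := by
    by_contra hlt
    push Not at hlt
    have h1 : κ * b ≤ 2 * b := mul_le_mul_of_nonneg_right (by omega) hb.le
    omega
  have hκq : κ < q := by
    by_contra hlt
    push Not at hlt
    have h1 : (q - 1) * b ≤ (κ - 1) * b := mul_le_mul_of_nonneg_right (by omega) hb.le
    have h2 : (q - 1) * 2 ≤ (q - 1) * b := mul_le_mul_of_nonneg_left (by omega) (by omega)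
    omega
  have hFb : κ * b / q = 1 := by
    rw [Int.ediv_eq_iff_of_pos hq0]
    constructor
    · linarith
    · have e : κ * b = (κ - 1) * b + b := by ring
      rw [e]; linarith
  have hκH := H' κ (by omega) hκq
  rw [hFb] at hκH
  have n1 : 0 ≤ κ * c / q := Int.ediv_nonneg (by positivity) hq0.le
  have n2 : 0 ≤ κ * d / q := Int.ediv_nonneg (by positivity) hq0.le
  rcases (by omega : (κ * c / q = 1 ∧ κ * d / q = 0) ∨ (κ * c / q = 0 ∧ κ * d / q = 1)) with
    ⟨h1, h2⟩ | ⟨h1, h2⟩
  · have g1 : q ≤ κ * c := by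
      have := (Int.le_ediv_iff_mul_le (a := 1) (b := κ * c) hq0).1 (by omega)
      linarith
    have g2 : κ * d < q := by
      have := (Int.ediv_lt_iff_lt_mul (a := κ * d) (b := 1) hq0).1 (by omega)
      linarith
    exact p_gap_main hq hb (by omega) (by omega) hbq hsum H' hκ3 hκ1 g1 g2
  · have g1 : q ≤ κ * d := by
      have := (Int.le_ediv_iff_mul_le (a := 1) (b := κ * d) hq0).1 (by omega)
      linarith
    have g2 : κ * c < q := by
      have := (Int.ediv_lt_iff_lt_mul (a := κ * c) (b := 1) hq0).1 (by omega)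
      linarith
    exact p_gap_main (c := d) (d := c) hq hb (by omega) (by omega) hbq (by omega)
      (fun k h h' => by rw [H' k h h', add_comm]) hκ3 hκ1 g1 g2

end Pool.Agent.Lib.MP_0bc52e_nt.T
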