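import Pool.Agent.Lib.MP_0bc52e_nt.T.StmH

/-!
# MP_0bc52e_nt, T163, piece h3
-/

namespace Pool.Agent.Lib.MP_0bc52e_nt.T

open Pool.Agent.Lib.MP_0bc52e_nt.LC

private theorem p_h3_big (h_holeW : S_holeW) (h u₁ u₂ : ℤ) (h9 : 9 ≤ h)
    (H : ∀ k y₁ y₂ : ℤ, 0 < k → k < h → ¬ (h * y₁ - k * u₁ + (h * y₂ - k * u₂) ≤ h - k ∧
      h * y₁ - k * u₁ - 2 * (h * y₂ - k * u₂) ≤ h - k ∧
      h * y₂ - k * u₂ - 2 * (h * y₁ - k * u₁) ≤ h - k)) : False := by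
  have hR : (9 : ℝ) ≤ h := by exact_mod_cast h9
  have hpos : (0 : ℝ) < h := by linarith
  have hne : (h : ℝ) ≠ 0 := hpos.ne'
  obtain ⟨i, j, σ, hσ, v₁, v₂, hx, hy, e1, e2, e3⟩ := h_holeW (-(u₁ : ℝ) / h) (-(u₂ : ℝ) / h)
    (1 - 1 / h) (by
      intro i j hW
      obtain ⟨w1, w2, w3⟩ := hW
      apply H 1 (-i) (-j) one_pos (by linarith)
      have k1 := mul_le_mul_of_nonneg_left w1 hpos.le
      have k2 := mul_le_mul_of_nonneg_left w2 hpos.le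
      have k3 := mul_le_mul_of_nonneg_left w3 hpos.le
      field_simp at k1 k2 k3
      refine ⟨?_, ?_, ?_⟩
      · have : ((h * (-i) - 1 * u₁ + (h * (-j) - 1 * u₂) : ℤ) : ℝ) ≤ ((h - 1 : ℤ) : ℝ) := by
          push_cast
          linarith
        exact_mod_cast this
      · have : ((h * (-i) - 1 * u₁ - 2 * (h * (-j) - 1 * u₂) : ℤ) : ℝ) ≤ ((h - 1 : ℤ) : ℝ) := by
          push_cast
          linarith
        exact_mod_cast this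
      · have : ((h * (-j) - 1 * u₂ - 2 * (h * (-i) - 1 * u₁) : ℤ) : ℝ) ≤ ((h - 1 : ℤ) : ℝ) := by
          push_cast
          linarith
        exact_mod_cast this)
  have g1 : (h : ℝ) * (-(3 * i + σ)) - 3 * u₁ = 3 * h * v₁ := by
    have : -(u₁ : ℝ) = h * (i + σ / 3 + v₁) := by
      rw [← hx]
      field_simp
    linarith
  have g2 : (h : ℝ) * (-(3 * j - σ)) - 3 * u₂ = 3 * h * v₂ := by
    have : -(u₂ : ℝ) = h * (j - σ / 3 + v₂) := by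
      rw [← hy]
      field_simp
    linarith
  have hh1 : (h : ℝ) * (1 - (1 - 1 / h)) = 1 := by
    field_simp
    ring
  have e1' := mul_lt_mul_of_pos_left e1 hpos
  have e2' := mul_lt_mul_of_pos_left e2 hpos
  have e3' := mul_lt_mul_of_pos_left e3 hpos
  rw [hh1] at e1' e2' e3'
  apply H 3 (-(3 * i + σ)) (-(3 * j - σ)) (by norm_num) (by linarith)
  refine ⟨?_, ?_, ?_⟩
  · have : ((h * (-(3 * i + σ)) - 3 * u₁ + (h * (-(3 * j - σ)) - 3 * u₂) : ℤ) : ℝ) ≤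
        ((h - 3 : ℤ) : ℝ) := by
      push_cast
      rw [g1, g2]
      linarith
    exact_mod_cast this
  · have : ((h * (-(3 * i + σ)) - 3 * u₁ - 2 * (h * (-(3 * j - σ)) - 3 * u₂) : ℤ) : ℝ) ≤
        ((h - 3 : ℤ) : ℝ) := by
      push_cast
      rw [g1, g2]
      linarith
    exact_mod_cast this
  · have : ((h * (-(3 * j - σ)) - 3 * u₂ - 2 * (h * (-(3 * i + σ)) - 3 * u₁) : ℤ) : ℝ) ≤
        ((h - 3 : ℤ) : ℝ) := by
      push_cast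
      rw [g1, g2]
      linarith
    exact_mod_cast this

private theorem p_h3_fin (h : ℤ) (n : ℕ) (hn : h = n) (u₁ u₂ : ℤ) (hn0 : 0 < n)
    (H : ∀ k y₁ y₂ : ℤ, 0 < k → k < h → ¬ (h * y₁ - k * u₁ + (h * y₂ - k * u₂) ≤ h - k ∧
      h * y₁ - k * u₁ - 2 * (h * y₂ - k * u₂) ≤ h - k ∧
      h * y₂ - k * u₂ - 2 * (h * y₁ - k * u₁) ≤ h - k)) :
    ∃ a ∈ List.range n, ∃ b ∈ List.range n, (n : ℤ) ∣ u₁ - a ∧ (n : ℤ) ∣ u₂ - b ∧
      ∀ k ∈ List.range n, 0 < k → ∀ s ∈ List.range (n + 2), ∀ t ∈ List.range (n + 2),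
        ¬ ((n : ℤ) * ((s : ℤ) - 1) - k * a + (n * ((t : ℤ) - 1) - k * b) ≤ n - k ∧
          (n : ℤ) * ((s : ℤ) - 1) - k * a - 2 * (n * ((t : ℤ) - 1) - k * b) ≤ n - k ∧
          (n : ℤ) * ((t : ℤ) - 1) - k * b - 2 * (n * ((s : ℤ) - 1) - k * a) ≤ n - k) := by
  subst hn
  have hn' : (0 : ℤ) < n := by exact_mod_cast hn0
  obtain ⟨a, ha⟩ := Int.eq_ofNat_of_zero_le (Int.emod_nonneg u₁ hn'.ne')
  obtain ⟨b, hb⟩ := Int.eq_ofNat_of_zero_le (Int.emod_nonneg u₂ hn'.ne')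
  have ha2 := Int.emod_lt_of_pos u₁ hn'
  have hb2 := Int.emod_lt_of_pos u₂ hn'
  have ha3 := Int.mul_ediv_add_emod u₁ n
  have hb3 := Int.mul_ediv_add_emod u₂ n
  rw [ha] at ha2 ha3
  rw [hb] at hb2 hb3
  refine ⟨a, List.mem_range.2 (by exact_mod_cast ha2), b, List.mem_range.2 (by exact_mod_cast hb2),
    ⟨u₁ / n, by linarith⟩, ⟨u₂ / n, by linarith⟩, ?_⟩
  intro k hk hk0 s _ t _ hno
  rw [List.mem_range] at hk
  obtain ⟨n1, n2, n3⟩ := hno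
  apply H k ((s : ℤ) - 1 + k * (u₁ / n)) ((t : ℤ) - 1 + k * (u₂ / n)) (by exact_mod_cast hk0)
    (by exact_mod_cast hk)
  have r1 : (n : ℤ) * ((s : ℤ) - 1 + k * (u₁ / n)) - k * u₁ = n * ((s : ℤ) - 1) - k * a := by
    conv_lhs => rw [← ha3]
    have : ((n : ℤ) * (u₁ / n) + a) / n = u₁ / n := by rw [ha3]
    rw [this]
    ring
  have r2 : (n : ℤ) * ((t : ℤ) - 1 + k * (u₂ / n)) - k * u₂ = n * ((t : ℤ) - 1) - k * b := by
    conv_lhs => rw [← hb3]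
    have : ((n : ℤ) * (u₂ / n) + b) / n = u₂ / n := by rw [hb3]
    rw [this]
    ring
  rw [r1, r2]
  exact ⟨n1, n2, n3⟩

private theorem p_h3_seven : ∀ a ∈ List.range 7, ∀ b ∈ List.range 7,
    ¬ ∀ k ∈ List.range 7, 0 < k → ∀ s ∈ List.range (7 + 2), ∀ t ∈ List.range (7 + 2),
        ¬ (((7 : ℕ) : ℤ) * ((s : ℤ) - 1) - k * a + ((7 : ℕ) * ((t : ℤ) - 1) - k * b) ≤ (7 : ℕ) - k ∧
          ((7 : ℕ) : ℤ) * ((s : ℤ) - 1) - k * a - 2 * ((7 : ℕ) * ((t : ℤ) - 1) - k * b) ≤ (7 : ℕ) - k ∧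
          ((7 : ℕ) : ℤ) * ((t : ℤ) - 1) - k * b - 2 * ((7 : ℕ) * ((s : ℤ) - 1) - k * a) ≤ (7 : ℕ) - k) := by
  decide +kernel

private theorem p_h3_five : ∀ a ∈ List.range 5, ∀ b ∈ List.range 5,
    ¬ ∀ k ∈ List.range 5, 0 < k → ∀ s ∈ List.range (5 + 2), ∀ t ∈ List.range (5 + 2),
        ¬ (((5 : ℕ) : ℤ) * ((s : ℤ) - 1) - k * a + ((5 : ℕ) * ((t : ℤ) - 1) - k * b) ≤ (5 : ℕ) - k ∧
          ((5 : ℕ) : ℤ) * ((s : ℤ) - 1) - k * a - 2 * ((5 : ℕ) * ((t : ℤ) - 1) - k * b) ≤ (5 : ℕ) - k ∧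
          ((5 : ℕ) : ℤ) * ((t : ℤ) - 1) - k * b - 2 * ((5 : ℕ) * ((s : ℤ) - 1) - k * a) ≤ (5 : ℕ) - k) := by
  decide +kernel

private theorem p_h3_three : ∀ a ∈ List.range 3, ∀ b ∈ List.range 3,
    (∀ k ∈ List.range 3, 0 < k → ∀ s ∈ List.range (3 + 2), ∀ t ∈ List.range (3 + 2),
        ¬ (((3 : ℕ) : ℤ) * ((s : ℤ) - 1) - k * a + ((3 : ℕ) * ((t : ℤ) - 1) - k * b) ≤ (3 : ℕ) - k ∧
          ((3 : ℕ) : ℤ) * ((s : ℤ) - 1) - k * a - 2 * ((3 : ℕ) * ((t : ℤ) - 1) - k * b) ≤ (3 : ℕ) - k ∧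
          ((3 : ℕ) : ℤ) * ((t : ℤ) - 1) - k * b - 2 * ((3 : ℕ) * ((s : ℤ) - 1) - k * a) ≤ (3 : ℕ) - k)) →
      (a = 1 ∧ b = 2) ∨ (a = 2 ∧ b = 1) := by
  decide +kernel

theorem p_h3 (h_holeW : S_holeW) : S_h3 := by
  intro h u₁ u₂ h2 hodd H
  rcases le_or_gt 9 h with h9 | h9
  · exact (p_h3_big h_holeW h u₁ u₂ h9 H).elim
  · have hcases : h = 3 ∨ h = 5 ∨ h = 7 := by omega
    rcases hcases with hh | hh | hh
    · refine ⟨hh, ?_⟩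
      obtain ⟨a, ha, b, hb, d1, d2, hF⟩ := p_h3_fin h 3 hh u₁ u₂ (by norm_num) H
      have := p_h3_three a ha b hb hF
      rcases this with ⟨rfl, rfl⟩ | ⟨rfl, rfl⟩
      · left
        constructor <;> omega
      · right
        constructor <;> omega
    · exfalso
      obtain ⟨a, ha, b, hb, d1, d2, hF⟩ := p_h3_fin h 5 hh u₁ u₂ (by norm_num) H
      exact p_h3_five a ha b hb hF
    · exfalso
      obtain ⟨a, ha, b, hb, d1, d2, hF⟩ := p_h3_fin h 7 hh u₁ u₂ (by norm_num) H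
      exact p_h3_seven a ha b hb hF

end Pool.Agent.Lib.MP_0bc52e_nt.T
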