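import Pool.Agent.Lib.MP_0bc52e_nt.T.StmN

/-! MP_0bc52e_nt, piece [TN holeD] (helper35). -/

namespace Pool.Agent.Lib.MP_0bc52e_nt.T

open Pool.Agent.Lib.MP_0bc52e_nt.LC

theorem p_holeD : S_holeD := by
  intro x y r h
  have h00 := h ⌊x⌋ ⌊y⌋
  have h10 := h (⌊x⌋ + 1) ⌊y⌋
  have h01 := h ⌊x⌋ (⌊y⌋ + 1)
  have h11 := h (⌊x⌋ + 1) (⌊y⌋ + 1)
  push_cast at h10 h01 h11
  have f0 := Int.floor_le x
  have f1 := Int.lt_floor_add_one x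
  have g0 := Int.floor_le y
  have g1 := Int.lt_floor_add_one y
  refine ⟨⌊x⌋, ⌊y⌋, x - ⌊x⌋ - 1 / 2, y - ⌊y⌋ - 1 / 2, by ring, by ring, ?_⟩
  generalize (⌊x⌋ : ℝ) = i at *
  generalize (⌊y⌋ : ℝ) = j at *
  rw [not_le] at h00 h10 h01 h11
  have a1 : |x - i| = x - i := abs_of_nonneg (by linarith)
  have a2 : |y - j| = y - j := abs_of_nonneg (by linarith)
  have a3 : |x - (i + 1)| = i + 1 - x := by rw [abs_of_nonpos (by linarith)]; ring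
  have a4 : |y - (j + 1)| = j + 1 - y := by rw [abs_of_nonpos (by linarith)]; ring
  rw [a1, a2] at h00
  rw [a3, a2] at h10
  rw [a1, a4] at h01
  rw [a3, a4] at h11
  rcases abs_cases (x - i - 1 / 2) with ⟨b1, _⟩ | ⟨b1, _⟩ <;>
    rcases abs_cases (y - j - 1 / 2) with ⟨b2, _⟩ | ⟨b2, _⟩ <;> rw [b1, b2] <;> linarith

end Pool.Agent.Lib.MP_0bc52e_nt.T
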