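import Pool.Agent.Lib.MP_0bc52e_nt.T.StmN

/-!
# Piece [holeT]: the holes between the translates of the dilated triangle
-/

namespace Pool.Agent.Lib.MP_0bc52e_nt.T

open Pool.Agent.Lib.MP_0bc52e_nt.LC

theorem p_holeT : S_holeT := by
  intro x y r H
  have hf0 := Int.fract_nonneg x
  have hf1 := Int.fract_lt_one x
  have hg0 := Int.fract_nonneg y
  have hg1 := Int.fract_lt_one y
  have hx : x = (⌊x⌋ : ℝ) + Int.fract x := (Int.floor_add_fract x).symm
  have hy : y = (⌊y⌋ : ℝ) + Int.fract y := (Int.floor_add_fract y).symm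
  set f := Int.fract x with hfdef
  set g := Int.fract y with hgdef
  set i₀ := ⌊x⌋ with hi
  set j₀ := ⌊y⌋ with hj
  rcases lt_or_ge r g with hrg | hrg
  · have H1 := H i₀ (j₀ + 1)
    have H2 := H (i₀ + 1) (j₀ + 1)
    have e1 : y - ((j₀ + 1 : ℤ) : ℝ) = g - 1 := by push_cast; linarith
    have e2 : x - (i₀ : ℝ) = f := by linarith
    have e3 : x - ((i₀ + 1 : ℤ) : ℝ) = f - 1 := by push_cast; linarith
    rw [e1, e2, abs_of_nonneg hf0] at H1
    rw [e1, e3, abs_of_nonpos (by linarith)] at H2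
    refine ⟨i₀, j₀ + 1, f - 1 / 2, g - 1, by linarith, by push_cast; linarith, by linarith, ?_⟩
    rcases le_or_gt (g - 1) r with h | h
    · have H1' : r < 2 * f - (g - 1) := by
        by_contra hc
        exact H1 ⟨h, by linarith⟩
      have H2' : r < 2 * (-(f - 1)) - (g - 1) := by
        by_contra hc
        exact H2 ⟨h, by linarith⟩
      rcases abs_cases (f - 1 / 2) with ⟨h1, _⟩ | ⟨h1, _⟩ <;> rw [h1] <;> linarith
    · rcases abs_cases (f - 1 / 2) with ⟨h1, _⟩ | ⟨h1, _⟩ <;> rw [h1] <;> linarith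
  · have H1 := H i₀ j₀
    have H2 := H (i₀ + 1) j₀
    have e1 : y - (j₀ : ℝ) = g := by linarith
    have e2 : x - (i₀ : ℝ) = f := by linarith
    have e3 : x - ((i₀ + 1 : ℤ) : ℝ) = f - 1 := by push_cast; linarith
    rw [e1, e2, abs_of_nonneg hf0] at H1
    rw [e1, e3, abs_of_nonpos (by linarith)] at H2
    have H1' : r < 2 * f - g := by
      by_contra hc
      exact H1 ⟨hrg, by linarith⟩
    have H2' : r < 2 * (-(f - 1)) - g := by
      by_contra hc
      exact H2 ⟨hrg, by linarith⟩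
    refine ⟨i₀, j₀, f - 1 / 2, g, by linarith, by linarith, by linarith, ?_⟩
    rcases abs_cases (f - 1 / 2) with ⟨h1, _⟩ | ⟨h1, _⟩ <;> rw [h1] <;> linarith

end Pool.Agent.Lib.MP_0bc52e_nt.T
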