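import Pool.Agent.Lib.MP_0bc52e_nt.T.StmN

/-!
MP_0bc52e_nt, Theorem (T163): piece [holeW], the holes between the translates of `r • W`.
-/

namespace Pool.Agent.Lib.MP_0bc52e_nt.T

open Pool.Agent.Lib.MP_0bc52e_nt.LC

theorem p_holeW : S_holeW := by
  intro x y r h
  have hf0 := Int.fract_nonneg x
  have hf1 := (Int.fract_lt_one x).le
  have hg0 := Int.fract_nonneg y
  have hg1 := (Int.fract_lt_one y).le
  have hx := Int.floor_add_fract x
  have hy := Int.floor_add_fract y
  have h00 := h ⌊x⌋ ⌊y⌋
  have h10 := h (⌊x⌋ + 1) ⌊y⌋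
  have h01 := h ⌊x⌋ (⌊y⌋ + 1)
  have h11 := h (⌊x⌋ + 1) (⌊y⌋ + 1)
  unfold inW at h00 h10 h01 h11
  push_cast at h00 h10 h01 h11
  generalize Int.fract x = f at *
  generalize Int.fract y = g at *
  generalize ⌊x⌋ = i at *
  generalize ⌊y⌋ = j at *
  subst hx hy
  have k1 : r < f + g := by
    by_contra hc
    push Not at hc
    exact h00 ⟨by linarith, by linarith, by linarith⟩
  rcases le_or_gt f g with hfg | hfg
  · have k2 : r < f - 2 * g + 2 := by
      by_contra hc
      push Not at hc
      exact h01 ⟨by linarith, by linarith, by linarith⟩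
    have k3 : r < g - 2 * f + 1 := by
      by_contra hc
      push Not at hc
      exact h11 ⟨by linarith, by linarith, by linarith⟩
    refine ⟨i, j + 1, 1, Or.inl rfl, f - 1 / 3, g - 2 / 3, ?_, ?_, ?_, ?_, ?_⟩
    · push_cast; ring
    · push_cast; ring
    all_goals linarith
  · have k2 : r < g - 2 * f + 2 := by
      by_contra hc
      push Not at hc
      exact h10 ⟨by linarith, by linarith, by linarith⟩
    have k3 : r < f - 2 * g + 1 := by
      by_contra hc
      push Not at hc
      exact h11 ⟨by linarith, by linarith, by linarith⟩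
    refine ⟨i + 1, j, -1, Or.inr rfl, f - 2 / 3, g - 1 / 3, ?_, ?_, ?_, ?_, ?_⟩
    · push_cast; ring
    · push_cast; ring
    all_goals linarith

end Pool.Agent.Lib.MP_0bc52e_nt.T
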