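import Pool.Agent.Lib.MP_0bc52e_nt.T.StmH

/-!
# MP_0bc52e_nt, Theorem (T163): piece [nrm3]
-/

namespace Pool.Agent.Lib.MP_0bc52e_nt.T

open Pool.Agent.Lib.MP_0bc52e_nt.LC

theorem p_nrm3 : S_nrm3 := by
  rintro ⟨u₁, u₂, u₃⟩ hu h
  simp only at hu h
  subst hu
  rcases h with ⟨⟨i, hi⟩, ⟨j, hj⟩⟩ | ⟨⟨i, hi⟩, ⟨j, hj⟩⟩
  · have h1 : u₁ = 1 + 3 * i := by linarith
    have h2 : u₂ = -1 + 3 * j := by linarith
    subst h1 h2
    refine ⟨fr (0, 0, 0) (1, 0, 0) (0, 1, 0) (i, j, 1), ⟨_, _, _, _, Or.inl ?_, fun v => rfl⟩,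
      ?_, ?_, Or.inl ⟨?_, ?_⟩, ?_⟩
    · simp [det3]
    · simp only [fr, ip]
      refine Prod.ext ?_ (Prod.ext ?_ ?_)
      · push_cast
        ring
      · push_cast
        ring
      · push_cast
        ring
    · intro v
      simp [fr]
    · simp [fr, ip]
    · simp [fr, ip]
    · simp [fr, ip]
  · have h1 : u₁ = -1 + 3 * i := by linarith
    have h2 : u₂ = 1 + 3 * j := by linarith
    subst h1 h2
    refine ⟨fr (0, 0, 0) (0, 1, 0) (1, 0, 0) (i, j, 1), ⟨_, _, _, _, Or.inr ?_, fun v => rfl⟩,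
      ?_, ?_, Or.inr ⟨?_, ?_⟩, ?_⟩
    · simp [det3]
    · simp only [fr, ip]
      refine Prod.ext ?_ (Prod.ext ?_ ?_)
      · push_cast
        ring
      · push_cast
        ring
      · push_cast
        ring
    · intro v
      simp [fr]
    · simp [fr, ip]
    · simp [fr, ip]
    · simp [fr, ip]

end Pool.Agent.Lib.MP_0bc52e_nt.T
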