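import Pool.Agent.Lib.MP_0bc52e_nt.T.StmN

set_option autoImplicit false

namespace Pool.Agent.Lib.MP_0bc52e_nt.T

open Pool.Agent.Lib.MP_0bc52e_nt.LC

theorem p_opp2 (h_prim : S_prim) : S_opp2 := by
  intro P v w α β hP h0 hv hw hv0 hα hβ hrel
  obtain ⟨a, b, c, k, hk, hdet, hvk⟩ := h_prim v hv0
  have hv1 : v.1 = k * c.1 := congrArg (fun q : ℤ × ℤ × ℤ => q.1) hvk
  have hv2 : v.2.1 = k * c.2.1 := congrArg (fun q : ℤ × ℤ × ℤ => q.2.1) hvk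
  have hv3 : v.2.2 = k * c.2.2 := congrArg (fun q : ℤ × ℤ × ℤ => q.2.2) hvk
  have hkR : (0 : ℝ) < k := by exact_mod_cast hk
  have hk1 : (1 : ℝ) ≤ k := by exact_mod_cast hk
  -- components of the relation
  have hr : α * ((v.1 : ℤ) : ℝ) + β * ((w.1 : ℤ) : ℝ) = 0 ∧
      α * ((v.2.1 : ℤ) : ℝ) + β * ((w.2.1 : ℤ) : ℝ) = 0 ∧
      α * ((v.2.2 : ℤ) : ℝ) + β * ((w.2.2 : ℤ) : ℝ) = 0 := by
    simpa only [ip, Prod.smul_mk, Prod.mk_add_mk, smul_eq_mul, Prod.mk_eq_zero] using hrel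
  obtain ⟨r1, r2, r3⟩ := hr
  rw [hv1, Int.cast_mul] at r1
  rw [hv2, Int.cast_mul] at r2
  rw [hv3, Int.cast_mul] at r3
  have hdetR : ((det3 a b c : ℤ) : ℝ) = 1 := by rw [hdet]; norm_num
  have hl : β * ((det3 a b w : ℤ) : ℝ) = -(α * k) := by
    simp only [det3] at hdetR ⊢
    push_cast at hdetR ⊢
    linear_combination ((a.2.1 : ℝ) * b.2.2 - a.2.2 * b.2.1) * r1 -
      ((a.1 : ℝ) * b.2.2 - a.2.2 * b.1) * r2 + ((a.1 : ℝ) * b.2.1 - a.2.1 * b.1) * r3 -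
      (α * k) * hdetR
  have hpos : (0 : ℝ) < -((det3 a b w : ℤ) : ℝ) := by
    have h1 : 0 < β * -((det3 a b w : ℤ) : ℝ) := by
      rw [mul_neg, hl, neg_neg]
      exact mul_pos hα hkR
    exact (mul_pos_iff_of_pos_left hβ).mp h1
  have hposZ : 0 < -(det3 a b w) := by exact_mod_cast hpos
  have hl1 : (1 : ℝ) ≤ -((det3 a b w : ℤ) : ℝ) := by
    have : (1 : ℤ) ≤ -(det3 a b w) := hposZ
    exact_mod_cast this
  have hα' : α * k = β * -((det3 a b w : ℤ) : ℝ) := by linarith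
  have w1 : ((w.1 : ℤ) : ℝ) = -((det3 a b w : ℤ) : ℝ) * -(c.1 : ℝ) := by
    have h1 : β * (((w.1 : ℤ) : ℝ) - -((det3 a b w : ℤ) : ℝ) * -(c.1 : ℝ)) = 0 := by
      linear_combination r1 - (c.1 : ℝ) * hα'
    have h2 := (mul_eq_zero.mp h1).resolve_left hβ.ne'
    linarith
  have w2 : ((w.2.1 : ℤ) : ℝ) = -((det3 a b w : ℤ) : ℝ) * -(c.2.1 : ℝ) := by
    have h1 : β * (((w.2.1 : ℤ) : ℝ) - -((det3 a b w : ℤ) : ℝ) * -(c.2.1 : ℝ)) = 0 := by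
      linear_combination r2 - (c.2.1 : ℝ) * hα'
    have h2 := (mul_eq_zero.mp h1).resolve_left hβ.ne'
    linarith
  have w3 : ((w.2.2 : ℤ) : ℝ) = -((det3 a b w : ℤ) : ℝ) * -(c.2.2 : ℝ) := by
    have h1 : β * (((w.2.2 : ℤ) : ℝ) - -((det3 a b w : ℤ) : ℝ) * -(c.2.2 : ℝ)) = 0 := by
      linear_combination r3 - (c.2.2 : ℝ) * hα'
    have h2 := (mul_eq_zero.mp h1).resolve_left hβ.ne'
    linarith
  refine ⟨c, ?_, ?_, ?_⟩
  · rintro rfl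
    apply hv0
    rw [hvk, smul_zero]
  · have h1 : ip c = ((k : ℝ)⁻¹) • ip v := by
      simp only [ip, Prod.smul_mk, smul_eq_mul, hv1, hv2, hv3, Int.cast_mul,
        inv_mul_cancel_left₀ hkR.ne']
    rw [h1]
    exact hP.smul_mem_of_zero_mem h0 hv ⟨(inv_pos.mpr hkR).le, inv_le_one_of_one_le₀ hk1⟩
  · have h1 : ip (-c) = ((-((det3 a b w : ℤ) : ℝ))⁻¹) • ip w := by
      simp only [ip, Prod.smul_mk, smul_eq_mul, w1, w2, w3, Prod.fst_neg, Prod.snd_neg,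
        Int.cast_neg, inv_mul_cancel_left₀ hpos.ne']
    rw [h1]
    exact hP.smul_mem_of_zero_mem h0 hw ⟨(inv_pos.mpr hpos).le, inv_le_one_of_one_le₀ hl1⟩

end Pool.Agent.Lib.MP_0bc52e_nt.T
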