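import Pool.Agent.Lib.MP_0bc52e_nt.T.StmN

set_option autoImplicit false

namespace Pool.Agent.Lib.MP_0bc52e_nt.T

open Pool.Agent.Lib.MP_0bc52e_nt.LC

theorem p_pln (h_prim : S_prim) : S_pln := by
  intro s t hst
  obtain ⟨⟨a₁, a₂, a₃⟩, ⟨b₁, b₂, b₃⟩, ⟨c₁, c₂, c₃⟩, k, hk, hdet, hn⟩ := h_prim (cr s t) hst
  obtain ⟨s₁, s₂, s₃⟩ := s
  obtain ⟨t₁, t₂, t₃⟩ := t
  simp only [cr, Prod.smul_mk, smul_eq_mul, Prod.mk.injEq] at hn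
  obtain ⟨n1, n2, n3⟩ := hn
  simp only [det3] at hdet
  have hs : s₁ * c₁ + s₂ * c₂ + s₃ * c₃ = 0 := by
    have h1 : k * (s₁ * c₁ + s₂ * c₂ + s₃ * c₃) = 0 := by
      linear_combination -s₁ * n1 - s₂ * n2 - s₃ * n3
    rcases mul_eq_zero.1 h1 with h | h
    · omega
    · exact h
  have ht : t₁ * c₁ + t₂ * c₂ + t₃ * c₃ = 0 := by
    have h1 : k * (t₁ * c₁ + t₂ * c₂ + t₃ * c₃) = 0 := by
      linear_combination -t₁ * n1 - t₂ * n2 - t₃ * n3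
    rcases mul_eq_zero.1 h1 with h | h
    · omega
    · exact h
  refine ⟨cr (b₁, b₂, b₃) (c₁, c₂, c₃), cr (c₁, c₂, c₃) (a₁, a₂, a₃),
    cr (a₁, a₂, a₃) (b₁, b₂, b₃), s₁ * a₁ + s₂ * a₂ + s₃ * a₃, s₁ * b₁ + s₂ * b₂ + s₃ * b₃,
    t₁ * a₁ + t₂ * a₂ + t₃ * a₃, t₁ * b₁ + t₂ * b₂ + t₃ * b₃, ?_, ?_, ?_, ?_⟩
  · have e : det3 (cr (b₁, b₂, b₃) (c₁, c₂, c₃)) (cr (c₁, c₂, c₃) (a₁, a₂, a₃))
        (cr (a₁, a₂, a₃) (b₁, b₂, b₃)) = (a₁ * (b₂ * c₃ - b₃ * c₂) - a₂ * (b₁ * c₃ - b₃ * c₁) +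
          a₃ * (b₁ * c₂ - b₂ * c₁)) ^ 2 := by
      simp only [det3, cr]
      ring
    rw [e, hdet]
    norm_num
  · have e : (s₁ * a₁ + s₂ * a₂ + s₃ * a₃) * (t₁ * b₁ + t₂ * b₂ + t₃ * b₃) -
        (s₁ * b₁ + s₂ * b₂ + s₃ * b₃) * (t₁ * a₁ + t₂ * a₂ + t₃ * a₃) = k := by
      linear_combination (a₂ * b₃ - a₃ * b₂) * n1 + (a₃ * b₁ - a₁ * b₃) * n2 +
        (a₁ * b₂ - a₂ * b₁) * n3 + k * hdet
    rw [e]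
    exact hk
  · simp only [cr, Prod.smul_mk, smul_eq_mul, Prod.mk_add_mk, Prod.mk.injEq]
    refine ⟨?_, ?_, ?_⟩
    · linear_combination -s₁ * hdet + (a₂ * b₃ - a₃ * b₂) * hs
    · linear_combination -s₂ * hdet + (a₃ * b₁ - a₁ * b₃) * hs
    · linear_combination -s₃ * hdet + (a₁ * b₂ - a₂ * b₁) * hs
  · simp only [cr, Prod.smul_mk, smul_eq_mul, Prod.mk_add_mk, Prod.mk.injEq]
    refine ⟨?_, ?_, ?_⟩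
    · linear_combination -t₁ * hdet + (a₂ * b₃ - a₃ * b₂) * ht
    · linear_combination -t₂ * hdet + (a₃ * b₁ - a₁ * b₃) * ht
    · linear_combination -t₃ * hdet + (a₁ * b₂ - a₂ * b₁) * ht

end Pool.Agent.Lib.MP_0bc52e_nt.T
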