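import Pool.Agent.Lib.MP_0bc52e_nt.T.StmN

namespace Pool.Agent.Lib.MP_0bc52e_nt.T

open Pool.Agent.Lib.MP_0bc52e_nt.LC

/-- Bezout with the gcd divided out -/
theorem p_prim_bez (a b : ℤ) (h : a ≠ 0 ∨ b ≠ 0) : ∃ e x y u v : ℤ, 0 < e ∧ a = e * x ∧
    b = e * y ∧ u * x + v * y = 1 := by
  have hg : 0 < (Int.gcd a b : ℤ) := by
    have : 0 < Int.gcd a b := by
      rcases h with h | h
      · exact Int.gcd_pos_of_ne_zero_left b h
      · exact Int.gcd_pos_of_ne_zero_right a h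
    exact_mod_cast this
  obtain ⟨x, hx⟩ := Int.gcd_dvd_left a b
  obtain ⟨y, hy⟩ := Int.gcd_dvd_right a b
  refine ⟨Int.gcd a b, x, y, Int.gcdA a b, Int.gcdB a b, hg, hx, hy, ?_⟩
  have hb := Int.gcd_eq_gcd_ab a b
  have h1 : (Int.gcd a b : ℤ) * (Int.gcdA a b * x + Int.gcdB a b * y) = (Int.gcd a b : ℤ) * 1 := by
    calc (Int.gcd a b : ℤ) * (Int.gcdA a b * x + Int.gcdB a b * y) =
        ((Int.gcd a b : ℤ) * x) * Int.gcdA a b + ((Int.gcd a b : ℤ) * y) * Int.gcdB a b := by ring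
      _ = a * Int.gcdA a b + b * Int.gcdB a b := by rw [← hx, ← hy]
      _ = (Int.gcd a b : ℤ) * 1 := by rw [← hb, mul_one]
  exact mul_left_cancel₀ hg.ne' h1

/-- [prim] -/
theorem p_prim : S_prim := by
  rintro ⟨n1, n2, n3⟩ hn
  by_cases h : n1 = 0 ∧ n2 = 0
  · obtain ⟨rfl, rfl⟩ := h
    have hn3 : n3 ≠ 0 := by
      rintro rfl
      exact hn rfl
    rcases lt_or_gt_of_ne hn3 with h3 | h3
    · refine ⟨(1, 0, 0), (0, -1, 0), (0, 0, -1), -n3, by omega, by simp [det3], ?_⟩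
      simp
    · refine ⟨(1, 0, 0), (0, 1, 0), (0, 0, 1), n3, h3, by simp [det3], ?_⟩
      simp
  · obtain ⟨e, x, y, u, v, he, rfl, rfl, huv⟩ := p_prim_bez n1 n2 (by tauto)
    obtain ⟨k, d, c3, r, s, hk, rfl, rfl, hrs⟩ := p_prim_bez e n3 (Or.inl he.ne')
    refine ⟨(-v, u, 0), (-(s * x), -(s * y), r), (d * x, d * y, c3), k, hk, ?_, ?_⟩
    · simp only [det3]
      have : -v * (-(s * y) * c3 - r * (d * y)) - u * (-(s * x) * c3 - r * (d * x)) +
          0 * (-(s * x) * (d * y) - -(s * y) * (d * x)) =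
          (u * x + v * y) * (r * d + s * c3) := by ring
      rw [this, huv, hrs, one_mul]
    · simp only [Prod.smul_mk, smul_eq_mul, Prod.mk.injEq]
      refine ⟨by ring, by ring, trivial⟩

end Pool.Agent.Lib.MP_0bc52e_nt.T
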