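import Pool.Agent.Lib.MP_0bc52e_nt.T.StmN

/-!
# Piece [quad0]: exchanging a vertex of a tetrahedron around the origin
-/

namespace Pool.Agent.Lib.MP_0bc52e_nt.T

open Pool.Agent.Lib.MP_0bc52e_nt.LC

private lemma p_quad0_conv4 {S : Set (ℝ × ℝ × ℝ)} (hS : Convex ℝ S) {p₁ p₂ p₃ p₄ : ℝ × ℝ × ℝ}
    (h₁ : p₁ ∈ S) (h₂ : p₂ ∈ S) (h₃ : p₃ ∈ S) (h₄ : p₄ ∈ S) {w₁ w₂ w₃ w₄ : ℝ}
    (k₁ : 0 ≤ w₁) (k₂ : 0 ≤ w₂) (k₃ : 0 ≤ w₃) (k₄ : 0 ≤ w₄) (h : w₁ + w₂ + w₃ + w₄ = 1) :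
    w₁ • p₁ + w₂ • p₂ + w₃ • p₃ + w₄ • p₄ ∈ S := by
  have := hS.sum_mem (t := (Finset.univ : Finset (Fin 4))) (w := ![w₁, w₂, w₃, w₄])
    (z := ![p₁, p₂, p₃, p₄])
    (by intro i _; fin_cases i <;> simp [k₁, k₂, k₃, k₄])
    (by simp [Fin.sum_univ_four, h])
    (by intro i _; fin_cases i <;> simp [h₁, h₂, h₃, h₄])
  simpa [Fin.sum_univ_four] using this

/-- The origin is in the tetrahedron. -/
private lemma p_quad0_zero {S : Set (ℝ × ℝ × ℝ)} (hS : Convex ℝ S) {v₀ v₁ v₂ v₃ : ℤ × ℤ × ℤ}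
    {d₀ d₁ d₂ d₃ : ℤ} (h : QD v₀ v₁ v₂ v₃ d₀ d₁ d₂ d₃) (hI : In4 S v₀ v₁ v₂ v₃) :
    (0 : ℝ × ℝ × ℝ) ∈ S := by
  obtain ⟨e0, e1, e2, e3, p0, p1, p2, p3⟩ := h
  obtain ⟨i0, i1, i2, i3⟩ := hI
  have p0R : (0 : ℝ) < d₀ := by exact_mod_cast p0
  have p1R : (0 : ℝ) < d₁ := by exact_mod_cast p1
  have p2R : (0 : ℝ) < d₂ := by exact_mod_cast p2
  have p3R : (0 : ℝ) < d₃ := by exact_mod_cast p3
  have hE : (0 : ℝ) < d₀ + d₁ + d₂ + d₃ := by linarith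
  have hm := p_quad0_conv4 hS i0 i1 i2 i3 (w₁ := d₀ / (d₀ + d₁ + d₂ + d₃))
    (w₂ := d₁ / (d₀ + d₁ + d₂ + d₃)) (w₃ := d₂ / (d₀ + d₁ + d₂ + d₃))
    (w₄ := d₃ / (d₀ + d₁ + d₂ + d₃)) (div_nonneg p0R.le hE.le) (div_nonneg p1R.le hE.le)
    (div_nonneg p2R.le hE.le) (div_nonneg p3R.le hE.le)
    (by rw [← add_div, ← add_div, ← add_div]; exact div_self hE.ne')
  have hz1 : d₀ * v₀.1 + d₁ * v₁.1 + d₂ * v₂.1 + d₃ * v₃.1 = 0 := by
    rw [e0, e1, e2, e3]; simp only [det3]; ring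
  have hz2 : d₀ * v₀.2.1 + d₁ * v₁.2.1 + d₂ * v₂.2.1 + d₃ * v₃.2.1 = 0 := by
    rw [e0, e1, e2, e3]; simp only [det3]; ring
  have hz3 : d₀ * v₀.2.2 + d₁ * v₁.2.2 + d₂ * v₂.2.2 + d₃ * v₃.2.2 = 0 := by
    rw [e0, e1, e2, e3]; simp only [det3]; ring
  have hz1R : (d₀ : ℝ) * v₀.1 + d₁ * v₁.1 + d₂ * v₂.1 + d₃ * v₃.1 = 0 := by exact_mod_cast hz1
  have hz2R : (d₀ : ℝ) * v₀.2.1 + d₁ * v₁.2.1 + d₂ * v₂.2.1 + d₃ * v₃.2.1 = 0 := by
    exact_mod_cast hz2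
  have hz3R : (d₀ : ℝ) * v₀.2.2 + d₁ * v₁.2.2 + d₂ * v₂.2.2 + d₃ * v₃.2.2 = 0 := by
    exact_mod_cast hz3
  have e : ((d₀ / (d₀ + d₁ + d₂ + d₃) : ℝ) • ip v₀ + (d₁ / (d₀ + d₁ + d₂ + d₃) : ℝ) • ip v₁ +
      (d₂ / (d₀ + d₁ + d₂ + d₃) : ℝ) • ip v₂ + (d₃ / (d₀ + d₁ + d₂ + d₃) : ℝ) • ip v₃) = 0 := by
    refine Prod.ext ?_ (Prod.ext ?_ ?_)
    · simp only [ip, Prod.fst_add, Prod.smul_fst, smul_eq_mul, Prod.fst_zero]
      field_simp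
      linarith
    · simp only [ip, Prod.fst_add, Prod.snd_add, Prod.smul_fst, Prod.smul_snd, smul_eq_mul,
        Prod.fst_zero, Prod.snd_zero]
      field_simp
      linarith
    · simp only [ip, Prod.snd_add, Prod.smul_snd, smul_eq_mul, Prod.snd_zero]
      field_simp
      linarith
  rw [e] at hm
  exact hm

theorem p_quad0 (h_opp2 : S_opp2) : S_quad0 := by
  intro P v₀ v₁ v₂ v₃ d₀ d₁ d₂ d₃ hP hQ hI X c₁ c₂ c₃ hX hXP hc1 hc2 hc3 hrel hlt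
  have h0P := p_quad0_zero hP hQ hI
  obtain ⟨e0, e1, e2, e3, p0, p1, p2, p3⟩ := hQ
  obtain ⟨i0, i1, i2, i3⟩ := hI
  have p0R : (0 : ℝ) < d₀ := by exact_mod_cast p0
  have r1 : (X.1 : ℝ) + c₁ * v₁.1 + c₂ * v₂.1 + c₃ * v₃.1 = 0 := by
    have := congrArg (fun x : ℝ × ℝ × ℝ => x.1) hrel
    simpa [ip] using this
  have r2 : (X.2.1 : ℝ) + c₁ * v₁.2.1 + c₂ * v₂.2.1 + c₃ * v₃.2.1 = 0 := by
    have := congrArg (fun x : ℝ × ℝ × ℝ => x.2.1) hrel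
    simpa [ip] using this
  have r3 : (X.2.2 : ℝ) + c₁ * v₁.2.2 + c₂ * v₂.2.2 + c₃ * v₃.2.2 = 0 := by
    have := congrArg (fun x : ℝ × ℝ × ℝ => x.2.2) hrel
    simpa [ip] using this
  have hd0 : (d₀ : ℝ) = v₁.1 * (v₂.2.1 * v₃.2.2 - v₂.2.2 * v₃.2.1) -
      v₁.2.1 * (v₂.1 * v₃.2.2 - v₂.2.2 * v₃.1) + v₁.2.2 * (v₂.1 * v₃.2.1 - v₂.2.1 * v₃.1) := by
    rw [e0]; simp only [det3]; push_cast; ring
  have hdet : ∀ a b : ℤ × ℤ × ℤ, cr a b = 0 → ∀ c, det3 a b c = 0 := by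
    intro a b h c
    have h1 := congrArg (fun x : ℤ × ℤ × ℤ => x.1) h
    have h2 := congrArg (fun x : ℤ × ℤ × ℤ => x.2.1) h
    have h3 := congrArg (fun x : ℤ × ℤ × ℤ => x.2.2) h
    simp only [cr, Prod.fst_zero, Prod.snd_zero] at h1 h2 h3
    simp only [det3]
    linear_combination c.1 * h1 + c.2.1 * h2 + c.2.2 * h3
  have hcr12 : cr v₁ v₂ ≠ 0 := by
    intro h
    have := hdet _ _ h v₃
    rw [← e0] at this
    omega
  have hcr13 : cr v₁ v₃ ≠ 0 := by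
    intro h
    have h1 := hdet _ _ h v₂
    have h2 : det3 v₁ v₂ v₃ = - det3 v₁ v₃ v₂ := by simp only [det3]; ring
    rw [h1] at h2
    rw [h2] at e0
    omega
  have hcr23 : cr v₂ v₃ ≠ 0 := by
    intro h
    have h1 := hdet _ _ h v₁
    have h2 : det3 v₁ v₂ v₃ = det3 v₂ v₃ v₁ := by simp only [det3]; ring
    rw [h1] at h2
    rw [h2] at e0
    omega
  have opp : ∀ (w : ℤ × ℤ × ℤ) (c : ℝ), ip w ∈ P → 0 < c → ip X + c • ip w = 0 → Opp P := by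
    intro w c hw hc h
    refine h_opp2 P X w 1 c hP h0P hXP hw hX one_pos hc ?_
    rw [one_smul]; exact h
  rcases hc1.eq_or_lt with z1 | z1
  · rcases hc2.eq_or_lt with z2 | z2
    · rcases hc3.eq_or_lt with z3 | z3
      · exfalso
        apply hX
        rw [← z1, ← z2, ← z3] at r1 r2 r3
        refine Prod.ext ?_ (Prod.ext ?_ ?_)
        · have : (X.1 : ℝ) = 0 := by linarith
          exact_mod_cast this
        · have : (X.2.1 : ℝ) = 0 := by linarith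
          exact_mod_cast this
        · have : (X.2.2 : ℝ) = 0 := by linarith
          exact_mod_cast this
      · left
        refine opp v₃ c₃ i3 z3 ?_
        rw [← z1, ← z2, zero_smul, zero_smul, add_zero, add_zero] at hrel
        exact hrel
    · rcases hc3.eq_or_lt with z3 | z3
      · left
        refine opp v₂ c₂ i2 z2 ?_
        rw [← z1, ← z3, zero_smul, zero_smul, add_zero, add_zero] at hrel
        exact hrel
      · right; left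
        refine ⟨v₂, v₃, X, c₂, c₃, 1, z2, z3, one_pos, i2, i3, hXP, hcr23, ?_⟩
        rw [← z1, zero_smul, add_zero] at hrel
        rw [one_smul, ← hrel]; abel
  · rcases hc2.eq_or_lt with z2 | z2
    · rcases hc3.eq_or_lt with z3 | z3
      · left
        refine opp v₁ c₁ i1 z1 ?_
        rw [← z2, ← z3, zero_smul, zero_smul, add_zero, add_zero] at hrel
        exact hrel
      · right; left
        refine ⟨v₁, v₃, X, c₁, c₃, 1, z1, z3, one_pos, i1, i3, hXP, hcr13, ?_⟩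
        rw [← z2, zero_smul, add_zero] at hrel
        rw [one_smul, ← hrel]; abel
    · rcases hc3.eq_or_lt with z3 | z3
      · right; left
        refine ⟨v₁, v₂, X, c₁, c₂, 1, z1, z2, one_pos, i1, i2, hXP, hcr12, ?_⟩
        rw [← z3, zero_smul, add_zero] at hrel
        rw [one_smul, ← hrel]; abel
      · right; right
        have k1 : ((-det3 X v₂ v₃ : ℤ) : ℝ) = c₁ * d₀ := by
          rw [hd0]; simp only [det3]; push_cast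
          linear_combination (-((v₂.2.1 : ℝ) * v₃.2.2 - v₂.2.2 * v₃.2.1)) * r1 +
            ((v₂.1 : ℝ) * v₃.2.2 - v₂.2.2 * v₃.1) * r2 - ((v₂.1 : ℝ) * v₃.2.1 - v₂.2.1 * v₃.1) * r3
        have k2 : ((det3 X v₁ v₃ : ℤ) : ℝ) = c₂ * d₀ := by
          rw [hd0]; simp only [det3]; push_cast
          linear_combination ((v₁.2.1 : ℝ) * v₃.2.2 - v₁.2.2 * v₃.2.1) * r1 -
            ((v₁.1 : ℝ) * v₃.2.2 - v₁.2.2 * v₃.1) * r2 + ((v₁.1 : ℝ) * v₃.2.1 - v₁.2.1 * v₃.1) * r3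
        have k3 : ((-det3 X v₁ v₂ : ℤ) : ℝ) = c₃ * d₀ := by
          rw [hd0]; simp only [det3]; push_cast
          linear_combination (-((v₁.2.1 : ℝ) * v₂.2.2 - v₁.2.2 * v₂.2.1)) * r1 +
            ((v₁.1 : ℝ) * v₂.2.2 - v₁.2.2 * v₂.1) * r2 - ((v₁.1 : ℝ) * v₂.2.1 - v₁.2.1 * v₂.1) * r3
        have q1 : (0 : ℤ) < -det3 X v₂ v₃ := by
          have : (0 : ℝ) < ((-det3 X v₂ v₃ : ℤ) : ℝ) := by rw [k1]; exact mul_pos z1 p0R
          exact_mod_cast this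
        have q2 : (0 : ℤ) < det3 X v₁ v₃ := by
          have : (0 : ℝ) < ((det3 X v₁ v₃ : ℤ) : ℝ) := by rw [k2]; exact mul_pos z2 p0R
          exact_mod_cast this
        have q3 : (0 : ℤ) < -det3 X v₁ v₂ := by
          have : (0 : ℝ) < ((-det3 X v₁ v₂ : ℤ) : ℝ) := by rw [k3]; exact mul_pos z3 p0R
          exact_mod_cast this
        refine ⟨X, v₁, v₂, v₃, d₀, -det3 X v₂ v₃, det3 X v₁ v₃, -det3 X v₁ v₂,
          ⟨e0, rfl, rfl, rfl, p0, q1, q2, q3⟩, ⟨hXP, i1, i2, i3⟩, ?_⟩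
        have : ((d₀ + -det3 X v₂ v₃ + det3 X v₁ v₃ + -det3 X v₁ v₂ : ℤ) : ℝ) <
            ((d₀ + d₁ + d₂ + d₃ : ℤ) : ℝ) := by
          have e : ((d₀ + -det3 X v₂ v₃ + det3 X v₁ v₃ + -det3 X v₁ v₂ : ℤ) : ℝ) =
              (d₀ : ℝ) + ((-det3 X v₂ v₃ : ℤ) : ℝ) + ((det3 X v₁ v₃ : ℤ) : ℝ) +
                ((-det3 X v₁ v₂ : ℤ) : ℝ) := by push_cast; ring
          rw [e, k1, k2, k3]
          push_cast
          linarith
        exact_mod_cast this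

end Pool.Agent.Lib.MP_0bc52e_nt.T
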