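import Pool.Agent.Lib.MP_0bc52e_nt.T.StmN

/-!
Piece [quadX] (MP_0bc52e_nt): from an integer point `X = Σ x_i v_i` of the tetrahedron to a smaller
one, by reduction to the case [quad0].
-/

namespace Pool.Agent.Lib.MP_0bc52e_nt.T

open Pool.Agent.Lib.MP_0bc52e_nt.LC

/-- Cramer: `Σ d_i v_i = 0`, in real coordinates. -/
private lemma p_quadX_rel {v₀ v₁ v₂ v₃ : ℤ × ℤ × ℤ} {d₀ d₁ d₂ d₃ : ℤ}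
    (h : QD v₀ v₁ v₂ v₃ d₀ d₁ d₂ d₃) :
    (d₀ * v₀.1 + d₁ * v₁.1 + d₂ * v₂.1 + d₃ * v₃.1 = 0) ∧
    (d₀ * v₀.2.1 + d₁ * v₁.2.1 + d₂ * v₂.2.1 + d₃ * v₃.2.1 = 0) ∧
    (d₀ * v₀.2.2 + d₁ * v₁.2.2 + d₂ * v₂.2.2 + d₃ * v₃.2.2 = 0) := by
  obtain ⟨h0, h1, h2, h3, -⟩ := h
  subst h0 h1 h2 h3
  simp only [det3]
  refine ⟨by ring, by ring, by ring⟩

private lemma p_quadX_main (h_quad0 : S_quad0) (P : Set (ℝ × ℝ × ℝ)) (v₀ v₁ v₂ v₃ : ℤ × ℤ × ℤ)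
    (d₀ d₁ d₂ d₃ : ℤ) (hP : Convex ℝ P) (hQ : QD v₀ v₁ v₂ v₃ d₀ d₁ d₂ d₃)
    (hI : In4 P v₀ v₁ v₂ v₃) (X : ℤ × ℤ × ℤ) (x₀ x₁ x₂ x₃ : ℝ) (hX : X ≠ 0) (hXP : ip X ∈ P)
    (h0 : x₀ < 1) (hs : x₀ + x₁ + x₂ + x₃ = 1)
    (hx : ip X = x₀ • ip v₀ + x₁ • ip v₁ + x₂ • ip v₂ + x₃ • ip v₃)
    (m1 : x₁ * d₀ ≤ x₀ * d₁) (m2 : x₂ * d₀ ≤ x₀ * d₂) (m3 : x₃ * d₀ ≤ x₀ * d₃) :
    Opp P ∨ Tri3 P ∨ ∃ v₀' v₁' v₂' v₃' d₀' d₁' d₂' d₃',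
      QD v₀' v₁' v₂' v₃' d₀' d₁' d₂' d₃' ∧ In4 P v₀' v₁' v₂' v₃' ∧
        d₀' + d₁' + d₂' + d₃' < d₀ + d₁ + d₂ + d₃ := by
  obtain ⟨r1, r2, r3⟩ := p_quadX_rel hQ
  have e0 : (0 : ℤ) < d₀ := hQ.2.2.2.2.1
  have e1 : (0 : ℤ) < d₁ := hQ.2.2.2.2.2.1
  have e2 : (0 : ℤ) < d₂ := hQ.2.2.2.2.2.2.1
  have e3 : (0 : ℤ) < d₃ := hQ.2.2.2.2.2.2.2
  have f0 : (0 : ℝ) < d₀ := by exact_mod_cast e0
  have f1 : (0 : ℝ) < d₁ := by exact_mod_cast e1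
  have f2 : (0 : ℝ) < d₂ := by exact_mod_cast e2
  have f3 : (0 : ℝ) < d₃ := by exact_mod_cast e3
  have s1 : (d₀ : ℝ) * v₀.1 + d₁ * v₁.1 + d₂ * v₂.1 + d₃ * v₃.1 = 0 := by exact_mod_cast r1
  have s2 : (d₀ : ℝ) * v₀.2.1 + d₁ * v₁.2.1 + d₂ * v₂.2.1 + d₃ * v₃.2.1 = 0 := by
    exact_mod_cast r2
  have s3 : (d₀ : ℝ) * v₀.2.2 + d₁ * v₁.2.2 + d₂ * v₂.2.2 + d₃ * v₃.2.2 = 0 := by
    exact_mod_cast r3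
  set t : ℝ := x₀ / d₀ with ht
  have htd : t * d₀ = x₀ := by rw [ht]; field_simp
  have c1 : 0 ≤ t * d₁ - x₁ := by
    have : 0 ≤ (t * d₁ - x₁) * d₀ := by
      have : (t * d₁ - x₁) * d₀ = (t * d₀) * d₁ - x₁ * d₀ := by ring
      rw [this, htd]; linarith
    exact nonneg_of_mul_nonneg_left this f0
  have c2 : 0 ≤ t * d₂ - x₂ := by
    have : 0 ≤ (t * d₂ - x₂) * d₀ := by
      have : (t * d₂ - x₂) * d₀ = (t * d₀) * d₂ - x₂ * d₀ := by ring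
      rw [this, htd]; linarith
    exact nonneg_of_mul_nonneg_left this f0
  have c3 : 0 ≤ t * d₃ - x₃ := by
    have : 0 ≤ (t * d₃ - x₃) * d₀ := by
      have : (t * d₃ - x₃) * d₀ = (t * d₀) * d₃ - x₃ * d₀ := by ring
      rw [this, htd]; linarith
    exact nonneg_of_mul_nonneg_left this f0
  refine h_quad0 P v₀ v₁ v₂ v₃ d₀ d₁ d₂ d₃ hP hQ hI X (t * d₁ - x₁) (t * d₂ - x₂) (t * d₃ - x₃)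
    hX hXP c1 c2 c3 ?_ ?_
  · rw [hx]
    simp only [ip, Prod.smul_mk, Prod.mk_add_mk, smul_eq_mul, Prod.mk_eq_zero]
    refine ⟨?_, ?_, ?_⟩
    · linear_combination t * s1 - (v₀.1 : ℝ) * htd
    · linear_combination t * s2 - (v₀.2.1 : ℝ) * htd
    · linear_combination t * s3 - (v₀.2.2 : ℝ) * htd
  · have hE : (0 : ℝ) < d₀ + d₁ + d₂ + d₃ := by positivity
    have key : (d₀ : ℝ) * (1 + (t * d₁ - x₁) + (t * d₂ - x₂) + (t * d₃ - x₃)) =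
        x₀ * (d₀ + d₁ + d₂ + d₃) := by
      linear_combination (d₁ + d₂ + d₃ : ℝ) * htd - (d₀ : ℝ) * hs
    rw [key]
    nlinarith

private lemma p_quadX_s1 {v₀ v₁ v₂ v₃ : ℤ × ℤ × ℤ} {d₀ d₁ d₂ d₃ : ℤ}
    (h : QD v₀ v₁ v₂ v₃ d₀ d₁ d₂ d₃) : QD v₁ v₀ v₃ v₂ d₁ d₀ d₃ d₂ := by
  obtain ⟨h0, h1, h2, h3, p0, p1, p2, p3⟩ := h
  refine ⟨?_, ?_, ?_, ?_, p1, p0, p3, p2⟩
  · rw [h1]; simp only [det3]; ring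
  · rw [h0]; simp only [det3]; ring
  · rw [h3]; simp only [det3]; ring
  · rw [h2]; simp only [det3]; ring

private lemma p_quadX_s2 {v₀ v₁ v₂ v₃ : ℤ × ℤ × ℤ} {d₀ d₁ d₂ d₃ : ℤ}
    (h : QD v₀ v₁ v₂ v₃ d₀ d₁ d₂ d₃) : QD v₂ v₃ v₀ v₁ d₂ d₃ d₀ d₁ := by
  obtain ⟨h0, h1, h2, h3, p0, p1, p2, p3⟩ := h
  refine ⟨?_, ?_, ?_, ?_, p2, p3, p0, p1⟩
  · rw [h2]; simp only [det3]; ring
  · rw [h3]; simp only [det3]; ring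
  · rw [h0]; simp only [det3]; ring
  · rw [h1]; simp only [det3]; ring

/-- [quadX] -/
theorem p_quadX (h_quad0 : S_quad0) : S_quadX := by
  intro P v₀ v₁ v₂ v₃ d₀ d₁ d₂ d₃ hP hQ hI X x₀ x₁ x₂ x₃ hX n0 n1 n2 n3 l0 l1 l2 l3 hs hx
  have e0 : (0 : ℤ) < d₀ := hQ.2.2.2.2.1
  have e1 : (0 : ℤ) < d₁ := hQ.2.2.2.2.2.1
  have e2 : (0 : ℤ) < d₂ := hQ.2.2.2.2.2.2.1
  have e3 : (0 : ℤ) < d₃ := hQ.2.2.2.2.2.2.2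
  have f0 : (0 : ℝ) < d₀ := by exact_mod_cast e0
  have f1 : (0 : ℝ) < d₁ := by exact_mod_cast e1
  have f2 : (0 : ℝ) < d₂ := by exact_mod_cast e2
  have f3 : (0 : ℝ) < d₃ := by exact_mod_cast e3
  obtain ⟨i0, i1, i2, i3⟩ := hI
  have hXP : ip X ∈ P := by
    rw [hx]
    have hw : ∀ i ∈ (Finset.univ : Finset (Fin 4)), 0 ≤ (![x₀, x₁, x₂, x₃] : Fin 4 → ℝ) i := by
      intro i _
      fin_cases i <;> simpa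
    have hz : ∀ i ∈ (Finset.univ : Finset (Fin 4)),
        (![ip v₀, ip v₁, ip v₂, ip v₃] : Fin 4 → ℝ × ℝ × ℝ) i ∈ P := by
      intro i _
      fin_cases i <;> simpa
    have hsum : ∑ i ∈ (Finset.univ : Finset (Fin 4)), (![x₀, x₁, x₂, x₃] : Fin 4 → ℝ) i = 1 := by
      simp only [Fin.sum_univ_four]
      simpa using hs
    have := hP.sum_mem hw hsum hz
    simp only [Fin.sum_univ_four] at this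
    simpa using this
  by_cases A : (x₁ * d₀ ≤ x₀ * d₁ ∧ x₂ * d₀ ≤ x₀ * d₂ ∧ x₃ * d₀ ≤ x₀ * d₃)
  · exact p_quadX_main h_quad0 P v₀ v₁ v₂ v₃ d₀ d₁ d₂ d₃ hP hQ ⟨i0, i1, i2, i3⟩ X x₀ x₁ x₂ x₃
      hX hXP l0 hs hx A.1 A.2.1 A.2.2
  by_cases B : (x₀ * d₁ ≤ x₁ * d₀ ∧ x₃ * d₁ ≤ x₁ * d₃ ∧ x₂ * d₁ ≤ x₁ * d₂)
  · have := p_quadX_main h_quad0 P v₁ v₀ v₃ v₂ d₁ d₀ d₃ d₂ hP (p_quadX_s1 hQ) ⟨i1, i0, i3, i2⟩ X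
      x₁ x₀ x₃ x₂ hX hXP l1 (by linarith) (by rw [hx]; abel) B.1 B.2.1 B.2.2
    rcases this with h | h | ⟨a0, a1, a2, a3, b0, b1, b2, b3, q1, q2, q3⟩
    · exact Or.inl h
    · exact Or.inr (Or.inl h)
    · exact Or.inr (Or.inr ⟨a0, a1, a2, a3, b0, b1, b2, b3, q1, q2, by linarith⟩)
  by_cases C : (x₃ * d₂ ≤ x₂ * d₃ ∧ x₀ * d₂ ≤ x₂ * d₀ ∧ x₁ * d₂ ≤ x₂ * d₁)
  · have := p_quadX_main h_quad0 P v₂ v₃ v₀ v₁ d₂ d₃ d₀ d₁ hP (p_quadX_s2 hQ) ⟨i2, i3, i0, i1⟩ X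
      x₂ x₃ x₀ x₁ hX hXP l2 (by linarith) (by rw [hx]; abel) C.1 C.2.1 C.2.2
    rcases this with h | h | ⟨a0, a1, a2, a3, b0, b1, b2, b3, q1, q2, q3⟩
    · exact Or.inl h
    · exact Or.inr (Or.inl h)
    · exact Or.inr (Or.inr ⟨a0, a1, a2, a3, b0, b1, b2, b3, q1, q2, by linarith⟩)
  by_cases D : (x₂ * d₃ ≤ x₃ * d₂ ∧ x₁ * d₃ ≤ x₃ * d₁ ∧ x₀ * d₃ ≤ x₃ * d₀)
  · have := p_quadX_main h_quad0 P v₃ v₂ v₁ v₀ d₃ d₂ d₁ d₀ hP (p_quadX_s1 (p_quadX_s2 hQ))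
      ⟨i3, i2, i1, i0⟩ X
      x₃ x₂ x₁ x₀ hX hXP l3 (by linarith) (by rw [hx]; abel) D.1 D.2.1 D.2.2
    rcases this with h | h | ⟨a0, a1, a2, a3, b0, b1, b2, b3, q1, q2, q3⟩
    · exact Or.inl h
    · exact Or.inr (Or.inl h)
    · exact Or.inr (Or.inr ⟨a0, a1, a2, a3, b0, b1, b2, b3, q1, q2, by linarith⟩)
  exfalso
  -- the quotients `x_i / d_i` have a maximum
  have q01 : x₁ * d₀ ≤ x₀ * d₁ ↔ x₁ / d₁ ≤ x₀ / d₀ := by rw [div_le_div_iff₀ f1 f0]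
  have q02 : x₂ * d₀ ≤ x₀ * d₂ ↔ x₂ / d₂ ≤ x₀ / d₀ := by rw [div_le_div_iff₀ f2 f0]
  have q03 : x₃ * d₀ ≤ x₀ * d₃ ↔ x₃ / d₃ ≤ x₀ / d₀ := by rw [div_le_div_iff₀ f3 f0]
  have q10 : x₀ * d₁ ≤ x₁ * d₀ ↔ x₀ / d₀ ≤ x₁ / d₁ := by rw [div_le_div_iff₀ f0 f1]
  have q12 : x₂ * d₁ ≤ x₁ * d₂ ↔ x₂ / d₂ ≤ x₁ / d₁ := by rw [div_le_div_iff₀ f2 f1]
  have q13 : x₃ * d₁ ≤ x₁ * d₃ ↔ x₃ / d₃ ≤ x₁ / d₁ := by rw [div_le_div_iff₀ f3 f1]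
  have q20 : x₀ * d₂ ≤ x₂ * d₀ ↔ x₀ / d₀ ≤ x₂ / d₂ := by rw [div_le_div_iff₀ f0 f2]
  have q21 : x₁ * d₂ ≤ x₂ * d₁ ↔ x₁ / d₁ ≤ x₂ / d₂ := by rw [div_le_div_iff₀ f1 f2]
  have q23 : x₃ * d₂ ≤ x₂ * d₃ ↔ x₃ / d₃ ≤ x₂ / d₂ := by rw [div_le_div_iff₀ f3 f2]
  have q30 : x₀ * d₃ ≤ x₃ * d₀ ↔ x₀ / d₀ ≤ x₃ / d₃ := by rw [div_le_div_iff₀ f0 f3]
  have q31 : x₁ * d₃ ≤ x₃ * d₁ ↔ x₁ / d₁ ≤ x₃ / d₃ := by rw [div_le_div_iff₀ f1 f3]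
  have q32 : x₂ * d₃ ≤ x₃ * d₂ ↔ x₂ / d₂ ≤ x₃ / d₃ := by rw [div_le_div_iff₀ f2 f3]
  rw [q01, q02, q03] at A
  rw [q10, q13, q12] at B
  rw [q23, q20, q21] at C
  rw [q32, q31, q30] at D
  generalize x₀ / d₀ = y0 at A B C D
  generalize x₁ / d₁ = y1 at A B C D
  generalize x₂ / d₂ = y2 at A B C D
  generalize x₃ / d₃ = y3 at A B C D
  rcases le_total y0 y1 with a | a <;> rcases le_total y2 y3 with b | b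
  · rcases le_total y1 y3 with c | c
    · exact D ⟨b, c, a.trans c⟩
    · exact B ⟨a, c, b.trans c⟩
  · rcases le_total y1 y2 with c | c
    · exact C ⟨b, a.trans c, c⟩
    · exact B ⟨a, b.trans c, c⟩
  · rcases le_total y0 y3 with c | c
    · exact D ⟨b, a.trans c, c⟩
    · exact A ⟨a, b.trans c, c⟩
  · rcases le_total y0 y2 with c | c
    · exact C ⟨b, c, a.trans c⟩
    · exact A ⟨a, c, b.trans c⟩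

end Pool.Agent.Lib.MP_0bc52e_nt.T
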