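import Pool.Agent.Lib.MP_0bc52e_nt.T.StmH

/-!
# Proof of `S_reg`
-/

set_option autoImplicit false

namespace Pool.Agent.Lib.MP_0bc52e_nt.T

open Pool.Agent.Lib.MP_0bc52e_nt.LC

private theorem p_reg_comb {P : Set (ℝ × ℝ × ℝ)} (hP : Convex ℝ P) {q v₁ v₂ v₃ v₄ : ℝ × ℝ × ℝ}
    (hq : q ∈ P) (h₁ : v₁ ∈ P) (h₂ : v₂ ∈ P) (h₃ : v₃ ∈ P) (h₄ : v₄ ∈ P) {a₁ a₂ a₃ a₄ : ℝ}
    (ha₁ : 0 ≤ a₁) (ha₂ : 0 ≤ a₂) (ha₃ : 0 ≤ a₃) (ha₄ : 0 ≤ a₄) (hs : a₁ + a₂ + a₃ + a₄ ≤ 1) :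
    (1 - a₁ - a₂ - a₃ - a₄) • q + a₁ • v₁ + a₂ • v₂ + a₃ • v₃ + a₄ • v₄ ∈ P := by
  have h := hP.sum_mem (t := (Finset.univ : Finset (Fin 5)))
    (w := ![1 - a₁ - a₂ - a₃ - a₄, a₁, a₂, a₃, a₄]) (z := ![q, v₁, v₂, v₃, v₄]) ?_ ?_ ?_
  · simpa [Fin.sum_univ_five] using h
  · intro i _
    fin_cases i <;> simp <;> linarith
  · simp [Fin.sum_univ_five]
    ring
  · intro i _
    fin_cases i <;> simp <;> assumption

private theorem p_reg_aux {P : Set (ℝ × ℝ × ℝ)} (hP : Convex ℝ P) {X₁ X₂ A₁ A₂ B₁ B₂ q₁ q₂ : ℝ}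
    (hX : (X₁, X₂, (1 : ℝ)) ∈ P) (hA : (A₁, A₂, (1 : ℝ)) ∈ P) (hB : (B₁, B₂, (1 : ℝ)) ∈ P)
    (h0 : ((0 : ℝ), (0 : ℝ), (0 : ℝ)) ∈ P) (hU : ((1 : ℝ), (-1 : ℝ), (3 : ℝ)) ∈ P) {w₁ w₂ w₃ : ℝ}
    (hw₁ : 0 < w₁) (hw₂ : 0 < w₂) (hw₃ : 0 < w₃)
    (e₁ : w₁ * (X₁ - q₁) + w₂ * (A₁ - q₁) + w₃ * (B₁ - q₁) = 0)
    (e₂ : w₁ * (X₂ - q₂) + w₂ * (A₂ - q₂) + w₃ * (B₂ - q₂) = 0)
    (hD : (A₁ - q₁) * (B₂ - q₂) - (A₂ - q₂) * (B₁ - q₁) ≠ 0) : Inn P (q₁, q₂, 1) := by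
  set s := w₁ + w₂ + w₃ with hs
  have hs0 : 0 < s := by positivity
  set t := 1 / (2 * s) with ht
  have ht0 : 0 < t := by positivity
  have hts : t * s = 1 / 2 := by rw [ht]; field_simp
  -- the point itself
  have hq : (q₁, q₂, (1 : ℝ)) ∈ P := by
    have h := p_reg_comb hP (q := (X₁, X₂, (1 : ℝ))) hX hX hA hB hB (a₁ := w₁ / s) (a₂ := w₂ / s)
      (a₃ := w₃ / s) (a₄ := 0) (by positivity) (by positivity) (by positivity) le_rfl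
      (by rw [add_zero, ← add_div, ← add_div, ← hs, div_self hs0.ne'])
    have h2 : w₁ / s + w₂ / s + w₃ / s = 1 := by
      rw [← add_div, ← add_div, ← hs, div_self hs0.ne']
    have g₁ : w₁ * X₁ + w₂ * A₁ + w₃ * B₁ = s * q₁ := by rw [hs]; linarith
    have g₂ : w₁ * X₂ + w₂ * A₂ + w₃ * B₂ = s * q₂ := by rw [hs]; linarith
    convert h using 1
    ext
    · simp only [Prod.fst_add, Prod.smul_fst, smul_eq_mul]
      have : (1 - w₁ / s - w₂ / s - w₃ / s - 0) = 0 := by linarith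
      rw [this]
      field_simp
      linarith
    · simp only [Prod.snd_add, Prod.smul_snd, Prod.fst_add, Prod.smul_fst, smul_eq_mul]
      have : (1 - w₁ / s - w₂ / s - w₃ / s - 0) = 0 := by linarith
      rw [this]
      field_simp
      linarith
    · simp only [Prod.snd_add, Prod.smul_snd, smul_eq_mul]
      linarith
  rintro ⟨d₁, d₂, d₃⟩
  -- the general step
  have key : ∀ (u₁ u₂ u₃ κ : ℝ), (u₁, u₂, u₃) ∈ P → 0 ≤ κ → κ * (u₃ - 1) = d₃ →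
      ∃ ε : ℝ, 0 < ε ∧ (q₁, q₂, (1 : ℝ)) + ε • (d₁, d₂, d₃) ∈ P := by
    intro u₁ u₂ u₃ κ hu hκ hκ3
    set D := (A₁ - q₁) * (B₂ - q₂) - (A₂ - q₂) * (B₁ - q₁) with hDdef
    set f₁ := d₁ - κ * (u₁ - q₁) with hf₁
    set f₂ := d₂ - κ * (u₂ - q₂) with hf₂
    set δ₂ := (f₁ * (B₂ - q₂) - f₂ * (B₁ - q₁)) / D with hδ₂
    set δ₃ := ((A₁ - q₁) * f₂ - (A₂ - q₂) * f₁) / D with hδ₃
    have k₁ : δ₂ * (A₁ - q₁) + δ₃ * (B₁ - q₁) = f₁ := by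
      rw [hδ₂, hδ₃]
      rw [div_mul_eq_mul_div, div_mul_eq_mul_div, ← add_div, div_eq_iff hD, hDdef]
      ring
    have k₂ : δ₂ * (A₂ - q₂) + δ₃ * (B₂ - q₂) = f₂ := by
      rw [hδ₂, hδ₃]
      rw [div_mul_eq_mul_div, div_mul_eq_mul_div, ← add_div, div_eq_iff hD, hDdef]
      ring
    set M := 1 + |δ₂| + |δ₃| + κ with hM
    have hM0 : 0 < M := by positivity
    set m := min (t * w₂) (min (t * w₃) (1 / 2)) with hm
    have hm0 : 0 < m := by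
      rw [hm]
      exact lt_min (by positivity) (lt_min (by positivity) (by norm_num))
    have hm₁ : m ≤ t * w₂ := min_le_left _ _
    have hm₂ : m ≤ t * w₃ := (min_le_right _ _).trans (min_le_left _ _)
    have hm₃ : m ≤ 1 / 2 := (min_le_right _ _).trans (min_le_right _ _)
    set ε := m / M with hε
    have hε0 : 0 < ε := div_pos hm0 hM0
    have hεM : ε * M = m := by rw [hε]; field_simp
    have hεsum : ε + ε * |δ₂| + ε * |δ₃| + ε * κ = m := by rw [← hεM, hM]; ring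
    have n₂ : 0 ≤ ε * |δ₂| := by positivity
    have n₃ : 0 ≤ ε * |δ₃| := by positivity
    have nκ : 0 ≤ ε * κ := by positivity
    have b₂ : -(ε * |δ₂|) ≤ ε * δ₂ := by
      have := neg_abs_le δ₂
      nlinarith
    have b₂' : ε * δ₂ ≤ ε * |δ₂| := mul_le_mul_of_nonneg_left (le_abs_self _) hε0.le
    have b₃ : -(ε * |δ₃|) ≤ ε * δ₃ := by
      have := neg_abs_le δ₃
      nlinarith
    have b₃' : ε * δ₃ ≤ ε * |δ₃| := mul_le_mul_of_nonneg_left (le_abs_self _) hε0.le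
    have hts' : t * w₁ + t * w₂ + t * w₃ = 1 / 2 := by rw [← hts, hs]; ring
    refine ⟨ε, hε0, ?_⟩
    have h := p_reg_comb hP hq hX hA hB hu (a₁ := t * w₁) (a₂ := t * w₂ + ε * δ₂)
      (a₃ := t * w₃ + ε * δ₃) (a₄ := ε * κ) (by positivity) (by linarith) (by linarith) nκ
      (by linarith)
    convert h using 1
    ext
    · simp only [Prod.fst_add, Prod.smul_fst, smul_eq_mul]
      have : d₁ = δ₂ * (A₁ - q₁) + δ₃ * (B₁ - q₁) + κ * (u₁ - q₁) := by rw [k₁, hf₁]; ring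
      rw [this]
      linear_combination (-t) * e₁
    · simp only [Prod.snd_add, Prod.smul_snd, Prod.fst_add, Prod.smul_fst, smul_eq_mul]
      have : d₂ = δ₂ * (A₂ - q₂) + δ₃ * (B₂ - q₂) + κ * (u₂ - q₂) := by rw [k₂, hf₂]; ring
      rw [this]
      linear_combination (-t) * e₂
    · simp only [Prod.snd_add, Prod.smul_snd, smul_eq_mul]
      rw [← hκ3]
      ring
  rcases le_total 0 d₃ with hd | hd
  · exact key 1 (-1) 3 (d₃ / 2) hU (by linarith) (by ring)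
  · exact key 0 0 0 (-d₃) h0 (by linarith) (by ring)

theorem p_reg : S_reg := by
  intro P x₁ x₂ hP h₁ h₂ h₃ hu hx
  have h₁' : ((1 : ℝ), (0 : ℝ), (0 : ℝ)) ∈ P := by simpa [ip] using h₁
  have h₂' : ((0 : ℝ), (1 : ℝ), (0 : ℝ)) ∈ P := by simpa [ip] using h₂
  have h₃' : ((-1 : ℝ), (-1 : ℝ), (0 : ℝ)) ∈ P := by simpa [ip] using h₃
  have hu' : ((1 : ℝ), (-1 : ℝ), (3 : ℝ)) ∈ P := by simpa [ip] using hu
  have h0 : ((0 : ℝ), (0 : ℝ), (0 : ℝ)) ∈ P := by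
    have h := p_reg_comb hP h₁' h₁' h₂' h₃' h₃' (a₁ := 1 / 3) (a₂ := 1 / 3) (a₃ := 1 / 3) (a₄ := 0)
      (by norm_num) (by norm_num) (by norm_num) le_rfl (by norm_num)
    convert h using 1
    ext <;> simp
    all_goals norm_num
  have hA : ((1 / 3 : ℝ), (1 / 3 : ℝ), (1 : ℝ)) ∈ P := by
    have h := p_reg_comb hP h₂' hu' h₂' h₂' h₂' (a₁ := 1 / 3) (a₂ := 2 / 3) (a₃ := 0) (a₄ := 0)
      (by norm_num) (by norm_num) le_rfl le_rfl (by norm_num)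
    convert h using 1
    ext <;> simp
    all_goals norm_num
  have hB : ((-1 / 3 : ℝ), (-1 : ℝ), (1 : ℝ)) ∈ P := by
    have h := p_reg_comb hP h₃' hu' h₃' h₃' h₃' (a₁ := 1 / 3) (a₂ := 2 / 3) (a₃ := 0) (a₄ := 0)
      (by norm_num) (by norm_num) le_rfl le_rfl (by norm_num)
    convert h using 1
    ext <;> simp
    all_goals norm_num
  have hC : ((1 : ℝ), (-1 / 3 : ℝ), (1 : ℝ)) ∈ P := by
    have h := p_reg_comb hP h₁' hu' h₁' h₁' h₁' (a₁ := 1 / 3) (a₂ := 2 / 3) (a₃ := 0) (a₄ := 0)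
      (by norm_num) (by norm_num) le_rfl le_rfl (by norm_num)
    convert h using 1
    ext <;> simp
    all_goals norm_num
  refine ⟨fun g₁ g₂ => ?_, fun g₁ g₂ => ?_, fun g₁ g₂ => ?_⟩
  · have h := p_reg_aux hP (q₁ := 0) (q₂ := 0) (w₁ := 2 / 9) (w₂ := (x₂ - 3 * x₁) / 3)
      (w₃ := (x₂ - x₁) / 3) hx hA hB h0 hu' (by norm_num) (by linarith) (by linarith) (by ring)
      (by ring) (by norm_num)
    simpa [ip] using h
  · have h := p_reg_aux hP (q₁ := 1) (q₂ := 0) (w₁ := 2 / 3) (w₂ := 2 * x₂ + x₁ - 1)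
      (w₃ := x₁ - 1) hx hC hA h0 hu' (by norm_num) (by linarith) (by linarith) (by ring)
      (by ring) (by norm_num)
    simpa [ip] using h
  · have h := p_reg_aux hP (q₁ := 0) (q₂ := -1) (w₁ := 2 / 3) (w₂ := 2 * x₁ - 3 * x₂ - 3)
      (w₃ := -(x₂ + 1)) hx hB hC h0 hu' (by norm_num) (by linarith) (by linarith) (by ring)
      (by ring) (by norm_num)
    simpa [ip] using h

end Pool.Agent.Lib.MP_0bc52e_nt.T
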