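import Pool.Agent.Lib.MP_0bc52e_nt.T.StmH

/-! MP_0bc52e_nt, piece [TH segM] (helper35). -/

namespace Pool.Agent.Lib.MP_0bc52e_nt.T

open Pool.Agent.Lib.MP_0bc52e_nt.LC

theorem p_segM (h_prim : S_prim) : S_segM := by
  intro V hM a₁ ha₁ a₂ ha₂ x s hs0 hs1 hne hx
  obtain ⟨a, b, c, k, hk, hdet, hn⟩ := h_prim (a₂ - a₁) (sub_ne_zero.2 hne.symm)
  have hkR : (0 : ℝ) < k := by exact_mod_cast hk
  have n1 : a₂.1 - a₁.1 = k * c.1 := by
    have := congrArg (fun v : ℤ × ℤ × ℤ => v.1) hn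
    simpa using this
  have n2 : a₂.2.1 - a₁.2.1 = k * c.2.1 := by
    have := congrArg (fun v : ℤ × ℤ × ℤ => v.2.1) hn
    simpa using this
  have n3 : a₂.2.2 - a₁.2.2 = k * c.2.2 := by
    have := congrArg (fun v : ℤ × ℤ × ℤ => v.2.2) hn
    simpa using this
  have n1R : (a₂.1 : ℝ) - a₁.1 = k * c.1 := by exact_mod_cast n1
  have n2R : (a₂.2.1 : ℝ) - a₁.2.1 = k * c.2.1 := by exact_mod_cast n2
  have n3R : (a₂.2.2 : ℝ) - a₁.2.2 = k * c.2.2 := by exact_mod_cast n3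
  simp only [ip, Prod.smul_mk, Prod.mk_add_mk, smul_eq_mul, Prod.mk.injEq] at hx
  obtain ⟨x1, x2, x3⟩ := hx
  have y1 : (x.1 : ℝ) - a₁.1 = s * k * c.1 := by rw [x1]; linear_combination s * n1R
  have y2 : (x.2.1 : ℝ) - a₁.2.1 = s * k * c.2.1 := by rw [x2]; linear_combination s * n2R
  have y3 : (x.2.2 : ℝ) - a₁.2.2 = s * k * c.2.2 := by rw [x3]; linear_combination s * n3R
  have hdR : (a.1 : ℝ) * (b.2.1 * c.2.2 - b.2.2 * c.2.1) - a.2.1 * (b.1 * c.2.2 - b.2.2 * c.1) +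
      a.2.2 * (b.1 * c.2.1 - b.2.1 * c.1) = 1 := by
    unfold det3 at hdet
    exact_mod_cast hdet
  have hm : ((det3 a b (x - a₁) : ℤ) : ℝ) = s * k := by
    unfold det3
    simp only [Prod.fst_sub, Prod.snd_sub]
    push_cast
    rw [y1, y2, y3]
    linear_combination (s * k) * hdR
  obtain ⟨m, hmm⟩ : ∃ m, m = det3 a b (x - a₁) := ⟨_, rfl⟩
  rw [← hmm] at hm
  have m0 : 0 < m := by
    have : (0 : ℝ) < m := by rw [hm]; positivity
    exact_mod_cast this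
  have mk : m < k := by
    have : (m : ℝ) < k := by rw [hm]; nlinarith
    exact_mod_cast this
  have k2 : (2 : ℝ) ≤ k := by
    have : 2 ≤ k := by omega
    exact_mod_cast this
  have hy : ip (a₁.1 + 2 * c.1, a₁.2.1 + 2 * c.2.1, a₁.2.2 + 2 * c.2.2) ∈ hull V := by
    have e : ip (a₁.1 + 2 * c.1, a₁.2.1 + 2 * c.2.1, a₁.2.2 + 2 * c.2.2) =
        (1 - 2 / (k : ℝ)) • ip a₁ + (2 / (k : ℝ)) • ip a₂ := by
      simp only [ip, Prod.smul_mk, Prod.mk_add_mk, smul_eq_mul, Prod.mk.injEq]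
      push_cast
      refine ⟨?_, ?_, ?_⟩
      · field_simp
        linear_combination (-2 : ℝ) * n1R
      · field_simp
        linear_combination (-2 : ℝ) * n2R
      · field_simp
        linear_combination (-2 : ℝ) * n3R
    rw [e]
    have c1 : ip a₁ ∈ hull V := subset_convexHull ℝ _ ⟨a₁, ha₁, rfl⟩
    have c2 : ip a₂ ∈ hull V := subset_convexHull ℝ _ ⟨a₂, ha₂, rfl⟩
    refine (convex_convexHull ℝ _) c1 c2 ?_ ?_ ?_
    · rw [sub_nonneg, div_le_one hkR]; exact k2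
    · positivity
    · ring
  have e := hM.alone a₁ ha₁ _ hy ⟨c.1, by simp⟩ ⟨c.2.1, by simp⟩ ⟨c.2.2, by simp⟩
  have e1 := congrArg (fun v : ℤ × ℤ × ℤ => v.1) e
  have e2 := congrArg (fun v : ℤ × ℤ × ℤ => v.2.1) e
  have e3 := congrArg (fun v : ℤ × ℤ × ℤ => v.2.2) e
  simp only at e1 e2 e3
  have z1 : c.1 = 0 := by omega
  have z2 : c.2.1 = 0 := by omega
  have z3 : c.2.2 = 0 := by omega
  unfold det3 at hdet
  rw [z1, z2, z3] at hdet
  simp at hdet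

end Pool.Agent.Lib.MP_0bc52e_nt.T
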