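import Pool.Agent.Lib.MP_0bc52e_nt.T.StmN

/-!
# MP_0bc52e_nt, Theorem (T163): piece [short]
-/

namespace Pool.Agent.Lib.MP_0bc52e_nt.T

open Pool.Agent.Lib.MP_0bc52e_nt.LC

private theorem p_short_card (R : ℕ) : ∃ T : Finset (ℤ × ℤ), T.card = (R + 1) ^ 2 + R ^ 2 ∧
    ∀ v ∈ T, -(R : ℤ) ≤ v.1 + v.2 ∧ v.1 + v.2 ≤ R ∧ -(R : ℤ) ≤ v.1 - v.2 ∧ v.1 - v.2 ≤ R := by
  classical
  let f₁ : ℕ × ℕ → ℤ × ℤ := fun q => ((q.1 : ℤ) + q.2 - R, (q.1 : ℤ) - q.2)
  let f₂ : ℕ × ℕ → ℤ × ℤ := fun q => ((q.1 : ℤ) + q.2 - R + 1, (q.1 : ℤ) - q.2)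
  have hf₁ : Function.Injective f₁ := by
    rintro ⟨a, b⟩ ⟨c, d⟩ h
    simp only [f₁, Prod.mk.injEq] at h
    have h1 : a = c := by omega
    have h2 : b = d := by omega
    rw [h1, h2]
  have hf₂ : Function.Injective f₂ := by
    rintro ⟨a, b⟩ ⟨c, d⟩ h
    simp only [f₂, Prod.mk.injEq] at h
    have h1 : a = c := by omega
    have h2 : b = d := by omega
    rw [h1, h2]
  refine ⟨((Finset.range (R + 1) ×ˢ Finset.range (R + 1)).image f₁) ∪
    ((Finset.range R ×ˢ Finset.range R).image f₂), ?_, ?_⟩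
  · rw [Finset.card_union_of_disjoint, Finset.card_image_of_injective _ hf₁,
      Finset.card_image_of_injective _ hf₂, Finset.card_product, Finset.card_product,
      Finset.card_range, Finset.card_range]
    · ring
    · rw [Finset.disjoint_left]
      intro v hv hv'
      rw [Finset.mem_image] at hv hv'
      obtain ⟨⟨a, b⟩, -, h1⟩ := hv
      obtain ⟨⟨c, d⟩, -, h2⟩ := hv'
      rw [← h2] at h1
      simp only [f₁, f₂, Prod.mk.injEq] at h1
      omega
  · intro v hv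
    rw [Finset.mem_union, Finset.mem_image, Finset.mem_image] at hv
    rcases hv with ⟨⟨a, b⟩, hab, h1⟩ | ⟨⟨a, b⟩, hab, h1⟩
    · rw [Finset.mem_product, Finset.mem_range, Finset.mem_range] at hab
      simp only at hab
      rw [← h1]
      simp only [f₁]
      omega
    · rw [Finset.mem_product, Finset.mem_range, Finset.mem_range] at hab
      simp only at hab
      rw [← h1]
      simp only [f₂]
      omega

theorem p_short : S_short := by
  intro p r hp
  set R : ℕ := p / 18 with hR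
  have hR9 : 9 ≤ R := by omega
  have hRp : 18 * R ≤ p := by omega
  have hRp' : p ≤ 18 * R + 17 := by omega
  obtain ⟨T, hT, hTm⟩ := p_short_card R
  have hcard : p < T.card := by
    rw [hT]
    nlinarith
  have : NeZero p := ⟨by omega⟩
  obtain ⟨x, hx, y, hy, hxy, hf⟩ := Finset.exists_ne_map_eq_of_card_lt_of_maps_to
    (s := T) (t := (Finset.univ : Finset (ZMod p)))
    (by rw [Finset.card_univ, ZMod.card]; exact hcard)
    (f := fun v => (((v.2 - v.1 * r : ℤ)) : ZMod p)) (fun a _ => Finset.mem_univ _)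
  have hdvd : (p : ℤ) ∣ (y.2 - y.1 * r) - (x.2 - x.1 * r) :=
    (ZMod.intCast_eq_intCast_iff_dvd_sub _ _ p).1 hf
  have hx' := hTm x hx
  have hy' := hTm y hy
  obtain ⟨x1, x2⟩ := x
  obtain ⟨y1, y2⟩ := y
  simp only at hdvd hx' hy'
  have hne : ¬ (y1 - x1 = 0 ∧ y2 - x2 = 0) := by
    rintro ⟨h1, h2⟩
    apply hxy
    rw [show x1 = y1 by omega, show x2 = y2 by omega]
  have hd : (p : ℤ) ∣ (y2 - x2) - (y1 - x1) * r := by
    have : (y2 - x2) - (y1 - x1) * r = (y2 - y1 * r) - (x2 - x1 * r) := by ring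
    rw [this]
    exact hdvd
  have hpz : (18 : ℤ) * R ≤ p := by exact_mod_cast hRp
  have hb1 : |(y1 - x1) + (y2 - x2)| ≤ 2 * R := abs_le.2 ⟨by omega, by omega⟩
  have hb2 : |(y1 - x1) - (y2 - x2)| ≤ 2 * R := abs_le.2 ⟨by omega, by omega⟩
  have hb : |y1 - x1| + |y2 - x2| ≤ 2 * R := by
    rw [abs_le] at hb1 hb2
    rcases abs_cases (y1 - x1) with ⟨h1, -⟩ | ⟨h1, -⟩ <;>
      rcases abs_cases (y2 - x2) with ⟨h2, -⟩ | ⟨h2, -⟩ <;> rw [h1, h2] <;> omega
  -- the first coordinate is not zero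
  have h0 : y1 - x1 ≠ 0 := by
    intro h0
    rw [h0, zero_mul, sub_zero] at hd
    have h2 : y2 - x2 = 0 := by
      apply Int.eq_zero_of_abs_lt_dvd hd
      have := abs_nonneg (y1 - x1)
      omega
    exact hne ⟨h0, h2⟩
  refine ⟨(y1 - x1).natAbs, Int.natAbs_pos.2 h0, ?_⟩
  rcases lt_or_gt_of_ne h0 with hneg | hpos
  · refine ⟨-(y2 - x2), ?_, ?_⟩
    · rw [Int.natCast_natAbs, abs_neg]
      omega
    · have h1 : ((y1 - x1).natAbs : ℤ) = -(y1 - x1) := by
        rw [Int.natCast_natAbs, abs_of_neg hneg]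
      rw [h1]
      have h2 : -(y2 - x2) - -(y1 - x1) * r = -((y2 - x2) - (y1 - x1) * r) := by ring
      rw [h2]
      exact (dvd_neg).2 hd
  · refine ⟨y2 - x2, ?_, ?_⟩
    · rw [Int.natCast_natAbs]
      omega
    · have h1 : ((y1 - x1).natAbs : ℤ) = y1 - x1 := by
        rw [Int.natCast_natAbs, abs_of_pos hpos]
      rw [h1]
      exact hd

end Pool.Agent.Lib.MP_0bc52e_nt.T
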