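import Pool.Agent.Lib.MP_0bc52e_nt.T.StmH

/-!
# Piece [tri2] of Theorem (T163) (MP_0bc52e_nt)
-/

namespace Pool.Agent.Lib.MP_0bc52e_nt.T

open Pool.Agent.Lib.MP_0bc52e_nt.LC

/-- The determinant `det2 (P - X) (Q - X)`. -/
private def wt (P Q X : ℤ × ℤ) : ℤ := det2 P Q - det2 P X - det2 X Q

private theorem p_tri2_hull (A B C X : ℤ × ℤ) (hAB : 0 < det2 A B) (hBC : 0 < det2 B C)
    (hCA : 0 < det2 C A) (h1 : 0 ≤ wt B C X) (h2 : 0 ≤ wt C A X) (h3 : 0 ≤ wt A B X) :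
    ip2 X ∈ convexHull ℝ {ip2 A, ip2 B, ip2 C} := by
  obtain ⟨a1, a2⟩ := A
  obtain ⟨b1, b2⟩ := B
  obtain ⟨c1, c2⟩ := C
  obtain ⟨x1, x2⟩ := X
  simp only [det2, wt] at hAB hBC hCA h1 h2 h3
  have hABr : (0 : ℝ) < (a1 : ℝ) * b2 - a2 * b1 := by exact_mod_cast hAB
  have hBCr : (0 : ℝ) < (b1 : ℝ) * c2 - b2 * c1 := by exact_mod_cast hBC
  have hCAr : (0 : ℝ) < (c1 : ℝ) * a2 - c2 * a1 := by exact_mod_cast hCA
  have h1r : (0 : ℝ) ≤ (b1 : ℝ) * c2 - b2 * c1 - (b1 * x2 - b2 * x1) - (x1 * c2 - x2 * c1) := by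
    exact_mod_cast h1
  have h2r : (0 : ℝ) ≤ (c1 : ℝ) * a2 - c2 * a1 - (c1 * x2 - c2 * x1) - (x1 * a2 - x2 * a1) := by
    exact_mod_cast h2
  have h3r : (0 : ℝ) ≤ (a1 : ℝ) * b2 - a2 * b1 - (a1 * x2 - a2 * x1) - (x1 * b2 - x2 * b1) := by
    exact_mod_cast h3
  set S : ℝ := ((a1 : ℝ) * b2 - a2 * b1) + (b1 * c2 - b2 * c1) + (c1 * a2 - c2 * a1) with hS
  have hSpos : 0 < S := by positivity
  have hA : ip2 (a1, a2) ∈ convexHull ℝ ({ip2 (a1, a2), ip2 (b1, b2), ip2 (c1, c2)} : Set (ℝ × ℝ)) :=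
    subset_convexHull ℝ _ (by simp)
  have hB : ip2 (b1, b2) ∈ convexHull ℝ ({ip2 (a1, a2), ip2 (b1, b2), ip2 (c1, c2)} : Set (ℝ × ℝ)) :=
    subset_convexHull ℝ _ (by simp)
  have hC : ip2 (c1, c2) ∈ convexHull ℝ ({ip2 (a1, a2), ip2 (b1, b2), ip2 (c1, c2)} : Set (ℝ × ℝ)) :=
    subset_convexHull ℝ _ (by simp)
  have key := (convex_convexHull ℝ ({ip2 (a1, a2), ip2 (b1, b2), ip2 (c1, c2)} : Set (ℝ × ℝ))).sum_mem
    (t := (Finset.univ : Finset (Fin 3)))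
    (w := ![((b1 : ℝ) * c2 - b2 * c1 - (b1 * x2 - b2 * x1) - (x1 * c2 - x2 * c1)) / S,
      ((c1 : ℝ) * a2 - c2 * a1 - (c1 * x2 - c2 * x1) - (x1 * a2 - x2 * a1)) / S,
      ((a1 : ℝ) * b2 - a2 * b1 - (a1 * x2 - a2 * x1) - (x1 * b2 - x2 * b1)) / S])
    (z := ![ip2 (a1, a2), ip2 (b1, b2), ip2 (c1, c2)])
    (by
      intro i _
      fin_cases i
      · exact div_nonneg h1r hSpos.le
      · exact div_nonneg h2r hSpos.le
      · exact div_nonneg h3r hSpos.le)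
    (by
      rw [Fin.sum_univ_three]
      simp only [Matrix.cons_val_zero, Matrix.cons_val_one, Matrix.cons_val]
      rw [← add_div, ← add_div, div_eq_one_iff_eq hSpos.ne', hS]
      ring)
    (by
      intro i _
      fin_cases i
      · exact hA
      · exact hB
      · exact hC)
  rw [Fin.sum_univ_three] at key
  simp only [Matrix.cons_val_zero, Matrix.cons_val_one, Matrix.cons_val] at key
  convert key using 1
  simp only [ip2, Prod.smul_mk, Prod.mk_add_mk, smul_eq_mul, Prod.mk.injEq]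
  constructor
  · field_simp
    rw [hS]
    ring
  · field_simp
    rw [hS]
    ring

private theorem p_tri2_par (a1 a2 b1 b2 c1 c2 x1 x2 : ℤ) (h1 : ¬ ((2 : ℤ) ∣ a1 ∧ (2 : ℤ) ∣ a2))
    (h2 : ¬ ((2 : ℤ) ∣ b1 ∧ (2 : ℤ) ∣ b2)) (h3 : ¬ ((2 : ℤ) ∣ c1 ∧ (2 : ℤ) ∣ c2))
    (h4 : ¬ ((2 : ℤ) ∣ a1 - b1 ∧ (2 : ℤ) ∣ a2 - b2)) (h5 : ¬ ((2 : ℤ) ∣ b1 - c1 ∧ (2 : ℤ) ∣ b2 - c2))
    (h6 : ¬ ((2 : ℤ) ∣ c1 - a1 ∧ (2 : ℤ) ∣ c2 - a2)) :
    ((2 : ℤ) ∣ x1 - a1 ∧ (2 : ℤ) ∣ x2 - a2) ∨ ((2 : ℤ) ∣ x1 - b1 ∧ (2 : ℤ) ∣ x2 - b2) ∨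
      ((2 : ℤ) ∣ x1 - c1 ∧ (2 : ℤ) ∣ x2 - c2) ∨ ((2 : ℤ) ∣ x1 ∧ (2 : ℤ) ∣ x2) := by
  rcases Int.emod_two_eq_zero_or_one a1 with ha1 | ha1 <;>
  rcases Int.emod_two_eq_zero_or_one a2 with ha2 | ha2 <;>
  rcases Int.emod_two_eq_zero_or_one b1 with hb1 | hb1 <;>
  rcases Int.emod_two_eq_zero_or_one b2 with hb2 | hb2 <;>
  first
  | (exfalso; omega)
  | (rcases Int.emod_two_eq_zero_or_one c1 with hc1 | hc1 <;>
      rcases Int.emod_two_eq_zero_or_one c2 with hc2 | hc2 <;>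
      first
      | (exfalso; omega)
      | omega)

private theorem p_tri2_pts (A B C : ℤ × ℤ) (hAB : 0 < det2 A B) (hBC : 0 < det2 B C)
    (hCA : 0 < det2 C A)
    (H : ∀ X : ℤ × ℤ, ip2 X ∈ convexHull ℝ {ip2 A, ip2 B, ip2 C} → ∀ Y : ℤ × ℤ,
      (Y = A ∨ Y = B ∨ Y = C) → (2 : ℤ) ∣ X.1 - Y.1 → (2 : ℤ) ∣ X.2 - Y.2 → X = Y) :
    ∀ n : ℕ, ∀ X : ℤ × ℤ, X.1.natAbs + X.2.natAbs ≤ n → 0 ≤ wt B C X → 0 ≤ wt C A X →
      0 ≤ wt A B X → X = A ∨ X = B ∨ X = C ∨ X = 0 := by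
  have hull : ∀ X : ℤ × ℤ, 0 ≤ wt B C X → 0 ≤ wt C A X → 0 ≤ wt A B X →
      ip2 X ∈ convexHull ℝ {ip2 A, ip2 B, ip2 C} := fun X h1 h2 h3 =>
    p_tri2_hull A B C X hAB hBC hCA h1 h2 h3
  have hAm : ip2 A ∈ convexHull ℝ ({ip2 A, ip2 B, ip2 C} : Set (ℝ × ℝ)) :=
    subset_convexHull ℝ _ (by simp)
  have hBm : ip2 B ∈ convexHull ℝ ({ip2 A, ip2 B, ip2 C} : Set (ℝ × ℝ)) :=
    subset_convexHull ℝ _ (by simp)
  have hCm : ip2 C ∈ convexHull ℝ ({ip2 A, ip2 B, ip2 C} : Set (ℝ × ℝ)) :=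
    subset_convexHull ℝ _ (by simp)
  have h0m : ip2 0 ∈ convexHull ℝ ({ip2 A, ip2 B, ip2 C} : Set (ℝ × ℝ)) := by
    apply hull
    · simpa [wt, det2] using hBC.le
    · simpa [wt, det2] using hCA.le
    · simpa [wt, det2] using hAB.le
  have nA : ¬ ((2 : ℤ) ∣ A.1 ∧ (2 : ℤ) ∣ A.2) := by
    rintro ⟨h1, h2⟩
    have := H 0 h0m A (Or.inl rfl) (by simpa using h1) (by simpa using h2)
    rw [← this] at hAB
    simp [det2] at hAB
  have nB : ¬ ((2 : ℤ) ∣ B.1 ∧ (2 : ℤ) ∣ B.2) := by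
    rintro ⟨h1, h2⟩
    have := H 0 h0m B (Or.inr (Or.inl rfl)) (by simpa using h1) (by simpa using h2)
    rw [← this] at hAB
    simp [det2] at hAB
  have nC : ¬ ((2 : ℤ) ∣ C.1 ∧ (2 : ℤ) ∣ C.2) := by
    rintro ⟨h1, h2⟩
    have := H 0 h0m C (Or.inr (Or.inr rfl)) (by simpa using h1) (by simpa using h2)
    rw [← this] at hBC
    simp [det2] at hBC
  have nAB : ¬ ((2 : ℤ) ∣ A.1 - B.1 ∧ (2 : ℤ) ∣ A.2 - B.2) := by
    rintro ⟨h1, h2⟩
    have := H A hAm B (Or.inr (Or.inl rfl)) h1 h2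
    rw [this] at hAB
    simp only [det2] at hAB
    linarith
  have nBC : ¬ ((2 : ℤ) ∣ B.1 - C.1 ∧ (2 : ℤ) ∣ B.2 - C.2) := by
    rintro ⟨h1, h2⟩
    have := H B hBm C (Or.inr (Or.inr rfl)) h1 h2
    rw [this] at hBC
    simp only [det2] at hBC
    linarith
  have nCA : ¬ ((2 : ℤ) ∣ C.1 - A.1 ∧ (2 : ℤ) ∣ C.2 - A.2) := by
    rintro ⟨h1, h2⟩
    have := H C hCm A (Or.inl rfl) h1 h2
    rw [this] at hCA
    simp only [det2] at hCA
    linarith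
  intro n
  induction n using Nat.strong_induction_on with
  | _ n ih =>
    intro X hX h1 h2 h3
    rcases p_tri2_par A.1 A.2 B.1 B.2 C.1 C.2 X.1 X.2 nA nB nC nAB nBC nCA with h | h | h | h
    · exact Or.inl (H X (hull X h1 h2 h3) A (Or.inl rfl) h.1 h.2)
    · exact Or.inr (Or.inl (H X (hull X h1 h2 h3) B (Or.inr (Or.inl rfl)) h.1 h.2))
    · exact Or.inr (Or.inr (Or.inl (H X (hull X h1 h2 h3) C (Or.inr (Or.inr rfl)) h.1 h.2)))
    · by_cases hX0 : X = 0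
      · exact Or.inr (Or.inr (Or.inr hX0))
      exfalso
      obtain ⟨⟨y1, hy1⟩, ⟨y2, hy2⟩⟩ := h
      have hne : X.1 ≠ 0 ∨ X.2 ≠ 0 := by
        by_contra hcon
        push Not at hcon
        exact hX0 (Prod.ext hcon.1 hcon.2)
      have hw1 : 2 * wt B C (y1, y2) = wt B C X + det2 B C := by
        simp only [wt, det2, hy1, hy2]; ring
      have hw2 : 2 * wt C A (y1, y2) = wt C A X + det2 C A := by
        simp only [wt, det2, hy1, hy2]; ring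
      have hw3 : 2 * wt A B (y1, y2) = wt A B X + det2 A B := by
        simp only [wt, det2, hy1, hy2]; ring
      have g1 : 0 < wt B C (y1, y2) := by linarith
      have g2 : 0 < wt C A (y1, y2) := by linarith
      have g3 : 0 < wt A B (y1, y2) := by linarith
      have hlt : y1.natAbs + y2.natAbs < n := by omega
      rcases ih (y1.natAbs + y2.natAbs) hlt (y1, y2) le_rfl g1.le g2.le g3.le with h | h | h | h
      · rw [h] at g2
        simp only [wt, det2] at g2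
        linarith
      · rw [h] at g3
        simp only [wt, det2] at g3
        linarith
      · rw [h] at g1
        simp only [wt, det2] at g1
        linarith
      · have e1 : y1 = 0 := congrArg Prod.fst h
        have e2 : y2 = 0 := congrArg Prod.snd h
        rw [e1] at hy1
        rw [e2] at hy2
        rcases hne with hh | hh <;> omega

private theorem p_tri2_one (h_emp2 : S_emp2) (A B C : ℤ × ℤ) (hAB : 0 < det2 A B)
    (hBC : 0 < det2 B C) (hCA : 0 < det2 C A)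
    (hT : ∀ X : ℤ × ℤ, 0 ≤ wt B C X → 0 ≤ wt C A X → 0 ≤ wt A B X →
      X = A ∨ X = B ∨ X = C ∨ X = 0) : det2 A B = 1 := by
  by_contra hne
  obtain ⟨X, hX0, hXA, hXB, g1, g2, g3⟩ := h_emp2 A B (by omega)
  have hw1 : det2 A B * wt B C X =
      det2 B C * (det2 A B - det2 A X) + det2 X B * (det2 A B + det2 C A) := by
    simp only [wt, det2]; ring
  have hw2 : det2 A B * wt C A X =
      det2 C A * (det2 A B - det2 X B) + det2 A X * (det2 A B + det2 B C) := by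
    simp only [wt, det2]; ring
  have k1 : 0 ≤ wt B C X := by
    have : 0 ≤ det2 A B * wt B C X := by
      rw [hw1]
      exact add_nonneg (mul_nonneg hBC.le (by linarith)) (mul_nonneg g1 (by linarith))
    exact nonneg_of_mul_nonneg_right this hAB
  have k2 : 0 ≤ wt C A X := by
    have : 0 ≤ det2 A B * wt C A X := by
      rw [hw2]
      exact add_nonneg (mul_nonneg hCA.le (by linarith)) (mul_nonneg g2 (by linarith))
    exact nonneg_of_mul_nonneg_right this hAB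
  have k3 : 0 ≤ wt A B X := by
    simp only [wt]; linarith
  rcases hT X k1 k2 k3 with h | h | h | h
  · exact hXA h
  · exact hXB h
  · rw [h] at g1
    simp only [det2] at g1 hBC
    linarith
  · exact hX0 h

theorem p_tri2 (h_emp2 : S_emp2) : S_tri2 := by
  intro A B C hAB hBC hCA H
  have hT : ∀ X : ℤ × ℤ, 0 ≤ wt B C X → 0 ≤ wt C A X → 0 ≤ wt A B X →
      X = A ∨ X = B ∨ X = C ∨ X = 0 := fun X h1 h2 h3 =>
    p_tri2_pts A B C hAB hBC hCA H _ X le_rfl h1 h2 h3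
  have e1 : det2 A B = 1 := p_tri2_one h_emp2 A B C hAB hBC hCA hT
  have e2 : det2 B C = 1 := p_tri2_one h_emp2 B C A hBC hCA hAB (fun X h1 h2 h3 => by
    rcases hT X h3 h1 h2 with h | h | h | h
    · exact Or.inr (Or.inr (Or.inl h))
    · exact Or.inl h
    · exact Or.inr (Or.inl h)
    · exact Or.inr (Or.inr (Or.inr h)))
  have e3 : det2 C A = 1 := p_tri2_one h_emp2 C A B hCA hAB hBC (fun X h1 h2 h3 => by
    rcases hT X h2 h3 h1 with h | h | h | h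
    · exact Or.inr (Or.inl h)
    · exact Or.inr (Or.inr (Or.inl h))
    · exact Or.inl h
    · exact Or.inr (Or.inr (Or.inr h)))
  refine ⟨?_, e1⟩
  have f1 : det2 B C * A.1 + det2 C A * B.1 + det2 A B * C.1 = 0 := by
    simp only [det2]; ring
  have f2 : det2 B C * A.2 + det2 C A * B.2 + det2 A B * C.2 = 0 := by
    simp only [det2]; ring
  rw [e1, e2, e3] at f1 f2
  refine Prod.ext ?_ ?_
  · simp only [Prod.fst_add, Prod.fst_zero]
    linarith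
  · simp only [Prod.snd_add, Prod.snd_zero]
    linarith

end Pool.Agent.Lib.MP_0bc52e_nt.T
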