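import Pool.Agent.Lib.MP_0bc52e_nt.T.StmH

/-!
Piece `[triM]` of MP_0bc52e_nt: an integer point inside a triangle of a minimal configuration.
-/

namespace Pool.Agent.Lib.MP_0bc52e_nt.T

open Pool.Agent.Lib.MP_0bc52e_nt.LC

/-- Cramer's rule for a vector in the plane of the first two vectors of a basis. -/
theorem p_triM_cramer (a b c u : ℤ × ℤ × ℤ) (h : det3 a b c = 1) (h0 : det3 a b u = 0) :
    u = (det3 u b c) • a + (det3 a u c) • b := by
  obtain ⟨a1, a2, a3⟩ := a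
  obtain ⟨b1, b2, b3⟩ := b
  obtain ⟨c1, c2, c3⟩ := c
  obtain ⟨u1, u2, u3⟩ := u
  simp only [det3] at h h0
  simp only [det3, Prod.smul_mk, Prod.mk_add_mk, smul_eq_mul, Prod.mk.injEq]
  refine ⟨?_, ?_, ?_⟩
  · linear_combination (-u1) * h + c1 * h0
  · linear_combination (-u2) * h + c2 * h0
  · linear_combination (-u3) * h + c3 * h0

/-- Independence of the first two vectors of a basis. -/
theorem p_triM_ind (a1 a2 a3 b1 b2 b3 c1 c2 c3 X Y : ℝ)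
    (h : a1 * (b2 * c3 - b3 * c2) - a2 * (b1 * c3 - b3 * c1) + a3 * (b1 * c2 - b2 * c1) = 1)
    (E1 : X * a1 + Y * b1 = 0) (E2 : X * a2 + Y * b2 = 0) (E3 : X * a3 + Y * b3 = 0) :
    X = 0 ∧ Y = 0 := by
  constructor
  · linear_combination (-X) * h + (b2 * c3 - b3 * c2) * E1 - (b1 * c3 - b3 * c1) * E2 +
      (b1 * c2 - b2 * c1) * E3
  · linear_combination (-Y) * h + (-(a2 * c3 - a3 * c2)) * E1 + (a1 * c3 - a3 * c1) * E2 -
      (a1 * c2 - a2 * c1) * E3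

/-- Integer points of the triangle. -/
theorem p_triM_mem (H : Set (ℝ × ℝ × ℝ)) (hH : Convex ℝ H) (x a b : ℤ × ℤ × ℤ) (A B C X : ℤ × ℤ)
    (hA : ip (x + A.1 • a + A.2 • b) ∈ H) (hB : ip (x + B.1 • a + B.2 • b) ∈ H)
    (hC : ip (x + C.1 • a + C.2 • b) ∈ H)
    (hX : ip2 X ∈ convexHull ℝ {ip2 A, ip2 B, ip2 C}) : ip (x + X.1 • a + X.2 • b) ∈ H := by
  have key : ∀ Y : ℤ × ℤ, ip (x + Y.1 • a + Y.2 • b) =
      ip x + (ip2 Y).1 • ip a + (ip2 Y).2 • ip b := by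
    intro Y
    simp [ip, ip2]
  set S : Set (ℝ × ℝ) := {v | ip x + v.1 • ip a + v.2 • ip b ∈ H} with hS
  have hSc : Convex ℝ S := by
    intro u hu v hv s t hs ht hst
    have h := hH hu hv hs ht hst
    have e : s • (ip x + u.1 • ip a + u.2 • ip b) + t • (ip x + v.1 • ip a + v.2 • ip b) =
        ip x + (s • u + t • v).1 • ip a + (s • u + t • v).2 • ip b := by
      have ht' : t = 1 - s := by linarith
      subst ht'
      simp only [Prod.fst_add, Prod.snd_add, Prod.smul_fst, Prod.smul_snd, smul_eq_mul]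
      module
    rw [e] at h
    exact h
  have hsub : convexHull ℝ {ip2 A, ip2 B, ip2 C} ⊆ S := by
    apply convexHull_min _ hSc
    intro v hv
    simp only [Set.mem_insert_iff, Set.mem_singleton_iff] at hv
    rcases hv with rfl | rfl | rfl
    · rw [hS, Set.mem_ofPred_eq, ← key]
      exact hA
    · rw [hS, Set.mem_ofPred_eq, ← key]
      exact hB
    · rw [hS, Set.mem_ofPred_eq, ← key]
      exact hC
  have := hsub hX
  rw [hS, Set.mem_ofPred_eq, ← key] at this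
  exact this

/-- [triM] -/
theorem p_triM (h_pln : S_pln) (h_tri2 : S_tri2) : S_triM := by
  intro V hV a₁ h₁ a₂ h₂ a₃ h₃ x α β γ hα hβ hγ hsum hx hcr
  obtain ⟨a, b, c, s₁, s₂, t₁, t₂, hdet, hpos, hs, ht⟩ := h_pln _ _ hcr
  -- coordinates of the relation
  have hx1 : (x.1 : ℝ) = α * a₁.1 + β * a₂.1 + γ * a₃.1 := by
    have := congrArg Prod.fst hx
    simpa [ip] using this
  have hx2 : (x.2.1 : ℝ) = α * a₁.2.1 + β * a₂.2.1 + γ * a₃.2.1 := by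
    have := congrArg (fun v => v.2.1) hx
    simpa [ip] using this
  have hx3 : (x.2.2 : ℝ) = α * a₁.2.2 + β * a₂.2.2 + γ * a₃.2.2 := by
    have := congrArg (fun v => v.2.2) hx
    simpa [ip] using this
  have hs1 : a₁.1 - x.1 = s₁ * a.1 + s₂ * b.1 := by simpa using congrArg Prod.fst hs
  have hs2 : a₁.2.1 - x.2.1 = s₁ * a.2.1 + s₂ * b.2.1 := by
    simpa using congrArg (fun v => v.2.1) hs
  have hs3 : a₁.2.2 - x.2.2 = s₁ * a.2.2 + s₂ * b.2.2 := by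
    simpa using congrArg (fun v => v.2.2) hs
  have ht1 : a₂.1 - x.1 = t₁ * a.1 + t₂ * b.1 := by simpa using congrArg Prod.fst ht
  have ht2 : a₂.2.1 - x.2.1 = t₁ * a.2.1 + t₂ * b.2.1 := by
    simpa using congrArg (fun v => v.2.1) ht
  have ht3 : a₂.2.2 - x.2.2 = t₁ * a.2.2 + t₂ * b.2.2 := by
    simpa using congrArg (fun v => v.2.2) ht
  have hs1' : (a₁.1 : ℝ) - x.1 = s₁ * a.1 + s₂ * b.1 := by exact_mod_cast hs1
  have hs2' : (a₁.2.1 : ℝ) - x.2.1 = s₁ * a.2.1 + s₂ * b.2.1 := by exact_mod_cast hs2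
  have hs3' : (a₁.2.2 : ℝ) - x.2.2 = s₁ * a.2.2 + s₂ * b.2.2 := by exact_mod_cast hs3
  have ht1' : (a₂.1 : ℝ) - x.1 = t₁ * a.1 + t₂ * b.1 := by exact_mod_cast ht1
  have ht2' : (a₂.2.1 : ℝ) - x.2.1 = t₁ * a.2.1 + t₂ * b.2.1 := by exact_mod_cast ht2
  have ht3' : (a₂.2.2 : ℝ) - x.2.2 = t₁ * a.2.2 + t₂ * b.2.2 := by exact_mod_cast ht3
  have F1 : α * (s₁ * a.1 + s₂ * b.1) + β * (t₁ * a.1 + t₂ * b.1) + γ * ((a₃.1 : ℝ) - x.1) = 0 := by
    linear_combination (-α) * hs1' - β * ht1' - hx1 - (x.1 : ℝ) * hsum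
  have F2 : α * (s₁ * a.2.1 + s₂ * b.2.1) + β * (t₁ * a.2.1 + t₂ * b.2.1) +
      γ * ((a₃.2.1 : ℝ) - x.2.1) = 0 := by
    linear_combination (-α) * hs2' - β * ht2' - hx2 - (x.2.1 : ℝ) * hsum
  have F3 : α * (s₁ * a.2.2 + s₂ * b.2.2) + β * (t₁ * a.2.2 + t₂ * b.2.2) +
      γ * ((a₃.2.2 : ℝ) - x.2.2) = 0 := by
    linear_combination (-α) * hs3' - β * ht3' - hx3 - (x.2.2 : ℝ) * hsum
  -- the third vector is in the plane
  have h0 : det3 a b (a₃ - x) = 0 := by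
    have h1 : γ * ((det3 a b (a₃ - x) : ℤ) : ℝ) = 0 := by
      simp only [det3, Prod.fst_sub, Prod.snd_sub]
      push_cast
      linear_combination ((a.2.1 : ℝ) * b.2.2 - a.2.2 * b.2.1) * F1 +
        (-(a.1 : ℝ) * b.2.2 + a.2.2 * b.1) * F2 + ((a.1 : ℝ) * b.2.1 - a.2.1 * b.1) * F3
    have h2 := (mul_eq_zero.mp h1).resolve_left (ne_of_gt hγ)
    exact_mod_cast h2
  have hu := p_triM_cramer a b c (a₃ - x) hdet h0
  obtain ⟨C₁, hC₁⟩ : ∃ C₁, C₁ = det3 (a₃ - x) b c := ⟨_, rfl⟩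
  obtain ⟨C₂, hC₂⟩ : ∃ C₂, C₂ = det3 a (a₃ - x) c := ⟨_, rfl⟩
  rw [← hC₁, ← hC₂] at hu
  have hu1 : a₃.1 - x.1 = C₁ * a.1 + C₂ * b.1 := by simpa using congrArg Prod.fst hu
  have hu2 : a₃.2.1 - x.2.1 = C₁ * a.2.1 + C₂ * b.2.1 := by
    simpa using congrArg (fun v => v.2.1) hu
  have hu3 : a₃.2.2 - x.2.2 = C₁ * a.2.2 + C₂ * b.2.2 := by
    simpa using congrArg (fun v => v.2.2) hu
  have hu1' : (a₃.1 : ℝ) - x.1 = C₁ * a.1 + C₂ * b.1 := by exact_mod_cast hu1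
  have hu2' : (a₃.2.1 : ℝ) - x.2.1 = C₁ * a.2.1 + C₂ * b.2.1 := by exact_mod_cast hu2
  have hu3' : (a₃.2.2 : ℝ) - x.2.2 = C₁ * a.2.2 + C₂ * b.2.2 := by exact_mod_cast hu3
  rw [hu1'] at F1
  rw [hu2'] at F2
  rw [hu3'] at F3
  have hdetR : (a.1 : ℝ) * (b.2.1 * c.2.2 - b.2.2 * c.2.1) - a.2.1 * (b.1 * c.2.2 - b.2.2 * c.1) +
      a.2.2 * (b.1 * c.2.1 - b.2.1 * c.1) = 1 := by
    have := hdet
    unfold det3 at this
    exact_mod_cast this
  obtain ⟨G1, G2⟩ := p_triM_ind _ _ _ _ _ _ _ _ _ (α * s₁ + β * t₁ + γ * C₁)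
    (α * s₂ + β * t₂ + γ * C₂) hdetR (by linear_combination F1) (by linear_combination F2)
    (by linear_combination F3)
  have hposR : (0 : ℝ) < s₁ * t₂ - s₂ * t₁ := by exact_mod_cast hpos
  -- the other two determinants
  have hBC : 0 < det2 (t₁, t₂) (C₁, C₂) := by
    have h1 : γ * ((det2 (t₁, t₂) (C₁, C₂) : ℤ) : ℝ) = α * (s₁ * t₂ - s₂ * t₁) := by
      simp only [det2]
      push_cast
      linear_combination (t₁ : ℝ) * G2 - (t₂ : ℝ) * G1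
    have h2 : 0 < γ * ((det2 (t₁, t₂) (C₁, C₂) : ℤ) : ℝ) := by
      rw [h1]
      positivity
    have h3 := (pos_iff_pos_of_mul_pos h2).mp hγ
    exact_mod_cast h3
  have hCA : 0 < det2 (C₁, C₂) (s₁, s₂) := by
    have h1 : γ * ((det2 (C₁, C₂) (s₁, s₂) : ℤ) : ℝ) = β * (s₁ * t₂ - s₂ * t₁) := by
      simp only [det2]
      push_cast
      linear_combination (s₂ : ℝ) * G1 - (s₁ : ℝ) * G2
    have h2 : 0 < γ * ((det2 (C₁, C₂) (s₁, s₂) : ℤ) : ℝ) := by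
      rw [h1]
      positivity
    have h3 := (pos_iff_pos_of_mul_pos h2).mp hγ
    exact_mod_cast h3
  have hVc : Convex ℝ (hull V) := convex_convexHull ℝ _
  have hVm : ∀ v ∈ V, ip v ∈ hull V := fun v hv =>
    subset_convexHull ℝ _ (Set.mem_image_of_mem _ hv)
  have e1 : a₁ = x + s₁ • a + s₂ • b := by
    rw [add_assoc, ← hs]
    abel
  have e2 : a₂ = x + t₁ • a + t₂ • b := by
    rw [add_assoc, ← ht]
    abel
  have e3 : a₃ = x + C₁ • a + C₂ • b := by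
    rw [add_assoc, ← hu]
    abel
  have hinj : ∀ X Y : ℤ × ℤ, x + X.1 • a + X.2 • b = x + Y.1 • a + Y.2 • b → X = Y := by
    intro X Y h
    have k1 : x.1 + X.1 * a.1 + X.2 * b.1 = x.1 + Y.1 * a.1 + Y.2 * b.1 := by
      simpa using congrArg Prod.fst h
    have k2 : x.2.1 + X.1 * a.2.1 + X.2 * b.2.1 = x.2.1 + Y.1 * a.2.1 + Y.2 * b.2.1 := by
      simpa using congrArg (fun v => v.2.1) h
    have k3 : x.2.2 + X.1 * a.2.2 + X.2 * b.2.2 = x.2.2 + Y.1 * a.2.2 + Y.2 * b.2.2 := by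
      simpa using congrArg (fun v => v.2.2) h
    have k1' : (x.1 : ℝ) + X.1 * a.1 + X.2 * b.1 = x.1 + Y.1 * a.1 + Y.2 * b.1 := by
      exact_mod_cast k1
    have k2' : (x.2.1 : ℝ) + X.1 * a.2.1 + X.2 * b.2.1 = x.2.1 + Y.1 * a.2.1 + Y.2 * b.2.1 := by
      exact_mod_cast k2
    have k3' : (x.2.2 : ℝ) + X.1 * a.2.2 + X.2 * b.2.2 = x.2.2 + Y.1 * a.2.2 + Y.2 * b.2.2 := by
      exact_mod_cast k3
    obtain ⟨m1, m2⟩ := p_triM_ind _ _ _ _ _ _ _ _ _ ((X.1 : ℝ) - Y.1) ((X.2 : ℝ) - Y.2) hdetR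
      (by linear_combination k1') (by linear_combination k2') (by linear_combination k3')
    have m1' : (X.1 : ℝ) = Y.1 := by linarith
    have m2' : (X.2 : ℝ) = Y.2 := by linarith
    exact Prod.ext (by exact_mod_cast m1') (by exact_mod_cast m2')
  have hmod : ∀ X Y : ℤ × ℤ, x + Y.1 • a + Y.2 • b ∈ V → (2 : ℤ) ∣ X.1 - Y.1 → (2 : ℤ) ∣ X.2 - Y.2 →
      ip (x + X.1 • a + X.2 • b) ∈ hull V → X = Y := by
    intro X Y hY d1 d2 hX
    apply hinj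
    obtain ⟨m, hm⟩ := d1
    obtain ⟨n, hn⟩ := d2
    refine hV.alone _ hY _ hX ?_ ?_ ?_
    · refine ⟨m * a.1 + n * b.1, ?_⟩
      simp only [Prod.fst_add, Prod.smul_fst, smul_eq_mul]
      linear_combination a.1 * hm + b.1 * hn
    · refine ⟨m * a.2.1 + n * b.2.1, ?_⟩
      simp only [Prod.fst_add, Prod.snd_add, Prod.smul_fst, Prod.smul_snd, smul_eq_mul]
      linear_combination a.2.1 * hm + b.2.1 * hn
    · refine ⟨m * a.2.2 + n * b.2.2, ?_⟩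
      simp only [Prod.snd_add, Prod.smul_snd, smul_eq_mul]
      linear_combination a.2.2 * hm + b.2.2 * hn
  obtain ⟨r1, r2⟩ := h_tri2 (s₁, s₂) (t₁, t₂) (C₁, C₂) (by simpa [det2] using hpos) hBC hCA
    (by
      intro X hX Y hY d1 d2
      have hXm := p_triM_mem (hull V) hVc x a b (s₁, s₂) (t₁, t₂) (C₁, C₂) X
        (by rw [← e1]; exact hVm _ h₁) (by rw [← e2]; exact hVm _ h₂)
        (by rw [← e3]; exact hVm _ h₃) hX
      rcases hY with rfl | rfl | rfl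
      · exact hmod X (s₁, s₂) (by rw [← e1]; exact h₁) d1 d2 hXm
      · exact hmod X (t₁, t₂) (by rw [← e2]; exact h₂) d1 d2 hXm
      · exact hmod X (C₁, C₂) (by rw [← e3]; exact h₃) d1 d2 hXm)
  have q1 : s₁ + t₁ + C₁ = 0 := by simpa using congrArg Prod.fst r1
  have q2 : s₂ + t₂ + C₂ = 0 := by simpa using congrArg Prod.snd r1
  refine ⟨?_, c, ?_⟩
  · have q1' : C₁ = -s₁ - t₁ := by linarith
    have q2' : C₂ = -s₂ - t₂ := by linarith
    rw [e1, e2, e3, q1', q2']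
    module
  · rw [hs, ht]
    have hd : det3 (s₁ • a + s₂ • b) (t₁ • a + t₂ • b) c = det2 (s₁, s₂) (t₁, t₂) * det3 a b c := by
      simp only [det3, det2, Prod.fst_add, Prod.snd_add, Prod.smul_fst, Prod.smul_snd, smul_eq_mul]
      ring
    rw [hd, r2, hdet]
    norm_num

end Pool.Agent.Lib.MP_0bc52e_nt.T
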