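import Pool.Agent.Lib.MP_0bc52e_nt.T.StmH

/-! [TH two3] (helper58) -/

namespace Pool.Agent.Lib.MP_0bc52e_nt.T

open Pool.Agent.Lib.MP_0bc52e_nt.LC

theorem p_two3 (h_reg : S_reg) : S_two3 := by
  intro V hV hHol hW hu v hv hv3 hcl
  have hconv : Convex ℝ (hull V) := convex_convexHull ℝ _
  have hmem : ∀ x ∈ V, ip x ∈ hull V := fun x hx => subset_convexHull ℝ _ ⟨x, hx, rfl⟩
  have e1 := hmem _ hW.1
  have e2 := hmem _ hW.2.1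
  have e3 := hmem _ hW.2.2
  have eu := hmem _ hu
  have ev := hmem _ hv
  obtain ⟨v1, v2, v3⟩ := v
  have hv3' : v3 = 3 := hv3
  subst hv3'
  rcases hcl with ⟨⟨m₁, h1⟩, m₂, h2⟩ | ⟨⟨m₁, h1⟩, m₂, h2⟩
  · -- case (a)
    have h1' : v1 = 1 + 3 * m₁ := by
      have : v1 - 1 = 3 * m₁ := h1
      omega
    have h2' : v2 = -1 + 3 * m₂ := by
      have : v2 + 1 = 3 * m₂ := h2
      omega
    subst h1' h2'
    have h3 := hconv eu ev (a := (1 / 3 : ℝ)) (b := (2 / 3 : ℝ)) (by norm_num) (by norm_num)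
      (by norm_num)
    have e : (1 / 3 : ℝ) • ip (1, -1, 3) + (2 / 3 : ℝ) • ip (1 + 3 * m₁, -1 + 3 * m₂, 3) =
        ip (1 + 2 * m₁, -1 + 2 * m₂, 3) := by
      refine Prod.ext ?_ (Prod.ext ?_ ?_)
      · show (1 / 3 : ℝ) * ((1 : ℤ) : ℝ) + (2 / 3 : ℝ) * ((1 + 3 * m₁ : ℤ) : ℝ) =
          ((1 + 2 * m₁ : ℤ) : ℝ)
        push_cast
        ring
      · show (1 / 3 : ℝ) * ((-1 : ℤ) : ℝ) + (2 / 3 : ℝ) * ((-1 + 3 * m₂ : ℤ) : ℝ) =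
          ((-1 + 2 * m₂ : ℤ) : ℝ)
        push_cast
        ring
      · show (1 / 3 : ℝ) * ((3 : ℤ) : ℝ) + (2 / 3 : ℝ) * ((3 : ℤ) : ℝ) = ((3 : ℤ) : ℝ)
        push_cast
        ring
    rw [e] at h3
    have h4 := hV.alone _ hu _ h3 ⟨m₁, by show 1 + 2 * m₁ - 1 = 2 * m₁; ring⟩
      ⟨m₂, by show -1 + 2 * m₂ - -1 = 2 * m₂; ring⟩ ⟨0, by show (3 : ℤ) - 3 = 2 * 0; ring⟩
    rw [Prod.mk.injEq, Prod.mk.injEq] at h4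
    have h5 : m₁ = 0 := by omega
    have h6 : m₂ = 0 := by omega
    subst h5 h6
    rfl
  · -- case (b)
    exfalso
    have h1' : v1 = -1 + 3 * m₁ := by
      have : v1 + 1 = 3 * m₁ := h1
      omega
    have h2' : v2 = 1 + 3 * m₂ := by
      have : v2 - 1 = 3 * m₂ := h2
      omega
    subst h1' h2'
    have p1 := hconv ev e1 (a := (1 / 3 : ℝ)) (b := (2 / 3 : ℝ)) (by norm_num) (by norm_num)
      (by norm_num)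
    have p2 := hconv ev e2 (a := (1 / 3 : ℝ)) (b := (2 / 3 : ℝ)) (by norm_num) (by norm_num)
      (by norm_num)
    have p3 := hconv ev e3 (a := (1 / 3 : ℝ)) (b := (2 / 3 : ℝ)) (by norm_num) (by norm_num)
      (by norm_num)
    have q1 : (1 / 3 : ℝ) • ip (-1 + 3 * m₁, 1 + 3 * m₂, 3) + (2 / 3 : ℝ) • ip (1, 0, 0) =
        ((m₁ : ℝ) + 1 / 3, (m₂ : ℝ) + 1 / 3, (1 : ℝ)) := by
      refine Prod.ext ?_ (Prod.ext ?_ ?_)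
      · show (1 / 3 : ℝ) * ((-1 + 3 * m₁ : ℤ) : ℝ) + (2 / 3 : ℝ) * ((1 : ℤ) : ℝ) = (m₁ : ℝ) + 1 / 3
        push_cast
        ring
      · show (1 / 3 : ℝ) * ((1 + 3 * m₂ : ℤ) : ℝ) + (2 / 3 : ℝ) * ((0 : ℤ) : ℝ) = (m₂ : ℝ) + 1 / 3
        push_cast
        ring
      · show (1 / 3 : ℝ) * ((3 : ℤ) : ℝ) + (2 / 3 : ℝ) * ((0 : ℤ) : ℝ) = 1
        push_cast
        ring
    have q2 : (1 / 3 : ℝ) • ip (-1 + 3 * m₁, 1 + 3 * m₂, 3) + (2 / 3 : ℝ) • ip (0, 1, 0) =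
        ((m₁ : ℝ) - 1 / 3, (m₂ : ℝ) + 1, (1 : ℝ)) := by
      refine Prod.ext ?_ (Prod.ext ?_ ?_)
      · show (1 / 3 : ℝ) * ((-1 + 3 * m₁ : ℤ) : ℝ) + (2 / 3 : ℝ) * ((0 : ℤ) : ℝ) = (m₁ : ℝ) - 1 / 3
        push_cast
        ring
      · show (1 / 3 : ℝ) * ((1 + 3 * m₂ : ℤ) : ℝ) + (2 / 3 : ℝ) * ((1 : ℤ) : ℝ) = (m₂ : ℝ) + 1
        push_cast
        ring
      · show (1 / 3 : ℝ) * ((3 : ℤ) : ℝ) + (2 / 3 : ℝ) * ((0 : ℤ) : ℝ) = 1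
        push_cast
        ring
    have q3 : (1 / 3 : ℝ) • ip (-1 + 3 * m₁, 1 + 3 * m₂, 3) + (2 / 3 : ℝ) • ip (-1, -1, 0) =
        ((m₁ : ℝ) - 1, (m₂ : ℝ) - 1 / 3, (1 : ℝ)) := by
      refine Prod.ext ?_ (Prod.ext ?_ ?_)
      · show (1 / 3 : ℝ) * ((-1 + 3 * m₁ : ℤ) : ℝ) + (2 / 3 : ℝ) * ((-1 : ℤ) : ℝ) = (m₁ : ℝ) - 1
        push_cast
        ring
      · show (1 / 3 : ℝ) * ((1 + 3 * m₂ : ℤ) : ℝ) + (2 / 3 : ℝ) * ((-1 : ℤ) : ℝ) =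
          (m₂ : ℝ) - 1 / 3
        push_cast
        ring
      · show (1 / 3 : ℝ) * ((3 : ℤ) : ℝ) + (2 / 3 : ℝ) * ((0 : ℤ) : ℝ) = 1
        push_cast
        ring
    rw [q1] at p1
    rw [q2] at p2
    rw [q3] at p3
    have r1 : ¬ (1 ≤ m₁ ∧ 1 ≤ m₁ + 2 * m₂) := by
      rintro ⟨ha, hb⟩
      have ha' : (1 : ℝ) ≤ m₁ := by exact_mod_cast ha
      have hb' : (1 : ℝ) ≤ (m₁ : ℝ) + 2 * m₂ := by exact_mod_cast hb
      exact hHol _ ((h_reg _ _ _ hconv e1 e2 e3 eu p1).2.1 (by linarith) (by linarith))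
    have r2 : ¬ (3 * m₁ < m₂ + 2 ∧ m₁ < m₂ + 2) := by
      rintro ⟨ha, hb⟩
      have ha' : 3 * (m₁ : ℝ) < m₂ + 2 := by exact_mod_cast ha
      have hb' : (m₁ : ℝ) + 1 ≤ m₂ + 2 := by exact_mod_cast hb
      exact hHol _ ((h_reg _ _ _ hconv e1 e2 e3 eu p2).1 (by linarith) (by linarith))
    have r3 : ¬ (m₂ + 1 ≤ 0 ∧ 3 * m₂ + 4 < 2 * m₁) := by
      rintro ⟨ha, hb⟩
      have ha' : (m₂ : ℝ) + 1 ≤ 0 := by exact_mod_cast ha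
      have hb' : 3 * (m₂ : ℝ) + 4 < 2 * m₁ := by exact_mod_cast hb
      exact hHol _ ((h_reg _ _ _ hconv e1 e2 e3 eu p3).2.2 (by linarith) (by linarith))
    rcases le_or_gt m₁ 0 with hm | hm
    · omega
    · have h7 : m₂ ≤ -1 := by omega
      have h8 : 2 * m₁ ≤ 3 * m₂ + 4 := by omega
      omega

end Pool.Agent.Lib.MP_0bc52e_nt.T
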