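import Pool.Agent.Lib.MP_0bc52e_nt.T.StmH

/-!
# Piece [uni]: triangles of an empty configuration are unimodular
-/

namespace Pool.Agent.Lib.MP_0bc52e_nt.T

open Pool.Agent.Lib.MP_0bc52e_nt.LC

private lemma p_uni_conv3 {S : Set (ℝ × ℝ × ℝ)} (hS : Convex ℝ S) {p q r : ℝ × ℝ × ℝ}
    (hp : p ∈ S) (hq : q ∈ S) (hr : r ∈ S) {α β γ : ℝ} (hα : 0 ≤ α) (hβ : 0 ≤ β) (hγ : 0 ≤ γ)
    (h : α + β + γ = 1) : α • p + β • q + γ • r ∈ S := by
  have := hS.sum_mem (t := (Finset.univ : Finset (Fin 3))) (w := ![α, β, γ]) (z := ![p, q, r])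
    (by intro i _; fin_cases i <;> simp [hα, hβ, hγ])
    (by simp [Fin.sum_univ_three, h])
    (by intro i _; fin_cases i <;> simp [hp, hq, hr])
  simpa [Fin.sum_univ_three] using this

theorem p_uni (h_pln : S_pln) (h_emp2 : S_emp2) : S_uni := by
  intro V hV A hA B hB C hC hcr
  obtain ⟨a, b, c, s₁, s₂, t₁, t₂, hdet, hD, hs, ht⟩ := h_pln _ _ hcr
  have hlin : ∀ x y : ℤ, det3 (x • a + y • b) b c = x ∧ det3 a (x • a + y • b) c = y := by
    intro x y
    have hd := hdet
    simp only [det3] at hd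
    constructor
    · simp only [det3, Prod.fst_add, Prod.snd_add, Prod.smul_fst, Prod.smul_snd, smul_eq_mul]
      linear_combination x * hd
    · simp only [det3, Prod.fst_add, Prod.snd_add, Prod.smul_fst, Prod.smul_snd, smul_eq_mul]
      linear_combination y * hd
  have hinj : ∀ x y x' y' : ℤ, x • a + y • b = x' • a + y' • b → x = x' ∧ y = y' := by
    intro x y x' y' h
    have h1 := (hlin x y).1
    have h2 := (hlin x' y').1
    have h3 := (hlin x y).2
    have h4 := (hlin x' y').2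
    rw [h] at h1 h3
    exact ⟨h1.symm.trans h2, h3.symm.trans h4⟩
  by_cases hD1 : s₁ * t₂ - s₂ * t₁ = 1
  · refine ⟨c, ?_⟩
    have hd := hdet
    simp only [det3] at hd
    rw [hs, ht]
    simp only [det3, Prod.fst_add, Prod.snd_add, Prod.smul_fst, Prod.smul_snd, smul_eq_mul]
    linear_combination (s₁ * t₂ - s₂ * t₁) * hd + hD1
  · exfalso
    obtain ⟨X, hX0, hXA, hXB, hu, hv, huv⟩ := h_emp2 (s₁, s₂) (t₁, t₂) (by simp only [det2]; omega)
    simp only [det2] at hu hv huv
    set D : ℤ := s₁ * t₂ - s₂ * t₁ with hDdef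
    set u : ℤ := X.1 * t₂ - X.2 * t₁ with hudef
    set v : ℤ := s₁ * X.2 - s₂ * X.1 with hvdef
    have hDX1 : D * X.1 = u * s₁ + v * t₁ := by rw [hDdef, hudef, hvdef]; ring
    have hDX2 : D * X.2 = u * s₂ + v * t₂ := by rw [hDdef, hudef, hvdef]; ring
    set y : ℤ × ℤ × ℤ := C + (X.1 • a + X.2 • b) with hy
    have hDR : (0 : ℝ) < D := by exact_mod_cast hD
    have huR : (0 : ℝ) ≤ u := by exact_mod_cast hu
    have hvR : (0 : ℝ) ≤ v := by exact_mod_cast hv
    have huvR : (u : ℝ) + v ≤ D := by exact_mod_cast huv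
    have hA' : A = C + (s₁ • a + s₂ • b) := by rw [← hs]; abel
    have hB' : B = C + (t₁ • a + t₂ • b) := by rw [← ht]; abel
    have hyC : y ≠ C := by
      intro h
      have h0 : X.1 • a + X.2 • b = (0 : ℤ) • a + (0 : ℤ) • b := by
        have : C + (X.1 • a + X.2 • b) = C + 0 := by rw [← hy, h]; simp
        simpa using add_left_cancel this
      obtain ⟨h1, h2⟩ := hinj _ _ _ _ h0
      exact hX0 (Prod.ext h1 h2)
    have hyA : y ≠ A := by
      intro h
      have h0 : X.1 • a + X.2 • b = s₁ • a + s₂ • b := by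
        have : C + (X.1 • a + X.2 • b) = C + (s₁ • a + s₂ • b) := by rw [← hy, ← hA']; exact h
        exact add_left_cancel this
      obtain ⟨h1, h2⟩ := hinj _ _ _ _ h0
      exact hXA (Prod.ext h1 h2)
    have hyB : y ≠ B := by
      intro h
      have h0 : X.1 • a + X.2 • b = t₁ • a + t₂ • b := by
        have : C + (X.1 • a + X.2 • b) = C + (t₁ • a + t₂ • b) := by rw [← hy, ← hB']; exact h
        exact add_left_cancel this
      obtain ⟨h1, h2⟩ := hinj _ _ _ _ h0
      exact hXB (Prod.ext h1 h2)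
    have hcomb : ip y = (u / D : ℝ) • ip A + (v / D : ℝ) • ip B + (1 - u / D - v / D : ℝ) • ip C := by
      have e1 : (X.1 : ℝ) = u / D * s₁ + v / D * t₁ := by
        have : (D : ℝ) * X.1 = u * s₁ + v * t₁ := by exact_mod_cast hDX1
        field_simp
        linarith
      have e2 : (X.2 : ℝ) = u / D * s₂ + v / D * t₂ := by
        have : (D : ℝ) * X.2 = u * s₂ + v * t₂ := by exact_mod_cast hDX2
        field_simp
        linarith
      rw [hy, hA', hB']
      refine Prod.ext ?_ (Prod.ext ?_ ?_)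
      · simp only [ip, Prod.fst_add, Prod.snd_add, Prod.smul_fst, Prod.smul_snd, smul_eq_mul]
        push_cast
        rw [e1, e2]; ring
      · simp only [ip, Prod.fst_add, Prod.snd_add, Prod.smul_fst, Prod.smul_snd, smul_eq_mul]
        push_cast
        rw [e1, e2]; ring
      · simp only [ip, Prod.fst_add, Prod.snd_add, Prod.smul_fst, Prod.smul_snd, smul_eq_mul]
        push_cast
        rw [e1, e2]; ring
    have hw1 : (0 : ℝ) ≤ u / D := div_nonneg huR hDR.le
    have hw2 : (0 : ℝ) ≤ v / D := div_nonneg hvR hDR.le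
    have hw3 : (0 : ℝ) ≤ 1 - u / D - v / D := by
      have : (u : ℝ) / D + v / D ≤ 1 := by
        rw [← add_div, div_le_one hDR]; exact huvR
      linarith
    have hmem : ∀ W : Finset (ℤ × ℤ × ℤ), A ∈ W → B ∈ W → C ∈ W → ip y ∈ hull W := by
      intro W ha hb hc
      rw [hcomb]
      have hsub : ∀ z ∈ W, ip z ∈ hull W := fun z hz =>
        subset_convexHull ℝ _ (Set.mem_image_of_mem ip (Finset.mem_coe.2 hz))
      refine p_uni_conv3 (convex_convexHull ℝ _) (hsub A ha) (hsub B hb) (hsub C hc) hw1 hw2 hw3 ?_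
      ring
    have hyV : y ∈ V := hV.all y (hmem V hA hB hC)
    exact hV.ext y hyV (hmem (V.erase y) (Finset.mem_erase.2 ⟨hyA.symm, hA⟩)
      (Finset.mem_erase.2 ⟨hyB.symm, hB⟩) (Finset.mem_erase.2 ⟨hyC.symm, hC⟩))

end Pool.Agent.Lib.MP_0bc52e_nt.T
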