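import Pool.Agent.Lib.MP_0bc52e_nt.T.StmH

/-!
# MP_0bc52e_nt, Theorem (T163): the piece white
-/

namespace Pool.Agent.Lib.MP_0bc52e_nt.T

open Pool.Agent.Lib.MP_0bc52e_nt.LC

/-- remainders of opposite numbers -/
theorem p_white_opp (q t t' : ℤ) (hq : 0 < q) (h : q ∣ t + t') :
    (t % q = 0 ∧ t' % q = 0) ∨ (0 < t % q ∧ t % q + t' % q = q) := by
  have h1 := Int.emod_nonneg t hq.ne'
  have h2 := Int.emod_lt_of_pos t hq
  have h3 := Int.emod_nonneg t' hq.ne'
  have h4 := Int.emod_lt_of_pos t' hq
  have h5 := Int.emod_add_mul_ediv t q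
  have h6 := Int.emod_add_mul_ediv t' q
  obtain ⟨m, hm⟩ := h
  have h7 : t % q + t' % q = q * (m - t / q - t' / q) := by linear_combination hm + h5 + h6
  generalize m - t / q - t' / q = n at h7
  generalize t % q = a at *
  generalize t' % q = b at *
  rcases h1.eq_or_lt with h8 | h8
  · left
    refine ⟨h8.symm, ?_⟩
    have h9 : n = 0 := by
      rw [← h8, zero_add] at h7
      by_contra hn
      rcases lt_or_gt_of_ne hn with hn | hn
      · nlinarith
      · nlinarith
    rw [h9, ← h8] at h7
    linarith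
  · right
    refine ⟨h8, ?_⟩
    have h9 : n = 1 := by
      have h10 : 0 < n := by
        by_contra hn
        nlinarith
      have h11 : n < 2 := by
        by_contra hn
        nlinarith
      omega
    rw [h7, h9, mul_one]

/-- the case of a small remainder `b` -/
theorem p_white_core (h_gap : S_gap) (q b v w : ℤ) (hq : 3 ≤ q) (hb : 0 < b) (hb2 : 2 * b < q)
    (H : ∀ k : ℤ, 0 < k → k < q → k + (k * b) % q + (k * v) % q + (k * w) % q = 2 * q ∧
      (k * v) % q ≠ 0 ∧ (k * w) % q ≠ 0) : q ∣ v + 1 ∨ q ∣ w + 1 := by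
  have hq0 : 0 < q := by omega
  obtain ⟨c, hc⟩ : ∃ c, c = q - v % q := ⟨_, rfl⟩
  obtain ⟨d, hd⟩ : ∃ d, d = q - w % q := ⟨_, rfl⟩
  have hv := Int.emod_add_mul_ediv v q
  have hw := Int.emod_add_mul_ediv w q
  obtain ⟨H1, -, -⟩ := H 1 one_pos (by omega)
  rw [one_mul, one_mul, one_mul, Int.emod_eq_of_lt hb.le (by omega)] at H1
  have hc0 : 0 < c := by
    have := Int.emod_lt_of_pos v hq0
    omega
  have hd0 : 0 < d := by
    have := Int.emod_lt_of_pos w hq0
    omega
  have hs : 1 + b = c + d := by omega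
  have hid : ∀ k : ℤ, 0 < k → k < q → k * b / q = k * c / q + k * d / q := by
    intro k hk0 hkq
    obtain ⟨H1, H2, H3⟩ := H k hk0 hkq
    have e1 : (k * v) % q + (k * c) % q = q := by
      rcases p_white_opp q (k * v) (k * c) hq0
        ⟨k * (v / q) + k, by rw [hc]; linear_combination (-k) * hv⟩ with h | h
      · exact absurd h.1 H2
      · exact h.2
    have e2 : (k * w) % q + (k * d) % q = q := by
      rcases p_white_opp q (k * w) (k * d) hq0
        ⟨k * (w / q) + k, by rw [hd]; linear_combination (-k) * hw⟩ with h | h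
      · exact absurd h.1 H3
      · exact h.2
    have f1 := Int.emod_add_mul_ediv (k * b) q
    have f2 := Int.emod_add_mul_ediv (k * c) q
    have f3 := Int.emod_add_mul_ediv (k * d) q
    have e3 : q * (k * b / q) = q * (k * c / q + k * d / q) := by
      linear_combination f1 - f2 - f3 + e1 + e2 - H1 + k * hs
    exact mul_left_cancel₀ hq0.ne' e3
  rcases h_gap q b c d hq hb hc0 hd0 hb2 hs hid with h | h
  · left
    exact ⟨v / q + 1, by linear_combination hc - h - hv⟩
  · right
    exact ⟨w / q + 1, by linear_combination hd - h - hw⟩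

theorem p_white (h_gap : S_gap) : S_white := by
  intro q x y hq hyp
  have hq0 : 0 < q := by omega
  obtain ⟨u, hu⟩ : ∃ u, u = -x := ⟨_, rfl⟩
  obtain ⟨v, hv⟩ : ∃ v, v = -y := ⟨_, rfl⟩
  obtain ⟨w, hw⟩ : ∃ w, w = x + y - 1 := ⟨_, rfl⟩
  have huvw : 1 + u + v + w = 0 := by rw [hu, hv, hw]; ring
  have hyp' : ∀ k : ℤ, 0 < k → k < q → q < (k * u) % q + (k * v) % q + k := by
    intro k h0 h1
    have := hyp k h0 h1
    have e1 : -k * x = k * u := by rw [hu]; ring
    have e2 : -k * y = k * v := by rw [hv]; ring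
    rwa [e1, e2] at this
  -- the sum is a multiple of `q`, so at least `2 q`
  have hge : ∀ k : ℤ, 0 < k → k < q →
      2 * q ≤ k + (k * u) % q + (k * v) % q + (k * w) % q := by
    intro k h0 h1
    have h2 := hyp' k h0 h1
    have h3 := Int.emod_nonneg (k * w) hq0.ne'
    have f1 := Int.emod_add_mul_ediv (k * u) q
    have f2 := Int.emod_add_mul_ediv (k * v) q
    have f3 := Int.emod_add_mul_ediv (k * w) q
    have h4 : k + (k * u) % q + (k * v) % q + (k * w) % q =
        q * (-(k * u / q) - k * v / q - k * w / q) := by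
      linear_combination f1 + f2 + f3 + k * huvw
    generalize -(k * u / q) - k * v / q - k * w / q = n at h4
    have h5 : 2 ≤ n := by
      by_contra hn
      have : n ≤ 1 := by omega
      nlinarith
    nlinarith
  have hall : ∀ k : ℤ, 0 < k → k < q →
      k + (k * u) % q + (k * v) % q + (k * w) % q = 2 * q ∧
        0 < (k * u) % q ∧ 0 < (k * v) % q ∧ 0 < (k * w) % q := by
    intro k h0 h1
    have g1 := hge k h0 h1
    have g2 := hge (q - k) (by omega) (by omega)
    have o1 := p_white_opp q (k * u) ((q - k) * u) hq0 ⟨u, by ring⟩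
    have o2 := p_white_opp q (k * v) ((q - k) * v) hq0 ⟨v, by ring⟩
    have o3 := p_white_opp q (k * w) ((q - k) * w) hq0 ⟨w, by ring⟩
    generalize (k * u) % q = a1 at *
    generalize (k * v) % q = a2 at *
    generalize (k * w) % q = a3 at *
    generalize ((q - k) * u) % q = b1 at *
    generalize ((q - k) * v) % q = b2 at *
    generalize ((q - k) * w) % q = b3 at *
    omega
  -- conclusion from `q ∣ u + 1` etc.
  have hconc : (q ∣ u + 1 ∨ q ∣ v + 1 ∨ q ∣ w + 1) → q ∣ x - 1 ∨ q ∣ y - 1 ∨ q ∣ x + y := by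
    rintro (h | h | h)
    · left
      have : x - 1 = -(u + 1) := by rw [hu]; ring
      rw [this]
      exact (dvd_neg).2 h
    · right; left
      have : y - 1 = -(v + 1) := by rw [hv]; ring
      rw [this]
      exact (dvd_neg).2 h
    · right; right
      have : x + y = w + 1 := by rw [hw]; ring
      rw [this]
      exact h
  apply hconc
  rcases hq.eq_or_lt with hq2 | hq3
  · -- `q = 2`
    left
    obtain ⟨-, h1, -, -⟩ := hall 1 one_pos (by omega)
    rw [one_mul, ← hq2] at h1
    rw [← hq2]
    omega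
  · have hq3 : 3 ≤ q := hq3
    -- the remainders for `k` depend only on the classes
    have hmod : ∀ k t : ℤ, (k * (t % q)) % q = (k * t) % q := by
      intro k t
      rw [Int.mul_emod, Int.emod_emod_of_dvd _ (dvd_refl q), ← Int.mul_emod]
    obtain ⟨s1, p1, p2, p3⟩ := hall 1 one_pos (by omega)
    obtain ⟨s2, r1, r2, r3⟩ := hall 2 two_pos (by omega)
    simp only [one_mul] at s1 p1 p2 p3
    have m1 := Int.emod_lt_of_pos u hq0
    have m2 := Int.emod_lt_of_pos v hq0
    have m3 := Int.emod_lt_of_pos w hq0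
    -- twice a remainder which is at least `q / 2`
    have hbig : ∀ t : ℤ, q ≤ 2 * (t % q) → (2 * t) % q = 2 * (t % q) - q := by
      intro t ht
      have l1 := Int.emod_lt_of_pos t hq0
      rw [← hmod 2 t]
      have : 2 * (t % q) = (2 * (t % q) - q) + q * 1 := by ring
      conv_lhs => rw [this]
      rw [Int.add_mul_emod_self_left]
      exact Int.emod_eq_of_lt (by omega) (by omega)
    have hex : 2 * (u % q) < q ∨ 2 * (v % q) < q ∨ 2 * (w % q) < q := by
      by_contra hcon
      push Not at hcon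
      obtain ⟨c1, c2, c3⟩ := hcon
      have e1 := hbig u c1
      have e2 := hbig v c2
      have e3 := hbig w c3
      omega
    rcases hex with h | h | h
    · have := p_white_core h_gap q (u % q) v w hq3 p1 h (by
        intro k h0 h1
        obtain ⟨t1, t2, t3, t4⟩ := hall k h0 h1
        rw [hmod]
        exact ⟨t1, t3.ne', t4.ne'⟩)
      tauto
    · have := p_white_core h_gap q (v % q) u w hq3 p2 h (by
        intro k h0 h1
        obtain ⟨t1, t2, t3, t4⟩ := hall k h0 h1
        rw [hmod]
        exact ⟨by omega, t2.ne', t4.ne'⟩)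
      tauto
    · have := p_white_core h_gap q (w % q) u v hq3 p3 h (by
        intro k h0 h1
        obtain ⟨t1, t2, t3, t4⟩ := hall k h0 h1
        rw [hmod]
        exact ⟨by omega, t2.ne', t3.ne'⟩)
      tauto

end Pool.Agent.Lib.MP_0bc52e_nt.T
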