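import Pool.Agent.Lib.MP_0bc52e_nt.T.StmH
import Pool.Agent.Lib.MP_0bc52e_nt.T.StmI3

/-!
# MP_0bc52e_nt: piece wid
-/

namespace Pool.Agent.Lib.MP_0bc52e_nt.T

open Pool.Agent.Lib.MP_0bc52e_nt.LC

theorem p_wid (h_WID : SI_WID) : S_wid := by
  intro P p hP hp h13 hC hH V₀ hV hpc
  have hH' : LC.Hollow P := by
    intro x y z hz
    apply hH (x, y, z)
    intro d
    have h1 : Filter.Tendsto (fun ε : ℝ => ip (x, y, z) + ε • d) (nhds 0)
        (nhds (ip (x, y, z))) := by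
      have h2 : Continuous (fun ε : ℝ => ip (x, y, z) + ε • d) := by fun_prop
      have h3 := h2.tendsto 0
      simpa using h3
    have h4 : ∀ᶠ ε in nhds (0 : ℝ), ip (x, y, z) + ε • d ∈ P :=
      h1.eventually (mem_interior_iff_mem_nhds.1 hz)
    obtain ⟨δ, hδ, h5⟩ := Metric.eventually_nhds_iff.1 h4
    refine ⟨δ / 2, by positivity, h5 ?_⟩
    rw [Real.dist_eq, sub_zero, abs_of_pos (by positivity)]
    linarith
  obtain ⟨C, s, t, h1, h2, _, h4⟩ := h_WID P p V₀ hp h13 hP hC hH' (fun v hv => (hV v hv).1) hpc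
    (fun v hv => (hV v hv).2)
  exact ⟨C, s, t, h1, h2, h4⟩

end Pool.Agent.Lib.MP_0bc52e_nt.T
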