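import Pool.Agent.Lib.MP_0bc52e_nt.T.StmN

set_option autoImplicit false

/-!
# [J1]: an integer segment through an integer point, and integer points on both sides of it
-/

namespace Pool.Agent.Lib.MP_0bc52e_nt.T

open Pool.Agent.Lib.MP_0bc52e_nt.LC

/-- The conclusion of `S_J1`. -/
private def p_J1_Gd (Q : Set (ℝ × ℝ)) : Prop :=
  ∃ g, IsUM g ∧ (W3 (g '' Q) ∨ D4 (g '' Q) ∨ T4 (g '' Q))

private theorem p_J1_comp {g h : ℝ × ℝ → ℝ × ℝ} (hg : IsUM g) (hh : IsUM h) :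
    IsUM (fun v => g (h v)) := by
  obtain ⟨a, b, c, d, e, f, hd, hg⟩ := hg
  obtain ⟨a', b', c', d', e', f', hd', hh⟩ := hh
  refine ⟨a * a' + b * c', a * b' + b * d', c * a' + d * c', c * b' + d * d',
    a * e' + b * f' + e, c * e' + d * f' + f, ?_, ?_⟩
  · have h1 : (a * a' + b * c') * (c * b' + d * d') - (a * b' + b * d') * (c * a' + d * c') =
        (a * d - b * c) * (a' * d' - b' * c') := by ring
    rw [h1]
    rcases hd with hd | hd <;> rcases hd' with hd' | hd' <;> simp [hd, hd']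
  · intro v
    show g (h v) = _
    rw [hh, hg]
    ext
    · push_cast; ring
    · push_cast; ring

private theorem p_J1_tr {Q : Set (ℝ × ℝ)} {h : ℝ × ℝ → ℝ × ℝ} (hh : IsUM h)
    (H : p_J1_Gd (h '' Q)) : p_J1_Gd Q := by
  obtain ⟨g, hg, H⟩ := H
  rw [Set.image_image] at H
  exact ⟨fun v => g (h v), p_J1_comp hg hh, H⟩

private theorem p_J1_cvx {Q : Set (ℝ × ℝ)} {h : ℝ × ℝ → ℝ × ℝ} (hh : IsUM h)
    (hQ : Convex ℝ Q) : Convex ℝ (h '' Q) := by
  obtain ⟨a, b, c, d, e, f, -, hh⟩ := hh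
  rintro _ ⟨x, hx, rfl⟩ _ ⟨y, hy, rfl⟩ s t hs ht hst
  refine ⟨s • x + t • y, hQ hx hy hs ht hst, ?_⟩
  rw [hh, hh, hh]
  ext
  · simp only [Prod.fst_add, Prod.snd_add, Prod.smul_fst, Prod.smul_snd, smul_eq_mul]
    linear_combination (-(e : ℝ)) * hst
  · simp only [Prod.fst_add, Prod.snd_add, Prod.smul_fst, Prod.smul_snd, smul_eq_mul]
    linear_combination (-(f : ℝ)) * hst

private theorem p_J1_c3 {Q : Set (ℝ × ℝ)} (hQ : Convex ℝ Q) {x y z : ℝ × ℝ} (hx : x ∈ Q)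
    (hy : y ∈ Q) (hz : z ∈ Q) {a b c : ℝ} (ha : 0 ≤ a) (hb : 0 ≤ b) (hc : 0 ≤ c)
    (h : a + b + c = 1) (w : ℝ × ℝ) (h1 : w.1 = a * x.1 + b * y.1 + c * z.1)
    (h2 : w.2 = a * x.2 + b * y.2 + c * z.2) : w ∈ Q := by
  have key : (∑ i : Fin 3, (![a, b, c] i) • (![x, y, z] i)) ∈ Q := by
    refine hQ.sum_mem ?_ ?_ ?_
    · intro i _
      fin_cases i <;> simp [ha, hb, hc]
    · simp [Fin.sum_univ_three, h]
    · intro i _
      fin_cases i <;> simp [hx, hy, hz]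
  have : w = ∑ i : Fin 3, (![a, b, c] i) • (![x, y, z] i) := by
    simp only [Fin.sum_univ_three]
    ext
    · simpa using h1
    · simpa using h2
  rw [this]
  exact key

/-- The normal form: `C = (0, 1)`, `D = (w, -1)`, `w ≥ 0`. -/
private theorem p_J1_nf {Q : Set (ℝ × ℝ)} (hQ : Convex ℝ Q) (h1 : ((1 : ℝ), (0 : ℝ)) ∈ Q)
    (h2 : ((-1 : ℝ), (0 : ℝ)) ∈ Q) (h3 : ((0 : ℝ), (1 : ℝ)) ∈ Q) (w : ℕ)
    (h4 : ((w : ℝ), (-1 : ℝ)) ∈ Q) : p_J1_Gd Q := by
  rcases Nat.even_or_odd w with ⟨m, hm⟩ | ⟨m, hm⟩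
  · rcases Nat.eq_zero_or_pos m with h0 | hpos
    · refine ⟨id, ⟨1, 0, 0, 1, 0, 0, Or.inl (by norm_num), fun v => ?_⟩, Or.inr (Or.inl ?_)⟩
      · ext <;> simp
      · rw [Set.image_id]
        refine ⟨h1, h2, h3, ?_⟩
        have : w = 0 := by omega
        simpa [this] using h4
    · have hmR : (1 : ℝ) ≤ m := by exact_mod_cast hpos
      have hwR : (w : ℝ) = 2 * m := by
        rw [hm]; push_cast; ring
      have h5 : (((m : ℝ) - 2), (0 : ℝ)) ∈ Q := by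
        have hm1 : (0 : ℝ) < m + 1 := by linarith
        refine p_J1_c3 hQ h2 h3 h4 (a := 2 / (m + 1)) (b := (m - 1) / (2 * (m + 1)))
          (c := (m - 1) / (2 * (m + 1))) (by positivity) ?_ ?_ ?_ _ ?_ ?_
        · exact div_nonneg (by linarith) (by linarith)
        · exact div_nonneg (by linarith) (by linarith)
        · field_simp; ring
        · simp only [hwR]; field_simp; ring
        · simp only; ring
      refine ⟨fun v => (v.2, v.1 + m * v.2 - (m - 1)), ⟨0, 1, 1, m, 0, -((m : ℤ) - 1),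
        Or.inr (by ring), fun v => ?_⟩, Or.inr (Or.inr ?_)⟩
      · ext
        · simp
        · push_cast; ring
      · refine ⟨⟨_, h3, ?_⟩, ⟨_, h4, ?_⟩, ⟨_, h5, ?_⟩⟩
        · ext
          · simp
          · simp only; ring
        · ext
          · simp
          · simp only [hwR]; ring
        · ext
          · simp
          · simp only; ring
  · have hwR : (w : ℝ) = 2 * m + 1 := by
      rw [hm]; push_cast; ring
    have h0 : (0 : ℝ) ≤ m := Nat.cast_nonneg m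
    have h5 : (((m : ℝ) - 1), (0 : ℝ)) ∈ Q := by
      have hm1 : (0 : ℝ) < 2 * m + 3 := by linarith
      refine p_J1_c3 hQ h2 h3 h4 (a := 3 / (2 * m + 3)) (b := m / (2 * m + 3))
        (c := m / (2 * m + 3)) (by positivity) (by positivity) (by positivity) ?_ _ ?_ ?_
      · field_simp; ring
      · simp only [hwR]; field_simp; ring
      · simp only; ring
    refine ⟨fun v => (-(v.1 - m) - (m + 1) * v.2, -v.2), ⟨-1, -((m : ℤ) + 1), 0, -1, m, 0,
      Or.inl (by ring), fun v => ?_⟩, Or.inl ?_⟩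
    · ext
      · push_cast; ring
      · push_cast; ring
    · refine ⟨⟨_, h5, ?_⟩, ⟨_, h4, ?_⟩, ⟨_, h3, ?_⟩⟩
      · ext
        · simp only; ring
        · simp
      · ext
        · simp only [hwR]; ring
        · simp
      · ext
        · simp only; ring
        · simp

/-- `C = (c, 1)`, `D = (d, -1)`. -/
private theorem p_J1_l2 {Q : Set (ℝ × ℝ)} (hQ : Convex ℝ Q) (h1 : ((1 : ℝ), (0 : ℝ)) ∈ Q)
    (h2 : ((-1 : ℝ), (0 : ℝ)) ∈ Q) (c d : ℤ) (h3 : ((c : ℝ), (1 : ℝ)) ∈ Q)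
    (h4 : ((d : ℝ), (-1 : ℝ)) ∈ Q) : p_J1_Gd Q := by
  rcases le_total 0 (c + d) with h | h
  · obtain ⟨w, hw⟩ := Int.eq_ofNat_of_zero_le h
    have hwR : (w : ℝ) = c + d := by exact_mod_cast hw.symm
    have hu : IsUM (fun v : ℝ × ℝ => (v.1 - c * v.2, v.2)) :=
      ⟨1, -c, 0, 1, 0, 0, Or.inl (by ring), fun v => by
        ext
        · push_cast; ring
        · push_cast; ring⟩
    refine p_J1_tr hu (p_J1_nf (p_J1_cvx hu hQ) ⟨_, h1, ?_⟩ ⟨_, h2, ?_⟩ ⟨_, h3, ?_⟩ w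
      ⟨_, h4, ?_⟩)
    · ext <;> simp
    · ext <;> simp
    · ext <;> simp
    · ext
      · simp only [hwR]; ring
      · simp
  · obtain ⟨w, hw⟩ := Int.eq_ofNat_of_zero_le (show 0 ≤ -(c + d) by omega)
    have hwR : (w : ℝ) = -(c + d) := by exact_mod_cast hw.symm
    have hu : IsUM (fun v : ℝ × ℝ => (-(v.1 - c * v.2), v.2)) :=
      ⟨-1, c, 0, 1, 0, 0, Or.inr (by ring), fun v => by
        ext
        · push_cast; ring
        · push_cast; ring⟩
    refine p_J1_tr hu (p_J1_nf (p_J1_cvx hu hQ) ⟨_, h2, ?_⟩ ⟨_, h1, ?_⟩ ⟨_, h3, ?_⟩ w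
      ⟨_, h4, ?_⟩)
    · ext <;> simp
    · ext <;> simp
    · ext <;> simp
    · ext
      · simp only [hwR]; ring
      · simp

/-- The chord at height `1`. -/
private theorem p_J1_ch {Q : Set (ℝ × ℝ)} (hQ : Convex ℝ Q) (h1 : ((1 : ℝ), (0 : ℝ)) ∈ Q)
    (h2 : ((-1 : ℝ), (0 : ℝ)) ∈ Q) (c₁ c₂ : ℤ) (s : ℝ) (hc : 0 < c₂)
    (h3 : ((c₁ : ℝ), s * (c₂ : ℝ)) ∈ Q) : ∃ n : ℤ, ((n : ℝ), s) ∈ Q := by
  refine ⟨c₁ / c₂, ?_⟩
  have e1 : c₂ * (c₁ / c₂) + c₁ % c₂ = c₁ := Int.mul_ediv_add_emod c₁ c₂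
  have e2 : 0 ≤ c₁ % c₂ := Int.emod_nonneg _ hc.ne'
  have e3 : c₁ % c₂ < c₂ := Int.emod_lt_of_pos _ hc
  generalize c₁ / c₂ = n at *
  generalize c₁ % c₂ = r at *
  have r1 : (c₂ : ℝ) * n + r = c₁ := by exact_mod_cast e1
  have r2 : (0 : ℝ) ≤ r := by exact_mod_cast e2
  have r3 : (r : ℝ) ≤ c₂ - 1 := by
    have : r ≤ c₂ - 1 := by omega
    exact_mod_cast this
  have r4 : (0 : ℝ) < c₂ := by exact_mod_cast hc
  refine p_J1_c3 hQ h1 h2 h3 (a := ((c₂ - 1) - r) / (2 * c₂)) (b := ((c₂ - 1) + r) / (2 * c₂))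
    (c := 1 / c₂) ?_ ?_ (by positivity) ?_ _ ?_ ?_
  · exact div_nonneg (by linarith) (by linarith)
  · exact div_nonneg (by linarith) (by linarith)
  · field_simp; ring
  · simp only [← r1]; field_simp; ring
  · simp only; field_simp; ring

theorem p_J1 : S_J1 := by
  intro Q O t C D hQ hp hm hC hD hdC hdD
  show p_J1_Gd Q
  have ht : Int.gcd t.1 t.2 ≠ 0 := by
    intro h
    rw [Int.gcd_eq_zero_iff] at h
    rw [det2, h.1, h.2] at hdC
    simp at hdC
  obtain ⟨k, hk⟩ : ∃ k : ℤ, k = (Int.gcd t.1 t.2 : ℤ) := ⟨_, rfl⟩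
  have hk0 : 0 < k := by
    rw [hk]; exact_mod_cast Nat.pos_of_ne_zero ht
  obtain ⟨p, hp1⟩ : k ∣ t.1 := hk ▸ Int.gcd_dvd_left _ _
  obtain ⟨q, hq1⟩ : k ∣ t.2 := hk ▸ Int.gcd_dvd_right _ _
  have hbz : t.1 * Int.gcdA t.1 t.2 + t.2 * Int.gcdB t.1 t.2 = k := by
    rw [hk, Int.gcd_eq_gcd_ab]
  generalize Int.gcdA t.1 t.2 = u at hbz
  generalize Int.gcdB t.1 t.2 = v at hbz
  have huv : p * u + q * v = 1 := by
    have : k * (p * u + q * v) = k * 1 := by
      rw [hp1, hq1] at hbz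
      linear_combination hbz
    exact mul_left_cancel₀ hk0.ne' this
  have huvR : (p : ℝ) * u + q * v = 1 := by exact_mod_cast huv
  have hkR : (1 : ℝ) ≤ k := by exact_mod_cast hk0
  have hkR0 : (0 : ℝ) < k := by linarith
  have ht1 : (t.1 : ℝ) = k * p := by exact_mod_cast hp1
  have ht2 : (t.2 : ℝ) = k * q := by exact_mod_cast hq1
  have hu : IsUM (fun x : ℝ × ℝ => (u * (x.1 - O.1) + v * (x.2 - O.2),
      -q * (x.1 - O.1) + p * (x.2 - O.2))) := by
    refine ⟨u, v, -q, p, -(u * O.1) - v * O.2, q * O.1 - p * O.2, Or.inl ?_, fun x => ?_⟩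
    · linear_combination huv
    · ext
      · push_cast; ring
      · push_cast; ring
  have hp' : (((O.1 : ℝ) + p), ((O.2 : ℝ) + q)) ∈ Q := by
    refine p_J1_c3 hQ hp hm hm (a := (k + 1) / (2 * k)) (b := (k - 1) / (2 * k)) (c := 0)
      (by positivity) (div_nonneg (by linarith) (by linarith)) le_rfl ?_ _ ?_ ?_
    · field_simp; ring
    · simp only [ip2, Prod.fst_add, Prod.fst_sub, Int.cast_add, Int.cast_sub, ht1]
      field_simp; ring
    · simp only [ip2, Prod.snd_add, Prod.snd_sub, Int.cast_add, Int.cast_sub, ht2]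
      field_simp; ring
  have hm' : (((O.1 : ℝ) - p), ((O.2 : ℝ) - q)) ∈ Q := by
    refine p_J1_c3 hQ hm hp hp (a := (k + 1) / (2 * k)) (b := (k - 1) / (2 * k)) (c := 0)
      (by positivity) (div_nonneg (by linarith) (by linarith)) le_rfl ?_ _ ?_ ?_
    · field_simp; ring
    · simp only [ip2, Prod.fst_add, Prod.fst_sub, Int.cast_add, Int.cast_sub, ht1]
      field_simp; ring
    · simp only [ip2, Prod.snd_add, Prod.snd_sub, Int.cast_add, Int.cast_sub, ht2]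
      field_simp; ring
  refine p_J1_tr hu ?_
  have hcv := p_J1_cvx hu hQ
  have a1 : ((1 : ℝ), (0 : ℝ)) ∈ (fun x : ℝ × ℝ => (u * (x.1 - O.1) + v * (x.2 - O.2),
      -q * (x.1 - O.1) + p * (x.2 - O.2))) '' Q := by
    refine ⟨_, hp', ?_⟩
    ext
    · simp only; linear_combination huvR
    · simp only; ring
  have a2 : ((-1 : ℝ), (0 : ℝ)) ∈ (fun x : ℝ × ℝ => (u * (x.1 - O.1) + v * (x.2 - O.2),
      -q * (x.1 - O.1) + p * (x.2 - O.2))) '' Q := by
    refine ⟨_, hm', ?_⟩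
    ext
    · simp only; linear_combination -huvR
    · simp only; ring
  have c2 : 0 < -q * (C.1 - O.1) + p * (C.2 - O.2) := by
    have : k * (-q * (C.1 - O.1) + p * (C.2 - O.2)) = det2 t (C - O) := by
      simp only [det2, Prod.fst_sub, Prod.snd_sub]
      rw [hp1, hq1]; ring
    have h0 : 0 < k * (-q * (C.1 - O.1) + p * (C.2 - O.2)) := by rw [this]; exact hdC
    exact (mul_pos_iff_of_pos_left hk0).mp h0
  have d2 : 0 < q * (D.1 - O.1) - p * (D.2 - O.2) := by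
    have : k * (q * (D.1 - O.1) - p * (D.2 - O.2)) = -det2 t (D - O) := by
      simp only [det2, Prod.fst_sub, Prod.snd_sub]
      rw [hp1, hq1]; ring
    have h0 : 0 < k * (q * (D.1 - O.1) - p * (D.2 - O.2)) := by rw [this]; omega
    exact (mul_pos_iff_of_pos_left hk0).mp h0
  obtain ⟨n, hn⟩ := p_J1_ch hcv a1 a2 (u * (C.1 - O.1) + v * (C.2 - O.2)) _ 1 c2
    ⟨_, hC, by
      ext
      · simp only [ip2]; push_cast; ring
      · simp only [ip2]; push_cast; ring⟩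
  obtain ⟨n', hn'⟩ := p_J1_ch hcv a1 a2 (u * (D.1 - O.1) + v * (D.2 - O.2)) _ (-1) d2
    ⟨_, hD, by
      ext
      · simp only [ip2]; push_cast; ring
      · simp only [ip2]; push_cast; ring⟩
  exact p_J1_l2 hcv a1 a2 n n' hn hn'

end Pool.Agent.Lib.MP_0bc52e_nt.T
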