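import Pool.Agent.Lib.MP_0bc52e_nt.T.StmN

set_option autoImplicit false

namespace Pool.Agent.Lib.MP_0bc52e_nt.T

open Pool.Agent.Lib.MP_0bc52e_nt.LC

private theorem p_PLT_core (P : Set (ℝ × ℝ × ℝ)) (p : ℕ) (a b c : ℤ) (hP : Convex ℝ P)
    (hcrit : Crit3 P p a b c) (h : ℕ) (k : ℤ) (hh : 0 < h) (hs : 9 * ((h : ℤ) + |k|) ≤ p)
    (hdvd : (p : ℤ) ∣ k - h * c) (X Y e : ℝ) (hXY : (X, Y, e) ∈ P) (he : (|k| : ℤ) * e = -(k : ℝ))
    (m : ℕ) (hm : 1 ≤ m) (hm3 : m ≤ 3) (i j : ℤ) (w₁ w₂ : ℝ) (hw : (w₁, w₂, (0 : ℝ)) ∈ P)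
    (h1 : ((p : ℝ) - m * (h + (|k| : ℤ))) * w₁ = m * (-h * a - (|k| : ℤ) * X) - p * i)
    (h2 : ((p : ℝ) - m * (h + (|k| : ℤ))) * w₂ = m * (-h * b - (|k| : ℤ) * Y) - p * j) : False := by
  have hk0 : 0 ≤ |k| := abs_nonneg k
  have hmul : (m : ℤ) * ((h : ℤ) + |k|) ≤ 3 * ((h : ℤ) + |k|) :=
    mul_le_mul_of_nonneg_right (by exact_mod_cast hm3) (by omega)
  have hmk : (0 : ℤ) ≤ (m : ℤ) * |k| := mul_nonneg (by omega) hk0
  have hmh : (1 : ℤ) ≤ (m : ℤ) * h := by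
    have : 1 ≤ m * h := Nat.mul_pos hm hh
    exact_mod_cast this
  have hmh' : (m : ℤ) * ((h : ℤ) + |k|) = (m : ℤ) * h + (m : ℤ) * |k| := by ring
  have hlt : (m : ℤ) * h < p := by omega
  have hltn : m * h < p := by exact_mod_cast hlt
  obtain ⟨N, hN⟩ : ∃ N : ℕ, N = p - m * h := ⟨_, rfl⟩
  have hN' : (N : ℤ) = p - m * h := by
    rw [hN]
    push_cast [Nat.cast_sub hltn.le]
    ring
  have hN0 : 0 < N := by omega
  have hm1 : 1 ≤ m * h := Nat.mul_pos hm hh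
  have hNp : N < p := by omega
  have hNr : (N : ℝ) = p - m * h := by exact_mod_cast hN'
  have hNpos : (0 : ℝ) < N := by exact_mod_cast hN0
  have hκ : (0 : ℝ) ≤ (m : ℝ) * (|k| : ℤ) := by exact_mod_cast hmk
  have hrest : (0 : ℝ) ≤ (N : ℝ) - (m : ℝ) * (|k| : ℤ) := by
    have : (0 : ℤ) ≤ (N : ℤ) - (m : ℤ) * |k| := by omega
    exact_mod_cast this
  have hmem := hP hXY hw (a := (m : ℝ) * (|k| : ℤ) / N)
    (b := ((N : ℝ) - (m : ℝ) * (|k| : ℤ)) / N) (div_nonneg hκ hNpos.le)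
    (div_nonneg hrest hNpos.le) (by field_simp; ring)
  have e0 : ((m : ℝ) * (|k| : ℤ) / N) • (X, Y, e) +
      (((N : ℝ) - (m : ℝ) * (|k| : ℤ)) / N) • (w₁, w₂, (0 : ℝ)) =
      ((m : ℝ) * (|k| : ℤ) / N * X + ((N : ℝ) - (m : ℝ) * (|k| : ℤ)) / N * w₁,
        (m : ℝ) * (|k| : ℤ) / N * Y + ((N : ℝ) - (m : ℝ) * (|k| : ℤ)) / N * w₂,
        (m : ℝ) * (|k| : ℤ) / N * e) := by
    ext <;> simp
  rw [e0] at hmem
  refine hcrit N hN0 hNp (-(m * h * a) - p * i) (-(m * h * b) - p * j) (-(m * k)) _ _ _ hmem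
    ?_ ?_ ?_ ?_ ?_ ?_
  · push_cast
    field_simp
    have : (N : ℝ) - m * (|k| : ℤ) = p - m * (h + (|k| : ℤ)) := by rw [hNr]; ring
    push_cast at this h1 ⊢
    rw [this]
    linear_combination -h1
  · push_cast
    field_simp
    have : (N : ℝ) - m * (|k| : ℤ) = p - m * (h + (|k| : ℤ)) := by rw [hNr]; ring
    push_cast at this h2 ⊢
    rw [this]
    linear_combination -h2
  · push_cast
    field_simp
    push_cast at he ⊢
    linear_combination -he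
  · refine ⟨-i - a, ?_⟩
    rw [hN']
    ring
  · refine ⟨-j - b, ?_⟩
    rw [hN']
    ring
  · obtain ⟨l, hl⟩ := hdvd
    refine ⟨-m * l - c, ?_⟩
    rw [hN']
    linear_combination -m * hl

private theorem p_PLT_hull (P : Set (ℝ × ℝ × ℝ)) (hP : Convex ℝ P)
    (h1 : ((1 : ℝ), (1 : ℝ), (0 : ℝ)) ∈ P) (h2 : ((-1 : ℝ), (1 : ℝ), (0 : ℝ)) ∈ P)
    (h3 : ((0 : ℝ), (-1 : ℝ), (0 : ℝ)) ∈ P)
    (w₁ w₂ : ℝ) (hw : w₂ ≤ 1) (hw' : 2 * |w₁| - w₂ ≤ 1) : (w₁, w₂, (0 : ℝ)) ∈ P := by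
  have a1 := le_abs_self w₁
  have a2 := neg_le_abs w₁
  have h := hP.sum_mem (t := Finset.univ) (w := ![((1 + w₂) / 2 + w₁) / 2,
      ((1 + w₂) / 2 - w₁) / 2, (1 - w₂) / 2])
    (z := ![((1 : ℝ), (1 : ℝ), (0 : ℝ)), ((-1 : ℝ), (1 : ℝ), (0 : ℝ)),
      ((0 : ℝ), (-1 : ℝ), (0 : ℝ))]) (by
        intro i _
        fin_cases i <;> simp <;> linarith) (by
        simp [Fin.sum_univ_three]
        ring) (by
        intro i _
        fin_cases i <;> simp <;> assumption)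
  simp only [Fin.sum_univ_three, Matrix.cons_val_zero, Matrix.cons_val_one, Matrix.cons_val] at h
  have e : (((1 + w₂) / 2 + w₁) / 2) • ((1 : ℝ), (1 : ℝ), (0 : ℝ)) +
      (((1 + w₂) / 2 - w₁) / 2) • ((-1 : ℝ), (1 : ℝ), (0 : ℝ)) +
      ((1 - w₂) / 2) • ((0 : ℝ), (-1 : ℝ), (0 : ℝ)) = (w₁, w₂, (0 : ℝ)) := by
    ext
    · simp
      ring
    · simp
      ring
    · simp
  rw [e] at h
  exact h

theorem p_PLT (h_short : S_short) (h_holeT : S_holeT) : S_PLT := by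
  intro P p x₁ y₁ x₂ y₂ hP hp hcr h1 h2 h3 h5 h6
  obtain ⟨a, b, c, hcrit⟩ := hcr
  obtain ⟨h, hh, k, hs, hdvd⟩ := h_short p c hp
  obtain ⟨X, Y, e, hXY, he⟩ : ∃ X Y e : ℝ, (X, Y, e) ∈ P ∧ (|k| : ℤ) * e = -(k : ℝ) := by
    rcases le_total 0 k with hk | hk
    · refine ⟨x₂, y₂, -1, h6, ?_⟩
      rw [abs_of_nonneg hk]
      ring
    · refine ⟨x₁, y₁, 1, h5, ?_⟩
      rw [abs_of_nonpos hk]
      push_cast
      ring
  have hp0 : (0 : ℝ) < p := by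
    have : 0 < p := by omega
    exact_mod_cast this
  obtain ⟨s, hsdef⟩ : ∃ s : ℝ, s = ((h : ℝ) + (|k| : ℤ)) / p := ⟨_, rfl⟩
  have hsp : (p : ℝ) * s = (h : ℝ) + (|k| : ℤ) := by
    rw [hsdef]
    field_simp
  have hs9 : 9 * s ≤ 1 := by
    have h9 : 9 * ((h : ℝ) + (|k| : ℤ)) ≤ p := by exact_mod_cast hs
    rw [← hsp] at h9
    have : (p : ℝ) * (9 * s) ≤ p * 1 := by linarith
    exact le_of_mul_le_mul_left this hp0
  have hs0 : 0 ≤ s := by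
    rw [hsdef]
    positivity
  have claim : ∀ (m : ℕ), 1 ≤ m → m ≤ 2 → ∀ i j : ℤ,
      ¬ (m * ((-h * b - (|k| : ℤ) * Y) / p) - j ≤ 1 - m * s ∧
        2 * |m * ((-h * a - (|k| : ℤ) * X) / p) - i| - (m * ((-h * b - (|k| : ℤ) * Y) / p) - j) ≤
        1 - m * s) := by
    rintro m hm1 hm2 i j ⟨hle, hle'⟩
    have hm2' : (m : ℝ) ≤ 2 := by exact_mod_cast hm2
    have hpos : 0 < 1 - m * s := by nlinarith
    refine p_PLT_core P p a b c hP hcrit h k hh hs hdvd X Y e hXY he m hm1 (by omega) i j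
      ((m * ((-h * a - (|k| : ℤ) * X) / p) - i) / (1 - m * s))
      ((m * ((-h * b - (|k| : ℤ) * Y) / p) - j) / (1 - m * s)) ?_ ?_ ?_
    · apply p_PLT_hull P hP h1 h2 h3
      · rw [div_le_one hpos]
        exact hle
      · rw [abs_div, abs_of_pos hpos, mul_div_assoc', ← sub_div, div_le_one hpos]
        exact hle'
    · have e1 : (p : ℝ) - m * (h + (|k| : ℤ)) = p * (1 - m * s) := by
        rw [← hsp]
        ring
      rw [e1]
      field_simp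
    · have e1 : (p : ℝ) - m * (h + (|k| : ℤ)) = p * (1 - m * s) := by
        rw [← hsp]
        ring
      rw [e1]
      field_simp
  obtain ⟨i, j, v₁, v₂, hx, hy, hv, hv'⟩ := h_holeT ((-h * a - (|k| : ℤ) * X) / p)
    ((-h * b - (|k| : ℤ) * Y) / p) (1 - s) (by
      intro i j hle
      have := claim 1 le_rfl (by norm_num) i j
      rw [Nat.cast_one, one_mul, one_mul, one_mul] at this
      exact this hle)
  refine claim 2 (by norm_num) le_rfl (2 * i + 1) (2 * j) ?_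
  rw [hx, hy]
  push_cast
  have e1 : 2 * ((i : ℝ) + 1 / 2 + v₁) - (2 * i + 1) = 2 * v₁ := by ring
  have e2 : 2 * ((j : ℝ) + v₂) - (2 * j) = 2 * v₂ := by ring
  rw [e1, e2, abs_mul, abs_two]
  have a0 := abs_nonneg v₁
  constructor
  · linarith
  · linarith

end Pool.Agent.Lib.MP_0bc52e_nt.T
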