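import Pool.Agent.Lib.MP_0bc52e_nt.T.StmN

/-!
# MP_0bc52e_nt, T163, piece WT
-/

namespace Pool.Agent.Lib.MP_0bc52e_nt.T

open Pool.Agent.Lib.MP_0bc52e_nt.LC

private theorem p_WT_fl (D x : ℤ) (hD : 0 < D) (hx : 0 ≤ x) (hx2 : x < 2 * D) :
    (x / D = 0 ∧ x < D) ∨ (x / D = 1 ∧ D ≤ x) := by
  rcases lt_or_ge x D with h | h
  · exact Or.inl ⟨Int.ediv_eq_zero_of_lt hx h, h⟩
  · refine Or.inr ⟨?_, h⟩
    rw [Int.ediv_eq_iff_of_pos hD]
    constructor <;> linarith

private theorem p_WT_core1 (b c d D : ℤ) (hb : 0 < b) (hc : 0 < c) (hd : 0 < d)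
    (hD : D = 1 + b + c + d) (h11 : 11 ≤ D)
    (h1 : D ≤ 4 * c) (h2 : 3 * c < D) (h3 : D ≤ 3 * d) (h4 : 2 * d < D) :
    2 * D ^ 3 < 163 * (1 * b * c * d) := by
  have hA : 0 ≤ 4 * c - D := by linarith
  have hB : 0 < D - 3 * c := by linarith
  have hE : 0 ≤ 3 * d - D := by linarith
  have hG : 0 < D - 2 * d := by linarith
  have e1 : 0 ≤ d * ((4 * c - D) * (D - 3 * c)) :=
    mul_nonneg hd.le (mul_nonneg hA hB.le)
  have e2 : 0 ≤ c * ((3 * d - D) * (D - 2 * d)) :=
    mul_nonneg hc.le (mul_nonneg hE hG.le)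
  have e3 : 0 < (527 * D - 1956) * ((D - 3 * c) * (D - 2 * d)) :=
    mul_pos (by linarith) (mul_pos hB hG)
  have e4 : 0 ≤ (297 * D - 1956) * ((D - 3 * c) * (3 * d - D)) :=
    mul_nonneg (by linarith) (mul_nonneg hB.le hE)
  have e5 : 0 ≤ (436 * D - 1956) * ((4 * c - D) * (D - 2 * d)) :=
    mul_nonneg (by linarith) (mul_nonneg hA hG.le)
  have e6 : 0 ≤ (182 * D - 1956) * ((4 * c - D) * (3 * d - D)) :=
    mul_nonneg (by linarith) (mul_nonneg hA hE)
  have hbb : b = D - 1 - c - d := by linarith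
  have key : 12 * (163 * (1 * b * c * d)) - 24 * D ^ 3 =
      163 * (d * ((4 * c - D) * (D - 3 * c))) + 326 * (c * ((3 * d - D) * (D - 2 * d))) +
      (527 * D - 1956) * ((D - 3 * c) * (D - 2 * d)) +
      (297 * D - 1956) * ((D - 3 * c) * (3 * d - D)) +
      (436 * D - 1956) * ((4 * c - D) * (D - 2 * d)) +
      (182 * D - 1956) * ((4 * c - D) * (3 * d - D)) := by
    rw [hbb]
    ring
  linarith

private theorem p_WT_core (a b c d : ℤ) (ha : 0 < a) (hb : 0 < b) (hc : 0 < c) (hd : 0 < d)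
    (h6 : 6 ≤ a + b + c + d) (hab : a ≤ b) (h4b : 4 * b < a + b + c + d)
    (h1 : a + b + c + d ≤ 4 * c) (h2 : 3 * c < a + b + c + d) (h3 : a + b + c + d ≤ 3 * d)
    (h4 : 2 * d < a + b + c + d) :
    2 * (a + b + c + d) ^ 3 < 163 * (a * b * c * d) := by
  rcases lt_or_ge a 2 with h | h
  · have ha1 : a = 1 := by omega
    subst ha1
    rcases lt_or_ge (1 + b + c + d) 11 with h11 | h11
    · generalize hD : 1 + b + c + d = D at h6 h4b h1 h2 h3 h4 h11 ⊢
      interval_cases D
      · omega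
      · have hc2 : c = 2 := by omega
        have hd2 : d = 3 := by omega
        have hb2 : b = 1 := by omega
        subst hc2 hd2 hb2
        norm_num
      · omega
      · omega
      · have hc2 : c = 3 := by omega
        have hd2 : d = 4 := by omega
        have hb2 : b = 2 := by omega
        subst hc2 hd2 hb2
        norm_num
    · exact p_WT_core1 b c d _ hb hc hd rfl h11 h1 h2 h3 h4
  · generalize hD : a + b + c + d = D at h6 h4b h1 h2 h3 h4 ⊢
    have h12 : D < 12 * b := by omega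
    have hD0 : 0 < D := by omega
    have f1 : D * D ≤ (4 * c) * (3 * d) := mul_le_mul h1 h3 hD0.le (by positivity)
    have f2 : D * (D * D) < (12 * b) * ((4 * c) * (3 * d)) :=
      mul_lt_mul h12 f1 (by positivity) (by positivity)
    have f3 : 2 * (b * (c * d)) ≤ a * (b * (c * d)) :=
      mul_le_mul_of_nonneg_right h (by positivity)
    have f4 : 0 < b * (c * d) := by positivity
    nlinarith

theorem p_WT : S_WT := by
  intro w₀ w₁ w₂ w₃ h0 h1 h2 h3 hj
  have c1 : ∀ a b c d : ℤ, 0 < a → 0 < b → 0 < c → 0 < d →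
      6 ≤ a + b + c + d → 4 * a < a + b + c + d → 4 * b < a + b + c + d →
      a + b + c + d ≤ 4 * c → 3 * c < a + b + c + d → a + b + c + d ≤ 3 * d →
      2 * d < a + b + c + d → 2 * (a + b + c + d) ^ 3 < 163 * (a * b * c * d) := by
    intro a b c d ha hb hc hd h6 h4a h4b g1 g2 g3 g4
    rcases le_total a b with h | h
    · exact p_WT_core a b c d ha hb hc hd h6 h h4b g1 g2 g3 g4
    · have := p_WT_core b a c d hb ha hc hd (by linarith) h (by linarith) (by linarith)
        (by linarith) (by linarith) (by linarith)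
      linarith
  obtain ⟨D, hD⟩ : ∃ D, D = w₀ + w₁ + w₂ + w₃ := ⟨_, rfl⟩
  rcases lt_or_ge D 6 with hlt | h6
  · have hj2 := hj 2 le_rfl
    rw [← hD] at hj2 ⊢
    have hD4 : 4 ≤ D := by omega
    interval_cases D
    · have e0 : w₀ = 1 := by omega
      have e1 : w₁ = 1 := by omega
      have e2 : w₂ = 1 := by omega
      have e3 : w₃ = 1 := by omega
      subst e0 e1 e2 e3
      norm_num
    · have e : (w₀ = 2 ∧ w₁ = 1 ∧ w₂ = 1 ∧ w₃ = 1) ∨ (w₀ = 1 ∧ w₁ = 2 ∧ w₂ = 1 ∧ w₃ = 1) ∨
          (w₀ = 1 ∧ w₁ = 1 ∧ w₂ = 2 ∧ w₃ = 1) ∨ (w₀ = 1 ∧ w₁ = 1 ∧ w₂ = 1 ∧ w₃ = 2) := by omega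
      rcases e with ⟨e0, e1, e2, e3⟩ | ⟨e0, e1, e2, e3⟩ | ⟨e0, e1, e2, e3⟩ | ⟨e0, e1, e2, e3⟩ <;>
        subst e0 e1 e2 e3 <;> norm_num
  · have hj2 := hj 2 le_rfl (by omega)
    have hj3 := hj 3 (by norm_num) (by omega)
    have hj4 := hj 4 (by norm_num) (by omega)
    rw [← hD] at hj2 hj3 hj4
    have hD0 : 0 < D := by omega
    have two : ∀ w : ℤ, 0 < w → w < D → w * 2 / D = 0 → 2 * w < D := by
      intro w hw hwD hq
      rcases p_WT_fl D (w * 2) hD0 (by omega) (by omega) with h | h
      · omega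
      · omega
    have q0 : 0 ≤ w₀ * 2 / D := Int.ediv_nonneg (by omega) hD0.le
    have q1 : 0 ≤ w₁ * 2 / D := Int.ediv_nonneg (by omega) hD0.le
    have q2 : 0 ≤ w₂ * 2 / D := Int.ediv_nonneg (by omega) hD0.le
    have q3 : 0 ≤ w₃ * 2 / D := Int.ediv_nonneg (by omega) hD0.le
    have t0 := two w₀ h0 (by omega) (by omega)
    have t1 := two w₁ h1 (by omega) (by omega)
    have t2 := two w₂ h2 (by omega) (by omega)
    have t3 := two w₃ h3 (by omega) (by omega)
    clear q0 q1 q2 q3 hj2 two hj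
    have a0 := p_WT_fl D (w₀ * 3) hD0 (by omega) (by omega)
    have a1 := p_WT_fl D (w₁ * 3) hD0 (by omega) (by omega)
    have a2 := p_WT_fl D (w₂ * 3) hD0 (by omega) (by omega)
    have a3 := p_WT_fl D (w₃ * 3) hD0 (by omega) (by omega)
    have b0 := p_WT_fl D (w₀ * 4) hD0 (by omega) (by omega)
    have b1 := p_WT_fl D (w₁ * 4) hD0 (by omega) (by omega)
    have b2 := p_WT_fl D (w₂ * 4) hD0 (by omega) (by omega)
    have b3 := p_WT_fl D (w₃ * 4) hD0 (by omega) (by omega)
    generalize w₀ * 3 / D = A0 at *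
    generalize w₁ * 3 / D = A1 at *
    generalize w₂ * 3 / D = A2 at *
    generalize w₃ * 3 / D = A3 at *
    generalize w₀ * 4 / D = B0 at *
    generalize w₁ * 4 / D = B1 at *
    generalize w₂ * 4 / D = B2 at *
    generalize w₃ * 4 / D = B3 at *
    rcases a0 with ⟨a0, a0'⟩ | ⟨a0, a0'⟩ <;> rcases a1 with ⟨a1, a1'⟩ | ⟨a1, a1'⟩ <;>
      rcases a2 with ⟨a2, a2'⟩ | ⟨a2, a2'⟩ <;> rcases a3 with ⟨a3, a3'⟩ | ⟨a3, a3'⟩ <;>
      first
      | (exfalso; omega)
      | (rcases b0 with ⟨b0, b0'⟩ | ⟨b0, b0'⟩ <;> rcases b1 with ⟨b1, b1'⟩ | ⟨b1, b1'⟩ <;>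
          rcases b2 with ⟨b2, b2'⟩ | ⟨b2, b2'⟩ <;> rcases b3 with ⟨b3, b3'⟩ | ⟨b3, b3'⟩ <;>
          first
          | (exfalso; omega)
          | (have := c1 w₀ w₁ w₂ w₃ (by omega) (by omega) (by omega) (by omega) (by omega)
              (by omega) (by omega) (by omega) (by omega) (by omega) (by omega); linarith)
          | (have := c1 w₀ w₁ w₃ w₂ (by omega) (by omega) (by omega) (by omega) (by omega)
              (by omega) (by omega) (by omega) (by omega) (by omega) (by omega); linarith)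
          | (have := c1 w₀ w₂ w₁ w₃ (by omega) (by omega) (by omega) (by omega) (by omega)
              (by omega) (by omega) (by omega) (by omega) (by omega) (by omega); linarith)
          | (have := c1 w₀ w₂ w₃ w₁ (by omega) (by omega) (by omega) (by omega) (by omega)
              (by omega) (by omega) (by omega) (by omega) (by omega) (by omega); linarith)
          | (have := c1 w₀ w₃ w₁ w₂ (by omega) (by omega) (by omega) (by omega) (by omega)
              (by omega) (by omega) (by omega) (by omega) (by omega) (by omega); linarith)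
          | (have := c1 w₀ w₃ w₂ w₁ (by omega) (by omega) (by omega) (by omega) (by omega)
              (by omega) (by omega) (by omega) (by omega) (by omega) (by omega); linarith)
          | (have := c1 w₁ w₂ w₀ w₃ (by omega) (by omega) (by omega) (by omega) (by omega)
              (by omega) (by omega) (by omega) (by omega) (by omega) (by omega); linarith)
          | (have := c1 w₁ w₂ w₃ w₀ (by omega) (by omega) (by omega) (by omega) (by omega)
              (by omega) (by omega) (by omega) (by omega) (by omega) (by omega); linarith)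
          | (have := c1 w₁ w₃ w₀ w₂ (by omega) (by omega) (by omega) (by omega) (by omega)
              (by omega) (by omega) (by omega) (by omega) (by omega) (by omega); linarith)
          | (have := c1 w₁ w₃ w₂ w₀ (by omega) (by omega) (by omega) (by omega) (by omega)
              (by omega) (by omega) (by omega) (by omega) (by omega) (by omega); linarith)
          | (have := c1 w₂ w₃ w₀ w₁ (by omega) (by omega) (by omega) (by omega) (by omega)
              (by omega) (by omega) (by omega) (by omega) (by omega) (by omega); linarith)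
          | (have := c1 w₂ w₃ w₁ w₀ (by omega) (by omega) (by omega) (by omega) (by omega)
              (by omega) (by omega) (by omega) (by omega) (by omega) (by omega); linarith))

end Pool.Agent.Lib.MP_0bc52e_nt.T
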