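import Pool.Agent.Lib.MP_0bc52e_nt.T.StmN

/-! MP_0bc52e_nt, piece [TN floor] (helper35). -/

namespace Pool.Agent.Lib.MP_0bc52e_nt.T

open Pool.Agent.Lib.MP_0bc52e_nt.LC

private lemma p_floor_dvd (D j w₀ w₁ w₂ w₃ e₀ e₁ e₂ e₃ : ℤ) (he : e₀ * w₀ + e₁ * w₁ + e₂ * w₂ + e₃ * w₃ = 1)
    (h0 : D ∣ w₀ * j) (h1 : D ∣ w₁ * j) (h2 : D ∣ w₂ * j) (h3 : D ∣ w₃ * j) : D ∣ j := by
  have : j = e₀ * (w₀ * j) + e₁ * (w₁ * j) + e₂ * (w₂ * j) + e₃ * (w₃ * j) := by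
    linear_combination (-j) * he
  rw [this]
  exact dvd_add (dvd_add (dvd_add (h0.mul_left _) (h1.mul_left _)) (h2.mul_left _)) (h3.mul_left _)

private lemma p_floor_core (v₀ v₁ v₂ v₃ : ℤ × ℤ × ℤ) (d₀ d₁ d₂ d₃ g w₀ w₁ w₂ w₃ : ℤ)
    (hQ : QD v₀ v₁ v₂ v₃ d₀ d₁ d₂ d₃) (hg : 0 < g) (h0 : d₀ = g * w₀) (h1 : d₁ = g * w₁)
    (h2 : d₂ = g * w₂) (h3 : d₃ = g * w₃) (e₀ e₁ e₂ e₃ : ℤ)
    (he : e₀ * w₀ + e₁ * w₁ + e₂ * w₂ + e₃ * w₃ = 1)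
    (hX : ∀ (X : ℤ × ℤ × ℤ) (x₀ x₁ x₂ x₃ : ℝ), 0 ≤ x₀ → 0 ≤ x₁ → 0 ≤ x₂ → 0 ≤ x₃ → x₀ < 1 → x₁ < 1 →
      x₂ < 1 → x₃ < 1 → x₀ + x₁ + x₂ + x₃ = 1 →
      ip X = x₀ • ip v₀ + x₁ • ip v₁ + x₂ • ip v₂ + x₃ • ip v₃ → X = 0)
    (D : ℤ) (hD : D = w₀ + w₁ + w₂ + w₃) (j q₀ q₁ q₂ q₃ r₀ r₁ r₂ r₃ : ℤ) (hj : 2 ≤ j) (hjD : j < D)
    (k0 : w₀ * j = D * q₀ + r₀) (k1 : w₁ * j = D * q₁ + r₁) (k2 : w₂ * j = D * q₂ + r₂)
    (k3 : w₃ * j = D * q₃ + r₃) (p0 : 0 ≤ r₀) (p1 : 0 ≤ r₁) (p2 : 0 ≤ r₂) (p3 : 0 ≤ r₃)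
    (l0 : r₀ < D) (l1 : r₁ < D) (l2 : r₂ < D) (l3 : r₃ < D) (hs : r₀ + r₁ + r₂ + r₃ = D) : False := by
  obtain ⟨a0, b0, c0⟩ := v₀
  obtain ⟨a1, b1, c1⟩ := v₁
  obtain ⟨a2, b2, c2⟩ := v₂
  obtain ⟨a3, b3, c3⟩ := v₃
  obtain ⟨i0, i1, i2, i3, j0, j1, j2, j3⟩ := hQ
  simp only [det3] at i0 i1 i2 i3
  have hDpos : 0 < D := by omega
  have hg' : g ≠ 0 := hg.ne'
  have ra : w₀ * a0 + w₁ * a1 + w₂ * a2 + w₃ * a3 = 0 := by
    apply mul_left_cancel₀ hg'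
    have : d₀ * a0 + d₁ * a1 + d₂ * a2 + d₃ * a3 = 0 := by rw [i0, i1, i2, i3]; ring
    rw [h0, h1, h2, h3] at this
    linear_combination this
  have rb : w₀ * b0 + w₁ * b1 + w₂ * b2 + w₃ * b3 = 0 := by
    apply mul_left_cancel₀ hg'
    have : d₀ * b0 + d₁ * b1 + d₂ * b2 + d₃ * b3 = 0 := by rw [i0, i1, i2, i3]; ring
    rw [h0, h1, h2, h3] at this
    linear_combination this
  have rc : w₀ * c0 + w₁ * c1 + w₂ * c2 + w₃ * c3 = 0 := by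
    apply mul_left_cancel₀ hg'
    have : d₀ * c0 + d₁ * c1 + d₂ * c2 + d₃ * c3 = 0 := by rw [i0, i1, i2, i3]; ring
    rw [h0, h1, h2, h3] at this
    linear_combination this
  have hDR : (0 : ℝ) < D := by exact_mod_cast hDpos
  have key := hX (-(q₀ * a0 + q₁ * a1 + q₂ * a2 + q₃ * a3), -(q₀ * b0 + q₁ * b1 + q₂ * b2 + q₃ * b3),
    -(q₀ * c0 + q₁ * c1 + q₂ * c2 + q₃ * c3)) ((r₀ : ℝ) / D) ((r₁ : ℝ) / D) ((r₂ : ℝ) / D) ((r₃ : ℝ) / D)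
    (div_nonneg (by exact_mod_cast p0) hDR.le) (div_nonneg (by exact_mod_cast p1) hDR.le)
    (div_nonneg (by exact_mod_cast p2) hDR.le) (div_nonneg (by exact_mod_cast p3) hDR.le)
    ((div_lt_one hDR).2 (by exact_mod_cast l0)) ((div_lt_one hDR).2 (by exact_mod_cast l1))
    ((div_lt_one hDR).2 (by exact_mod_cast l2)) ((div_lt_one hDR).2 (by exact_mod_cast l3))
    (by
      rw [← add_div, ← add_div, ← add_div, div_eq_one_iff_eq hDR.ne']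
      exact_mod_cast hs)
    (by
      have k0' : (w₀ : ℝ) * j = D * q₀ + r₀ := by exact_mod_cast k0
      have k1' : (w₁ : ℝ) * j = D * q₁ + r₁ := by exact_mod_cast k1
      have k2' : (w₂ : ℝ) * j = D * q₂ + r₂ := by exact_mod_cast k2
      have k3' : (w₃ : ℝ) * j = D * q₃ + r₃ := by exact_mod_cast k3
      have ra' : (w₀ : ℝ) * a0 + w₁ * a1 + w₂ * a2 + w₃ * a3 = 0 := by exact_mod_cast ra
      have rb' : (w₀ : ℝ) * b0 + w₁ * b1 + w₂ * b2 + w₃ * b3 = 0 := by exact_mod_cast rb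
      have rc' : (w₀ : ℝ) * c0 + w₁ * c1 + w₂ * c2 + w₃ * c3 = 0 := by exact_mod_cast rc
      simp only [ip, Prod.smul_mk, Prod.mk_add_mk, smul_eq_mul, Prod.mk.injEq]
      push_cast
      refine ⟨?_, ?_, ?_⟩
      · field_simp
        linear_combination (-(j : ℝ)) * ra' + a0 * k0' + a1 * k1' + a2 * k2' + a3 * k3'
      · field_simp
        linear_combination (-(j : ℝ)) * rb' + b0 * k0' + b1 * k1' + b2 * k2' + b3 * k3'
      · field_simp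
        linear_combination (-(j : ℝ)) * rc' + c0 * k0' + c1 * k1' + c2 * k2' + c3 * k3')
  simp only [Prod.mk_eq_zero, neg_eq_zero] at key
  obtain ⟨xa, xb, xc⟩ := key
  have sa : r₀ * a0 + r₁ * a1 + r₂ * a2 + r₃ * a3 = 0 := by
    linear_combination j * ra - D * xa - a0 * k0 - a1 * k1 - a2 * k2 - a3 * k3
  have sb : r₀ * b0 + r₁ * b1 + r₂ * b2 + r₃ * b3 = 0 := by
    linear_combination j * rb - D * xb - b0 * k0 - b1 * k1 - b2 * k2 - b3 * k3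
  have sc : r₀ * c0 + r₁ * c1 + r₂ * c2 + r₃ * c3 = 0 := by
    linear_combination j * rc - D * xc - c0 * k0 - c1 * k1 - c2 * k2 - c3 * k3
  have t1 : r₁ * d₀ = r₀ * d₁ := by
    rw [i0, i1]
    linear_combination (b2 * c3 - c2 * b3) * sa - (a2 * c3 - c2 * a3) * sb + (a2 * b3 - b2 * a3) * sc
  have t2 : r₂ * d₀ = r₀ * d₂ := by
    rw [i0, i2]
    linear_combination -(b1 * c3 - c1 * b3) * sa + (a1 * c3 - c1 * a3) * sb - (a1 * b3 - b1 * a3) * sc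
  have t3 : r₃ * d₀ = r₀ * d₃ := by
    rw [i0, i3]
    linear_combination (b1 * c2 - c1 * b2) * sa - (a1 * c2 - c1 * a2) * sb + (a1 * b2 - b1 * a2) * sc
  rw [h0, h1] at t1
  rw [h0, h2] at t2
  rw [h0, h3] at t3
  have t1' : r₁ * w₀ = r₀ * w₁ := mul_left_cancel₀ hg' (by linear_combination t1)
  have t2' : r₂ * w₀ = r₀ * w₂ := mul_left_cancel₀ hg' (by linear_combination t2)
  have t3' : r₃ * w₀ = r₀ * w₃ := mul_left_cancel₀ hg' (by linear_combination t3)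
  have w0pos : w₀ ≠ 0 := by
    intro h
    rw [h0, h] at j0
    simp at j0
  have e0 : r₀ = w₀ := mul_left_cancel₀ hDpos.ne' (by
    linear_combination w₀ * hs + r₀ * hD - t1' - t2' - t3')
  have e1 : r₁ = w₁ := mul_left_cancel₀ w0pos (by rw [e0] at t1'; linear_combination t1')
  have e2 : r₂ = w₂ := mul_left_cancel₀ w0pos (by rw [e0] at t2'; linear_combination t2')
  have e3 : r₃ = w₃ := mul_left_cancel₀ w0pos (by rw [e0] at t3'; linear_combination t3')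
  have dv : D ∣ j - 1 := p_floor_dvd D (j - 1) w₀ w₁ w₂ w₃ e₀ e₁ e₂ e₃ he
    ⟨q₀, by linear_combination k0 + e0⟩ ⟨q₁, by linear_combination k1 + e1⟩
    ⟨q₂, by linear_combination k2 + e2⟩ ⟨q₃, by linear_combination k3 + e3⟩
  have := Int.le_of_dvd (by omega) dv
  omega

theorem p_floor : S_floor := by
  intro v₀ v₁ v₂ v₃ d₀ d₁ d₂ d₃ g w₀ w₁ w₂ w₃ hQ hg h0 h1 h2 h3 hco hX j hj2 hjD
  obtain ⟨e₀, e₁, e₂, e₃, he⟩ := hco
  obtain ⟨D, hD⟩ : ∃ D, D = w₀ + w₁ + w₂ + w₃ := ⟨_, rfl⟩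
  have core := p_floor_core v₀ v₁ v₂ v₃ d₀ d₁ d₂ d₃ g w₀ w₁ w₂ w₃ hQ hg h0 h1 h2 h3 e₀ e₁ e₂ e₃ he hX D hD
  rw [← hD] at hjD ⊢
  have hDpos : 0 < D := by omega
  have m0 := Int.emod_nonneg (w₀ * j) hDpos.ne'
  have m1 := Int.emod_nonneg (w₁ * j) hDpos.ne'
  have m2 := Int.emod_nonneg (w₂ * j) hDpos.ne'
  have m3 := Int.emod_nonneg (w₃ * j) hDpos.ne'
  have n0 := Int.emod_lt_of_pos (w₀ * j) hDpos
  have n1 := Int.emod_lt_of_pos (w₁ * j) hDpos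
  have n2 := Int.emod_lt_of_pos (w₂ * j) hDpos
  have n3 := Int.emod_lt_of_pos (w₃ * j) hDpos
  have k0 := (Int.mul_ediv_add_emod (w₀ * j) D).symm
  have k1 := (Int.mul_ediv_add_emod (w₁ * j) D).symm
  have k2 := (Int.mul_ediv_add_emod (w₂ * j) D).symm
  have k3 := (Int.mul_ediv_add_emod (w₃ * j) D).symm
  generalize w₀ * j % D = r₀ at *
  generalize w₁ * j % D = r₁ at *
  generalize w₂ * j % D = r₂ at *
  generalize w₃ * j % D = r₃ at *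
  generalize w₀ * j / D = q₀ at *
  generalize w₁ * j / D = q₁ at *
  generalize w₂ * j / D = q₂ at *
  generalize w₃ * j / D = q₃ at *
  have hsum : r₀ + r₁ + r₂ + r₃ = D * (j - (q₀ + q₁ + q₂ + q₃)) := by
    linear_combination -k0 - k1 - k2 - k3 - j * hD
  obtain ⟨s, hs⟩ : ∃ s, s = j - (q₀ + q₁ + q₂ + q₃) := ⟨_, rfl⟩
  rw [← hs] at hsum
  have s0 : 0 ≤ s := by
    by_contra h
    have : D * s < 0 := mul_neg_of_pos_of_neg hDpos (by omega)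
    omega
  have s4 : s < 4 := by
    by_contra h
    have : D * 4 ≤ D * s := mul_le_mul_of_nonneg_left (by omega) hDpos.le
    omega
  have ne0 : s ≠ 0 := by
    intro h
    rw [h, mul_zero] at hsum
    have z0 : r₀ = 0 := by omega
    have z1 : r₁ = 0 := by omega
    have z2 : r₂ = 0 := by omega
    have z3 : r₃ = 0 := by omega
    have dv : D ∣ j := p_floor_dvd D j w₀ w₁ w₂ w₃ e₀ e₁ e₂ e₃ he
      ⟨q₀, by linear_combination k0 + z0⟩ ⟨q₁, by linear_combination k1 + z1⟩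
      ⟨q₂, by linear_combination k2 + z2⟩ ⟨q₃, by linear_combination k3 + z3⟩
    have := Int.le_of_dvd (by omega) dv
    omega
  have ne1 : s ≠ 1 := by
    intro h
    rw [h, mul_one] at hsum
    exact core j q₀ q₁ q₂ q₃ r₀ r₁ r₂ r₃ hj2 (by omega) k0 k1 k2 k3 m0 m1 m2 m3 n0 n1 n2 n3 hsum
  have ne3 : s ≠ 3 := by
    intro h
    rw [h] at hsum
    exact core (D - j) (w₀ - q₀ - 1) (w₁ - q₁ - 1) (w₂ - q₂ - 1) (w₃ - q₃ - 1) (D - r₀) (D - r₁) (D - r₂)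
      (D - r₃) (by omega) (by omega) (by linear_combination -k0) (by linear_combination -k1)
      (by linear_combination -k2) (by linear_combination -k3) (by omega) (by omega) (by omega) (by omega)
      (by omega) (by omega) (by omega) (by omega) (by omega)
  omega

end Pool.Agent.Lib.MP_0bc52e_nt.T
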