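import Pool.Agent.Lib.MP_0bc52e_nt.T.StmH

/-!
[TH lev1] The integer points at level one (MP_0bc52e_nt).
-/

namespace Pool.Agent.Lib.MP_0bc52e_nt.T

open Pool.Agent.Lib.MP_0bc52e_nt.LC

theorem p_lev1 : S_lev1 := by
  intro x₁ x₂ h1 h2 h3
  have a1 : -3 ≤ x₁ := by omega
  have a2 : x₁ ≤ 3 := by omega
  have a3 : -3 ≤ x₂ := by omega
  have a4 : x₂ ≤ 3 := by omega
  refine ⟨?_, ?_, ?_⟩
  · rintro ⟨⟨u, hu⟩, ⟨v, hv⟩⟩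
    simp only [Prod.mk.injEq]
    omega
  · rintro ⟨⟨u, hu⟩, ⟨v, hv⟩⟩
    simp only [Prod.mk.injEq]
    omega
  · rintro ⟨⟨u, hu⟩, ⟨v, hv⟩⟩
    simp only [Prod.mk.injEq]
    omega

end Pool.Agent.Lib.MP_0bc52e_nt.T
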