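import Pool.Agent.Lib.MP_0bc52e_nt.LC.StmB
import Pool.Agent.Lib.MP_0bc52e_nt.LC.StmC
import Pool.Agent.Lib.MP_0bc52e_nt.T.StmH

/-!
# MP_0bc52e_nt: piece main163
-/

open scoped Pointwise

namespace Pool.Agent.Lib.MP_0bc52e_nt.T

open Pool.Agent.Lib.MP_0bc52e_nt.LC

theorem p_main163 (h_T : S_T) (h_occ : LC.S_occ) (h_famcrit : LC.S_famcrit) (h_famint : LC.S_famint)
    (h_T3lp : LC.S_T3lp) (h_T3pc : LC.S_T3pc) (h_T3crit : LC.S_T3crit) (h_T3zeq : LC.S_T3zeq) : S_main163 := by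
  intro P hP hfull
  constructor
  · rintro ⟨h, hh, hocc⟩
    by_contra hcon
    push Not at hcon
    obtain ⟨nq, nF⟩ := hcon
    have hcr := hocc.weak.criterion hfull
    obtain ⟨p, hp, hph⟩ := Nat.exists_prime_and_dvd (show h ≠ 1 by omega)
    obtain ⟨k, rfl⟩ := hph
    have hk : 0 < k := Nat.pos_of_ne_zero (by rintro rfl; simp at hh)
    have hcp : Criterion P p := hcr.of_mul hk
    have hp158 : 157 < p := by
      by_contra hlt
      exact nq p hp (by omega) hcp
    have hp163 : 163 ≤ p := by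
      by_contra hlt
      push Not at hlt
      interval_cases p <;> first | omega | exact absurd hp (by norm_num)
    have nm : ¬ Miss2 P := fun hm => nq 2 Nat.prime_two (by norm_num) (criterion_two_iff.2 hm)
    obtain ⟨C, s, t, r1, r2, r3, r4⟩ := h_T (T3 P) p (h_T3lp P hP) (h_T3pc P nm) hp hp163
      (h_T3crit P p hcp)
    apply nF
    refine ⟨C, s, t, r1, ?_, r3, h_T3zeq P C s t r4⟩
    have hC0 : C ≠ 0 := by
      rintro rfl
      simp at r1
    have h1 : (p : ℤ) ≤ |C| := Int.le_of_dvd (abs_pos.2 hC0) ((dvd_abs _ _).2 r2)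
    have h2 : (163 : ℤ) ≤ p := by exact_mod_cast hp163
    linarith
  · rintro (⟨q, hq, _, hC⟩ | hF)
    · exact ⟨q, hq.one_lt, hC.occursAt hq.pos hP hfull⟩
    · obtain ⟨c, s, t, _, hc3, _, heq⟩ := hF
      have hn : 3 ≤ c.natAbs := by
        have : (3 : ℤ) ≤ (c.natAbs : ℤ) := by rwa [Int.natCast_natAbs]
        exact_mod_cast this
      refine ⟨c.natAbs, by omega, ?_⟩
      obtain ⟨f1, f2⟩ := h_famint c s t
      exact h_occ 3 P _ _ heq ((h_famcrit c s t c.natAbs (Int.natAbs_dvd.2 dvd_rfl)).occursAt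
        (by omega) f1 f2)

end Pool.Agent.Lib.MP_0bc52e_nt.T
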