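import Pool.Agent.Lib.MP_0bc52e_nt.T.StmN

/-!
# MP_0bc52e_nt, Theorem (T163): the piece sides
-/

namespace Pool.Agent.Lib.MP_0bc52e_nt.T

open Pool.Agent.Lib.MP_0bc52e_nt.LC

theorem p_sides : S_sides := by
  rintro P ⟨V, rfl⟩ ⟨v, hv, hv0⟩
  by_contra hcon
  push Not at hcon
  have hsub : convexHull ℝ (ip '' (V : Set (ℤ × ℤ × ℤ))) ⊆ {w : ℝ × ℝ × ℝ | w.2.2 ≤ 0} := by
    apply convexHull_min
    · rintro _ ⟨u, hu, rfl⟩
      have h1 := hcon u (subset_convexHull ℝ _ ⟨u, hu, rfl⟩)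
      have h2 : u.2.2 ≤ 0 := by omega
      change ((u.2.2 : ℤ) : ℝ) ≤ 0
      exact_mod_cast h2
    · intro a ha b hb s t hs ht _
      change (s • a + t • b).2.2 ≤ 0
      have ha' : a.2.2 ≤ 0 := ha
      have hb' : b.2.2 ≤ 0 := hb
      simp only [Prod.snd_add, Prod.smul_snd, smul_eq_mul]
      nlinarith [mul_nonneg hs (neg_nonneg.2 ha'), mul_nonneg ht (neg_nonneg.2 hb')]
  exact absurd (hsub hv) (not_le.2 hv0)

end Pool.Agent.Lib.MP_0bc52e_nt.T
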